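import Mathlib

/-!
Walks as lists, reachability inside a set, and Menger's theorem for finite digraphs.
-/

namespace Pool.Agent.Lib.MP_4f0fb4_co

variable {α : Type} {r : α → α → Prop}

inductive Wk (r : α → α → Prop) : α → α → List α → Prop
  | one (a : α) : Wk r a a [a]
  | cons {a b c : α} {l : List α} : r a b → Wk r b c l → Wk r a c (a :: l)

namespace Wk

theorem head_mem {a b : α} {l : List α} (h : Wk r a b l) : a ∈ l := by cases h <;> simp

theorem last_mem {a b : α} {l : List α} (h : Wk r a b l) : b ∈ l := by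
  induction h with
  | one a => simp
  | cons _ _ ih => simp [ih]

theorem eq_cons {a b : α} {l : List α} (h : Wk r a b l) : ∃ t, l = a :: t := by
  cases h <;> simp

theorem length_pos {a b : α} {l : List α} (h : Wk r a b l) : 0 < l.length :=
  List.length_pos_of_mem h.head_mem

theorem append {a b c d : α} {l l' : List α} (h : Wk r a b l) (hr : r b c) (h' : Wk r c d l') :
    Wk r a d (l ++ l') := by
  induction h with
  | one a => exact cons hr h'
  | cons h1 _ ih => exact cons h1 (ih hr)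

theorem trans {a b c : α} {l l' : List α} (h : Wk r a b l) (h' : Wk r b c (b :: l')) :
    Wk r a c (l ++ l') := by
  cases h' with
  | one => simpa using h
  | cons h1 h2 => exact h.append h1 h2

theorem mono {s : α → α → Prop} {a b : α} {l : List α} (h : Wk r a b l)
    (hs : ∀ x ∈ l, ∀ y ∈ l, r x y → s x y) : Wk s a b l := by
  induction h with
  | one a => exact one a
  | cons h1 h2 ih =>
    exact cons (hs _ (by simp) _ (by simp [h2.head_mem]) h1)
      (ih fun x hx y hy => hs x (by simp [hx]) y (by simp [hy]))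

theorem reverse (hs : ∀ x y, r x y → r y x) {a b : α} {l : List α} (h : Wk r a b l) :
    Wk r b a l.reverse := by
  induction h with
  | one a => exact one a
  | cons h1 _ ih => rw [List.reverse_cons]; exact ih.append (hs _ _ h1) (one _)

theorem split {a b x : α} {l₁ l₂ : List α} (h : Wk r a b (l₁ ++ x :: l₂)) :
    Wk r a x (l₁ ++ [x]) ∧ Wk r x b (x :: l₂) := by
  induction l₁ generalizing a with
  | nil =>
    obtain ⟨t, ht⟩ := h.eq_cons
    simp only [List.nil_append, List.cons.injEq] at ht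
    obtain ⟨rfl, -⟩ := ht
    exact ⟨one _, h⟩
  | cons y l ih =>
    generalize hl : y :: l ++ x :: l₂ = m at h
    cases h with
    | one => simp at hl
    | cons h1 h2 =>
      simp only [List.cons_append, List.cons.injEq] at hl
      obtain ⟨rfl, rfl⟩ := hl
      exact ⟨cons h1 (ih h2).1, (ih h2).2⟩

theorem dedup {a b : α} {l : List α} (h : Wk r a b l) :
    ∃ l', Wk r a b l' ∧ l'.Nodup ∧ ∀ v ∈ l', v ∈ l := by
  induction h with
  | one a => exact ⟨[a], one a, by simp, by simp⟩
  | @cons a b c l h1 _ ih =>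
    obtain ⟨l', h2, h3, h4⟩ := ih
    by_cases ha : a ∈ l'
    · obtain ⟨s, t, rfl⟩ := List.append_of_mem ha
      exact ⟨a :: t, h2.split.2, h3.of_append_right, fun v hv =>
        List.mem_cons_of_mem _ (h4 v (List.mem_append_right _ hv))⟩
    · exact ⟨a :: l', cons h1 h2, List.nodup_cons.2 ⟨ha, h3⟩, fun v hv => by
        rcases List.mem_cons.1 hv with rfl | hv
        · simp
        · simp [h4 v hv]⟩

end Wk

def Rch (r : α → α → Prop) (S : Set α) (a b : α) : Prop := ∃ l, Wk r a b l ∧ ∀ v ∈ l, v ∈ S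

namespace Rch

variable {S T : Set α} {a b c : α}

theorem left (h : Rch r S a b) : a ∈ S := let ⟨_, h1, h2⟩ := h; h2 _ h1.head_mem
theorem right (h : Rch r S a b) : b ∈ S := let ⟨_, h1, h2⟩ := h; h2 _ h1.last_mem
theorem refl (h : a ∈ S) : Rch r S a a := ⟨[a], Wk.one a, by simpa using h⟩

theorem step (h : Rch r S a b) (hr : r b c) {d : α} (h' : Rch r S c d) : Rch r S a d := by
  obtain ⟨l, h1, h2⟩ := h
  obtain ⟨l', h3, h4⟩ := h'
  exact ⟨l ++ l', h1.append hr h3, fun v hv => (List.mem_append.1 hv).elim (h2 v) (h4 v)⟩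

theorem tail (h : Rch r S a b) (hr : r b c) (hc : c ∈ S) : Rch r S a c := h.step hr (refl hc)

theorem ind {P : α → Prop} (h : Rch r S a b) (ha : P a)
    (hs : ∀ x y, P x → x ∈ S → y ∈ S → r x y → P y) : P b := by
  obtain ⟨l, h1, h2⟩ := h
  induction h1 with
  | one a => exact ha
  | cons h3 h4 ih =>
    exact ih (hs _ _ ha (h2 _ (by simp)) (h2 _ (by simp [h4.head_mem])) h3)
      fun v hv => h2 v (by simp [hv])

theorem trans (h : Rch r S a b) (h' : Rch r S b c) : Rch r S a c :=
  h'.ind h fun _ _ h1 _ h3 h4 => h1.tail h4 h3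

theorem mono' {s : α → α → Prop} (h : Rch r S a b) (hS : S ⊆ T)
    (hs : ∀ x ∈ S, ∀ y ∈ S, r x y → s x y) : Rch s T a b :=
  h.ind (P := fun x => Rch s T a x) (refl (hS h.left)) fun _ _ h1 h2 h3 h4 =>
    h1.tail (hs _ h2 _ h3 h4) (hS h3)

theorem mono (h : Rch r S a b) (hS : S ⊆ T) : Rch r T a b := h.mono' hS fun _ _ _ _ h => h

theorem symm (hs : ∀ x y, r x y → r y x) (h : Rch r S a b) : Rch r S b a := by
  obtain ⟨l, h1, h2⟩ := h
  exact ⟨l.reverse, h1.reverse hs, fun v hv => h2 v (List.mem_reverse.1 hv)⟩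

theorem flip (h : Rch r S a b) : Rch (fun x y => r y x) S b a :=
  h.ind (P := fun x => Rch (fun x y => r y x) S x a) (refl h.left) fun _ _ h1 _ h3 h4 =>
    (refl h3).step h4 h1

theorem path (h : Rch r S a b) : ∃ l, Wk r a b l ∧ l.Nodup ∧ ∀ v ∈ l, v ∈ S := by
  obtain ⟨l, h1, h2⟩ := h
  obtain ⟨l', h3, h4, h5⟩ := h1.dedup
  exact ⟨l', h3, h4, fun v hv => h2 v (h5 v hv)⟩

/-- The first vertex of `T` on the way. -/
theorem first (h : Rch r S a b) (hb : b ∈ T) :
    ∃ t ∈ T, t ∈ S ∧ (a = t ∨ ∃ u, Rch r (S \ T) a u ∧ r u t) := by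
  have := h.ind (P := fun x => (∃ t ∈ T, t ∈ S ∧ (a = t ∨ ∃ u, Rch r (S \ T) a u ∧ r u t)) ∨
      Rch r (S \ T) a x) (by
      by_cases ha : a ∈ T
      · exact Or.inl ⟨a, ha, h.left, Or.inl rfl⟩
      · exact Or.inr (refl ⟨h.left, ha⟩)) (by
      rintro x y (h1 | h1) _ h3 h4
      · exact Or.inl h1
      · by_cases hy : y ∈ T
        · exact Or.inl ⟨y, hy, h3, Or.inr ⟨x, h1, h4⟩⟩
        · exact Or.inr (h1.tail h4 ⟨h3, hy⟩))
  exact this.elim id fun h1 => (h1.right.2 hb).elim

end Rch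

/-- Trimming a route at the first vertex of `T`. -/
theorem trim {S T : Set α} {a b : α} (h : Rch r S a b) (hb : b ∈ T) :
    ∃ t ∈ T, ∃ S' ⊆ S, Rch r S' a t ∧ ∀ v ∈ S', v = t ∨ Rch r (S \ T) a v := by
  obtain ⟨t, ht, htS, h1⟩ := h.first hb
  refine ⟨t, ht, {v | v = t ∨ Rch r (S \ T) a v}, ?_, ?_, fun v hv => hv⟩
  · rintro v (rfl | hv)
    · exact htS
    · exact hv.right.1
  · rcases h1 with rfl | ⟨u, h1, h2⟩
    · exact Rch.refl (Or.inl rfl)
    · refine Rch.tail (b := u) ?_ h2 (Or.inl rfl)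
      have := h1.ind (P := fun x => Rch r (S \ T) a x ∧
        Rch r {v | v = t ∨ Rch r (S \ T) a v} a x)
        ⟨Rch.refl h1.left, Rch.refl (Or.inr (Rch.refl h1.left))⟩
        fun x y h3 _ h5 h6 => ⟨h3.1.tail h6 h5, h3.2.tail h6 (Or.inr (h3.1.tail h6 h5))⟩
      exact this.2

def Link (r : α → α → Prop) (A B : Set α) (k : ℕ) : Prop :=
  ∃ W : Fin k → Set α, (∀ i j, i ≠ j → Disjoint (W i) (W j)) ∧
    ∀ i, ∃ a ∈ A, ∃ b ∈ B, Rch r (W i) a b

def NoSep (r : α → α → Prop) (A B : Set α) (k : ℕ) : Prop :=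
  ∀ S : Finset α, S.card < k → ∃ a ∈ A, ∃ b ∈ B, Rch r (↑S : Set α)ᶜ a b

theorem link_onto {A : Set α} {T : Finset α} {k : ℕ} (hT : T.card = k) (h : Link r A T k) :
    ∃ W : α → Set α, (∀ t ∈ T, ∀ t' ∈ T, t ≠ t' → Disjoint (W t) (W t')) ∧
      ∀ t ∈ T, (∃ a ∈ A, Rch r (W t) a t ∧ ∀ v ∈ W t, v = t ∨ Rch r (↑T : Set α)ᶜ a v) := by
  classical
  obtain ⟨W, h1, h2⟩ := h
  choose a ha b hb hr using h2
  choose t ht S hS h3 h4 using fun i => trim (hr i) (hb i)
  have hinj : Function.Injective t := fun i j hij => by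
    by_contra hne
    exact Set.disjoint_left.1 (h1 i j hne) (hS i (h3 i).right) (hij ▸ hS j (h3 j).right)
  have hsur : ∀ x ∈ T, ∃ i, t i = x := by
    have : Finset.univ.image t = T := Finset.eq_of_subset_of_card_le
      (fun x hx => by obtain ⟨i, -, rfl⟩ := Finset.mem_image.1 hx; exact ht i)
      (by rw [Finset.card_image_of_injective _ hinj]; simp [hT])
    intro x hx
    rw [← this] at hx
    simpa using hx
  have e : ∀ i, {v | ∃ j, t j = t i ∧ v ∈ S j} = S i := fun i => by
    ext v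
    exact ⟨fun ⟨j, h5, h6⟩ => hinj h5 ▸ h6, fun h5 => ⟨i, rfl, h5⟩⟩
  refine ⟨fun x => {v | ∃ j, t j = x ∧ v ∈ S j}, fun x hx y hy hxy => ?_, fun x hx => ?_⟩
  · obtain ⟨i, rfl⟩ := hsur x hx
    obtain ⟨j, rfl⟩ := hsur y hy
    simp only [e]
    exact (h1 i j fun h => hxy (by rw [h])).mono (hS i) (hS j)
  · obtain ⟨i, rfl⟩ := hsur x hx
    simp only [e]
    exact ⟨a i, ha i, h3 i, fun v hv => (h4 i v hv).imp id fun h => h.mono fun _ h => h.2⟩

theorem Link.flip {A B : Set α} {k : ℕ} (h : Link r A B k) : Link (fun x y => r y x) B A k :=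
  let ⟨W, h1, h2⟩ := h
  ⟨W, h1, fun i => let ⟨a, ha, b, hb, h3⟩ := h2 i; ⟨b, hb, a, ha, h3.flip⟩⟩

theorem NoSep.flip {A B : Set α} {k : ℕ} (h : NoSep r A B k) : NoSep (fun x y => r y x) B A k :=
  fun S hS => let ⟨a, ha, b, hb, h3⟩ := h S hS; ⟨b, hb, a, ha, h3.flip⟩

theorem noSep_half {s : α → α → Prop} {A B : Set α} {k : ℕ} (h : NoSep r A B k) {x : α}
    {S T : Finset α} (hs : ∀ u v, r u v → s u v ∨ u = x) (hx : x ∈ T) (hST : S ⊆ T)
    (hS : ∀ a ∈ A, ∀ b ∈ B, ¬Rch s (↑S : Set α)ᶜ a b) : NoSep s A T k := by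
  intro U hU
  obtain ⟨a, ha, b, hb, h1⟩ := h U hU
  have := h1.ind (P := fun v => (∃ t ∈ (T : Set α), Rch s (↑U : Set α)ᶜ a t) ∨
      Rch s ((↑U : Set α)ᶜ \ T) a v) (by
      by_cases h2 : a ∈ T
      · exact Or.inl ⟨a, h2, Rch.refl h1.left⟩
      · exact Or.inr (Rch.refl ⟨h1.left, h2⟩)) (by
      rintro u v (h2 | h2) _ h4 h5
      · exact Or.inl h2
      · have h6 : s u v := (hs u v h5).resolve_right fun h => h2.right.2 (h ▸ hx)
        by_cases h7 : v ∈ T
        · exact Or.inl ⟨v, h7, (h2.mono fun _ h => h.1).tail h6 h4⟩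
        · exact Or.inr (h2.tail h6 ⟨h4, h7⟩))
  rcases this with ⟨t, ht, h2⟩ | h2
  · exact ⟨a, ha, t, ht, h2⟩
  · exact (hS a ha b hb (h2.mono fun v hv h => hv.2 (hST h))).elim

theorem menger_aux [Fintype α] (k : ℕ) (E : Finset (α × α)) : ∀ A B : Set α,
    NoSep (fun x y => (x, y) ∈ E) A B k → Link (fun x y => (x, y) ∈ E) A B k := by
  classical
  induction E using Finset.induction_on with
  | empty =>
    intro A B h
    have h1 : k ≤ (Finset.univ.filter fun v => v ∈ A ∧ v ∈ B).card := by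
      by_contra hc
      obtain ⟨a, ha, b, hb, h2⟩ := h _ (not_le.1 hc)
      have : a = b := h2.ind (P := fun v => a = v) rfl fun _ _ _ _ _ h => by simp at h
      subst this
      exact h2.left (by simp [ha, hb])
    obtain ⟨T, hT, rfl⟩ := Finset.exists_subset_card_eq h1
    refine ⟨fun i => {(T.equivFin.symm i).1}, fun i j hij => ?_, fun i => ?_⟩
    · rw [Set.disjoint_singleton]
      exact fun h => hij (T.equivFin.symm.injective (Subtype.ext h))
    · have := Finset.mem_filter.1 (hT (T.equivFin.symm i).2)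
      exact ⟨_, this.2.1, _, this.2.2, Rch.refl rfl⟩
  | insert e E _ ih =>
    obtain ⟨x, y⟩ := e
    intro A B h
    have hm : ∀ {S : Set α} {a b}, Rch (fun x y => (x, y) ∈ E) S a b →
        Rch (fun u v => (u, v) ∈ insert (x, y) E) S a b := fun h =>
      h.mono' subset_rfl fun _ _ _ _ h => Finset.mem_insert_of_mem h
    by_cases hc : NoSep (fun x y => (x, y) ∈ E) A B k
    · obtain ⟨W, h1, h2⟩ := ih A B hc
      exact ⟨W, h1, fun i => let ⟨a, ha, b, hb, h3⟩ := h2 i; ⟨a, ha, b, hb, hm h3⟩⟩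
    simp only [NoSep, not_forall, not_exists, not_and] at hc
    obtain ⟨S, hSk, hS⟩ := hc
    have hs1 : ∀ u v, (u, v) ∈ insert (x, y) E → (u, v) ∈ E ∨ u = x := fun u v h => by
      rcases Finset.mem_insert.1 h with h | h
      · exact Or.inr (congrArg Prod.fst h)
      · exact Or.inl h
    have hs2 : ∀ u v, (v, u) ∈ insert (x, y) E → (v, u) ∈ E ∨ u = y := fun u v h => by
      rcases Finset.mem_insert.1 h with h | h
      · exact Or.inr (congrArg Prod.snd h)
      · exact Or.inl h
    have n1 := noSep_half h hs1 (Finset.mem_insert_self x S) (Finset.subset_insert _ _) hS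
    have n2 := noSep_half h.flip hs2 (Finset.mem_insert_self y S) (Finset.subset_insert _ _)
      fun b hb a ha h => hS a ha b hb h.flip
    have card : ∀ z, NoSep (fun x y => (x, y) ∈ E) A ↑(insert z S) k ∨
        NoSep (fun x y => (y, x) ∈ E) B ↑(insert z S) k → (insert z S).card = k ∧ z ∉ S := by
      intro z hz
      have h1 : k ≤ (insert z S).card := by
        by_contra hc
        rcases hz with hz | hz <;>
        · obtain ⟨_, _, b, hb, h2⟩ := hz _ (not_le.1 hc)
          exact h2.right hb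
      have h2 : z ∉ S := fun h => by rw [Finset.insert_eq_of_mem h] at h1; omega
      rw [Finset.card_insert_of_notMem h2] at h1 ⊢
      exact ⟨by omega, h2⟩
    obtain ⟨c1, hx⟩ := card x (Or.inl n1)
    obtain ⟨c2, hy⟩ := card y (Or.inr n2)
    obtain ⟨P, p1, p2⟩ := link_onto c1 (ih _ _ n1)
    obtain ⟨Q, q1, q2⟩ := link_onto c2 (ih _ _ n2.flip).flip
    let φ : α → α := fun t => if t = x then y else t
    have hφ : ∀ t ∈ insert x S, φ t ∈ insert y S := fun t ht => by
      simp only [φ]; split_ifs with h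
      · simp
      · simp [(Finset.mem_insert.1 ht).resolve_left h]
    have hφi : ∀ t ∈ insert x S, ∀ t' ∈ insert x S, t ≠ t' → φ t ≠ φ t' := by
      intro t ht t' ht' hne
      simp only [φ]; split_ifs with h1 h2 h2
      · exact (hne (h1.trans h2.symm)).elim
      · rintro rfl; exact hy ((Finset.mem_insert.1 ht').resolve_left h2)
      · rintro rfl; exact hy ((Finset.mem_insert.1 ht).resolve_left h1)
      · exact hne
    have cross : ∀ t ∈ insert x S, ∀ t' ∈ insert x S, t ≠ t' → Disjoint (P t) (Q (φ t')) := by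
      intro t ht t' ht' hne
      rw [Set.disjoint_left]
      intro v hv hv'
      obtain ⟨a, ha, h1, h2⟩ := p2 t ht
      obtain ⟨b, hb, h3, h4⟩ := q2 _ (hφ t' ht')
      by_cases hvS : v ∈ S
      · have e1 : v = t := (h2 v hv).resolve_right fun h => h.right (by simp [hvS])
        have e2 : v = φ t' := (h4 v hv').resolve_right fun h => h.right (by simp [hvS])
        have : φ t = t := if_neg fun h : t = x => hx (by rw [← h, ← e1]; exact hvS)
        exact hφi t ht t' ht' hne (by rw [this, ← e1, ← e2])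
      · have key : ∀ {s : α → α → Prop} {W : Set α} {z a t : α}, Rch s W a t →
            (∀ w ∈ W, w = t ∨ Rch s (↑(insert z S) : Set α)ᶜ a w) → v ∈ W →
            Rch s (↑S : Set α)ᶜ a v := by
          intro s W z a t h1 h2 hv
          rcases h2 v hv with rfl | h
          · obtain ⟨t', rfl, -, rfl | ⟨u, h5, h6⟩⟩ := h1.first (T := {v}) rfl
            · exact Rch.refl hvS
            · exact (((h2 u h5.right.1).resolve_left h5.right.2).mono
                fun w hw h' => hw (Finset.mem_insert_of_mem h')).tail h6 hvS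
          · exact h.mono fun w hw h' => hw (Finset.mem_insert_of_mem h')
        exact hS a ha b hb ((key h1 h2 hv).trans (key h3 h4 hv').flip)
    subst c1
    let τ := fun i => ((insert x S).equivFin.symm i).1
    have hτ : ∀ i, τ i ∈ insert x S := fun i => ((insert x S).equivFin.symm i).2
    refine ⟨fun i => P (τ i) ∪ Q (φ (τ i)), fun i j hij => ?_, fun i => ?_⟩
    · have hne : τ i ≠ τ j := fun h => hij ((insert x S).equivFin.symm.injective (Subtype.ext h))
      simp only [Set.disjoint_union_left, Set.disjoint_union_right]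
      exact ⟨⟨p1 _ (hτ i) _ (hτ j) hne, (cross _ (hτ j) _ (hτ i) hne.symm).symm⟩,
        cross _ (hτ i) _ (hτ j) hne, q1 _ (hφ _ (hτ i)) _ (hφ _ (hτ j)) (hφi _ (hτ i) _ (hτ j) hne)⟩
    · obtain ⟨a, ha, h1, -⟩ := p2 _ (hτ i)
      obtain ⟨b, hb, h3, -⟩ := q2 _ (hφ _ (hτ i))
      have h1' := (hm h1).mono (Set.subset_union_left (t := Q (φ (τ i))))
      have h3' := (hm h3.flip).mono (Set.subset_union_right (s := P (τ i)))
      refine ⟨a, ha, b, hb, ?_⟩
      by_cases h : τ i = x
      · exact h1'.step (c := φ (τ i)) (by simp [φ, h]) h3'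
      · exact h1'.trans (by simpa only [φ, if_neg h] using h3')

theorem menger [Finite α] {A B : Set α} {k : ℕ} (h : NoSep r A B k) : Link r A B k := by
  classical
  have := Fintype.ofFinite α
  have e : r = fun x y => (x, y) ∈ Finset.univ.filter fun p : α × α => r p.1 p.2 := by
    funext x y; simp
  rw [e] at h ⊢
  exact menger_aux k _ A B h

end Pool.Agent.Lib.MP_4f0fb4_co
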