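import Pool.Agent.Lib.MP_4f0fb4_co.Exist

/-!
A longest cycle is long compared with `k` times the length of a path avoiding it.
-/

namespace Pool.Agent.Lib.MP_4f0fb4_co

open Finset

variable {V : Type} {r : V → V → Prop} {C : Set V}

structure Longest (r : V → V → Prop) (L : List V) : Prop where
  symm : ∀ x y, r x y → r y x
  cyc : Cyc r L
  max : ∀ l, Cyc r l → 3 ≤ l.length → l.length ≤ L.length

theorem exch {y y' : V} {s t : List V} (h : Cyc r (y :: s ++ y' :: t))
    (hC : ∀ v ∈ y :: s ++ y' :: t, v ∈ C)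
    (hm : ∀ l, Cyc r l → 3 ≤ l.length → l.length ≤ (y :: s ++ y' :: t).length) {q : ℝ}
    (hq : CP r C y y' q) : q ≤ s.length + 1 := by
  obtain ⟨m, ⟨u, m1, m2⟩, m3, m4, m5, m6⟩ := hq
  obtain ⟨e, e1, e2⟩ := h.arcs.2
  have := List.length_pos_iff.2 m4
  have h1 := hm (y :: m ++ y' :: t) ⟨?_, y, e, m1.append m2 e1, e2⟩ (by simp; omega)
  · have : m.length ≤ s.length := by simpa using h1
    have : (m.length : ℝ) ≤ s.length := by exact_mod_cast this
    linarith
  · have P : (y :: m ++ y' :: t).Perm (m ++ y :: y' :: t) := List.perm_middle.symm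
    refine P.nodup_iff.2 (List.nodup_append.2 ⟨m3, h.1.sublist (by simp), ?_⟩)
    rintro v h1 _ h2 rfl
    refine m5 v h1 (hC v ?_)
    simp only [List.mem_append, List.mem_cons] at h2 ⊢; tauto

theorem Longest.count {L : List V} (h : Longest r L) {Y : Finset V} (hY : ∀ y ∈ Y, y ∈ L)
    (h2 : 2 ≤ Y.card) {W : V → ℝ} {K : ℝ} (H : ∀ y ∈ Y, ∀ y' ∈ Y, y ≠ y' → ∀ q : ℝ,
      (∀ q', CP r {v | v ∈ L} y y' q' → q' ≤ q) → W y + W y' ≤ K * q) :
    2 * ∑ y ∈ Y, W y ≤ K * L.length := by
  classical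
  choose! l₁ l₂ hl using fun y (hy : y ∈ L) => List.append_of_mem hy
  let f := fun y => (l₁ y).length
  have pair : ∀ y ∈ Y, ∀ y' ∈ Y, y ≠ y' → f y ≤ f y' → W y + W y' ≤ K * (f y' - f y) ∧
      W y + W y' ≤ K * (L.length - (f y' - f y)) := by
    intro y hy y' hy' hne hf
    have e1 := hl y (hY y hy)
    have e2 := hl y' (hY y' hy')
    obtain ⟨s, hs⟩ : ∃ s, l₁ y' = l₁ y ++ y :: s := by
      rcases List.append_eq_append_iff.1 (e1.symm.trans e2) with ⟨a, a1, a2⟩ | ⟨a, a1, a2⟩
      · cases a with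
        | nil => exact (hne (by simpa using congrArg List.head? a2)).elim
        | cons x a => exact ⟨a, by rw [a1, show y = x by simpa using congrArg List.head? a2]⟩
      · cases a with
        | nil => exact (hne (by simpa [eq_comm] using congrArg List.head? a2)).elim
        | cons x a =>
          have := congrArg List.length a1
          simp only [f, List.length_append, List.length_cons] at this hf; omega
    have e3 : L = l₁ y ++ (y :: s ++ y' :: l₂ y') := by rw [e2, hs]; simp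
    have c1 : Cyc r (y :: s ++ y' :: (l₂ y' ++ l₁ y)) := by
      simpa using (show Cyc r (l₁ y ++ (y :: s ++ y' :: l₂ y')) from e3 ▸ h.cyc).rot
    have c2 : Cyc r (y' :: (l₂ y' ++ l₁ y) ++ y :: s) := c1.rot
    have hL := congrArg List.length e3
    have hs' := congrArg List.length hs
    simp only [List.length_append, List.length_cons] at hL hs'
    have r1 : (f y' : ℝ) - f y = s.length + 1 := by simp only [f, hs']; push_cast; ring
    have r2 : (L.length : ℝ) - (s.length + 1) = (l₂ y' ++ l₁ y).length + 1 := by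
      rw [hL, List.length_append]; push_cast; ring
    rw [r1, r2]
    refine ⟨H y hy y' hy' hne _ fun q hq => exch c1 (fun v hv => ?_) (fun l l1 l2 => ?_) hq,
      H y hy y' hy' hne _ fun q hq => exch c2 (fun v hv => ?_) (fun l l1 l2 => ?_) (hq.symm h.symm)⟩
    · rw [Set.mem_ofPred_eq, e3]
      simp only [List.mem_append, List.mem_cons] at hv ⊢; tauto
    · have := h.max l l1 l2
      simp only [List.length_append, List.length_cons]; omega
    · rw [Set.mem_ofPred_eq, e3]
      simp only [List.mem_append, List.mem_cons] at hv ⊢; tauto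
    · have := h.max l l1 l2
      simp only [List.length_append, List.length_cons]; omega
  have key : ∀ X : Finset V, X ⊆ Y → X.Nonempty → ∃ a ∈ X, ∃ e ∈ X,
      (∀ x ∈ X, f a ≤ f x ∧ f x ≤ f e) ∧ (2 ≤ X.card → a ≠ e) ∧
      2 * ∑ y ∈ X, W y ≤ W a + W e + K * (f e - f a) := by
    intro X
    induction X using Finset.induction_on_max_value f with
    | empty => simp
    | insert m X h3 h4 ih =>
      intro h5 _
      rcases X.eq_empty_or_nonempty with rfl | h6
      · exact ⟨m, by simp, m, by simp, by simp, by simp, by simp; linarith⟩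
      obtain ⟨a, a1, e, a2, a3, -, a4⟩ := ih ((subset_insert _ _).trans h5) h6
      have := (pair e (h5 (mem_insert_of_mem a2)) m (h5 (mem_insert_self _ _))
        (fun e' => h3 (e' ▸ a2)) (h4 e a2)).1
      refine ⟨a, mem_insert_of_mem a1, m, mem_insert_self _ _, fun x hx => ?_,
        fun _ e' => h3 (e' ▸ a1), by rw [sum_insert h3]; linarith⟩
      rcases mem_insert.1 hx with rfl | hx
      · exact ⟨h4 a a1, le_rfl⟩
      · exact ⟨(a3 x hx).1, h4 x hx⟩
  obtain ⟨a, a1, e, a2, a3, a4, a5⟩ := key Y Subset.rfl (card_pos.1 (by omega))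
  have := (pair a a1 e a2 (a4 h2) (a3 e a2).1).2
  linarith

theorem sum_gaps {nx : ℕ → ℕ} (J : Finset ℕ) {a e : ℕ} (hae : a ≤ e)
    (h1 : ∀ x ∈ J, a ≤ x ∧ nx x ≤ e) (h2 : ∀ x ∈ J, ∀ x' ∈ J, x < x' → nx x ≤ x') :
    ∑ x ∈ J, ((nx x : ℝ) - x) ≤ e - a := by
  induction J using Finset.induction_on_max generalizing e with
  | empty => simpa using hae
  | insert m J h3 ih =>
    have h4 := h1 m (mem_insert_self _ _)
    have := ih h4.1 (fun x hx => ⟨(h1 x (mem_insert_of_mem hx)).1,
      h2 x (mem_insert_of_mem hx) m (mem_insert_self _ _) (h3 x hx)⟩)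
      fun x hx x' hx' => h2 x (mem_insert_of_mem hx) x' (mem_insert_of_mem hx')
    have h5 : (nx m : ℝ) ≤ e := by exact_mod_cast h4.2
    rw [sum_insert fun hm => (h3 m hm).false]
    linarith

theorem Line.far {b : ℕ → V} {p : ℕ} (h : Line r C b p) {τ τ' σ σ' : ℕ} {M M' : Set V}
    {N N' : Finset V} {c c' : ℝ} (P : Piece r C b p τ τ' M N c) (P' : Piece r C b p σ σ' M' N' c')
    (hd : Disjoint M M') (hτ : τ' ≤ σ) {y y' : V} (hy : y ∈ N) (hy' : y' ∈ N') :
    CP r C y y' ((σ : ℝ) - τ') := by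
  obtain ⟨t, t1, t2⟩ := (P.acc y hy).2
  obtain ⟨t', t3, t4⟩ := (P'.acc y' hy').2
  refine cp_link (Z := {v | ∃ t < p, b t = v}) h.symm hd P.off P'.off t2 ⟨t, t1, rfl⟩ t4
    ⟨t', t3, rfl⟩ ?_
  rintro _ w1 ⟨i, i1, rfl⟩ _ w2 ⟨j, j1, rfl⟩
  have := P.win i i1 w1
  have := P'.win j j1 w2
  obtain ⟨m, m1, m2, m3, m4⟩ := h.seg_lt (show i < j by omega) j1
  refine ⟨_, m1.wk, ?_, fun v hv => ?_, ?_⟩
  · have P : (b i :: m ++ [b j]).Perm (m ++ [b i, b j]) := List.perm_middle.symm
    refine P.nodup_iff.2 (List.nodup_append.2 ⟨m2, ?_, ?_⟩)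
    · simpa using fun e => by have := h.inj i i1 j j1 e; omega
    · rintro v h1 _ h2 rfl
      obtain ⟨x, x1, x2, rfl⟩ := m3 v h1
      simp only [List.mem_cons, List.not_mem_nil, or_false] at h2
      rcases h2 with e | e <;> have := h.inj x (by omega) _ (by omega) e <;> omega
  · simp only [List.cons_append, List.mem_cons, List.mem_append, List.not_mem_nil, or_false] at hv
    rcases hv with rfl | hv | rfl
    · exact ⟨⟨i, i1, rfl⟩, h.off i i1⟩
    · obtain ⟨x, x1, x2, rfl⟩ := m3 v hv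
      exact ⟨⟨x, by omega, rfl⟩, h.off x (by omega)⟩
    · exact ⟨⟨j, j1, rfl⟩, h.off j j1⟩
  · have : (σ : ℝ) ≤ (m.length + τ' : ℕ) := by exact_mod_cast (by omega)
    simp only [List.length_append, List.length_cons, List.length_nil]
    push_cast at this ⊢; linarith

theorem Longest.bound [Finite V] {L : List V} (hL : Longest r L) {b : ℕ → V} {p : ℕ}
    (h : Line r {v | v ∈ L} b p) {κ : ℕ} (hK : KC r {v | v ∈ L} (κ + 4)) (hκ : 2 ≤ κ) :
    5 * κ * ((p : ℝ) - 4) ≤ 99 * L.length := by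
  classical
  obtain ⟨z, hz, hn⟩ := h.nest
  choose! nx M N cap p1 p2 p3 p4 p5 p6 p7 p8 using fun τ hτ => h.piece hK hz hn (τ := τ) hτ
  let good := fun τ => (∃ z, Sep r {v | v ∈ L} b p τ z) ∧ τ + 4 < p
  have ex : ∀ τ, (∃ z, Sep r {v | v ∈ L} b p τ z) → ∃ I : Finset ℕ, (∀ x ∈ I, τ ≤ x ∧ good x) ∧
      (∀ x ∈ I, ∀ x' ∈ I, x < x' → nx x ≤ x') ∧ (p : ℝ) ≤ τ + 4 + ∑ x ∈ I, ((nx x : ℝ) - x) := by
    intro τ
    induction hn : p - τ using Nat.strong_induction_on generalizing τ with
    | _ n ih =>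
      intro hτ
      by_cases h1 : τ + 4 < p
      · have := p1 τ ⟨hτ, h1⟩
        obtain ⟨I, i1, i2, i3⟩ := ih (p - nx τ) (by omega) _ rfl (p3 τ ⟨hτ, h1⟩)
        refine ⟨insert τ I, fun x hx => ?_, fun x hx x' hx' h2 => ?_, ?_⟩
        · rcases mem_insert.1 hx with rfl | hx
          · exact ⟨le_rfl, hτ, h1⟩
          · exact ⟨by have := (i1 x hx).1; omega, (i1 x hx).2⟩
        · rcases mem_insert.1 hx' with e' | h3 <;> rcases mem_insert.1 hx with e | h4
          · omega
          · have := (i1 x h4).1; omega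
          · exact e ▸ (i1 x' h3).1
          · exact i2 x h4 x' h3 h2
        · rw [sum_insert fun hx => by have := (i1 τ hx).1; omega]; linarith
      · exact ⟨∅, by simp, by simp, by simpa using (by exact_mod_cast not_lt.1 h1)⟩
  obtain ⟨I, i1, i2, i3⟩ := ex 0 ⟨b 0, fun i hi => by omega⟩
  replace i1 := fun x hx => (i1 x hx).2
  have k0 : (2 : ℝ) ≤ κ := by exact_mod_cast hκ
  rcases I.eq_empty_or_nonempty with rfl | ⟨x₀, hx₀⟩
  · have := Nat.cast_nonneg (α := ℝ) L.length
    rw [sum_empty, Nat.cast_zero] at i3; nlinarith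
  have dis : ∀ i ∈ I, ∀ j ∈ I, i < j → Disjoint (M i) (M j) := fun i hi j hj hij =>
    Set.disjoint_left.2 fun v h1 h2 => (p5 j (i1 j hj) h2).2 (by
      have h3 := (p5 i (i1 i hi) h1).1
      rcases (i2 i hi j hj hij).eq_or_lt with e | e
      · exact e ▸ h3
      · exact hn _ _ e (by have := (i1 j hj).2; omega) (p3 i (i1 i hi)) (i1 j hj).1 h3)
  have capq : ∀ i ∈ I, ∀ j ∈ I, ∀ y ∈ N i, ∀ y' ∈ N j, y ≠ y' →
      CP r {v | v ∈ L} y y' (cap i) := by
    intro i hi j hj y hy y' hy' hne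
    obtain ⟨t, t1, t2⟩ := ((p4 j (i1 j hj)).acc y' hy').2
    have t3 := (p4 j (i1 j hj)).win t t1 (let ⟨_, _, h⟩ := t2; h.right)
    have off := (p4 j (i1 j hj)).off
    rcases lt_trichotomy i j with h1 | rfl | h1
    · exact (p4 i (i1 i hi)).out y hy y' t t1 (by have := i2 i hi j hj h1; omega)
        (t2.mono fun v hv => ⟨off v hv, Set.disjoint_right.1 (dis i hi j hj h1) hv⟩)
    · exact (p4 i (i1 i hi)).inn y hy y' hy' hne
    · exact (p4 i (i1 i hi)).out y hy y' t t1 (by have := i2 j hj i hi h1; omega)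
        (t2.mono fun v hv => ⟨off v hv, Set.disjoint_left.1 (dis j hj i hi h1) hv⟩)
  have hull : ∀ i ∈ I, ∀ j ∈ I, ∀ y ∈ N i, ∀ y' ∈ N j, y ≠ y' → ∀ q : ℝ,
      (∀ q', CP r {v | v ∈ L} y y' q' → q' ≤ q) →
      ∑ x ∈ I, (if i ≤ x ∧ x ≤ j then cap x else 0) ≤ 11 / 5 * q := by
    intro i hi j hj y hy y' hy' hne q hq
    have c1 := hq _ (capq i hi j hj y hy y' hy' hne)
    have c2 := hq _ ((capq j hj i hi y' hy' y hy hne.symm).symm h.symm)
    have c3 : ∑ x ∈ I, (if i < x ∧ x < j then cap x else 0) ≤ q / 5 := by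
      rw [← sum_filter]
      by_cases hij : i < j
      · have c4 := hq _ (h.far (p4 i (i1 i hi)) (p4 j (i1 j hj)) (dis i hi j hj hij)
          (i2 i hi j hj hij) hy hy')
        have c5 := sum_gaps (nx := nx) (I.filter fun x => i < x ∧ x < j) (i2 i hi j hj hij)
          (fun x hx => by
            rw [mem_filter] at hx
            exact ⟨i2 i hi x hx.1 hx.2.1, i2 x hx.1 j hj hx.2.2⟩)
          fun x hx x' hx' => i2 x (mem_filter.1 hx).1 x' (mem_filter.1 hx').1
        have c6 := sum_le_sum fun x (hx : x ∈ I.filter fun x => i < x ∧ x < j) =>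
          p7 x (i1 x (mem_filter.1 hx).1)
        rw [← mul_sum] at c6
        linarith
      · rw [filter_false_of_mem fun x _ => by omega, sum_empty]
        have := p6 i (i1 i hi)
        linarith
    have c4 : ∑ x ∈ I, (if i ≤ x ∧ x ≤ j then cap x else 0) ≤
        ∑ x ∈ I, ((if i = x then cap x else 0) + (if j = x then cap x else 0) +
          if i < x ∧ x < j then cap x else 0) := sum_le_sum fun x hx => by
      have := p6 x (i1 x hx)
      split_ifs <;> first | linarith | omega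
    rw [sum_add_distrib, sum_add_distrib, sum_ite_eq, sum_ite_eq, if_pos hi, if_pos hj] at c4
    linarith
  have cnt := hL.count (Y := I.biUnion N) (W := fun y => ∑ x ∈ I, if y ∈ N x then cap x else 0)
    (K := 22 / 5) (fun y hy => by
      obtain ⟨x, hx, hy⟩ := mem_biUnion.1 hy
      exact ((p4 x (i1 x hx)).acc y hy).1) (by
      refine le_trans ?_ (card_le_card (subset_biUnion_of_mem N hx₀))
      by_contra hc
      have c1 : ((N x₀).card : ℝ) ≤ 1 := by exact_mod_cast (by omega)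
      have c2 : (x₀ : ℝ) + 4 ≤ nx x₀ := by exact_mod_cast p1 x₀ (i1 x₀ hx₀)
      have := p6 x₀ (i1 x₀ hx₀)
      have := p7 x₀ (i1 x₀ hx₀)
      have := p8 x₀ (i1 x₀ hx₀)
      nlinarith) (by
      intro y hy y' hy' hne q hq
      have ne : ∀ y ∈ I.biUnion N, (I.filter fun x => y ∈ N x).Nonempty := fun y hy => by
        obtain ⟨x, hx, hy⟩ := mem_biUnion.1 hy
        exact ⟨x, mem_filter.2 ⟨hx, hy⟩⟩
      obtain ⟨a, a1, a2⟩ := exists_min_image _ id (ne y hy)
      obtain ⟨a', a3, a4⟩ := exists_max_image _ id (ne y hy)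
      obtain ⟨e, e1, e2⟩ := exists_min_image _ id (ne y' hy')
      obtain ⟨e', e3, e4⟩ := exists_max_image _ id (ne y' hy')
      simp only [mem_filter, id, and_imp] at a1 a2 a3 a4 e1 e2 e3 e4
      have c1 := hull a a1.1 e' e3.1 y a1.2 y' e3.2 hne q hq
      have c2 := hull e e1.1 a' a3.1 y' e1.2 y a3.2 hne.symm q fun q' h1 => hq q' (h1.symm h.symm)
      have := a2 a' a3.1 a3.2
      have := e2 e' e3.1 e3.2
      have c3 : ∑ x ∈ I, ((if y ∈ N x then cap x else 0) + if y' ∈ N x then cap x else 0) ≤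
          ∑ x ∈ I, ((if a ≤ x ∧ x ≤ e' then cap x else 0) +
            if e ≤ x ∧ x ≤ a' then cap x else 0) := sum_le_sum fun x hx => by
        have := p6 x (i1 x hx)
        have := a2 x hx
        have := a4 x hx
        have := e2 x hx
        have := e4 x hx
        by_cases d1 : y ∈ N x <;> by_cases d2 : y' ∈ N x <;> simp only [d1, d2, forall_true_left,
          if_true, if_false] at * <;> split_ifs <;> first | linarith | omega
      rw [sum_add_distrib, sum_add_distrib] at c3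
      linarith)
  rw [sum_comm] at cnt
  have c1 : ∑ x ∈ I, κ * ((nx x : ℝ) - x) ≤
      ∑ x ∈ I, 9 * ∑ y ∈ I.biUnion N, if y ∈ N x then cap x else 0 := sum_le_sum fun x hx => by
    rw [← sum_filter, filter_mem_eq_inter, inter_eq_right.2 (subset_biUnion_of_mem N hx), sum_const,
      nsmul_eq_mul, ← mul_assoc]
    exact p8 x (i1 x hx)
  rw [← mul_sum, ← mul_sum] at c1
  simp only [Nat.cast_zero] at i3
  nlinarith

end Pool.Agent.Lib.MP_4f0fb4_co
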