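import Pool.Agent.Lib.MP_4f0fb4_co.CvExt

set_option maxRecDepth 100000

namespace Pool.Agent.Lib.MP_4f0fb4_co.RZ.Cv33

open DP

def ops : List Op := [
  .e 9 41 0 1 1 0, .e 9 42 0 2 1 0, .e 9 79 0 3 1 0, .e 9 80 0 4 1 0, .n 0 10,
  .e 10 42 0 2 1 0, .e 42 36 2 5 2 0, .n 2 43, .e 10 79 0 3 1 0, .e 79 36 3 5 2 0,
  .n 3 78, .e 10 43 0 2 1 0, .e 10 78 0 3 1 0, .n 0 11, .e 11 43 0 2 1 0,
  .e 43 36 2 5 2 0, .n 2 44, .e 11 44 0 2 1 0, .e 11 81 0 6 1 0, .e 11 82 0 7 1 0,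
  .n 0 12, .e 12 44 0 2 1 0, .e 44 36 2 5 2 0, .n 2 45, .e 12 80 0 4 1 0,
  .e 80 36 4 5 2 0, .n 4 13, .e 12 81 0 6 1 0, .e 81 36 6 5 2 0, .n 6 46,
  .e 12 45 0 2 1 0, .n 0 75, .e 13 45 4 2 1 0, .e 13 46 4 6 1 0, .e 13 75 4 0 1 0,
  .e 13 76 4 8 1 0, .n 4 14, .e 14 46 4 6 1 0, .e 46 86 6 9 2 0, .n 6 47,
  .e 14 75 4 0 1 0, .e 75 86 0 9 2 0, .n 0 74, .e 14 47 4 6 1 0, .e 14 74 4 0 1 0,
  .n 4 15, .e 15 47 4 6 1 0, .e 47 36 6 5 2 0, .n 6 48, .e 15 78 4 3 1 0,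
  .e 78 36 3 5 2 0, .n 3 77, .e 15 48 4 6 1 0, .e 15 77 4 3 1 0, .n 4 16,
  .e 16 48 4 6 1 0, .e 48 86 6 9 2 0, .n 6 49, .e 16 76 4 8 1 0, .e 76 86 8 9 2 0,
  .n 8 22, .e 16 77 4 3 1 0, .e 77 86 3 9 2 0, .n 3 54, .e 16 49 4 6 1 0,
  .n 4 55, .e 22 82 8 7 1 0, .e 82 36 7 5 2 0, .n 7 83, .e 22 54 8 3 1 0,
  .e 22 55 8 4 1 0, .e 22 83 8 7 1 0, .n 8 21, .e 21 54 8 3 1 0, .e 54 36 3 5 2 0,
  .n 3 53, .e 21 83 8 7 1 0, .e 83 36 7 5 2 0, .n 7 84, .e 21 53 8 3 1 0,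
  .e 21 84 8 7 1 0, .n 8 24, .e 24 84 8 7 1 0, .e 84 36 7 5 2 0, .n 7 56,
  .e 24 56 8 7 1 0, .e 24 57 8 10 1 0, .e 24 85 8 11 1 0, .n 8 23, .e 23 55 8 4 1 0,
  .e 55 36 4 5 2 0, .n 4 18, .e 23 56 8 7 1 0, .e 56 45 7 2 2 0, .n 7 50,
  .e 23 85 8 11 1 0, .e 85 45 11 2 2 0, .n 11 51, .e 23 86 8 9 1 0, .n 8 87,
  .e 18 86 4 9 1 0, .e 18 50 4 7 1 0, .e 18 51 4 11 1 0, .e 18 87 4 8 1 0, .n 4 17,
  .e 17 49 4 6 1 0, .e 49 36 6 5 2 0, .n 6 88, .e 17 50 4 7 1 0, .e 50 36 7 5 2 0,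
  .n 7 20, .e 17 87 4 8 1 0, .e 87 36 8 5 2 0, .n 8 52, .e 17 88 4 6 1 0,
  .n 4 89, .e 20 53 7 3 1 0, .e 53 36 3 5 2 0, .n 3 19, .e 20 88 7 6 1 0,
  .e 88 36 6 5 2 0, .n 6 90, .e 20 52 7 8 1 0, .e 20 89 7 4 1 0, .n 7 30,
  .e 19 51 3 11 1 0, .e 51 45 11 2 2 0, .n 11 62, .e 19 52 3 8 1 0, .e 52 45 8 2 2 0,
  .n 8 63, .e 19 89 3 4 1 0, .e 89 45 4 2 2 0, .n 4 91, .e 45 36 2 5 2 0,
  .n 2 29, .e 19 90 3 6 1 0, .n 3 61, .e 30 90 7 6 1 0, .e 90 36 6 5 2 0,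
  .n 6 92, .e 30 62 7 11 1 0, .e 30 63 7 8 1 0, .e 30 91 7 4 1 0, .n 7 32,
  .e 29 62 2 11 1 0, .e 62 86 11 9 2 0, .n 11 64, .e 29 91 2 4 1 0, .e 91 86 4 9 2 0,
  .n 4 65, .e 29 61 2 3 1 0, .e 29 92 2 6 1 0, .n 2 93, .e 32 92 7 6 1 0,
  .e 92 36 6 5 2 0, .n 6 31, .e 32 64 7 11 1 0, .e 32 65 7 4 1 0, .e 32 93 7 2 1 0,
  .n 7 94, .e 31 63 6 8 1 0, .e 63 86 8 9 2 0, .n 8 26, .e 31 64 6 11 1 0,
  .e 64 36 11 5 2 0, .n 11 58, .e 31 93 6 2 1 0, .e 93 36 2 5 2 0, .n 2 59,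
  .e 31 94 6 7 1 0, .n 6 95, .e 26 94 8 7 1 0, .e 26 58 8 11 1 0, .e 26 59 8 2 1 0,
  .e 26 95 8 6 1 0, .n 8 25, .e 25 57 8 10 1 0, .e 57 36 10 5 2 0, .n 10 96,
  .e 25 58 8 11 1 0, .e 58 86 11 9 2 0, .n 11 28, .e 25 95 8 6 1 0, .e 95 86 6 9 2 0,
  .n 6 60, .e 25 96 8 10 1 0, .n 8 97, .e 28 61 11 3 1 0, .e 61 36 3 5 2 0,
  .n 3 27, .e 28 96 11 10 1 0, .e 96 36 10 5 2 0, .n 10 98, .e 28 60 11 6 1 0,
  .e 28 97 11 8 1 0, .n 11 0, .e 27 59 3 2 1 0, .e 59 36 2 5 2 0, .n 2 33,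
  .e 27 60 3 6 1 0, .e 60 36 6 5 2 0, .n 6 70, .e 27 97 3 8 1 0, .e 97 36 8 5 2 0,
  .n 8 71, .e 27 98 3 10 1 0, .n 3 1, .e 0 65 11 4 1 0, .e 65 36 4 5 2 0,
  .n 4 34, .e 0 33 11 2 1 0, .e 0 70 11 6 1 0, .e 0 71 11 8 1 0, .n 11 69,
  .e 1 33 3 2 1 0, .e 33 86 2 9 2 0, .n 2 2, .e 1 70 3 6 1 0, .e 70 86 6 9 2 0,
  .n 6 35, .e 1 34 3 4 1 0, .e 1 69 3 11 1 0, .n 3 72, .e 2 34 2 4 1 0,
  .e 34 36 4 5 2 0, .n 4 73, .e 2 35 2 6 1 0, .e 2 72 2 3 1 0, .e 2 73 2 4 1 0,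
  .n 2 3, .e 3 35 2 6 1 0, .e 35 86 6 9 2 0, .n 6 4, .e 3 71 2 8 1 0,
  .e 71 86 8 9 2 0, .n 8 37, .e 3 72 2 3 1 0, .e 72 86 3 9 2 0, .n 3 66,
  .e 86 36 9 5 2 0, .n 9 67, .e 3 36 2 5 1 0, .n 2 5, .e 4 36 6 5 1 0,
  .e 4 37 6 8 1 0, .e 4 66 6 3 1 0, .e 4 67 6 9 1 0, .n 6 38, .e 5 37 2 8 1 0,
  .e 37 94 8 7 2 0, .n 8 6, .e 5 66 2 3 1 0, .e 66 94 3 7 2 0, .n 3 39,
  .e 5 98 2 10 1 0, .e 98 36 10 5 2 0, .n 10 68, .e 5 38 2 6 1 0, .n 2 7,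
  .e 6 38 8 6 1 0, .e 38 36 6 5 2 0, .n 6 40, .e 6 69 8 11 1 0, .e 69 36 11 5 2 0,
  .n 11 8, .e 6 39 8 3 1 0, .e 6 68 8 10 1 0, .n 8 99, .e 7 39 2 3 1 0,
  .e 39 94 3 7 2 0, .n 3 100, .e 7 67 2 9 1 0, .e 67 94 9 7 2 0, .n 9 101,
  .e 7 68 2 10 1 0, .e 68 94 10 7 2 0, .n 10 102, .e 94 36 7 5 2 0, .n 7 103,
  .e 7 40 2 6 1 0, .n 2 104, .e 8 40 11 6 1 0, .e 40 36 6 5 2 0, .n 6 105,
  .e 8 41 11 1 1 0, .e 41 36 1 5 2 0, .n 1 106, .e 8 73 11 4 1 0, .e 73 36 4 5 2 0,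
  .n 4 107, .e 8 74 11 0 1 0, .n 11 108, .e 74 36 0 5 2 0, .n 0 109,
  .n 5 110]

def labL : List (Fin 33) := [
  0, 1, 1, 2, 2, 3, 3, 4, 4, 5, 5, 6, 6, 7, 7, 8, 8, 9, 9, 10, 10, 11, 11, 12,
  12, 13, 13, 14, 14, 15, 15, 16, 16, 17, 17, 18, 18, 19, 19, 20, 20, 21, 21, 22, 22, 23, 23, 24,
  24, 25, 25, 26, 26, 27, 27, 28, 28, 29, 29, 30, 30, 31, 31, 32, 32, 0, 5, 4, 4, 7, 7, 6,
  6, 1, 1, 0, 0, 3, 3, 2, 2, 8, 8, 14, 14, 13, 13, 16, 16, 15, 15, 10, 10, 9, 9, 12,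
  12, 11, 11, 22, 22, 21, 21, 24, 24, 23, 23, 18, 18, 17, 17, 20, 20, 19, 19, 30, 30, 29, 29, 32,
  32, 31, 31, 26, 26, 25, 25, 28, 28, 27, 27, 5]

def lab (l : Fin 66 × Bool) : Fin 33 := labL.getD (2 * l.1 + l.2.toNat) 0

def lk : List (Fin 66 × Fin 66) := [
  (9, 3), (46, 3), (10, 3), (11, 3), (47, 3), (48, 3), (13, 53), (42, 53), (14, 3), (45, 3),
  (15, 53), (43, 53), (44, 53), (49, 3), (21, 3), (50, 3), (51, 3), (22, 3), (23, 12), (52, 12),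
  (16, 3), (17, 3), (54, 3), (20, 3), (55, 3), (18, 12), (19, 12), (56, 12), (12, 3), (57, 3),
  (29, 53), (58, 53), (59, 3), (30, 53), (31, 3), (60, 3), (24, 3), (25, 53), (62, 53), (28, 3),
  (63, 3), (26, 3), (27, 3), (64, 3), (32, 3), (0, 53), (37, 53), (1, 3), (2, 53), (38, 53),
  (39, 53), (53, 3), (4, 61), (33, 61), (65, 3), (5, 3), (36, 3), (6, 61), (34, 61), (35, 61),
  (61, 3), (7, 3), (8, 3), (40, 3), (41, 3)]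

def depL : List ℕ := [
  2, 1, 2, 0, 2, 1, 2, 1, 1, 1, 1, 1, 1, 2, 1, 2, 1, 1, 2, 2, 1, 1, 1, 2, 1, 2, 1, 1, 1, 2, 2, 1, 1, 2, 2, 2,
  1, 2, 2, 2, 1, 1, 2, 2, 2, 1, 1, 1, 1, 1, 1, 1, 2, 1, 1, 1, 2, 1, 2, 1, 1, 1, 2, 1, 1, 1]

def tC : List (Fin 66 × Bool) := [
  (1, false), (2, false), (3, false), (4, false), (5, false), (6, false), (7, false), (8, false),
  (9, false), (10, false), (11, false), (12, false), (13, false), (14, false), (15, false), (16, false),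
  (17, false), (18, false), (19, false), (20, false), (21, false), (22, false), (23, false), (24, false),
  (25, false), (26, false), (27, false), (28, false), (29, false), (30, false), (31, false), (32, false)]

def tD : List (Fin 66 × Bool) := [
  (39, false), (40, false), (41, false), (42, false), (43, false), (44, false), (45, false), (46, false),
  (47, false), (48, false), (49, false), (50, false), (51, false), (52, false), (53, false), (54, false),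
  (55, false), (56, false), (57, false), (58, false), (59, false), (60, false), (61, false), (62, false),
  (63, false), (64, false), (65, false), (33, false), (34, false), (35, false), (36, false), (37, false)]

def M : Model (Fin 33) (Fin 66) := ⟨lab, fun e f => decide ((e, f) ∈ lk), fun _ => 0⟩

theorem run : steps2 33 9 41 ops [9, 41, 42, 79, 80, 36, 81, 82, 76, 86, 57, 85] (L.cons 0 1 L.nil) = true := by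
  decide +kernel

theorem ok : Ok M 3 ((0, false) :: tC) ((38, false) :: tD) 0 0 :=
  ok_of lab lk (fun e => depL.getD e 0) _ _ _ _ _ (8, true) ops [9, 41, 42, 79, 80, 36, 81, 82, 76, 86, 57, 85] M rfl run
    (by decide +kernel) (by decide +kernel) (by decide +kernel) (by decide +kernel)
    (by decide +kernel) (by decide +kernel) rfl (by decide +kernel) rfl (by decide +kernel)
    (by decide +kernel) rfl (by decide +kernel) (by decide +kernel)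

end Pool.Agent.Lib.MP_4f0fb4_co.RZ.Cv33
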