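import Pool.Agent.Lib.MP_4f0fb4_co.CvExt

set_option maxRecDepth 100000

namespace Pool.Agent.Lib.MP_4f0fb4_co.RZ.Cv34

open DP

def ops : List Op := [
  .e 10 43 0 1 1 0, .e 10 44 0 2 1 0, .e 10 82 0 3 1 0, .e 10 83 0 4 1 0, .n 0 11,
  .e 11 44 0 2 1 0, .e 44 37 2 5 2 0, .n 2 45, .e 11 82 0 3 1 0, .e 82 37 3 5 2 0,
  .n 3 81, .e 11 45 0 2 1 0, .e 11 81 0 3 1 0, .n 0 12, .e 12 45 0 2 1 0,
  .e 45 37 2 5 2 0, .n 2 46, .e 12 46 0 2 1 0, .e 12 84 0 6 1 0, .e 12 85 0 7 1 0,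
  .n 0 13, .e 13 46 0 2 1 0, .e 46 37 2 5 2 0, .n 2 47, .e 13 83 0 4 1 0,
  .e 83 37 4 5 2 0, .n 4 14, .e 13 84 0 6 1 0, .e 84 37 6 5 2 0, .n 6 48,
  .e 13 47 0 2 1 0, .n 0 78, .e 14 47 4 2 1 0, .e 14 48 4 6 1 0, .e 14 78 4 0 1 0,
  .e 14 79 4 8 1 0, .n 4 15, .e 15 48 4 6 1 0, .e 48 89 6 9 2 0, .n 6 49,
  .e 15 78 4 0 1 0, .e 78 89 0 9 2 0, .n 0 77, .e 15 49 4 6 1 0, .e 15 77 4 0 1 0,
  .n 4 16, .e 16 49 4 6 1 0, .e 49 37 6 5 2 0, .n 6 50, .e 16 81 4 3 1 0,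
  .e 81 37 3 5 2 0, .n 3 80, .e 16 50 4 6 1 0, .e 16 80 4 3 1 0, .n 4 17,
  .e 17 50 4 6 1 0, .e 50 89 6 9 2 0, .n 6 51, .e 17 79 4 8 1 0, .e 79 89 8 9 2 0,
  .n 8 23, .e 17 80 4 3 1 0, .e 80 89 3 9 2 0, .n 3 56, .e 17 51 4 6 1 0,
  .n 4 57, .e 23 85 8 7 1 0, .e 85 37 7 5 2 0, .n 7 86, .e 23 56 8 3 1 0,
  .e 23 57 8 4 1 0, .e 23 86 8 7 1 0, .n 8 22, .e 22 56 8 3 1 0, .e 56 37 3 5 2 0,
  .n 3 55, .e 22 86 8 7 1 0, .e 86 37 7 5 2 0, .n 7 87, .e 22 55 8 3 1 0,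
  .e 22 87 8 7 1 0, .n 8 25, .e 25 87 8 7 1 0, .e 87 37 7 5 2 0, .n 7 58,
  .e 25 58 8 7 1 0, .e 25 59 8 10 1 0, .e 25 88 8 11 1 0, .n 8 24, .e 24 57 8 4 1 0,
  .e 57 37 4 5 2 0, .n 4 19, .e 24 58 8 7 1 0, .e 58 47 7 2 2 0, .n 7 52,
  .e 24 88 8 11 1 0, .e 88 47 11 2 2 0, .n 11 53, .e 24 89 8 9 1 0, .n 8 90,
  .e 19 89 4 9 1 0, .e 19 52 4 7 1 0, .e 19 53 4 11 1 0, .e 19 90 4 8 1 0, .n 4 18,
  .e 18 51 4 6 1 0, .e 51 37 6 5 2 0, .n 6 91, .e 18 52 4 7 1 0, .e 52 37 7 5 2 0,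
  .n 7 21, .e 18 90 4 8 1 0, .e 90 37 8 5 2 0, .n 8 54, .e 18 91 4 6 1 0,
  .n 4 92, .e 21 55 7 3 1 0, .e 55 37 3 5 2 0, .n 3 20, .e 21 91 7 6 1 0,
  .e 91 37 6 5 2 0, .n 6 93, .e 21 54 7 8 1 0, .e 21 92 7 4 1 0, .n 7 31,
  .e 20 53 3 11 1 0, .e 53 47 11 2 2 0, .n 11 64, .e 20 54 3 8 1 0, .e 54 47 8 2 2 0,
  .n 8 65, .e 20 92 3 4 1 0, .e 92 47 4 2 2 0, .n 4 94, .e 47 37 2 5 2 0,
  .n 2 30, .e 20 93 3 6 1 0, .n 3 63, .e 31 93 7 6 1 0, .e 93 37 6 5 2 0,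
  .n 6 95, .e 31 64 7 11 1 0, .e 31 65 7 8 1 0, .e 31 94 7 4 1 0, .n 7 33,
  .e 30 64 2 11 1 0, .e 64 89 11 9 2 0, .n 11 66, .e 30 94 2 4 1 0, .e 94 89 4 9 2 0,
  .n 4 67, .e 30 63 2 3 1 0, .e 30 95 2 6 1 0, .n 2 96, .e 33 95 7 6 1 0,
  .e 95 37 6 5 2 0, .n 6 32, .e 33 66 7 11 1 0, .e 33 67 7 4 1 0, .e 33 96 7 2 1 0,
  .n 7 97, .e 32 65 6 8 1 0, .e 65 89 8 9 2 0, .n 8 27, .e 32 66 6 11 1 0,
  .e 66 37 11 5 2 0, .n 11 60, .e 32 96 6 2 1 0, .e 96 37 2 5 2 0, .n 2 61,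
  .e 32 97 6 7 1 0, .n 6 98, .e 27 97 8 7 1 0, .e 27 60 8 11 1 0, .e 27 61 8 2 1 0,
  .e 27 98 8 6 1 0, .n 8 26, .e 26 59 8 10 1 0, .e 59 37 10 5 2 0, .n 10 99,
  .e 26 60 8 11 1 0, .e 60 89 11 9 2 0, .n 11 29, .e 26 98 8 6 1 0, .e 98 89 6 9 2 0,
  .n 6 62, .e 26 99 8 10 1 0, .n 8 100, .e 29 63 11 3 1 0, .e 63 37 3 5 2 0,
  .n 3 28, .e 29 99 11 10 1 0, .e 99 37 10 5 2 0, .n 10 101, .e 29 62 11 6 1 0,
  .e 29 100 11 8 1 0, .n 11 0, .e 28 61 3 2 1 0, .e 61 37 2 5 2 0, .n 2 34,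
  .e 28 62 3 6 1 0, .e 62 37 6 5 2 0, .n 6 72, .e 28 100 3 8 1 0, .e 100 37 8 5 2 0,
  .n 8 73, .e 28 101 3 10 1 0, .n 3 1, .e 0 67 11 4 1 0, .e 67 37 4 5 2 0,
  .n 4 35, .e 0 34 11 2 1 0, .e 0 72 11 6 1 0, .e 0 73 11 8 1 0, .n 11 71,
  .e 1 34 3 2 1 0, .e 34 89 2 9 2 0, .n 2 2, .e 1 72 3 6 1 0, .e 72 89 6 9 2 0,
  .n 6 36, .e 1 35 3 4 1 0, .e 1 71 3 11 1 0, .n 3 74, .e 2 35 2 4 1 0,
  .e 35 37 4 5 2 0, .n 4 75, .e 2 36 2 6 1 0, .e 2 74 2 3 1 0, .e 2 75 2 4 1 0,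
  .n 2 3, .e 3 36 2 6 1 0, .e 36 89 6 9 2 0, .n 6 4, .e 3 73 2 8 1 0,
  .e 73 89 8 9 2 0, .n 8 38, .e 3 74 2 3 1 0, .e 74 89 3 9 2 0, .n 3 68,
  .e 89 37 9 5 2 0, .n 9 69, .e 3 37 2 5 1 0, .n 2 5, .e 4 37 6 5 1 0,
  .e 4 38 6 8 1 0, .e 4 68 6 3 1 0, .e 4 69 6 9 1 0, .n 6 39, .e 5 38 2 8 1 0,
  .e 38 97 8 7 2 0, .n 8 6, .e 5 68 2 3 1 0, .e 68 97 3 7 2 0, .n 3 40,
  .e 5 101 2 10 1 0, .e 101 37 10 5 2 0, .n 10 70, .e 5 39 2 6 1 0, .n 2 7,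
  .e 6 39 8 6 1 0, .e 39 37 6 5 2 0, .n 6 41, .e 6 71 8 11 1 0, .e 71 37 11 5 2 0,
  .n 11 8, .e 6 40 8 3 1 0, .e 6 70 8 10 1 0, .n 8 42, .e 7 40 2 3 1 0,
  .e 40 97 3 7 2 0, .n 3 76, .e 7 69 2 9 1 0, .e 69 97 9 7 2 0, .n 9 9,
  .e 7 70 2 10 1 0, .e 70 97 10 7 2 0, .n 10 102, .e 97 37 7 5 2 0, .n 7 103,
  .e 7 41 2 6 1 0, .n 2 104, .e 8 41 11 6 1 0, .e 41 37 6 5 2 0, .n 6 105,
  .e 8 75 11 4 1 0, .e 75 37 4 5 2 0, .n 4 106, .e 8 42 11 8 1 0, .e 8 76 11 3 1 0,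
  .n 11 107, .e 9 42 9 8 1 0, .e 42 37 8 5 2 0, .n 8 108, .e 9 43 9 1 1 0,
  .e 43 37 1 5 2 0, .n 1 109, .e 9 76 9 3 1 0, .e 76 37 3 5 2 0, .n 3 110,
  .e 9 77 9 0 1 0, .n 9 111, .e 77 37 0 5 2 0, .n 0 112, .n 5 113]

def labL : List (Fin 34) := [
  0, 1, 1, 2, 2, 3, 3, 4, 4, 5, 5, 6, 6, 7, 7, 8, 8, 9, 9, 10, 10, 11, 11, 12,
  12, 13, 13, 14, 14, 15, 15, 16, 16, 17, 17, 18, 18, 19, 19, 20, 20, 21, 21, 22, 22, 23, 23, 24,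
  24, 25, 25, 26, 26, 27, 27, 28, 28, 29, 29, 30, 30, 31, 31, 32, 32, 33, 33, 0, 5, 4, 4, 7,
  7, 6, 6, 1, 1, 0, 0, 3, 3, 2, 2, 8, 8, 9, 9, 15, 15, 14, 14, 17, 17, 16, 16, 11,
  11, 10, 10, 13, 13, 12, 12, 23, 23, 22, 22, 25, 25, 24, 24, 19, 19, 18, 18, 21, 21, 20, 20, 31,
  31, 30, 30, 33, 33, 32, 32, 27, 27, 26, 26, 29, 29, 28, 28, 5]

def lab (l : Fin 68 × Bool) : Fin 34 := labL.getD (2 * l.1 + l.2.toNat) 0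

def lk : List (Fin 68 × Fin 68) := [
  (10, 3), (48, 3), (11, 3), (12, 3), (49, 3), (50, 3), (14, 55), (44, 55), (15, 3), (47, 3),
  (16, 55), (45, 55), (46, 55), (51, 3), (22, 3), (52, 3), (53, 3), (23, 3), (24, 13), (54, 13),
  (17, 3), (18, 3), (56, 3), (21, 3), (57, 3), (19, 13), (20, 13), (58, 13), (13, 3), (59, 3),
  (30, 55), (60, 55), (61, 3), (31, 55), (32, 3), (62, 3), (25, 3), (26, 55), (64, 55), (29, 3),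
  (65, 3), (27, 3), (28, 3), (66, 3), (33, 3), (0, 55), (38, 55), (1, 3), (2, 55), (39, 55),
  (40, 55), (55, 3), (4, 63), (34, 63), (67, 3), (5, 3), (37, 3), (6, 63), (35, 63), (36, 63),
  (63, 3), (7, 3), (41, 3), (8, 3), (9, 3), (42, 3), (43, 3)]

def depL : List ℕ := [
  2, 1, 2, 0, 2, 1, 2, 1, 1, 1, 1, 1, 1, 1, 2, 1, 2, 1, 1, 2, 2, 1, 1, 1, 2, 1, 2, 1, 1, 1, 2, 2, 1, 1, 2, 2,
  2, 1, 2, 2, 2, 1, 1, 1, 2, 2, 2, 1, 1, 1, 1, 1, 1, 1, 2, 1, 1, 1, 2, 1, 2, 1, 1, 1, 2, 1, 1, 1]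

def tC : List (Fin 68 × Bool) := [
  (1, false), (2, false), (3, false), (4, false), (5, false), (6, false), (7, false), (8, false),
  (9, false), (10, false), (11, false), (12, false), (13, false), (14, false), (15, false), (16, false),
  (17, false), (18, false), (19, false), (20, false), (21, false), (22, false), (23, false), (24, false),
  (25, false), (26, false), (27, false), (28, false), (29, false), (30, false), (31, false), (32, false),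
  (33, false)]

def tD : List (Fin 68 × Bool) := [
  (40, false), (41, false), (42, false), (43, false), (44, false), (45, false), (46, false), (47, false),
  (48, false), (49, false), (50, false), (51, false), (52, false), (53, false), (54, false), (55, false),
  (56, false), (57, false), (58, false), (59, false), (60, false), (61, false), (62, false), (63, false),
  (64, false), (65, false), (66, false), (67, false), (34, false), (35, false), (36, false), (37, false),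
  (38, false)]

def M : Model (Fin 34) (Fin 68) := ⟨lab, fun e f => decide ((e, f) ∈ lk), fun _ => 0⟩

theorem run : steps2 34 10 43 ops [10, 43, 44, 82, 83, 37, 84, 85, 79, 89, 59, 88] (L.cons 0 1 L.nil) = true := by
  decide +kernel

theorem ok : Ok M 3 ((0, false) :: tC) ((39, false) :: tD) 0 0 :=
  ok_of lab lk (fun e => depL.getD e 0) _ _ _ _ _ (9, true) ops [10, 43, 44, 82, 83, 37, 84, 85, 79, 89, 59, 88] M rfl run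
    (by decide +kernel) (by decide +kernel) (by decide +kernel) (by decide +kernel)
    (by decide +kernel) (by decide +kernel) rfl (by decide +kernel) rfl (by decide +kernel)
    (by decide +kernel) rfl (by decide +kernel) (by decide +kernel)

end Pool.Agent.Lib.MP_4f0fb4_co.RZ.Cv34
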