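import Pool.Agent.Lib.MP_4f0fb4_co.CvExt

set_option maxRecDepth 100000

namespace Pool.Agent.Lib.MP_4f0fb4_co.RZ.Cv36

open DP

def ops : List Op := [
  .e 12 47 0 1 1 0, .e 12 48 0 2 1 0, .e 12 88 0 3 1 0, .e 12 89 0 4 1 0, .n 0 13,
  .e 13 48 0 2 1 0, .e 48 39 2 5 2 0, .n 2 49, .e 13 88 0 3 1 0, .e 88 39 3 5 2 0,
  .n 3 87, .e 13 49 0 2 1 0, .e 13 87 0 3 1 0, .n 0 14, .e 14 49 0 2 1 0,
  .e 49 39 2 5 2 0, .n 2 50, .e 14 50 0 2 1 0, .e 14 90 0 6 1 0, .e 14 91 0 7 1 0,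
  .n 0 15, .e 15 50 0 2 1 0, .e 50 39 2 5 2 0, .n 2 51, .e 15 89 0 4 1 0,
  .e 89 39 4 5 2 0, .n 4 16, .e 15 90 0 6 1 0, .e 90 39 6 5 2 0, .n 6 52,
  .e 15 51 0 2 1 0, .n 0 84, .e 16 51 4 2 1 0, .e 16 52 4 6 1 0, .e 16 84 4 0 1 0,
  .e 16 85 4 8 1 0, .n 4 17, .e 17 52 4 6 1 0, .e 52 95 6 9 2 0, .n 6 53,
  .e 17 84 4 0 1 0, .e 84 95 0 9 2 0, .n 0 83, .e 17 53 4 6 1 0, .e 17 83 4 0 1 0,
  .n 4 18, .e 18 53 4 6 1 0, .e 53 39 6 5 2 0, .n 6 54, .e 18 87 4 3 1 0,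
  .e 87 39 3 5 2 0, .n 3 86, .e 18 54 4 6 1 0, .e 18 86 4 3 1 0, .n 4 19,
  .e 19 54 4 6 1 0, .e 54 95 6 9 2 0, .n 6 55, .e 19 85 4 8 1 0, .e 85 95 8 9 2 0,
  .n 8 25, .e 19 86 4 3 1 0, .e 86 95 3 9 2 0, .n 3 60, .e 19 55 4 6 1 0,
  .n 4 61, .e 25 91 8 7 1 0, .e 91 39 7 5 2 0, .n 7 92, .e 25 60 8 3 1 0,
  .e 25 61 8 4 1 0, .e 25 92 8 7 1 0, .n 8 24, .e 24 60 8 3 1 0, .e 60 39 3 5 2 0,
  .n 3 59, .e 24 92 8 7 1 0, .e 92 39 7 5 2 0, .n 7 93, .e 24 59 8 3 1 0,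
  .e 24 93 8 7 1 0, .n 8 27, .e 27 93 8 7 1 0, .e 93 39 7 5 2 0, .n 7 62,
  .e 27 62 8 7 1 0, .e 27 63 8 10 1 0, .e 27 94 8 11 1 0, .n 8 26, .e 26 61 8 4 1 0,
  .e 61 39 4 5 2 0, .n 4 21, .e 26 62 8 7 1 0, .e 62 51 7 2 2 0, .n 7 56,
  .e 26 94 8 11 1 0, .e 94 51 11 2 2 0, .n 11 57, .e 26 95 8 9 1 0, .n 8 96,
  .e 21 95 4 9 1 0, .e 21 56 4 7 1 0, .e 21 57 4 11 1 0, .e 21 96 4 8 1 0, .n 4 20,
  .e 20 55 4 6 1 0, .e 55 39 6 5 2 0, .n 6 97, .e 20 56 4 7 1 0, .e 56 39 7 5 2 0,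
  .n 7 23, .e 20 96 4 8 1 0, .e 96 39 8 5 2 0, .n 8 58, .e 20 97 4 6 1 0,
  .n 4 98, .e 23 59 7 3 1 0, .e 59 39 3 5 2 0, .n 3 22, .e 23 97 7 6 1 0,
  .e 97 39 6 5 2 0, .n 6 99, .e 23 58 7 8 1 0, .e 23 98 7 4 1 0, .n 7 33,
  .e 22 57 3 11 1 0, .e 57 51 11 2 2 0, .n 11 68, .e 22 58 3 8 1 0, .e 58 51 8 2 2 0,
  .n 8 69, .e 22 98 3 4 1 0, .e 98 51 4 2 2 0, .n 4 100, .e 51 39 2 5 2 0,
  .n 2 32, .e 22 99 3 6 1 0, .n 3 67, .e 33 99 7 6 1 0, .e 99 39 6 5 2 0,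
  .n 6 101, .e 33 68 7 11 1 0, .e 33 69 7 8 1 0, .e 33 100 7 4 1 0, .n 7 35,
  .e 32 68 2 11 1 0, .e 68 95 11 9 2 0, .n 11 70, .e 32 100 2 4 1 0, .e 100 95 4 9 2 0,
  .n 4 71, .e 32 67 2 3 1 0, .e 32 101 2 6 1 0, .n 2 102, .e 35 101 7 6 1 0,
  .e 101 39 6 5 2 0, .n 6 34, .e 35 70 7 11 1 0, .e 35 71 7 4 1 0, .e 35 102 7 2 1 0,
  .n 7 103, .e 34 69 6 8 1 0, .e 69 95 8 9 2 0, .n 8 29, .e 34 70 6 11 1 0,
  .e 70 39 11 5 2 0, .n 11 64, .e 34 102 6 2 1 0, .e 102 39 2 5 2 0, .n 2 65,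
  .e 34 103 6 7 1 0, .n 6 104, .e 29 103 8 7 1 0, .e 29 64 8 11 1 0, .e 29 65 8 2 1 0,
  .e 29 104 8 6 1 0, .n 8 28, .e 28 63 8 10 1 0, .e 63 39 10 5 2 0, .n 10 105,
  .e 28 64 8 11 1 0, .e 64 95 11 9 2 0, .n 11 31, .e 28 104 8 6 1 0, .e 104 95 6 9 2 0,
  .n 6 66, .e 28 105 8 10 1 0, .n 8 106, .e 31 67 11 3 1 0, .e 67 39 3 5 2 0,
  .n 3 30, .e 31 105 11 10 1 0, .e 105 39 10 5 2 0, .n 10 107, .e 31 66 11 6 1 0,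
  .e 31 106 11 8 1 0, .n 11 0, .e 30 65 3 2 1 0, .e 65 39 2 5 2 0, .n 2 36,
  .e 30 66 3 6 1 0, .e 66 39 6 5 2 0, .n 6 76, .e 30 106 3 8 1 0, .e 106 39 8 5 2 0,
  .n 8 77, .e 30 107 3 10 1 0, .n 3 1, .e 0 71 11 4 1 0, .e 71 39 4 5 2 0,
  .n 4 37, .e 0 36 11 2 1 0, .e 0 76 11 6 1 0, .e 0 77 11 8 1 0, .n 11 75,
  .e 1 36 3 2 1 0, .e 36 95 2 9 2 0, .n 2 2, .e 1 76 3 6 1 0, .e 76 95 6 9 2 0,
  .n 6 38, .e 1 37 3 4 1 0, .e 1 75 3 11 1 0, .n 3 78, .e 2 37 2 4 1 0,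
  .e 37 39 4 5 2 0, .n 4 79, .e 2 38 2 6 1 0, .e 2 78 2 3 1 0, .e 2 79 2 4 1 0,
  .n 2 3, .e 3 38 2 6 1 0, .e 38 95 6 9 2 0, .n 6 4, .e 3 77 2 8 1 0,
  .e 77 95 8 9 2 0, .n 8 40, .e 3 78 2 3 1 0, .e 78 95 3 9 2 0, .n 3 72,
  .e 95 39 9 5 2 0, .n 9 73, .e 3 39 2 5 1 0, .n 2 5, .e 4 39 6 5 1 0,
  .e 4 40 6 8 1 0, .e 4 72 6 3 1 0, .e 4 73 6 9 1 0, .n 6 41, .e 5 40 2 8 1 0,
  .e 40 103 8 7 2 0, .n 8 6, .e 5 72 2 3 1 0, .e 72 103 3 7 2 0, .n 3 42,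
  .e 5 107 2 10 1 0, .e 107 39 10 5 2 0, .n 10 74, .e 5 41 2 6 1 0, .n 2 7,
  .e 6 41 8 6 1 0, .e 41 39 6 5 2 0, .n 6 43, .e 6 75 8 11 1 0, .e 75 39 11 5 2 0,
  .n 11 8, .e 6 42 8 3 1 0, .e 6 74 8 10 1 0, .n 8 44, .e 7 42 2 3 1 0,
  .e 42 103 3 7 2 0, .n 3 80, .e 7 73 2 9 1 0, .e 73 103 9 7 2 0, .n 9 9,
  .e 7 74 2 10 1 0, .e 74 103 10 7 2 0, .n 10 45, .e 103 39 7 5 2 0, .n 7 81,
  .e 7 43 2 6 1 0, .n 2 10, .e 8 43 11 6 1 0, .e 43 39 6 5 2 0, .n 6 46,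
  .e 8 79 11 4 1 0, .e 79 39 4 5 2 0, .n 4 82, .e 8 44 11 8 1 0, .e 8 80 11 3 1 0,
  .n 11 11, .e 9 44 9 8 1 0, .e 44 39 8 5 2 0, .n 8 108, .e 9 80 9 3 1 0,
  .e 80 39 3 5 2 0, .n 3 109, .e 9 45 9 10 1 0, .e 9 81 9 7 1 0, .n 9 110,
  .e 10 45 2 10 1 0, .e 45 39 10 5 2 0, .n 10 111, .e 10 81 2 7 1 0, .e 81 39 7 5 2 0,
  .n 7 112, .e 10 46 2 6 1 0, .e 10 82 2 4 1 0, .n 2 113, .e 11 46 11 6 1 0,
  .e 46 39 6 5 2 0, .n 6 114, .e 11 47 11 1 1 0, .e 47 39 1 5 2 0, .n 1 115,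
  .e 11 82 11 4 1 0, .e 82 39 4 5 2 0, .n 4 116, .e 11 83 11 0 1 0, .n 11 117,
  .e 83 39 0 5 2 0, .n 0 118, .n 5 119]

def labL : List (Fin 36) := [
  0, 1, 1, 2, 2, 3, 3, 4, 4, 5, 5, 6, 6, 7, 7, 8, 8, 9, 9, 10, 10, 11, 11, 12,
  12, 13, 13, 14, 14, 15, 15, 16, 16, 17, 17, 18, 18, 19, 19, 20, 20, 21, 21, 22, 22, 23, 23, 24,
  24, 25, 25, 26, 26, 27, 27, 28, 28, 29, 29, 30, 30, 31, 31, 32, 32, 33, 33, 34, 34, 35, 35, 0,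
  5, 4, 4, 7, 7, 6, 6, 1, 1, 0, 0, 3, 3, 2, 2, 8, 8, 9, 9, 10, 10, 11, 11, 17,
  17, 16, 16, 19, 19, 18, 18, 13, 13, 12, 12, 15, 15, 14, 14, 25, 25, 24, 24, 27, 27, 26, 26, 21,
  21, 20, 20, 23, 23, 22, 22, 33, 33, 32, 32, 35, 35, 34, 34, 29, 29, 28, 28, 31, 31, 30, 30, 5]

def lab (l : Fin 72 × Bool) : Fin 36 := labL.getD (2 * l.1 + l.2.toNat) 0

def lk : List (Fin 72 × Fin 72) := [
  (12, 3), (52, 3), (13, 3), (14, 3), (53, 3), (54, 3), (16, 59), (48, 59), (17, 3), (51, 3),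
  (18, 59), (49, 59), (50, 59), (55, 3), (24, 3), (56, 3), (57, 3), (25, 3), (26, 15), (58, 15),
  (19, 3), (20, 3), (60, 3), (23, 3), (61, 3), (21, 15), (22, 15), (62, 15), (15, 3), (63, 3),
  (32, 59), (64, 59), (65, 3), (33, 59), (34, 3), (66, 3), (27, 3), (28, 59), (68, 59), (31, 3),
  (69, 3), (29, 3), (30, 3), (70, 3), (35, 3), (0, 59), (40, 59), (1, 3), (2, 59), (41, 59),
  (42, 59), (59, 3), (4, 67), (36, 67), (71, 3), (5, 3), (39, 3), (6, 67), (37, 67), (38, 67),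
  (67, 3), (7, 3), (43, 3), (8, 3), (44, 3), (9, 3), (45, 3), (10, 3), (11, 3), (46, 3),
  (47, 3)]

def depL : List ℕ := [
  2, 1, 2, 0, 2, 1, 2, 1, 1, 1, 1, 1, 1, 1, 1, 1, 2, 1, 2, 1, 1, 2, 2, 1, 1, 1, 2, 1, 2, 1, 1, 1, 2, 2, 1, 1,
  2, 2, 2, 1, 2, 2, 2, 1, 1, 1, 1, 1, 2, 2, 2, 1, 1, 1, 1, 1, 1, 1, 2, 1, 1, 1, 2, 1, 2, 1, 1, 1, 2, 1, 1, 1]

def tC : List (Fin 72 × Bool) := [
  (10, false), (11, false), (12, false), (13, false), (14, false), (15, false), (16, false), (17, false),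
  (18, false), (19, false), (20, false), (21, false), (22, false), (23, false), (24, false), (25, false),
  (26, false), (27, false), (28, false), (29, false), (30, false), (31, false), (32, false), (33, false),
  (34, false), (35, false), (0, false), (1, false), (2, false), (3, false), (4, false), (5, false),
  (6, false), (7, false), (8, false)]

def tD : List (Fin 72 × Bool) := [
  (46, false), (47, false), (48, false), (49, false), (50, false), (51, false), (52, false), (53, false),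
  (54, false), (55, false), (56, false), (57, false), (58, false), (59, false), (60, false), (61, false),
  (62, false), (63, false), (64, false), (65, false), (66, false), (67, false), (68, false), (69, false),
  (70, false), (71, false), (36, false), (37, false), (38, false), (39, false), (40, false), (41, false),
  (42, false), (43, false), (44, false)]

def M : Model (Fin 36) (Fin 72) := ⟨lab, fun e f => decide ((e, f) ∈ lk), fun _ => 0⟩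

theorem run : steps2 36 12 47 ops [12, 47, 48, 88, 89, 39, 90, 91, 85, 95, 63, 94] (L.cons 0 1 L.nil) = true := by
  decide +kernel

theorem ok : Ok M 3 ((9, false) :: tC) ((45, false) :: tD) 9 9 :=
  ok_of lab lk (fun e => depL.getD e 0) _ _ _ _ _ (11, true) ops [12, 47, 48, 88, 89, 39, 90, 91, 85, 95, 63, 94] M rfl run
    (by decide +kernel) (by decide +kernel) (by decide +kernel) (by decide +kernel)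
    (by decide +kernel) (by decide +kernel) rfl (by decide +kernel) rfl (by decide +kernel)
    (by decide +kernel) rfl (by decide +kernel) (by decide +kernel)

theorem tri : M.Tri2 3 8 44 9 45 10 46 8 9 10 11 := by
  refine ⟨⟨⟨?_, ?_, ?_, ?_, ?_, ?_, ?_, ?_⟩, ⟨?_, ?_, ?_, ?_, ?_, ?_, ?_, ?_⟩,
    ⟨?_, ?_, ?_, ?_, ?_, ?_, ?_, ?_⟩, ?_, ?_, ?_, ?_⟩, ?_⟩ <;> decide +kernel

end Pool.Agent.Lib.MP_4f0fb4_co.RZ.Cv36
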