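import Pool.Agent.Lib.MP_4f0fb4_co.RzMain

/-!
Two cycles that cover the graph of a segment model.
-/

set_option linter.unusedSectionVars false

namespace Pool.Agent.Lib.MP_4f0fb4_co.RZ

open Finset

theorem exists_cy' {V : Type} [Fintype V] [DecidableEq V] {G : SimpleGraph V} {w : V}
    {r : G.Walk w w} (hr : r.IsCycle) :
    ∃ N, Cy G N r.support.toFinset ∧ r.support.toFinset.card = r.length := by
  classical
  refine ⟨fun u => univ.filter fun v => r.toSubgraph.Adj u v,
    ⟨fun u v h => by simpa using (by simpa using h : r.toSubgraph.Adj u v).symm,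
      fun u v h => (by simpa using h : r.toSubgraph.Adj u v).adj_sub, fun v => ?_, ?_⟩, ?_⟩
  · split_ifs with hv
    · rw [← hr.ncard_neighborSet_toSubgraph_eq_two (by simpa using hv), ← Set.ncard_coe_finset]
      congr 1
      ext x
      simp
    · rw [card_eq_zero, filter_eq_empty_iff]
      intro x _ hx
      exact hv (by simpa using hx.fst_mem)
  · rintro U ⟨u, hu, hu'⟩ ⟨v, hv, hv'⟩
    by_contra hc
    push Not at hc
    obtain ⟨p⟩ := r.toSubgraph_connected.preconnected ⟨u, by simpa using hu⟩ ⟨v, by simpa using hv⟩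
    have : ∀ (x y : r.toSubgraph.verts) (p : r.toSubgraph.coe.Walk x y), x.1 ∈ U → y.1 ∈ U := by
      intro x y p
      induction p with
      | nil => exact id
      | cons h1 _ ih => exact fun hx => ih (hc _ hx _ (by simpa using h1))
    exact hv' (this _ _ p hu')
  · have e : r.support.toFinset = r.support.tail.toFinset := by
      ext x
      simp only [List.mem_toFinset]
      refine ⟨fun hx => ?_, List.mem_of_mem_tail⟩
      rcases (r.mem_support_iff).1 hx with rfl | hx
      · exact r.end_mem_tail_support hr.not_nil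
      · exact hx
    rw [e, List.toFinset_card_of_nodup hr.support_nodup]
    simp

variable {X E : Type} [Fintype X] [DecidableEq X] [Fintype E] [DecidableEq E] (M : Model X E)

namespace Model

/-- A connected tour: leaves `A`, links `t`, visited middle points `Y`. -/
def Tour (A : Finset (E × Bool)) (t : E → Finset E) (Y : Finset E) : Prop :=
  (∀ e f, f ∈ t e → e ∈ t f) ∧
  (∀ e f, f ∈ t e → e ≠ f ∧ (M.T e f = true ∨ M.T f e = true)) ∧
  (∀ x, (A.filter fun l => M.lab l = x).card = 2) ∧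
  (∀ e, (A.filter fun l => l.1 = e).card + (t e).card = if e ∈ Y then 2 else 0) ∧
  ∀ (P : Finset X) (Q : Finset E), (P.Nonempty ∨ ∃ e ∈ Y, e ∈ Q) →
    ((∃ x, x ∉ P) ∨ ∃ e ∈ Y, e ∉ Q) →
    (∃ l ∈ A, (M.lab l ∈ P ↔ l.1 ∉ Q)) ∨ ∃ e ∈ Q, ∃ f ∈ t e, f ∉ Q

/-- Two tours on complementary sets of leaves use no link. -/
def PairFree : Prop :=
  ∀ A t Y A' t' Y', M.Tour A t Y → M.Tour A' t' Y' → (∀ l, l ∈ A' ↔ l ∉ A) → ∀ e, t e = ∅

variable {N : M.V → Finset M.V} {K : Finset M.V}

def lv (K : Finset M.V) : Finset (E × Bool) := univ.filter fun l => ∃ v ∈ K, v ∈ M.L l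

theorem tour_of (h : Cy M.G N K) (hX : 0 < Fintype.card X) (big : ∀ l, M.n l + 1 < K.card) :
    (M.lv K).card ≤ 2 * Fintype.card X ∧ ((M.lv K).card = 2 * Fintype.card X →
      (∀ l ∈ M.lv K, M.L l ⊆ K) → ∃ t, M.Tour (M.lv K) t (univ.filter fun e => M.mid e ∈ K)) := by
  set m := Fintype.card X with hm
  set A := M.lv K with hA0
  set Y : Finset E := univ.filter fun e => M.mid e ∈ K with hY0
  have z : ∀ l ∉ A, ∀ U, d N (M.L l) U = 0 := fun l hl U => by
    rw [d_eq]
    refine sum_eq_zero fun u hu => card_eq_zero.2 (eq_empty_of_forall_notMem fun v hv => hl ?_)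
    exact mem_filter.2 ⟨mem_univ _, u, h.mem (mem_inter.1 hv).2, hu⟩
  have p1 : ∀ l ∈ A, 1 ≤ M.a N l + M.b N l := fun l hl =>
    M.ab_pos h l (big l) (mem_filter.1 hl).2
  have dX : ∀ x, (if Sum.inl x ∈ K then 2 else 0) = ∑ l, d N (M.L l) {.inl x} := fun x => by
    rw [M.deg_split h, card_eq_zero.2, card_eq_zero.2, zero_add, zero_add] <;>
      refine filter_eq_empty_iff.2 fun y _ hy => ?_ <;>
      obtain ⟨l, i, e⟩ := M.adjX (h.adj _ _ hy) <;> simp at e
  have eX : ∀ l, M.a N l + M.b N l = ∑ x, d N (M.L l) {.inl x} := fun l => by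
    rw [← ab]
    unfold d
    rw [sum_comm (s := univ)]
    refine sum_congr rfl fun u _ => ?_
    simp only [Xs, sum_map, sum_singleton, Function.Embedding.coeFn_mk]
  have tot : ∑ l ∈ A, (M.a N l + M.b N l) = ∑ x, if Sum.inl x ∈ K then 2 else 0 := by
    rw [sum_subset (subset_univ A) fun l _ hl => by rw [← ab, z l hl]]
    simp only [eX, dX]
    exact sum_comm
  have tot2 : (∑ x, if Sum.inl x ∈ K then 2 else 0) ≤ ∑ _x : X, 2 :=
    sum_le_sum fun x _ => by split_ifs <;> omega
  have tot3 : ∑ _x : X, 2 = 2 * m := by simp [hm, mul_comm]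
  have tot4 : ∑ _l ∈ A, 1 ≤ ∑ l ∈ A, (M.a N l + M.b N l) := sum_le_sum p1
  have cA : ∑ _l ∈ A, 1 = A.card := by simp
  refine ⟨by omega, fun hA hF => ?_⟩
  have p2 : ∀ l ∈ A, 1 = M.a N l + M.b N l := (sum_eq_sum_iff_of_le p1).1 (by omega)
  have allX : ∀ x, Sum.inl x ∈ K := fun x => by
    have := (sum_eq_sum_iff_of_le (s := univ) (f := fun x : X => if Sum.inl x ∈ K then 2 else 0)
      (g := fun _ => 2) fun x _ => by split_ifs <;> omega).1 (by omega) x (mem_univ _)
    by_contra hc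
    simp [hc] at this
  obtain ⟨x0⟩ := Fintype.card_pos_iff.1 hX
  have p3 : ∀ l ∈ A, M.a N l = 0 ∧ M.b N l = 1 ∧ M.c N l = 1 := fun l hl => by
    have := M.full h l ⟨_, allX x0, by simp [mem_L]⟩ (by
      rw [inter_eq_right.2 (hF l hl), card_L]
      unfold B
      omega)
    have := p2 l hl
    have := M.c_le h l
    have e4 := Nat.even_iff.1 (h.even_cross (M.L l))
    rw [M.cross_eq h] at e4
    omega
  have p4 : ∀ l x, d N (M.L l) {.inl x} = if l ∈ A ∧ M.lab l = x then 1 else 0 := fun l x => by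
    split_ifs with hc
    · obtain ⟨h1, rfl⟩ := hc
      exact (p3 l h1).2.1
    · by_cases h1 : l ∈ A
      · refine Nat.le_zero.1 (le_of_le_of_eq (d_le subset_rfl fun _ _ v _ hv => ?_) (p3 l h1).1)
        rw [mem_singleton.1 hv]
        exact mem_erase.2 ⟨fun e => hc ⟨h1, (Sum.inl_injective e).symm⟩, M.mem_Xs.2 ⟨_, rfl⟩⟩
      · exact z l h1 _
  have p5 : ∀ l e, d N (M.L l) {M.mid e} = if l ∈ A ∧ l.1 = e then 1 else 0 := fun l e => by
    split_ifs with hc
    · obtain ⟨h1, rfl⟩ := hc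
      exact (p3 l h1).2.2
    · by_cases h1 : l ∈ A
      · rw [d_eq]
        refine sum_eq_zero fun u hu => card_eq_zero.2 (eq_empty_of_forall_notMem fun v hv => ?_)
        obtain ⟨i, rfl⟩ := M.mem_L.1 hu
        obtain ⟨h2, h3⟩ := mem_inter.1 hv
        rw [mem_singleton.1 h2] at h3
        rcases M.adjL (h.adj _ _ h3) with ⟨k, h4, -⟩ | h4 | ⟨y, h4, -⟩ <;> simp at h4
        exact hc ⟨h1, h4.symm⟩
      · exact z l h1 _
  have cf : ∀ (p : E × Bool → Prop) [DecidablePred p],
      (∑ l, if l ∈ A ∧ p l then 1 else 0) = (A.filter p).card := fun p _ => by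
    rw [← card_filter]
    congr 1
    ext l
    simp only [mem_filter, mem_univ, true_and]
  exact ⟨fun e => univ.filter fun f => M.mid f ∈ N (M.mid e),
    ⟨(fun e f hf => by simpa using h.symm _ _ (by simpa using hf)), (fun e f hf => by
      have h1 := h.adj _ _ (mem_filter.1 hf).2
      refine ⟨fun e' => h1.ne (by rw [e']), ?_⟩
      rcases M.adjM h1 with ⟨g, h2, h3⟩ | ⟨b, i, h2⟩ <;> simp at h2
      rwa [h2]),
    (fun x => by
      have := dX x
      simp only [p4, allX x, if_true] at this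
      rw [← cf, ← this]),
    (fun e => by
      have := M.deg_split h (M.mid e)
      simp only [p5] at this
      rw [cf, card_eq_zero.2 (filter_eq_empty_iff.2 fun y _ hy => by
        rcases M.adjM (h.adj _ _ hy) with ⟨g, h2, h3⟩ | ⟨b, i, h2⟩ <;> simp at h2)] at this
      simp only [Y, mem_filter, mem_univ, true_and]
      omega),
    (fun P Q hP hQ => by
      classical
      let U : Finset M.V := univ.filter fun v => match v with
        | .inl x => x ∈ P
        | .inr (.inl e) => e ∈ Q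
        | .inr (.inr g) => M.lab g.1 ∈ P
      have inA : ∀ l i u, u ∈ N (M.gv l i) → l ∈ A := fun l i u hu =>
        mem_filter.2 ⟨mem_univ _, _, h.mem hu, M.mem_L.2 ⟨i, rfl⟩⟩
      have own : ∀ l i x, Sum.inl x ∈ N (M.gv l i) → M.lab l = x := fun l i x hx => by
        have := d_pos (N := N) (M.mem_L.2 ⟨i, rfl⟩) hx (mem_singleton_self _)
        rw [p4] at this
        by_contra hc
        simp [hc] at this
      obtain ⟨u, hu, v, hv, h3⟩ := h.conn U (by
        rcases hP with ⟨x, hx⟩ | ⟨e, h1, h2⟩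
        · exact ⟨_, allX x, by simpa [U] using hx⟩
        · exact ⟨_, (mem_filter.1 h1).2, by simpa [U] using h2⟩) (by
        rcases hQ with ⟨x, hx⟩ | ⟨e, h1, h2⟩
        · exact ⟨_, allX x, by simpa [U] using hx⟩
        · exact ⟨_, (mem_filter.1 h1).2, by simpa [U] using h2⟩)
      have hv' := h.symm _ _ hv
      rcases u with x | e | ⟨l, i⟩
      · obtain ⟨l, i, rfl⟩ := M.adjX (h.adj _ _ hv)
        simp only [U, mem_filter, mem_univ, true_and] at hu h3
        exact (h3 (own l i x hv' ▸ hu)).elim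
      · rcases M.adjM (h.adj _ _ hv) with ⟨f, rfl, -⟩ | ⟨b, i, rfl⟩ <;>
          simp only [U, mem_filter, mem_univ, true_and] at hu h3
        · exact Or.inr ⟨e, hu, f, by simpa using hv, h3⟩
        · exact Or.inl ⟨_, inA _ _ _ hv', by simp [hu, h3]⟩
      · rcases M.adjL (h.adj _ _ hv) with ⟨k, rfl, -⟩ | rfl | ⟨x, rfl, -⟩ <;>
          simp only [U, mem_filter, mem_univ, true_and] at hu h3
        · exact (h3 hu).elim
        · exact Or.inl ⟨_, inA _ _ _ hv, by simp [hu, h3]⟩
        · exact (h3 (own l i x hv ▸ hu)).elim)⟩⟩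

theorem card_le (K : Finset M.V) (hw : ∀ l, M.w l = 0) :
    K.card ≤ Fintype.card X + Fintype.card E + (M.lv K).card * M.n0 := by
  have cK := M.card_split K
  have c1 : (univ.filter fun x => Sum.inl x ∈ K).card ≤ Fintype.card X := card_le_univ _
  have c2 : (univ.filter fun e => M.mid e ∈ K).card ≤ Fintype.card E := card_le_univ _
  have c3 : ∑ l, (K ∩ M.L l).card = ∑ l ∈ M.lv K, (K ∩ M.L l).card := by
    refine (sum_subset (subset_univ _) fun l _ hl => card_eq_zero.2
      (eq_empty_of_forall_notMem fun v hv => hl ?_)).symm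
    exact mem_filter.2 ⟨mem_univ _, v, mem_inter.1 hv⟩
  have c7 : ∑ l ∈ M.lv K, (K ∩ M.L l).card ≤ ∑ _l ∈ M.lv K, M.n0 := sum_le_sum fun l _ =>
    (card_le_card inter_subset_right).trans (by rw [card_L, n, hw, add_zero])
  rw [sum_const, smul_eq_mul] at c7
  omega

theorem card_V (hw : ∀ l, M.w l = 0) :
    Fintype.card M.V = Fintype.card X + Fintype.card E + 2 * Fintype.card E * M.n0 := by
  simp [V, n, hw, add_assoc, mul_comm]

theorem pair_upper {N' : M.V → Finset M.V} {K' : Finset M.V} (hP : M.PairFree)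
    (hw : ∀ l, M.w l = 0) (hX : 0 < Fintype.card X) (hE : Fintype.card E = 2 * Fintype.card X)
    (h : Cy M.G N K) (h' : Cy M.G N' K') (hU : ∀ v, v ∈ K ∨ v ∈ K') : K ∩ K' ⊆ M.Xs := by
  have hn : 2 ≤ M.n0 := by unfold n0 B; omega
  have big : ∀ {N N' : M.V → Finset M.V} {K K' : Finset M.V}, Cy M.G N K → Cy M.G N' K' →
      (∀ v, v ∈ K ∨ v ∈ K') → ∀ l, M.n l + 1 < K.card := fun {N N' K K'} h h' hU l => by
    by_contra hc
    rw [n, hw] at hc
    have e1 : Fintype.card M.V ≤ K.card + K'.card := by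
      rw [← card_univ]
      exact (card_le_card fun v _ => mem_union.2 (hU v)).trans (card_union_le _ _)
    rw [M.card_V hw, hE] at e1
    have e2 : 4 * M.n0 ≤ 2 * (2 * Fintype.card X) * M.n0 := Nat.mul_le_mul_right _ (by omega)
    have e3 := (M.tour_of h' hX fun l => by rw [n, hw]; omega).1
    have e4 := (M.card_le K' hw).trans (Nat.add_le_add_left (Nat.mul_le_mul_right _ e3) _)
    rw [hE] at e4
    have e5 : 2 * M.n0 ≤ 2 * Fintype.card X * M.n0 := Nat.mul_le_mul_right _ (by omega)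
    have e6 : 2 * (2 * Fintype.card X) * M.n0 = 2 * (2 * Fintype.card X * M.n0) := by ring
    omega
  obtain ⟨a1, a2⟩ := M.tour_of h hX (big h h' hU)
  obtain ⟨b1, b2⟩ := M.tour_of h' hX (big h' h fun v => (hU v).symm)
  have u1 : M.lv K ∪ M.lv K' = univ := eq_univ_of_forall fun l => by
    have v0 : M.gv l ⟨0, M.n_pos l⟩ ∈ M.L l := M.mem_L.2 ⟨_, rfl⟩
    rcases hU (M.gv l ⟨0, M.n_pos l⟩) with y | y
    · exact mem_union_left _ (mem_filter.2 ⟨mem_univ _, _, y, v0⟩)
    · exact mem_union_right _ (mem_filter.2 ⟨mem_univ _, _, y, v0⟩)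
  have u2 := card_union_add_card_inter (M.lv K) (M.lv K')
  rw [u1, card_univ, Fintype.card_prod, Fintype.card_bool, hE] at u2
  have u3 : ∀ l, l ∈ M.lv K → l ∉ M.lv K' := fun l y y' => by
    have := card_pos.2 ⟨l, mem_inter.2 ⟨y, y'⟩⟩
    omega
  obtain ⟨t, ht⟩ := a2 (by omega) fun l hl v hv => (hU v).resolve_right fun y =>
    u3 l hl (mem_filter.2 ⟨mem_univ _, v, y, hv⟩)
  obtain ⟨t', ht'⟩ := b2 (by omega) fun l hl v hv => (hU v).resolve_left fun y =>
    u3 l (mem_filter.2 ⟨mem_univ _, v, y, hv⟩) hl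
  have u4 : ∀ l, l ∈ M.lv K' ↔ l ∉ M.lv K := fun l => ⟨fun y y' => u3 l y' y, fun y =>
    (mem_union.1 (u1 ▸ mem_univ l)).resolve_left y⟩
  have f1 := hP _ _ _ _ _ _ ht ht' u4
  have f2 := hP _ _ _ _ _ _ ht' ht fun l => by rw [u4, not_not]
  intro v hv
  obtain ⟨v1, v2⟩ := mem_inter.1 hv
  rcases v with x | e | ⟨l, i⟩
  · exact M.mem_Xs.2 ⟨x, rfl⟩
  · have g1 := ht.2.2.2.1 e
    have g2 := ht'.2.2.2.1 e
    rw [f1, if_pos (by simpa using v1)] at g1
    rw [f2, if_pos (by simpa using v2)] at g2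
    have g3 : ((M.lv K).filter (fun l => l.1 = e) ∪ (M.lv K').filter fun l => l.1 = e).card ≤ 2 := by
      refine (card_le_card (t := {(e, true), (e, false)}) ?_).trans card_le_two
      rintro ⟨e', b⟩ y
      obtain rfl : e' = e := by
        rcases mem_union.1 y with y | y <;> exact (mem_filter.1 y).2
      cases b <;> simp
    rw [card_union_of_disjoint (disjoint_left.2 fun l y y' =>
      u3 l (mem_filter.1 y).1 (mem_filter.1 y').1)] at g3
    simp only [card_empty] at g1 g2
    omega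
  · have v0 : M.gv l i ∈ M.L l := M.mem_L.2 ⟨_, rfl⟩
    exact (u3 l (mem_filter.2 ⟨mem_univ _, _, v1, v0⟩) (mem_filter.2 ⟨mem_univ _, _, v2, v0⟩)).elim

end Model

/-- A `k`-connected graph covered by two cycles in which two covering cycles always have fewer
than `k` common vertices. -/
def Fails (k : ℕ) : Prop :=
  ∃ (V : Type) (_ : Fintype V) (_ : DecidableEq V) (G : SimpleGraph V), k < Fintype.card V ∧
    (∀ S : Finset V, S.card < k → (G.induce ((↑S : Set V)ᶜ)).Connected) ∧
    (∃ (u v : V) (p : G.Walk u u) (q : G.Walk v v), p.IsCycle ∧ q.IsCycle ∧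
      ∀ w, w ∈ p.support ∨ w ∈ q.support) ∧
    ∀ (u v : V) (p : G.Walk u u) (q : G.Walk v v), p.IsCycle → q.IsCycle →
      (∀ w, w ∈ p.support ∨ w ∈ q.support) →
      (p.support.toFinset ∩ q.support.toFinset).card < k

namespace Model

theorem fails (e0 : E)
    (hT : ∀ e, Relation.ReflTransGen (fun e f => M.T e f = true ∨ M.T f e = true) e0 e)
    (hP : M.PairFree) (hw : ∀ l, M.w l = 0) (hE : Fintype.card E = 2 * Fintype.card X)
    {C D : List (E × Bool)} {x y : X}
    (c0 : C.length = Fintype.card X) (c1 : M.Path x C x) (c2 : (C.map M.lab).Nodup)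
    (c3 : (C.map Prod.fst).Nodup)
    (d0 : D.length = Fintype.card X) (d1 : M.Path y D y) (d2 : (D.map M.lab).Nodup)
    (d3 : (D.map Prod.fst).Nodup) (hCD : ∀ p ∈ C, ∀ q ∈ D, p.1 ≠ q.1) :
    Fails (Fintype.card X + 1) := by
  have hX : 0 < Fintype.card X := Fintype.card_pos_iff.2 ⟨x⟩
  obtain ⟨p, p1, p2, p3⟩ := M.exists_cycle (by rintro rfl; simp at c0; omega) c1 c2 c3
  obtain ⟨q, q1, q2, q3⟩ := M.exists_cycle (by rintro rfl; simp at d0; omega) d1 d2 d3
  have hv : ∀ l : List (E × Bool), M.val l = l.length := fun l => by simp [val, hw]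
  have hn : 2 ≤ M.n0 := by unfold n0 B; omega
  have cX : M.Xs.card = Fintype.card X := by simp only [Xs, card_map, card_univ]
  refine ⟨M.V, inferInstance, inferInstance, M.G, ?_, M.connected e0 hT,
    ⟨_, _, p, q, p1, q1, fun w => ?_⟩, fun u v p q p1 q1 hU => ?_⟩
  · rw [M.card_V hw]
    omega
  · have h2 : p.support.toFinset ∩ q.support.toFinset ⊆ M.Xs := fun v hv => by
      simp only [mem_inter, List.mem_toFinset] at hv
      rcases p3 v hv.1 with h | ⟨a, ha, h⟩
      · exact h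
      rcases q3 v hv.2 with h' | ⟨b, hb, h'⟩
      · exact h'
      have := hCD a ha b hb
      rcases h with rfl | ⟨_, _, rfl⟩ <;> rcases h' with e | ⟨_, _, e⟩ <;> simp at e <;> tauto
    have h3 := card_le_card h2
    have h4 := card_union_add_card_inter p.support.toFinset q.support.toFinset
    obtain ⟨-, -, h5⟩ := exists_cy' p1
    obtain ⟨-, -, h6⟩ := exists_cy' q1
    rw [h5, h6, p2, q2, hv, hv, c0, d0] at h4
    have h7 : p.support.toFinset ∪ q.support.toFinset = univ := by
      refine eq_univ_of_card _ (le_antisymm (card_le_univ _) ?_)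
      rw [M.card_V hw, hE]
      have e6 : 2 * (2 * Fintype.card X) * M.n0 = 2 * (2 * Fintype.card X * M.n0) := by ring
      omega
    simpa using (h7 ▸ mem_univ w : w ∈ p.support.toFinset ∪ q.support.toFinset)
  · obtain ⟨N, h5, -⟩ := exists_cy' p1
    obtain ⟨N', h6, -⟩ := exists_cy' q1
    have := card_le_card (M.pair_upper hP hw hX hE h5 h6 fun v => by simpa using hU v)
    omega

end Model

end Pool.Agent.Lib.MP_4f0fb4_co.RZ
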