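import Pool.Agent.Lib.MP_4f0fb4_co.CvDp
import Pool.Agent.Lib.MP_4f0fb4_co.CvUp

/-!
From the dynamic programme for two tours to the segment model.
-/

namespace Pool.Agent.Lib.MP_4f0fb4_co.RZ.DP

open Finset

variable {m k : ℕ} (M : Model (Fin m) (Fin k)) (lk : List (Fin k × Fin k))

theorem get_zero (j : ℕ) : get 0 j = 0 := by
  show (0 >>> (4 * j)) &&& 15 = 0
  simp

theorem inv_of_tour (pot : Fin m → ℕ) {ops : List Op} {own : List ℕ} (hown : own.Nodup)
    (hp : (edges ops).Perm (all M pot lk))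
    (hT : ∀ e f, M.T e f = true → (e, f) ∈ lk) (hn : lk.Nodup) (hs : ∀ p ∈ lk, p.swap ∉ lk)
    (hlab : ∀ e, M.lab (e, true) ≠ M.lab (e, false)) {A : Finset (Fin k × Bool)}
    {t : Fin k → Finset (Fin k)} {Y : Finset (Fin k)} (h : M.Tour A t Y) :
    ∃ c : ℕ → ℕ → Bool, (∀ l : Fin k × Bool, c (M.lab l) (m + l.1) = true ↔ l ∈ A) ∧
      (∀ e f : Fin k, c (m + e) (m + f) = true ↔ f ∈ t e) ∧
      Inv c m own.length ops (fun j => own.getD j 0) (get 0) := by
  classical
  obtain ⟨h1, h2, h3, h4, h5⟩ := h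
  let c : ℕ → ℕ → Bool := fun a b => decide ((∃ l ∈ A, (M.lab l : ℕ) = a ∧ m + l.1 = b) ∨
    ∃ e, ∃ f ∈ t e, m + e = a ∧ m + f = b)
  have c1 : ∀ l : Fin k × Bool, c (M.lab l) (m + l.1) = true ↔ l ∈ A := fun l => by
    simp only [c, decide_eq_true_eq]
    refine ⟨?_, fun h => Or.inl ⟨l, h, rfl, rfl⟩⟩
    rintro (⟨⟨e, b⟩, a1, a2, a3⟩ | ⟨e, f, -, a, -⟩)
    · obtain ⟨e', b'⟩ := l
      obtain rfl : e = e' := Fin.ext (by simpa using a3)
      have a2 := Fin.ext a2
      cases b <;> cases b'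
      exacts [a1, (hlab e a2.symm).elim, (hlab e a2).elim, a1]
    · have := (M.lab l).2
      omega
  have c2 : ∀ e f : Fin k, c (m + e) (m + f) = true ↔ f ∈ t e := fun e f => by
    simp only [c, decide_eq_true_eq]
    refine ⟨?_, fun h => Or.inr ⟨e, f, h, rfl, rfl⟩⟩
    rintro (⟨l, -, a, -⟩ | ⟨e', f', a1, a2, a3⟩)
    · have := (M.lab l).2
      omega
    · obtain rfl : e' = e := Fin.ext (by omega)
      obtain rfl : f' = f := Fin.ext (by omega)
      exact a1
  have R : ∀ v, rem c ops v = #(A.filter fun l => (M.lab l : ℕ) = v ∨ m + l.1 = v) +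
      #(lk.toFinset.filter fun p => p.2 ∈ t p.1 ∧ (m + p.1 = v ∨ m + p.2 = v)) := fun v => by
    rw [rem_eq, (hp.map _).sum_eq, sum_all M pot lk hn]
    simp only [leaf, link, c1, c2]
    rw [← card_filter, ← card_filter, ← filter_filter, filter_univ_mem]
  have T : ∀ e, #(lk.toFinset.filter fun p => p.2 ∈ t p.1 ∧ (p.1 = e ∨ p.2 = e)) = #(t e) := by
    intro e
    refine card_bij (fun p _ => if p.1 = e then p.2 else p.1) (fun p hp => ?_) ?_ fun f hf => ?_
    · obtain ⟨-, a, b⟩ := mem_filter.1 hp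
      split_ifs with y
      · exact y ▸ a
      · exact b.resolve_left y ▸ h1 _ _ a
    · rintro ⟨p1, p2⟩ hp ⟨q1, q2⟩ hq h
      simp only [mem_filter, List.mem_toFinset] at hp hq h
      split_ifs at h with y z z
      · rw [y, z, h]
      · obtain rfl := hq.2.2.resolve_left z
        subst y h
        exact (hs _ hp.1 hq.1).elim
      · obtain rfl := hp.2.2.resolve_left y
        subst z h
        exact (hs _ hp.1 hq.1).elim
      · rw [hp.2.2.resolve_left y, hq.2.2.resolve_left z, h]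
    · obtain ⟨a, b | b⟩ := h2 e f hf
      · exact ⟨(e, f), by simp [hT _ _ b, hf], by simp⟩
      · exact ⟨(f, e), by simp [hT _ _ b, h1 _ _ hf], by simp [a.symm]⟩
  have R1 : ∀ x : Fin m, rem c ops x = 2 := fun x => by
    have := x.2
    rw [R, ← h3 x, filter_false_of_mem (s := lk.toFinset) (fun p _ => by omega), card_empty,
      add_zero]
    exact congrArg _ (filter_congr fun l _ => ⟨fun h => Fin.ext (by omega), fun h => by simp [h]⟩)
  have R2 : ∀ e : Fin k, rem c ops (m + e) = if e ∈ Y then 2 else 0 := fun e => by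
    rw [R, ← h4 e, ← T e]
    congr 2
    · exact filter_congr fun l _ => ⟨fun h => Fin.ext (by have := (M.lab l).2; omega),
        fun h => by simp [h]⟩
    · exact filter_congr fun p _ => by simp [Fin.ext_iff]
  have R3 : ∀ v : ℕ, (∃ x : Fin m, v = x) ∨ (∃ e : Fin k, v = m + e) ∨
      (m ≤ v ∧ rem c ops v = 0) := by
    intro v
    by_cases a : v < m
    · exact Or.inl ⟨⟨v, a⟩, rfl⟩
    by_cases b : v - m < k
    · exact Or.inr (Or.inl ⟨⟨_, b⟩, by simp only; omega⟩)
    refine Or.inr (Or.inr ⟨by omega, ?_⟩)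
    rw [R, filter_false_of_mem (s := lk.toFinset)
      (fun p _ => by have := p.1.2; have := p.2.2; omega),
      filter_false_of_mem (fun l _ => by have := l.1.2; have := (M.lab l).2; omega)]
    rfl
  have F : ∀ v, Fr c m ops v := fun v => by
    unfold Fr
    rcases R3 v with ⟨x, rfl⟩ | ⟨e, rfl⟩ | h
    · exact Or.inl (R1 x)
    · rw [R2]
      split_ifs <;> omega
    · exact Or.inr h.symm
  have G0 := get_zero
  refine ⟨c, c1, c2, fun i hi j hj h => ?_, fun j _ h => by simp [G0] at h,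
    fun j _ _ => F _, fun j _ k h => by simp [G0] at h, fun v _ _ => F v,
    fun U _ a b ha hb p1 p2 => ?_⟩
  · rw [List.getD_eq_getElem _ _ hi, List.getD_eq_getElem _ _ hj] at h
    exact (List.Nodup.getElem_inj_iff hown).1 h
  · have := h5 (univ.filter fun x => U x) (univ.filter fun e => U (m + e)) ?_ ?_
    rotate_left
    · rcases R3 a with ⟨x, rfl⟩ | ⟨e, rfl⟩ | h
      · exact Or.inl ⟨x, by simpa using ha⟩
      · refine Or.inr ⟨e, ?_, by simpa using ha⟩
        by_contra y
        rw [R2, if_neg y] at p1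
        omega
      · omega
    · rcases R3 b with ⟨x, rfl⟩ | ⟨e, rfl⟩ | h
      · exact Or.inl ⟨x, by simpa using hb⟩
      · refine Or.inr ⟨e, ?_, by simpa using hb⟩
        by_contra y
        rw [R2, if_neg y] at p2
        omega
      · omega
    rcases this with ⟨⟨e, z⟩, a1, a2⟩ | ⟨e, a1, f, a2, a3⟩
    · refine cross_of (t := leaf M pot (e, z)) ops (hp.mem_iff.2 ?_) ((c1 _).2 a1)
        (by simpa [leaf] using a2)
      cases z <;> simp [all]
    · simp only [mem_filter, mem_univ, true_and] at a1 a3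
      rcases (h2 e f a2).2 with y | y
      · exact cross_of (t := link (m := m) (e, f)) ops (hp.mem_iff.2 (by
          simp only [all, List.mem_append]
          exact Or.inr (Or.inr (List.mem_map_of_mem (hT _ _ y))))) ((c2 _ _).2 a2)
          (by simp [link, a1, a3])
      · exact cross_of (t := link (m := m) (f, e)) ops (hp.mem_iff.2 (by
          simp only [all, List.mem_append]
          exact Or.inr (Or.inr (List.mem_map_of_mem (hT _ _ y))))) ((c2 _ _).2 (h1 _ _ a2))
          (by simp [link, a1, a3])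

theorem pairFree_of_good {ops : List Op} {own : List ℕ} (l0 : Fin k × Bool)
    (g : Good2 m (M.lab l0) (m + l0.1) ops own (L.cons 0 1 L.nil)) (hown : own.Nodup)
    (hp : (edges ops).Perm (all M (fun _ => 0) lk))
    (hT : ∀ e f, M.T e f = true → (e, f) ∈ lk) (hn : lk.Nodup) (hs : ∀ p ∈ lk, p.swap ∉ lk)
    (hlab : ∀ e, M.lab (e, true) ≠ M.lab (e, false)) : M.PairFree := by
  have key : ∀ A t Y A' t' Y', M.Tour A t Y → M.Tour A' t' Y' → (∀ l, l ∈ A' ↔ l ∉ A) → l0 ∈ A →
      (∀ e, t e = ∅) ∧ ∀ e, t' e = ∅ := fun A t Y A' t' Y' h h' hc h0 => by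
    obtain ⟨c, a1, a2, a3⟩ := inv_of_tour M lk _ hown hp hT hn hs hlab h
    obtain ⟨c', b1, b2, b3⟩ := inv_of_tour M lk _ hown hp hT hn hs hlab h'
    have := g c c' 0 1 (Or.inl ⟨rfl, rfl⟩) le_rfl ((a1 _).2 h0) (fun z hz h1 => by
      have y : ∀ l, c' (M.lab l) (m + l.1) = !c (M.lab l) (m + l.1) := fun l => by
        rw [Bool.eq_iff_iff, b1, hc, ← a1]
        simp
      simp only [hp.mem_iff, all, List.mem_append, List.mem_map] at hz
      rcases hz with ⟨e, -, rfl⟩ | ⟨e, -, rfl⟩ | ⟨e, -, rfl⟩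
      exacts [y (e, true), y (e, false), by simp [link] at h1]) a3 b3
    have fin : ∀ {A t Y c}, M.Tour A t Y → (∀ e f : Fin k, c (m + e) (m + f) = true ↔ f ∈ t e) →
        NoLink c ops → ∀ e, t e = ∅ := fun {A t Y c} h a2 hl e => by
      refine eq_empty_of_forall_notMem fun f hf => ?_
      have y : ∀ e f, (e, f) ∈ lk → f ∉ t e := fun e f y hf => by
        have := hl (link (m := m) (e, f)) (hp.mem_iff.2 (by
          simp only [all, List.mem_append]
          exact Or.inr (Or.inr (List.mem_map_of_mem y)))) rfl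
        simp only [link] at this
        rw [(a2 e f).2 hf] at this
        cases this
      rcases (h.2.1 e f hf).2 with z | z
      exacts [y e f (hT _ _ z) hf, y f e (hT _ _ z) (h.1 _ _ hf)]
    exact ⟨fin h a2 this.2.1, fin h' b2 this.2.2⟩
  intro A t Y A' t' Y' h h' hc
  by_cases h0 : l0 ∈ A
  · exact (key A t Y A' t' Y' h h' hc h0).1
  · exact (key A' t' Y' A t Y h' h (fun l => by rw [hc, not_not]) ((hc _).2 h0)).2

/-- What the realisation needs. -/
structure Ok {X E : Type} [Fintype X] [DecidableEq X] [Fintype E] [DecidableEq E]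
    (M : Model X E) (e0 : E) (C D : List (E × Bool)) (x y : X) : Prop where
  hT : ∀ e, Relation.ReflTransGen (fun e f => M.T e f = true ∨ M.T f e = true) e0 e
  hP : M.PairFree
  hw : ∀ l, M.w l = 0
  hE : Fintype.card E = 2 * Fintype.card X
  c0 : C.length = Fintype.card X
  c1 : M.Path x C x
  c2 : (C.map M.lab).Nodup
  c3 : (C.map Prod.fst).Nodup
  d0 : D.length = Fintype.card X
  d1 : M.Path y D y
  d2 : (D.map M.lab).Nodup
  d3 : (D.map Prod.fst).Nodup
  hCD : ∀ p ∈ C, ∀ q ∈ D, p.1 ≠ q.1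

theorem Ok.fails {X E : Type} [Fintype X] [DecidableEq X] [Fintype E] [DecidableEq E]
    {M : Model X E} {e0 : E} {C D : List (E × Bool)} {x y : X} (h : Ok M e0 C D x y) :
    Fails (Fintype.card X + 1) :=
  M.fails e0 h.hT h.hP h.hw h.hE h.c0 h.c1 h.c2 h.c3 h.d0 h.d1 h.d2 h.d3 h.hCD

theorem ok_of (lab : Fin k × Bool → Fin m) (lk : List (Fin k × Fin k)) (dep : ℕ → ℕ)
    (e0 : Fin k) (C D : List (Fin k × Bool)) (x y : Fin m) (l0 : Fin k × Bool) (ops : List Op)
    (own : List ℕ) (M : Model (Fin m) (Fin k))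
    (hM : M = ⟨lab, fun e f => decide ((e, f) ∈ lk), fun _ => 0⟩)
    (g : steps2 m (lab l0) (m + l0.1) ops own (L.cons 0 1 L.nil) = true) (h1 : nd own 0 = true)
    (h2 : (edges ops).Perm (all M (fun _ => 0) lk))
    (h3 : nd (lk.map fun p => p.1.1) 0 = true)
    (h4 : orr (lk.map fun p => p.1.1) (2 ^ e0.1) = 2 ^ k - 1)
    (h5 : lk.all (fun p => Nat.blt (dep p.2) (dep p.1)) = true)
    (h6 : (List.finRange k).all (fun e => !Nat.beq (lab (e, true)) (lab (e, false))) = true)
    (h7 : k = 2 * m) (h8 : nd ((C ++ D).map fun p => p.1.1) 0 = true)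
    (c0 : C.length = m) (c1 : M.Path x C x) (c2 : nd (C.map fun p => (lab p).1) 0 = true)
    (d0 : D.length = m) (d1 : M.Path y D y) (d2 : nd (D.map fun p => (lab p).1) 0 = true) :
    Ok M e0 C D x y := by
  have hT : ∀ e f, M.T e f = true ↔ (e, f) ∈ lk := fun e f => by simp [hM]
  have hl : M.lab = lab := by rw [hM]
  have hw : ∀ l, M.w l = 0 := fun l => by rw [hM]
  have h5' : ∀ p ∈ lk, dep p.2 < dep p.1 := fun p hp =>
    Nat.blt_eq.mp (List.all_eq_true.1 h5 p hp)
  have hB : M.PairFree := pairFree_of_good M lk l0 (by rw [hl]; exact steps2_sound _ _ _ g)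
    (nd_spec _ _ h1).1 h2
    (fun e f => (hT e f).1) (nd_spec _ _ h3).1.of_map
    (fun p hp hq => by have := h5' p hp; have := h5' _ hq; simp at this; omega)
    (fun e he => by
      have := List.all_eq_true.1 h6 e (List.mem_finRange e)
      rw [hl] at he
      simp [he] at this)
  have hc : ∀ e, Relation.ReflTransGen (fun e f => M.T e f = true ∨ M.T f e = true) e0 e := by
    intro e
    induction hd : dep e using Nat.strong_induction_on generalizing e with
    | _ n ih =>
      rcases orr_spec e (lk.map fun p => p.1.1) (2 ^ e0.1) (by simp [h4]) with h | h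
      · rw [Nat.testBit_two_pow, decide_eq_true_eq] at h
        rw [Fin.ext h]
      · obtain ⟨⟨a, b⟩, hp, he⟩ := List.mem_map.1 h
        obtain rfl : a = e := Fin.ext he
        exact (ih _ (hd ▸ h5' _ hp) b rfl).tail (Or.inr ((hT _ _).2 hp))
  have n8 := (nd_spec _ _ h8).1
  rw [List.map_append, List.nodup_append] at n8
  have nf : ∀ l : List (Fin k × Bool), (l.map fun p => p.1.1).Nodup → (l.map Prod.fst).Nodup :=
    fun l h => List.Nodup.of_map Fin.val (by rwa [List.map_map])
  have nl : ∀ l : List (Fin k × Bool), nd (l.map fun p => (lab p).1) 0 = true →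
      (l.map M.lab).Nodup := fun l h =>
    List.Nodup.of_map Fin.val (by rw [List.map_map, hl]; exact (nd_spec _ _ h).1)
  exact ⟨hc, hB, hw, by simpa using h7, by simpa using c0, c1, nl C c2, nf C n8.1,
    by simpa using d0, d1, nl D d2, nf D n8.2.1, fun p hp q hq e =>
      n8.2.2 _ (List.mem_map_of_mem hp) _ (List.mem_map_of_mem hq) (by rw [e])⟩

end Pool.Agent.Lib.MP_4f0fb4_co.RZ.DP
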