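import Pool.Agent.Lib.MP_4f0fb4_co.RzDpFin

/-!
A frontier dynamic programme for two complementary tours.
-/

namespace Pool.Agent.Lib.MP_4f0fb4_co.RZ.DP

noncomputable section

/-- The state after a tour has been closed. -/
def cls (su sv s : ℕ) : ℕ :=
  Nat.xor (Nat.xor s (Nat.shiftLeft (Nat.xor (Nat.add sv 2) 1) (Nat.mul 4 su)))
    (Nat.shiftLeft (Nat.xor (Nat.add su 2) 1) (Nat.mul 4 sv))

/-- The first tour takes the edge between the slots `su` and `sv`. -/
def tk (su sv : ℕ) (lv : ℕ → Bool) (s : ℕ) (k : ℕ → L) (d : L) : L :=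
  fz (get s su) fun a => Bool.rec (Bool.rec (Bool.rec (fz (nx su sv s) k)
    (Bool.rec (fz (cls su sv s) k) d (lv s)) (Nat.beq a (Nat.add sv 2))) d
    (Nat.beq (get s sv) 1)) d (Nat.beq a 1)

/-- The second tour takes the edge. -/
def tk2 (su sv : ℕ) (lv : ℕ → Bool) (s : ℕ) (k : ℕ → L) (d : L) : L :=
  fz (Nat.shiftRight s 56) fun h =>
    tk su sv lv h (fun h' => fz (Nat.xor s (Nat.shiftLeft (Nat.xor h h') 56)) k) d

def lf (su sv : ℕ) (lv : ℕ → Bool) (s x : ℕ) (_ : L) (ih : L → L) (acc : L) : L :=
  force (tk su sv lv s (fun s' => L.cons s' x acc) acc) fun acc =>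
    force (tk2 su sv lv s (fun s' => L.cons s' x acc) acc) ih

def lf1 (su sv : ℕ) (lv : ℕ → Bool) (s x : ℕ) (_ : L) (ih : L → L) (acc : L) : L :=
  force (tk su sv lv s (fun s' => L.cons s' x acc) acc) ih

def put (sv : ℕ) (pr : Bool) (acc : L) (s : ℕ) : L :=
  Bool.rec (L.cons s 2 acc) (Bool.rec (L.cons s 2 acc) (Bool.rec (L.cons s 2 acc) acc
    (Nat.beq (get (Nat.shiftRight s 56) sv) 1)) (Nat.beq (get s sv) 1)) pr

def lk (su sv : ℕ) (lv : ℕ → Bool) (pr : Bool) (s x : ℕ) (_ : L) (ih : L → L) (acc : L) : L :=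
  force (Bool.rec
    (Bool.rec (L.cons s x acc) (tk2 su sv lv s (put sv pr acc) acc)
      (Nat.ble 2 (get (Nat.shiftRight s 56) su)))
    (Bool.rec (tk su sv lv s (put sv pr acc) acc)
      (tk su sv lv s (fun s' => tk2 su sv lv s' (put sv pr acc) acc) acc)
      (Nat.ble 2 (get (Nat.shiftRight s 56) su)))
    (Nat.ble 2 (get s su))) ih

def okh (free : Bool) (a : ℕ) : Bool := Bool.rec (Bool.rec false free (Nat.beq a 0)) true (Nat.beq a 1)

def hn (j : ℕ) (free : Bool) (s x : ℕ) (_ : L) (ih : L → L) (acc : L) : L :=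
  fz (get s j) fun a => fz (get (Nat.shiftRight s 56) j) fun b =>
    Bool.rec (ih acc) (Bool.rec (ih acc)
      (fz (Nat.xor (Nat.xor s (Nat.shiftLeft a (Nat.mul 4 j)))
        (Nat.shiftLeft (Nat.shiftLeft b (Nat.mul 4 j)) 56)) fun s' => ih (L.cons s' x acc))
      (okh free b)) (okh free a)

def run (f : ℕ → ℕ → L → (L → L) → L → L) (a : L) : L :=
  L.rec (motive := fun _ => L → L) (fun acc => acc) f a L.nil

def tidy (a : L) : L := dd 0 (sortA 40 (runs a))

/-- Some other slot is still in use. -/
def busy (m su sv : ℕ) (own : List ℕ) (s : ℕ) : Bool :=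
  (List.range own.length).any fun j => !Nat.beq j su && !Nat.beq j sv &&
    (Nat.ble 2 (get s j) || (Nat.beq (get s j) 0 && Nat.blt (own.getD j 0) m))

def leafAt (b : ℕ) (r : List Op) : Bool :=
  List.rec false (fun o _ ih => Op.rec (fun _ b' _ _ p q =>
    Bool.rec ih (Bool.rec ih true (Nat.beq p (Nat.succ q))) (Nat.beq b' b)) (fun _ _ => ih) o) r

def lvf (fut : Bool) (f : ℕ → Bool) (s : ℕ) : Bool := Bool.rec (f s) true fut

def fb {α : Type} (b : Bool) (k : Bool → α) : α := Bool.rec (k false) (k true) b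

def step2 (m a0 b0 : ℕ) (o : Op) (r : List Op) (own : List ℕ) (a : L) : Option L :=
  Op.rec
    (fun u v su sv p q => Bool.rec none
      (fb (future m own r) fun fut => Bool.rec
        (Bool.rec none (fb (leafAt v r) fun pr =>
            some (run (lk su sv (lvf fut (busy m su sv own)) pr) a))
          (Nat.beq p (Nat.add q 2) && !occ u r))
        (Bool.rec (some (run (lf su sv (lvf fut (busy m su sv own))) a))
          (some (run (lf1 su sv (lvf fut (busy m su sv own))) a)) (Nat.beq u a0 && Nat.beq v b0))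
        (Nat.beq p (Nat.succ q)))
      (Nat.beq (own.getD su 0) u && Nat.beq (own.getD sv 0) v && Nat.blt su own.length &&
        Nat.blt sv own.length && !Nat.beq su sv && Nat.ble own.length 14))
    (fun j v => Bool.rec none (fb (Nat.ble m (own.getD j 0)) fun free =>
        some (tidy (run (hn j free) a)))
      (Nat.blt j own.length && !occ (own.getD j 0) r && !mem v own && (occ v r || Nat.ble m v) &&
        Nat.ble own.length 14)) o

def fin (a : L) : Bool := L.rec true (fun _ x _ ih => Bool.rec false ih (Nat.ble x 1)) a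

def steps2 (m a0 b0 : ℕ) (ops : List Op) : List ℕ → L → Bool :=
  List.rec (fun _ a => fin a) (fun o r ih own a => Option.rec false
    (fun b => fl (newOwn o own) fun w => force b fun b => ih w b) (step2 m a0 b0 o r own a)) ops

end

variable {c c1 c2 : ℕ → ℕ → Bool} {m n u v su sv s x p q a0 b0 : ℕ} {r : List Op} {o g : ℕ → ℕ}

theorem beq_ne {a b : ℕ} (h : a ≠ b) : Nat.beq a b = false :=
  Bool.eq_false_iff.2 fun e => h (Nat.eq_of_beq_eq_true e)

theorem fb_eq {α : Type} (b : Bool) (k : Bool → α) : fb b k = k b := by cases b <;> rfl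

theorem get_lt (s j : ℕ) : get s j < 16 :=
  Nat.lt_succ_of_le (Nat.and_le_right (n := s >>> (4 * j)) (m := 15))

theorem get_hi (s j : ℕ) : get (Nat.shiftRight s 56) j = get s (j + 14) := by
  show ((s >>> 56) >>> (4 * j)) &&& 15 = (s >>> (4 * (j + 14))) &&& 15
  rw [← Nat.shiftRight_add, show 56 + 4 * j = 4 * (j + 14) by omega]

theorem get_up (y j : ℕ) (hj : j < 14) : get (Nat.shiftLeft y 56) j = 0 := by
  show ((y <<< 56) >>> (4 * j)) &&& (2 ^ 4 - 1) = 0
  apply Nat.eq_of_testBit_eq
  intro b
  rw [Nat.testBit_and, Nat.testBit_shiftRight, Nat.testBit_shiftLeft, Nat.testBit_two_pow_sub_one]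
  by_cases h4 : b < 4
  · simp [show ¬ 56 ≤ 4 * j + b by omega]
  · simp [h4]

theorem hi_xor (s y : ℕ) : Nat.shiftRight (Nat.xor s (Nat.shiftLeft y 56)) 56 =
    Nat.xor (Nat.shiftRight s 56) y := by
  show (s ^^^ (y <<< 56)) >>> 56 = (s >>> 56) ^^^ y
  rw [Nat.shiftRight_xor_distrib, Nat.shiftLeft_shiftRight]

/-- When the test `lv` succeeds the tour cannot be closed. -/
def Lv (m n su sv : ℕ) (r : List Op) (o : ℕ → ℕ) (lv : ℕ → Bool) : Prop :=
  ∀ s, lv s = true → (∃ w < m, (∀ j < n, o j ≠ w) ∧ occ w r = true) ∨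
    ∃ j < n, j ≠ su ∧ j ≠ sv ∧ (2 ≤ get s j ∨ (get s j = 0 ∧ o j < m))

theorem tk_spec {lv : ℕ → Bool} (hl : Lv m n su sv r o lv)
    (h : Inv c m n (.e u v su sv p q :: r) o (get s)) (hc : c u v = true) (hn : n ≤ 14)
    (h1 : su < n) (h2 : sv < n) (h3 : su ≠ sv) (eu : o su = u) (ev : o sv = v) :
    ∃ s', (∀ k d, tk su sv lv s k d = k s') ∧ Inv c m n r o (get s') ∧
      ∀ j, get s' (j + 14) = get s (j + 14) := by
  have n1 := h.ne1 hc h1 (Or.inl eu.symm)
  have n2 := h.ne1 hc h2 (Or.inr ev.symm)
  have b1 : Nat.beq (get s su) 1 = false := beq_ne n1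
  have b2 : Nat.beq (get s sv) 1 = false := beq_ne n2
  by_cases hg : get s su = sv + 2
  · have z := h.close hc h1 eu ev hg
    have uv : ∀ j < n, j ≠ su → j ≠ sv → ¬ (u = o j ∨ v = o j) := by
      rintro j hj y1 y2 (y | y)
      exacts [y1 (h.inj j hj su h1 (y.symm.trans eu.symm)),
        y2 (h.inj j hj sv h2 (y.symm.trans ev.symm))]
    have nm : ∀ j < n, j ≠ su → j ≠ sv → ∀ k, get s j ≠ k + 2 := fun j j1 j3 j4 k y => by
      have := (h.mate j j1 k y).1
      rw [rem_e hc, z, if_neg (uv j j1 j3 j4)] at this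
      omega
    have hv : lv s = false := by
      by_contra y
      rcases hl s (by simpa using y) with ⟨w, w1, w2, w3⟩ | ⟨j, j1, j3, j4, y | ⟨y, j2⟩⟩
      · have := h.out w w2 (occ_e.2 (Or.inr (Or.inr w3)))
        rw [Fr, rem_e hc, z] at this
        split_ifs at this <;> omega
      · exact nm j j1 j3 j4 (get s j - 2) (by omega)
      · have := h.fresh j j1 y
        rw [Fr, rem_e hc, z, if_neg (uv j j1 j3 j4)] at this
        omega
    have g2 : get s sv = su + 2 := (h.mate su h1 sv hg).2.2.2
    have G : ∀ j, get (cls su sv s) j = if j = su ∨ j = sv then 1 else get s j := fun j => by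
      have l1 : Nat.xor (Nat.add sv 2) 1 < 16 := xor_lt (by show sv + 2 < 16; omega) (by omega)
      have l2 : Nat.xor (Nat.add su 2) 1 < 16 := xor_lt (by show su + 2 < 16; omega) (by omega)
      simp only [cls, get_xor, get_sh l1, get_sh l2]
      by_cases y1 : j = su
      · simp [y1, h3, hg]
      by_cases y2 : j = sv
      · simp [y2, h3.symm, g2]
      simp [y1, y2]
    refine ⟨cls su sv s, fun k d => ?_, ⟨h.inj, fun j _ _ => z _, fun j hj e => ?_,
      fun j hj k e => ?_, fun w hw ho => ?_, fun U _ a b _ _ p1 _ => ?_⟩, fun j => ?_⟩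
    · rw [tk, fz_eq, b1, b2, show Nat.beq (get s su) (Nat.add sv 2) = true from
        Nat.beq_eq.mpr hg, hv]
      exact fz_eq _ _
    · rw [G] at e
      split_ifs at e with y
      rw [not_or] at y
      have := h.fresh j hj e
      rwa [Fr, rem_e hc, if_neg (uv j hj y.1 y.2)] at this
    · rw [G] at e
      split_ifs at e with y
      · omega
      rw [not_or] at y
      exact (nm j hj y.1 y.2 k e).elim
    · have := h.out w hw (occ_e.2 (Or.inr (Or.inr ho)))
      rwa [Fr, rem_e hc, if_neg (by
        rintro (rfl | rfl)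
        exacts [hw su h1 eu, hw sv h2 ev])] at this
    · rw [z] at p1
      omega
    · rw [G, if_neg (by omega)]
  · have G := get_nx h hn h1 h2 h3 n1 n2 hg
    refine ⟨nx su sv s, fun k d => ?_,
      (h.take hc h1 h2 h3 eu ev hg).congr (fun _ _ => rfl) fun j _ => G j, fun j => ?_⟩
    · rw [tk, fz_eq, b1, b2, show Nat.beq (get s su) (Nat.add sv 2) = false from
        beq_ne hg]
      exact fz_eq _ _
    · have mb : ∀ i < n, get s i ≠ 1 → mt (get s) i < n := fun i hi y => by
        unfold mt
        split_ifs with z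
        · exact hi
        · exact (h.mate i hi (get s i - 2) (by omega)).2.1
      have := mb su h1 n1
      have := mb sv h2 n2
      rw [G, upd, if_neg (by omega), if_neg (by omega), if_neg (by omega)]

theorem tk2_spec {lv : ℕ → Bool} (hl : Lv m n su sv r o lv)
    (h : Inv c m n (.e u v su sv p q :: r) o (get (Nat.shiftRight s 56))) (hc : c u v = true)
    (hn : n ≤ 14) (h1 : su < n) (h2 : sv < n) (h3 : su ≠ sv) (eu : o su = u) (ev : o sv = v) :
    ∃ s', (∀ k d, tk2 su sv lv s k d = k s') ∧ Inv c m n r o (get (Nat.shiftRight s' 56)) ∧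
      ∀ j < 14, get s' j = get s j := by
  obtain ⟨h', e1, e2, -⟩ := tk_spec hl h hc hn h1 h2 h3 eu ev
  refine ⟨Nat.xor s (Nat.shiftLeft (Nat.xor (Nat.shiftRight s 56) h') 56), fun k d => ?_, ?_,
    fun j hj => ?_⟩
  · rw [tk2, fz_eq, e1, fz_eq]
  · rw [hi_xor, show Nat.xor (Nat.shiftRight s 56) (Nat.xor (Nat.shiftRight s 56) h') = h' from
      Nat.xor_xor_cancel_left _ _]
    exact e2
  · rw [get_xor, get_up _ _ hj]
    exact Nat.xor_zero _

theorem tk_or (lv : ℕ → Bool) (k : ℕ → L) (d : L) :
    tk su sv lv s k d = d ∨ ∃ s', tk su sv lv s k d = k s' := by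
  rw [tk, fz_eq]
  cases Nat.beq (get s su) 1
  · cases Nat.beq (get s sv) 1
    · cases Nat.beq (get s su) (Nat.add sv 2)
      · exact Or.inr ⟨_, fz_eq _ _⟩
      · cases lv s
        · exact Or.inr ⟨_, fz_eq _ _⟩
        · exact Or.inl rfl
    · exact Or.inl rfl
  · exact Or.inl rfl

theorem tk2_or (lv : ℕ → Bool) (k : ℕ → L) (d : L) :
    tk2 su sv lv s k d = d ∨ ∃ s', tk2 su sv lv s k d = k s' := by
  rw [tk2, fz_eq]
  rcases tk_or (su := su) (sv := sv) (s := Nat.shiftRight s 56) lv (fun h' => fz (Nat.xor s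
    (Nat.shiftLeft (Nat.xor (Nat.shiftRight s 56) h') 56)) k) d with h | ⟨s', h⟩
  · exact Or.inl h
  · exact Or.inr ⟨_, h.trans (fz_eq _ _)⟩

/-- A pass over a table: `g` adds entries to the accumulator. -/
theorem run_spec {f : ℕ → ℕ → L → (L → L) → L → L} (g : ℕ → ℕ → L → L)
    (hf : ∀ s x t ih acc, f s x t ih acc = ih (g s x acc))
    (hg : ∀ s x acc s' x', L.Mem s' x' acc → L.Mem s' x' (g s x acc)) {s' x' : ℕ}
    (h : ∀ acc, L.Mem s' x' (g s x acc)) (a : L) (hs : a.Mem s x) : (run f a).Mem s' x' := by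
  have keep : ∀ (a acc : L), acc.Mem s' x' →
      L.Mem s' x' (L.rec (motive := fun _ => L → L) (fun acc => acc) f a acc) := by
    intro a
    induction a with
    | nil => exact fun _ h => h
    | cons s1 x1 t ih =>
      intro acc h
      change L.Mem s' x' (f s1 x1 t _ acc)
      rw [hf]
      exact ih _ (hg _ _ _ _ _ h)
  have : ∀ acc, L.Mem s' x' (L.rec (motive := fun _ => L → L) (fun acc => acc) f a acc) := by
    induction a with
    | nil => exact hs.elim
    | cons s1 x1 t ih =>
      intro acc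
      change L.Mem s' x' (f s1 x1 t _ acc)
      rw [hf]
      rcases hs with ⟨rfl, rfl⟩ | hs
      · exact keep _ _ (h acc)
      · exact ih hs _
  exact this _

/-- On the leaf edges exactly one of the tours is active. -/
def Coup (c1 c2 : ℕ → ℕ → Bool) (r : List Op) : Prop :=
  ∀ t ∈ edges r, t.2.2 = 1 → c2 t.1 t.2.1 = !c1 t.1 t.2.1

def NoLink (c : ℕ → ℕ → Bool) (r : List Op) : Prop :=
  ∀ t ∈ edges r, t.2.2 = 2 → c t.1 t.2.1 = false

/-- No entry of the table can be completed to a pair of tours with a link. -/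
def Good2 (m a0 b0 : ℕ) (r : List Op) (own : List ℕ) (a : L) : Prop :=
  ∀ c1 c2 s x, a.Mem s x → 1 ≤ x → c1 a0 b0 = true → Coup c1 c2 r →
    Inv c1 m own.length r (fun j => own.getD j 0) (get s) →
    Inv c2 m own.length r (fun j => own.getD j 0) (get (Nat.shiftRight s 56)) →
    x ≤ 1 ∧ NoLink c1 r ∧ NoLink c2 r

variable {own : List ℕ} {a b : L}

theorem lv_spec : Lv m own.length su sv r (fun j => own.getD j 0)
    (lvf (future m own r) (busy m su sv own)) := fun s h => by
  cases f : future m own r
  · rw [f] at h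
    change busy m su sv own s = true at h
    simp only [busy, List.any_eq_true, List.mem_range, Bool.and_eq_true, Bool.or_eq_true,
      Bool.not_eq_true', Nat.ble_eq, Nat.blt_eq, Nat.beq_eq] at h
    obtain ⟨j, h1, ⟨h2, h3⟩, h4⟩ := h
    exact Or.inr ⟨j, h1, Nat.ne_of_beq_eq_false h2, Nat.ne_of_beq_eq_false h3, h4⟩
  · obtain ⟨w, w1, w2, w3⟩ := future_spec r f
    exact Or.inl ⟨w, w1, fun j hj y => w2 ((mem_spec own).2 ⟨j, hj, y⟩), w3⟩

theorem leafAt_spec {w : ℕ} (r : List Op) (h : leafAt w r = true) (hc : Coup c1 c2 r) :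
    0 < rem c1 r w ∨ 0 < rem c2 r w := by
  induction r with
  | nil => cases h
  | cons o r ih =>
    cases o with
    | n j v => exact ih h hc
    | e a b su sv p q =>
      change Bool.rec (leafAt w r) (Bool.rec (leafAt w r) true (Nat.beq p (Nat.succ q)))
        (Nat.beq b w) = true at h
      have t : leafAt w r = true → 0 < rem c1 (.e a b su sv p q :: r) w ∨
          0 < rem c2 (.e a b su sv p q :: r) w := fun h => by
        have := ih h fun t ht => hc t (List.mem_cons_of_mem _ ht)
        simp only [rem]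
        omega
      cases e : Nat.beq b w
      · rw [e] at h
        exact t h
      cases f : Nat.beq p (Nat.succ q)
      · rw [e, f] at h
        exact t h
      obtain rfl := Nat.eq_of_beq_eq_true e
      obtain rfl := Nat.eq_of_beq_eq_true f
      have := hc _ List.mem_cons_self (by simp)
      simp only [rem] at this ⊢
      cases y : c1 a b
      · right
        rw [y] at this
        simp [this]
      · left
        simp

theorem Inv.lo {s' : ℕ} (h : Inv c m n r o (get s)) (hn : n ≤ 14)
    (e : ∀ j < 14, get s' j = get s j) : Inv c m n r o (get s') :=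
  h.congr (fun _ _ => rfl) fun j hj => e j (by omega)

theorem Inv.hi {s' : ℕ} (h : Inv c m n r o (get (Nat.shiftRight s 56)))
    (e : ∀ j, get s' (j + 14) = get s (j + 14)) : Inv c m n r o (get (Nat.shiftRight s' 56)) :=
  h.congr (fun _ _ => rfl) fun j _ => by rw [get_hi, get_hi, e]

theorem Inv.last (h : Inv c m n (.e u v su sv p q :: r) o g) (h1 : su < n) (eu : o su = u)
    (ho : ¬ occ u r = true) : Nat.ble 2 (g su) = c u v := by
  have z : rem c r u = 0 := rem_occ r ho
  cases hc : c u v
  · refine Bool.eq_false_iff.2 fun y => ?_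
    have := (h.mate su h1 (g su - 2) (by have := Nat.le_of_ble_eq_true y; omega)).1
    simp [rem, hc, eu, z] at this
  · refine Nat.ble_eq_true_of_le ?_
    have n1 := h.ne1 hc h1 (Or.inl eu.symm)
    by_contra y
    have := h.fresh su h1 (by omega)
    rw [Fr, rem_e hc, eu, z, if_pos (Or.inl rfl)] at this
    omega

theorem put_keep {pr : Bool} {acc : L} {s' x' : ℕ} (h : acc.Mem s' x') :
    (put sv pr acc s).Mem s' x' := by
  unfold put
  cases pr
  · exact Or.inr h
  cases Nat.beq (get s sv) 1
  · exact Or.inr h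
  cases Nat.beq (get (Nat.shiftRight s 56) sv) 1
  · exact Or.inr h
  · exact h

theorem put_mem (acc : L) (h2 : sv < n) (hc : Coup c1 c2 r) (i1 : Inv c1 m n r o (get s))
    (i2 : Inv c2 m n r o (get (Nat.shiftRight s 56))) :
    (put sv (leafAt (o sv) r) acc s).Mem s 2 := by
  unfold put
  cases e : leafAt (o sv) r
  · exact Or.inl ⟨rfl, rfl⟩
  cases e1 : Nat.beq (get s sv) 1
  · exact Or.inl ⟨rfl, rfl⟩
  cases e2 : Nat.beq (get (Nat.shiftRight s 56) sv) 1
  · exact Or.inl ⟨rfl, rfl⟩
  have := leafAt_spec r e hc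
  have := i1.dead sv h2 (Nat.eq_of_beq_eq_true e1)
  have := i2.dead sv h2 (Nat.eq_of_beq_eq_true e2)
  omega

theorem tk_keep {lv : ℕ → Bool} {k : ℕ → L} {d : L} {s' x' : ℕ} (h1 : ∀ s, (k s).Mem s' x')
    (h2 : d.Mem s' x') : (tk su sv lv s k d).Mem s' x' := by
  rcases tk_or (su := su) (sv := sv) (s := s) lv k d with h | ⟨_, h⟩ <;> rw [h]
  exacts [h2, h1 _]

theorem tk2_keep {lv : ℕ → Bool} {k : ℕ → L} {d : L} {s' x' : ℕ} (h1 : ∀ s, (k s).Mem s' x')
    (h2 : d.Mem s' x') : (tk2 su sv lv s k d).Mem s' x' := by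
  rcases tk2_or (su := su) (sv := sv) (s := s) lv k d with h | ⟨_, h⟩ <;> rw [h]
  exacts [h2, h1 _]

theorem okh_of {g w : ℕ} (h : g = 1 ∨ (g = 0 ∧ m ≤ w)) :
    okh (Nat.ble m w) g = true ∧ g < 16 := by
  rcases h with rfl | ⟨rfl, h⟩
  · exact ⟨rfl, by omega⟩
  · exact ⟨Nat.ble_eq_true_of_le h, by omega⟩

theorem step2_sound {op : Op} (h : step2 m a0 b0 op r own a = some b)
    (g : Good2 m a0 b0 r (newOwn op own) b) : Good2 m a0 b0 (op :: r) own a := by
  intro c1 c2 s x hs hx h0 hc i1 i2
  cases op with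
  | n j v =>
    change Bool.rec none (fb (Nat.ble m (own.getD j 0)) fun free =>
        some (tidy (run (hn j free) a)))
      (Nat.blt j own.length && !occ (own.getD j 0) r && !mem v own && (occ v r || Nat.ble m v) &&
        Nat.ble own.length 14) = some b at h
    generalize e : (_ && _ : Bool) = z at h
    cases z
    · cases h
    rw [fb_eq] at h
    cases h
    simp only [Bool.and_eq_true, Bool.or_eq_true, Bool.not_eq_true', Nat.blt_eq, Nat.ble_eq] at e
    obtain ⟨⟨⟨⟨e1, e2⟩, e3⟩, e4⟩, e5⟩ := e
    obtain ⟨a1, a2⟩ := i1.hand e1 (by simp only [e2]; simp)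
      (fun i h y => by rw [(mem_spec own).2 ⟨i, h, y⟩] at e3; cases e3) e4
    obtain ⟨b1, b2⟩ := i2.hand e1 (by simp only [e2]; simp)
      (fun i h y => by rw [(mem_spec own).2 ⟨i, h, y⟩] at e3; cases e3) e4
    let F := fun s : ℕ => Nat.xor (Nat.xor s (Nat.shiftLeft (get s j) (Nat.mul 4 j)))
      (Nat.shiftLeft (Nat.shiftLeft (get (Nat.shiftRight s 56) j) (Nat.mul 4 j)) 56)
    have hm : (run (hn j (Nat.ble m (own.getD j 0))) a).Mem (F s) x := by
      refine run_spec (fun s x acc => Bool.rec acc (Bool.rec acc (L.cons (F s) x acc)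
        (okh (Nat.ble m (own.getD j 0)) (get (Nat.shiftRight s 56) j)))
        (okh (Nat.ble m (own.getD j 0)) (get s j))) (fun s x t ih acc => ?_)
        (fun s x acc s' x' h => ?_) (fun acc => ?_) a hs
      · rw [hn, fz_eq, fz_eq, fz_eq]
        cases okh _ (get s j)
        · rfl
        · cases okh _ (get (Nat.shiftRight s 56) j) <;> rfl
      · cases okh _ (get s j)
        · exact h
        · cases okh _ (get (Nat.shiftRight s 56) j)
          exacts [h, Or.inr h]
      · rw [(okh_of a1).1, (okh_of b1).1]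
        exact Or.inl ⟨rfl, rfl⟩
    have l : (newOwn (.n j v) own).length = own.length := List.length_set
    have ho : ∀ i < own.length, (newOwn (.n j v) own).getD i 0 =
        if i = j then v else own.getD i 0 := fun i h => by
      change (own.set j v).getD i 0 = _
      split_ifs with y
      · simp [y, List.getD_eq_getElem?_getD, e1]
      · simp [List.getD_eq_getElem?_getD, List.getElem?_set_ne (Ne.symm y)]
    rcases dom_dd 0 _ (mem_sortA 40 _ (ml_runs _ hm)) with y | ⟨y, y1, y2⟩
    · omega
    have := g c1 c2 (F s) y y2 (by omega) h0 hc (by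
      rw [l]
      refine a2.congr ho fun i hi => ?_
      simp only [F, get_xor, get_up _ _ (show i < 14 by omega), get_sh (get_lt s j)]
      split_ifs with y <;> simp [y]) (by
      rw [l]
      refine b2.congr ho fun i hi => ?_
      simp only [F]
      rw [hi_xor, get_xor, get_sh (get_lt _ _), get_hi _ i, get_xor, get_sh (get_lt _ _),
        if_neg (by omega), ← get_hi]
      split_ifs with y <;> simp [y])
    exact ⟨by omega, this.2⟩
  | e u v su sv p q =>
    change Bool.rec none
      (fb (future m own r) fun fut => Bool.rec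
        (Bool.rec none (fb (leafAt v r) fun pr =>
            some (run (lk su sv (lvf fut (busy m su sv own)) pr) a))
          (Nat.beq p (Nat.add q 2) && !occ u r))
        (Bool.rec (some (run (lf su sv (lvf fut (busy m su sv own))) a))
          (some (run (lf1 su sv (lvf fut (busy m su sv own))) a)) (Nat.beq u a0 && Nat.beq v b0))
        (Nat.beq p (Nat.succ q)))
      (Nat.beq (own.getD su 0) u && Nat.beq (own.getD sv 0) v && Nat.blt su own.length &&
        Nat.blt sv own.length && !Nat.beq su sv && Nat.ble own.length 14) = some b at h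
    generalize e : (_ && Nat.ble own.length 14 : Bool) = z at h
    cases z
    · cases h
    simp only [Bool.and_eq_true, Bool.not_eq_true', Nat.blt_eq, Nat.ble_eq, Nat.beq_eq] at e
    obtain ⟨⟨⟨⟨⟨e1, e2⟩, e3⟩, e4⟩, e5⟩, e7⟩ := e
    have e5 := Nat.ne_of_beq_eq_false e5
    rw [fb_eq] at h
    have hl := lv_spec (m := m) (su := su) (sv := sv) (r := r) (own := own)
    generalize lvf (future m own r) (busy m su sv own) = lv at h hl
    have hc' : Coup c1 c2 r := fun t ht => hc t (List.mem_cons_of_mem _ ht)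
    have g : Good2 m a0 b0 r own b := g
    cases f : Nat.beq p (Nat.succ q)
    · rw [f] at h
      generalize e : (_ && _ : Bool) = z at h
      cases z
      · cases h
      rw [fb_eq] at h
      cases h
      simp only [Bool.and_eq_true, Bool.not_eq_true', Nat.beq_eq] at e
      have ho : ¬ occ u r = true := by simp [e.2]
      have l1 := i1.last e3 e1 ho
      have l2 := i2.last e3 e1 ho
      have R : ∀ s' x', (∀ acc, L.Mem s' x' (Bool.rec
          (Bool.rec (L.cons s x acc) (tk2 su sv lv s (put sv (leafAt v r) acc) acc) (c2 u v))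
          (Bool.rec (tk su sv lv s (put sv (leafAt v r) acc) acc)
            (tk su sv lv s (fun s' => tk2 su sv lv s' (put sv (leafAt v r) acc) acc) acc) (c2 u v))
          (c1 u v))) → (run (lk su sv lv (leafAt v r)) a).Mem s' x' := fun s' x' H => by
        refine run_spec _ (fun s x t ih acc => force_eq _ _) (fun s x acc s' x' h => ?_)
          (fun acc => ?_) a hs
        · cases Nat.ble 2 (get s su) <;> cases Nat.ble 2 (get (Nat.shiftRight s 56) su)
          exacts [Or.inr h, tk2_keep (fun _ => put_keep h) h, tk_keep (fun _ => put_keep h) h,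
            tk_keep (fun _ => tk2_keep (fun _ => put_keep h) h) h]
        · rw [l1, l2]
          exact H acc
      have bad : ∀ s', (run (lk su sv lv (leafAt v r)) a).Mem s' 2 →
          Inv c1 m own.length r (fun j => own.getD j 0) (get s') →
          Inv c2 m own.length r (fun j => own.getD j 0) (get (Nat.shiftRight s' 56)) → False :=
        fun s' H j1 j2 => by have := (g c1 c2 s' 2 H (by omega) h0 hc' j1 j2).1; omega
      cases k1 : c1 u v <;> cases k2 : c2 u v
      · have := g c1 c2 s x (R s x fun acc => by rw [k1, k2]; exact Or.inl ⟨rfl, rfl⟩) hx h0 hc'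
          (i1.skip (by simp [k1])) (i2.skip (by simp [k2]))
        refine ⟨this.1, fun t ht => ?_, fun t ht => ?_⟩ <;>
          rcases List.mem_cons.1 ht with rfl | ht
        exacts [fun _ => k1, this.2.1 t ht, fun _ => k2, this.2.2 t ht]
      · obtain ⟨s', t1, t2, t3⟩ := tk2_spec hl i2 k2 e7 e3 e4 e5 e1 e2
        have j1 := (i1.skip (by simp [k1])).lo e7 t3
        exact (bad s' (R s' 2 fun acc => by
          rw [k1, k2]
          change L.Mem s' 2 (tk2 _ _ _ _ _ _)
          rw [t1, ← e2]
          exact put_mem acc e4 hc' j1 t2) j1 t2).elim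
      · obtain ⟨s', t1, t2, t3⟩ := tk_spec hl i1 k1 e7 e3 e4 e5 e1 e2
        have j2 := (i2.skip (by simp [k2])).hi t3
        exact (bad s' (R s' 2 fun acc => by
          rw [k1, k2]
          change L.Mem s' 2 (tk _ _ _ _ _ _)
          rw [t1, ← e2]
          exact put_mem acc e4 hc' t2 j2) t2 j2).elim
      · obtain ⟨s', t1, t2, t3⟩ := tk_spec hl i1 k1 e7 e3 e4 e5 e1 e2
        obtain ⟨s'', t4, t5, t6⟩ := tk2_spec hl (i2.hi t3) k2 e7 e3 e4 e5 e1 e2
        exact (bad s'' (R s'' 2 fun acc => by
          rw [k1, k2]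
          change L.Mem s'' 2 (tk _ _ _ _ _ _)
          rw [t1, t4, ← e2]
          exact put_mem acc e4 hc' (t2.lo e7 t6) t5) (t2.lo e7 t6) t5).elim
    · rw [f] at h
      change Bool.rec (some (run (lf su sv lv) a)) (some (run (lf1 su sv lv) a))
        (Nat.beq u a0 && Nat.beq v b0) = some b at h
      obtain rfl := Nat.eq_of_beq_eq_true f
      have k2 : c2 u v = !c1 u v := hc _ List.mem_cons_self (by simp)
      have fin : ∀ s', b.Mem s' x → Inv c1 m own.length r (fun j => own.getD j 0) (get s') →
          Inv c2 m own.length r (fun j => own.getD j 0) (get (Nat.shiftRight s' 56)) →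
          x ≤ 1 ∧ NoLink c1 (.e u v su sv q.succ q :: r) ∧
            NoLink c2 (.e u v su sv q.succ q :: r) := fun s' H j1 j2 => by
        have := g c1 c2 s' x H hx h0 hc' j1 j2
        refine ⟨this.1, fun t ht => ?_, fun t ht => ?_⟩ <;>
          rcases List.mem_cons.1 ht with rfl | ht
        exacts [fun y => by simp at y, this.2.1 t ht, fun y => by simp at y, this.2.2 t ht]
      cases k1 : c1 u v
      · rw [k1] at k2
        obtain ⟨s', t1, t2, t3⟩ := tk2_spec hl i2 k2 e7 e3 e4 e5 e1 e2
        refine fin s' ?_ ((i1.skip (by simp [k1])).lo e7 t3) t2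
        generalize e : (_ && _ : Bool) = z at h
        cases z
        · cases h
          refine run_spec (fun s x acc => tk2 su sv lv s (fun s' => L.cons s' x
            (tk su sv lv s (fun s' => L.cons s' x acc) acc))
            (tk su sv lv s (fun s' => L.cons s' x acc) acc))
            (fun s x t ih acc => by rw [lf, force_eq, force_eq]) (fun s x acc s' x' h => ?_)
            (fun acc => ?_) a hs
          · have := tk_keep (su := su) (sv := sv) (s := s) (lv := lv)
              (k := fun s' => L.cons s' x acc) (fun _ => Or.inr h) h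
            exact tk2_keep (fun _ => Or.inr this) this
          · rw [t1]
            exact Or.inl ⟨rfl, rfl⟩
        · simp only [Bool.and_eq_true, Nat.beq_eq] at e
          rw [e.1, e.2, h0] at k1
          cases k1
      · rw [k1] at k2
        obtain ⟨s', t1, t2, t3⟩ := tk_spec hl i1 k1 e7 e3 e4 e5 e1 e2
        refine fin s' ?_ t2 ((i2.skip (by simp [k2])).hi t3)
        generalize (_ && _ : Bool) = z at h
        cases z <;> cases h
        · refine run_spec (fun s x acc => tk2 su sv lv s (fun s' => L.cons s' x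
            (tk su sv lv s (fun s' => L.cons s' x acc) acc))
            (tk su sv lv s (fun s' => L.cons s' x acc) acc))
            (fun s x t ih acc => by rw [lf, force_eq, force_eq]) (fun s x acc s' x' h => ?_)
            (fun acc => ?_) a hs
          · have := tk_keep (su := su) (sv := sv) (s := s) (lv := lv)
              (k := fun s' => L.cons s' x acc) (fun _ => Or.inr h) h
            exact tk2_keep (fun _ => Or.inr this) this
          · rw [t1]
            exact tk2_keep (fun _ => Or.inr (Or.inl ⟨rfl, rfl⟩)) (Or.inl ⟨rfl, rfl⟩)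
        · refine run_spec (fun s x acc => tk su sv lv s (fun s' => L.cons s' x acc) acc)
            (fun s x t ih acc => force_eq _ _)
            (fun s x acc s' x' h => tk_keep (fun _ => Or.inr h) h) (fun acc => ?_) a hs
          rw [t1]
          exact Or.inl ⟨rfl, rfl⟩

theorem fin_spec (a : L) (h : fin a = true) (hs : a.Mem s x) : x ≤ 1 := by
  induction a with
  | nil => exact hs.elim
  | cons s' x' t ih =>
    change Bool.rec false (fin t) (Nat.ble x' 1) = true at h
    cases e : Nat.ble x' 1
    · rw [e] at h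
      cases h
    rw [e] at h
    rcases hs with ⟨-, rfl⟩ | hs
    exacts [Nat.le_of_ble_eq_true e, ih h hs]

theorem steps2_sound (ops : List Op) : ∀ (own : List ℕ) (a : L),
    steps2 m a0 b0 ops own a = true → Good2 m a0 b0 ops own a := by
  induction ops with
  | nil =>
    intro own a h c1 c2 s x hs _ _ _ _ _
    exact ⟨fin_spec a h hs, fun _ h => (List.not_mem_nil h).elim, fun _ h => (List.not_mem_nil h).elim⟩
  | cons o r ih =>
    intro own a h
    change Option.rec false (fun b => fl (newOwn o own) fun w => force b fun b =>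
      steps2 m a0 b0 r w b) (step2 m a0 b0 o r own a) = true at h
    rcases e : step2 m a0 b0 o r own a with _ | b
    · rw [e] at h; cases h
    · rw [e] at h
      change fl _ _ = true at h
      rw [fl_eq, force_eq] at h
      exact step2_sound e (ih _ b h)

end Pool.Agent.Lib.MP_4f0fb4_co.RZ.DP
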