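import Pool.Agent.Lib.MP_4f0fb4_co.CvBr

/-!
A new vertex in a chain of double edges.
-/

set_option linter.unusedSectionVars false

namespace Pool.Agent.Lib.MP_4f0fb4_co.RZ

open Finset DP

variable {X E : Type} [Fintype X] [DecidableEq X] [Fintype E] [DecidableEq E]

namespace Model

/-- A double edge `p q` from `z` to `z'` whose two segments are linked to `h` only. -/
structure Dig (M : Model X E) (h p q : E) (z z' : X) : Prop where
  pq : p ≠ q
  zz : z ≠ z'
  p0 : M.lab (p, false) = z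
  p1 : M.lab (p, true) = z'
  q0 : M.lab (q, false) = z
  q1 : M.lab (q, true) = z'
  tp : ∀ f, M.T p f = true ∨ M.T f p = true → f = h
  tq : ∀ f, M.T q f = true ∨ M.T f q = true → f = h

/-- Three consecutive double edges. -/
structure Tri (M : Model X E) (h p0 q0 p1 q1 p2 q2 : E) (z1 z2 z3 z4 : X) : Prop where
  d0 : M.Dig h p0 q0 z1 z2
  d1 : M.Dig h p1 q1 z2 z3
  d2 : M.Dig h p2 q2 z3 z4
  n13 : z1 ≠ z3
  n24 : z2 ≠ z4
  a2 : ∀ l, M.lab l = z2 → l = (p0, true) ∨ l = (q0, true) ∨ l = (p1, false) ∨ l = (q1, false)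
  a3 : ∀ l, M.lab l = z3 → l = (p1, true) ∨ l = (q1, true) ∨ l = (p2, false) ∨ l = (q2, false)

variable {M : Model X E} {A A' : Finset (E × Bool)} {t t' : E → Finset E} {Y Y' : Finset E}
  {h e f p q p0 q0 p1 q1 p2 q2 : E} {z z' z1 z2 z3 z4 : X}

def ind (A : Finset (E × Bool)) (l : E × Bool) : ℕ := if l ∈ A then 1 else 0

theorem card_seg (A : Finset (E × Bool)) (e : E) :
    (A.filter fun l => l.1 = e).card = ind A (e, true) + ind A (e, false) := by
  have : (A.filter fun l => l.1 = e) = ({(e, true), (e, false)} : Finset _).filter (· ∈ A) := by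
    ext ⟨e', b⟩
    cases b <;> simp [and_comm]
  rw [this, card_filter, sum_pair (by simp)]
  rfl

theorem card_at (A : Finset (E × Bool)) (h1 : p ≠ q) (h2 : e ≠ f)
    (a : M.lab (p, true) = z) (b : M.lab (q, true) = z) (c : M.lab (e, false) = z)
    (d : M.lab (f, false) = z)
    (H : ∀ l, M.lab l = z → l = (p, true) ∨ l = (q, true) ∨ l = (e, false) ∨ l = (f, false)) :
    (A.filter fun l => M.lab l = z).card =
      ind A (p, true) + ind A (q, true) + ind A (e, false) + ind A (f, false) := by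
  have : (A.filter fun l => M.lab l = z) =
      ({(p, true), (q, true), (e, false), (f, false)} : Finset _).filter (· ∈ A) := by
    ext l
    simp only [mem_filter, mem_insert, mem_singleton, and_comm]
    refine and_congr_right fun _ => ⟨H l, ?_⟩
    rintro (rfl | rfl | rfl | rfl) <;> assumption
  rw [this, card_filter, sum_insert (by simp [h1]), sum_insert (by simp), sum_pair (by simp [h2])]
  simp only [ind, add_assoc]

theorem Tour.leaf (H : M.Tour A t Y) (hp : ∀ f, M.T p f = true ∨ M.T f p = true → f = h) :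
    (ind A (p, true) = ind A (p, false) → t p = ∅) ∧
      (ind A (p, true) ≠ ind A (p, false) → p ∈ t h) := by
  have h1 : t p ⊆ {h} := fun f hf => mem_singleton.2 (hp f (H.2.1 p f hf).2)
  have h2 := H.2.2.2.1 p
  rw [card_seg] at h2
  have h3 := card_le_card h1
  rw [card_singleton] at h3
  refine ⟨fun y => card_eq_zero.1 (by split_ifs at h2 <;> omega), fun y => ?_⟩
  obtain ⟨f, hf⟩ : (t p).Nonempty := card_pos.1 (by
    unfold ind at h2 y
    split_ifs at h2 y <;> omega)
  exact H.1 _ _ (mem_singleton.1 (h1 hf) ▸ hf)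

theorem ind_c (hc : ∀ l, l ∈ A' ↔ l ∉ A) (l : E × Bool) : ind A l + ind A' l = 1 := by
  unfold ind
  by_cases y : l ∈ A <;> simp [y, hc]

theorem Tour.one (H : M.Tour A t Y) (H' : M.Tour A' t' Y') (hc : ∀ l, l ∈ A' ↔ l ∉ A)
    (hp : ∀ f, M.T p f = true ∨ M.T f p = true → f = h)
    (hq : ∀ f, M.T q f = true ∨ M.T f q = true → f = h) (n : p ≠ q) :
    ind A (p, true) = ind A (p, false) ∨ ind A (q, true) = ind A (q, false) := by
  by_contra y
  rw [not_or] at y
  have c1 := ind_c hc (p, true)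
  have c2 := ind_c hc (p, false)
  have c3 := ind_c hc (q, true)
  have c4 := ind_c hc (q, false)
  have c5 := ind_c hc (h, true)
  have a := one_lt_card.2 ⟨p, (H.leaf hp).2 y.1, q, (H.leaf hq).2 y.2, n⟩
  have b := one_lt_card.2 ⟨p, (H'.leaf hp).2 (by omega), q, (H'.leaf hq).2 (by omega), n⟩
  have h2 := H.2.2.2.1 h
  have h3 := H'.2.2.2.1 h
  rw [card_seg] at h2 h3
  split_ifs at h2 h3 <;> omega

theorem Tour.dig (H : M.Tour A t Y) (d : M.Dig h p q z z') {w : X} (w1 : w ≠ z) (w2 : w ≠ z') :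
    ind A (p, true) + ind A (p, false) + ind A (q, true) + ind A (q, false) ≠ 4 := by
  intro y
  have m : ∀ l, ind A l = 1 → l ∈ A := fun l y => by
    by_contra z
    simp [ind, z] at y
  have le : ∀ l, ind A l ≤ 1 := fun l => by unfold ind; split_ifs <;> omega
  have a1 := le (p, true)
  have a2 := le (p, false)
  have a3 := le (q, true)
  have a4 := le (q, false)
  have two : ∀ b x, M.lab (p, b) = x → M.lab (q, b) = x → (p, b) ∈ A → (q, b) ∈ A →
      ∀ l ∈ A, M.lab l = x → l.1 = p ∨ l.1 = q := fun b x e1 e2 m1 m2 l hl e => by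
    have := eq_of_subset_of_card_le (s := {(p, b), (q, b)}) (t := A.filter fun l => M.lab l = x)
      (by intro l hl; rcases mem_insert.1 hl with rfl | hl
          · exact mem_filter.2 ⟨m1, e1⟩
          · exact mem_singleton.1 hl ▸ mem_filter.2 ⟨m2, e2⟩)
      (by rw [H.2.2.1, card_pair (by simp [d.pq])])
    have : l ∈ ({(p, b), (q, b)} : Finset _) := this ▸ mem_filter.2 ⟨hl, e⟩
    simp only [mem_insert, mem_singleton] at this
    rcases this with rfl | rfl <;> simp
  rcases H.2.2.2.2 {z, z'} {p, q} (Or.inl ⟨z, by simp⟩) (Or.inl ⟨w, by simp [w1, w2]⟩) with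
    ⟨⟨e, b⟩, hl, y⟩ | ⟨e, he, f, hf, -⟩
  · simp only [mem_insert, mem_singleton] at y
    by_cases u : e = p ∨ e = q
    · refine y.1 ?_ u
      rcases u with rfl | rfl <;> cases b <;> simp [d.p0, d.p1, d.q0, d.q1]
    · rcases y.2 u with y | y
      · exact u (two false z d.p0 d.q0 (m _ (by omega)) (m _ (by omega)) _ hl y)
      · exact u (two true z' d.p1 d.q1 (m _ (by omega)) (m _ (by omega)) _ hl y)
  · simp only [mem_insert, mem_singleton] at he
    rcases he with rfl | rfl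
    · simp [(H.leaf d.tp).1 (by omega)] at hf
    · simp [(H.leaf d.tq).1 (by omega)] at hf

theorem Tri.whole (T : M.Tri h p0 q0 p1 q1 p2 q2 z1 z2 z3 z4) (H : M.Tour A t Y)
    (H' : M.Tour A' t' Y') (hc : ∀ l, l ∈ A' ↔ l ∉ A) :
    ind A (p1, true) + ind A (q1, true) = 1 ∧ t p1 = ∅ ∧ t q1 = ∅ := by
  have v2 := card_at A T.d0.pq T.d1.pq T.d0.p1 T.d0.q1 T.d1.p0 T.d1.q0 T.a2
  have v3 := card_at A T.d1.pq T.d2.pq T.d1.p1 T.d1.q1 T.d2.p0 T.d2.q0 T.a3
  rw [H.2.2.1] at v2 v3
  have ne : ∀ {a b : E} {x y : X}, M.lab (a, false) = x → M.lab (b, false) = y → x ≠ y → a ≠ b :=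
    fun e1 e2 n e => n (by rw [← e1, ← e2, e])
  have o1 := H.one H' hc T.d1.tp T.d1.tq T.d1.pq
  have o2 := H.one H' hc T.d0.tp T.d1.tp (ne T.d0.p0 T.d1.p0 T.d0.zz)
  have o3 := H.one H' hc T.d0.tq T.d1.tp (ne T.d0.q0 T.d1.p0 T.d0.zz)
  have o4 := H.one H' hc T.d0.tp T.d1.tq (ne T.d0.p0 T.d1.q0 T.d0.zz)
  have o5 := H.one H' hc T.d0.tq T.d1.tq (ne T.d0.q0 T.d1.q0 T.d0.zz)
  have o6 := H.one H' hc T.d1.tp T.d2.tp (ne T.d1.p0 T.d2.p0 T.d1.zz)
  have o7 := H.one H' hc T.d1.tp T.d2.tq (ne T.d1.p0 T.d2.q0 T.d1.zz)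
  have o8 := H.one H' hc T.d1.tq T.d2.tp (ne T.d1.q0 T.d2.p0 T.d1.zz)
  have o9 := H.one H' hc T.d1.tq T.d2.tq (ne T.d1.q0 T.d2.q0 T.d1.zz)
  have dg : ∀ {p q : E} {z z' w : X}, M.Dig h p q z z' → w ≠ z → w ≠ z' →
      ind A (p, true) = ind A (p, false) → ind A (q, true) = ind A (q, false) →
      ind A (p, true) + ind A (q, true) = 1 := fun {p q z z' w} d w1 w2 e1 e2 => by
    have g := H.dig d w1 w2
    have k := H'.dig d w1 w2
    have c1 := ind_c hc (p, true)
    have c2 := ind_c hc (p, false)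
    have c3 := ind_c hc (q, true)
    have c4 := ind_c hc (q, false)
    clear o1 o2 o3 o4 o5 o6 o7 o8 o9 v2 v3
    omega
  have w1 : ind A (p1, true) = ind A (p1, false) := by
    by_contra y
    have a0 := dg T.d0 T.n13.symm T.d1.zz.symm (o2.resolve_right y) (o3.resolve_right y)
    have a1 := o6.resolve_left y
    have a2 := o7.resolve_left y
    have a3 := dg T.d2 T.d1.zz T.n24 a1 a2
    have a4 := o1.resolve_left y
    clear o1 o2 o3 o4 o5 o6 o7 o8 o9
    omega
  have w2 : ind A (q1, true) = ind A (q1, false) := by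
    by_contra y
    have a0 := dg T.d0 T.n13.symm T.d1.zz.symm (o4.resolve_right y) (o5.resolve_right y)
    have a1 := o8.resolve_left y
    have a2 := o9.resolve_left y
    have a3 := dg T.d2 T.d1.zz T.n24 a1 a2
    clear o1 o2 o3 o4 o5 o6 o7 o8 o9
    omega
  exact ⟨dg T.d1 T.d0.zz T.n13 w1 w2, (H.leaf T.d1.tp).1 w1, (H.leaf T.d1.tq).1 w2⟩

/-- The double edge `p q` is subdivided by a new vertex. -/
def ext (M : Model X E) (h p q : E) (z : X) : Model (Option X) (E ⊕ Bool) where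
  lab
    | (.inl e, b) => if (e = p ∨ e = q) ∧ b = true then none else some (M.lab (e, b))
    | (.inr _, false) => none
    | (.inr _, true) => some z
  T
    | .inl e, .inl f => M.T e f
    | .inr _, .inl f => decide (f = h)
    | _, .inr _ => false
  w _ := 0

def up (l : E × Bool) : (E ⊕ Bool) × Bool := (.inl l.1, l.2)

theorem up_inj : Function.Injective (up : E × Bool → _) := by
  rintro ⟨a, b⟩ ⟨c, d⟩ h
  simpa [up] using h

theorem ext_lab {l : E × Bool} (y : l.1 ≠ p ∧ l.1 ≠ q ∨ l.2 = false) :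
    (M.ext h p q z).lab (up l) = some (M.lab l) := by
  obtain ⟨e, b⟩ := l
  refine if_neg ?_
  rintro ⟨y1, y2⟩
  simp only at y y1 y2
  rw [y2] at y
  tauto

theorem Dig.ext {h p q : E} (d : M.Dig h e f z1 z2) (n1 : h ≠ e) (n2 : h ≠ f)
    (a : e ≠ p ∧ e ≠ q) (b : f ≠ p ∧ f ≠ q) :
    (M.ext h p q z).Dig (.inl h) (.inl e) (.inl f) (some z1) (some z2) where
  pq := by simp [d.pq]
  zz := by simp [d.zz]
  p0 := d.p0 ▸ ext_lab (l := (e, false)) (Or.inl a)
  p1 := d.p1 ▸ ext_lab (l := (e, true)) (Or.inl a)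
  q0 := d.q0 ▸ ext_lab (l := (f, false)) (Or.inl b)
  q1 := d.q1 ▸ ext_lab (l := (f, true)) (Or.inl b)
  tp g := by
    rcases g with g | g
    · exact fun y => congrArg _ (d.tp g y)
    · simp [Model.ext, n1.symm]
  tq g := by
    rcases g with g | g
    · exact fun y => congrArg _ (d.tq g y)
    · simp [Model.ext, n2.symm]

/-- The chain data together with the position of the hub. -/
structure Tri2 (M : Model X E) (h p0 q0 p1 q1 p2 q2 : E) (z1 z2 z3 z4 : X) : Prop
    extends M.Tri h p0 q0 p1 q1 p2 q2 z1 z2 z3 z4 where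
  hn : h ≠ p0 ∧ h ≠ q0 ∧ h ≠ p1 ∧ h ≠ q1 ∧ h ≠ p2 ∧ h ≠ q2

theorem Tri2.ext (T : M.Tri2 h p0 q0 p1 q1 p2 q2 z1 z2 z3 z4) :
    (M.ext h p1 q1 z3).Tri2 (.inl h) (.inl p0) (.inl q0) (.inl p1) (.inl q1) (.inr true)
      (.inr false) (some z1) (some z2) none (some z3) ∧
    (M.ext h p1 q1 z3).Tri (.inl h) (.inl p1) (.inl q1) (.inr true) (.inr false) (.inl p2)
      (.inl q2) (some z2) none (some z3) (some z4) := by
  obtain ⟨h1, h2, h3, h4, h5, h6⟩ := T.hn
  have ne : ∀ {a b : E} {x y : X}, M.lab (a, false) = x → M.lab (b, false) = y → x ≠ y → a ≠ b :=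
    fun e1 e2 n e => n (by rw [← e1, ← e2, e])
  have D0 := T.d0.ext (z := z3) h1 h2 ⟨ne T.d0.p0 T.d1.p0 T.d0.zz, ne T.d0.p0 T.d1.q0 T.d0.zz⟩
    ⟨ne T.d0.q0 T.d1.p0 T.d0.zz, ne T.d0.q0 T.d1.q0 T.d0.zz⟩
  have D3 := T.d2.ext (z := z3) h5 h6
    ⟨ne T.d2.p0 T.d1.p0 T.d1.zz.symm, ne T.d2.p0 T.d1.q0 T.d1.zz.symm⟩
    ⟨ne T.d2.q0 T.d1.p0 T.d1.zz.symm, ne T.d2.q0 T.d1.q0 T.d1.zz.symm⟩
  have D1 : (M.ext h p1 q1 z3).Dig (.inl h) (.inl p1) (.inl q1) (some z2) none :=
    ⟨by simp [T.d1.pq], by simp, T.d1.p0 ▸ ext_lab (l := (p1, false)) (Or.inr rfl),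
      by simp [Model.ext], T.d1.q0 ▸ ext_lab (l := (q1, false)) (Or.inr rfl), by simp [Model.ext],
      fun g => by
        rcases g with g | g
        · exact fun y => congrArg _ (T.d1.tp g y)
        · simp [Model.ext, h3.symm],
      fun g => by
        rcases g with g | g
        · exact fun y => congrArg _ (T.d1.tq g y)
        · simp [Model.ext, h4.symm]⟩
  have D2 : (M.ext h p1 q1 z3).Dig (.inl h) (.inr true) (.inr false) none (some z3) :=
    ⟨by simp, by simp, rfl, rfl, rfl, rfl, fun g => by rcases g with g | g <;> simp [Model.ext],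
      fun g => by rcases g with g | g <;> simp [Model.ext]⟩
  have a0 : ∀ l, (M.ext h p1 q1 z3).lab l = none → l = (.inl p1, true) ∨ l = (.inl q1, true) ∨
      l = (.inr true, false) ∨ l = (.inr false, false) := by
    rintro ⟨e | e, b⟩ <;> cases b <;> simp [Model.ext, or_iff_not_imp_left]
  refine ⟨⟨⟨D0, D1, D2, by simp, by simp [T.d1.zz], ?_, a0⟩, by simp [*]⟩,
    ⟨D1, D2, D3, by simp [T.d1.zz], by simp, a0, ?_⟩⟩
  · rintro ⟨e | e, b⟩ y
    · simp only [Model.ext] at y
      split_ifs at y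
      simpa using T.a2 _ (Option.some.inj y)
    · cases b
      · cases y
      · exact (T.d1.zz (Option.some.inj y).symm).elim
  · rintro ⟨e | e, b⟩ y
    · simp only [Model.ext] at y
      split_ifs at y with u
      have := T.a3 _ (Option.some.inj y)
      simp only [Prod.mk.injEq] at this
      simp only [Prod.mk.injEq, Sum.inl.injEq, reduceCtorEq, false_and, false_or]
      tauto
    · cases b
      · cases y
      · cases e <;> simp

theorem Tri2.down (T : M.Tri2 h p0 q0 p1 q1 p2 q2 z1 z2 z3 z4) {A : Finset ((E ⊕ Bool) × Bool)}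
    {t : E ⊕ Bool → Finset (E ⊕ Bool)} {Y : Finset (E ⊕ Bool)}
    (H : (M.ext h p1 q1 z3).Tour A t Y) (h1 : ind A (.inl p1, true) + ind A (.inl q1, true) = 1)
    (h2 : ind A (.inr true, true) + ind A (.inr false, true) = 1) (h3 : ∀ b, t (.inr b) = ∅) :
    M.Tour (univ.filter fun l => up l ∈ A) (fun e => univ.filter fun f => .inl f ∈ t (.inl e))
      (univ.filter fun e => .inl e ∈ Y) := by
  have I : ∀ l, ind (univ.filter fun l => up l ∈ A) l = ind A (up l) := fun l => by simp [ind]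
  obtain ⟨T1, T2⟩ := T.ext
  refine ⟨fun e f hf => by simpa using H.1 _ _ (by simpa using hf), fun e f hf => ?_,
    fun x => ?_, fun e => ?_, fun P Q hP hQ => ?_⟩
  · have := H.2.1 _ _ (mem_filter.1 hf).2
    exact ⟨fun y => this.1 (by rw [y]), this.2⟩
  · by_cases y : x = z3
    · subst y
      have := card_at A T2.d1.pq T2.d2.pq T2.d1.p1 T2.d1.q1 T2.d2.p0 T2.d2.q0 T2.a3
      rw [H.2.2.1] at this
      rw [card_at _ T.d1.pq T.d2.pq T.d1.p1 T.d1.q1 T.d2.p0 T.d2.q0 T.a3, I, I, I, I]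
      simp only [up]
      omega
    · rw [← H.2.2.1 (some x)]
      refine card_bij (fun l _ => up l) (fun l hl => ?_) (fun _ _ _ _ e => up_inj e) ?_
      · simp only [mem_filter, mem_univ, true_and] at hl ⊢
        refine ⟨hl.1, hl.2 ▸ ext_lab ?_⟩
        obtain ⟨e, b⟩ := l
        cases b
        · exact Or.inr rfl
        · refine Or.inl ⟨?_, ?_⟩ <;> rintro rfl
          exacts [y (hl.2.symm.trans T.d1.p1), y (hl.2.symm.trans T.d1.q1)]
      · rintro ⟨e | e, b⟩ hl
        · rw [mem_filter] at hl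
          simp only [Model.ext] at hl
          split_ifs at hl
          · simp at hl
          · exact ⟨(e, b), mem_filter.2 ⟨mem_filter.2 ⟨mem_univ _, hl.1⟩, Option.some.inj hl.2⟩, rfl⟩
        · rw [mem_filter] at hl
          cases b <;> simp [Model.ext, Ne.symm y] at hl
  · have := H.2.2.2.1 (.inl e)
    rw [card_seg] at this
    rw [card_seg, I, I]
    simp only [mem_filter, mem_univ, true_and, up]
    rw [← this]
    congr 1
    refine card_bij (fun f _ => Sum.inl f) (fun f hf => (mem_filter.1 hf).2)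
      (fun _ _ _ _ e => Sum.inl_injective e) ?_
    rintro (f | f) hf
    · exact ⟨f, by simpa using hf, rfl⟩
    · simpa [h3] using H.1 _ _ hf
  · classical
    have := H.2.2.2.2 (univ.filter fun x => x.getD z3 ∈ P)
      (univ.filter fun e => Sum.elim (· ∈ Q) (fun _ => z3 ∈ P) e) (by
        rcases hP with ⟨x, hx⟩ | ⟨e, e1, e2⟩
        · exact Or.inl ⟨some x, by simpa using hx⟩
        · exact Or.inr ⟨.inl e, by simpa using e1, by simpa using e2⟩) (by
        rcases hQ with ⟨x, hx⟩ | ⟨e, e1, e2⟩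
        · exact Or.inl ⟨some x, by simpa using hx⟩
        · exact Or.inr ⟨.inl e, by simpa using e1, by simpa using e2⟩)
    simp only [mem_filter, mem_univ, true_and] at this ⊢
    rcases this with ⟨⟨e | e, b⟩, hl, y⟩ | ⟨e | e, e1, f | f, e2, e3⟩
    · refine Or.inl ⟨(e, b), hl, ?_⟩
      simp only [Model.ext] at y
      split_ifs at y with u
      · obtain ⟨rfl | rfl, rfl⟩ := u
        · rw [T.d1.p1]; exact y
        · rw [T.d1.q1]; exact y
      · exact y
    · cases b <;> simp [Model.ext] at y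
    · exact Or.inr ⟨e, e1, f, e2, e3⟩
    · simpa [h3] using H.1 _ _ e2
    · simp [h3] at e2
    · simp [h3] at e2

theorem Tri2.pairFree (T : M.Tri2 h p0 q0 p1 q1 p2 q2 z1 z2 z3 z4) (hP : M.PairFree) :
    (M.ext h p1 q1 z3).PairFree := by
  intro A t Y A' t' Y' H H' hc
  have hc' : ∀ l, l ∈ A ↔ l ∉ A' := fun l => by rw [hc, not_not]
  obtain ⟨T1, T2⟩ := T.ext
  obtain ⟨a1, -, -⟩ := T1.toTri.whole H H' hc
  obtain ⟨a2, a3, a4⟩ := T2.whole H H' hc
  obtain ⟨b1, -, -⟩ := T1.toTri.whole H' H hc'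
  obtain ⟨b2, b3, b4⟩ := T2.whole H' H hc'
  have h3 : ∀ b, t (.inr b) = ∅ := fun b => by cases b <;> assumption
  have := hP _ _ _ _ _ _ (T.down H a1 a2 h3) (T.down H' b1 b2 fun b => by cases b <;> assumption)
    fun l => by simp [hc]
  rintro (e | e)
  · refine eq_empty_of_forall_notMem ?_
    rintro (f | f) hf
    · simpa [hf] using Finset.ext_iff.1 (this e) f
    · simpa [h3] using H.1 _ _ hf
  · exact h3 e

theorem path_up : ∀ (l : List (E × Bool)) (x y : X), (∀ a ∈ l, a.1 ≠ p ∧ a.1 ≠ q) →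
    M.Path x l y → (M.ext h p q z).Path (some x) (l.map up) (some y)
  | [], _, _, _, e => congrArg some e
  | a :: l, x, y, H, ⟨e1, e2⟩ => by
    have n := H a List.mem_cons_self
    refine ⟨e1 ▸ ext_lab (Or.inl n), ?_⟩
    have : (M.ext h p q z).lab ((up a).1, !(up a).2) = some (M.lab (a.1, !a.2)) :=
      ext_lab (l := (a.1, !a.2)) (Or.inl n)
    rw [this]
    exact path_up l _ y (fun b hb => H b (List.mem_cons_of_mem _ hb)) e2

theorem tour_up {C : List (E × Bool)} (b : Bool) (he : e = p ∨ e = q)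
    (e1 : M.lab (e, true) = z) (H : ∀ a ∈ C, a.1 ≠ p ∧ a.1 ≠ q)
    (c1 : M.Path z' ((e, false) :: C) z') (c2 : (((e, false) :: C).map M.lab).Nodup)
    (c3 : (((e, false) :: C).map Prod.fst).Nodup) :
    (M.ext h p q z).Path (some z') ((.inl e, false) :: (.inr b, false) :: C.map up) (some z') ∧
    (((.inl e, false) :: (.inr b, false) :: C.map up).map (M.ext h p q z).lab).Nodup ∧
    ((((.inl e, false) :: (.inr b, false) :: C.map up) : List ((E ⊕ Bool) × Bool)).map
      Prod.fst).Nodup := by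
  have l0 : (M.ext h p q z).lab (.inl e, false) = some (M.lab (e, false)) :=
    ext_lab (l := (e, false)) (Or.inr rfl)
  have l1 : (C.map up).map (M.ext h p q z).lab = (C.map M.lab).map some := by
    rw [List.map_map, List.map_map]
    exact List.map_congr_left fun a ha => ext_lab (Or.inl (H a ha))
  have l2 : (C.map up).map Prod.fst = (C.map Prod.fst).map Sum.inl := by
    rw [List.map_map, List.map_map]
    rfl
  refine ⟨⟨c1.1 ▸ l0, by simp [Model.ext, he], path_up C _ _ H (e1 ▸ c1.2)⟩, ?_, ?_⟩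
  · have := c2.map (Option.some_injective X)
    rw [List.map_cons, List.map_cons, List.nodup_cons] at this
    rw [List.map_cons, List.map_cons, l0, l1]
    exact List.nodup_cons.2 ⟨by simpa [Model.ext] using this.1,
      List.nodup_cons.2 ⟨by simp [Model.ext], this.2⟩⟩
  · have := c3.map (Sum.inl_injective (β := Bool))
    rw [List.map_cons, List.map_cons, List.nodup_cons] at this
    rw [List.map_cons, List.map_cons, l2]
    exact List.nodup_cons.2 ⟨by simpa using this.1, List.nodup_cons.2 ⟨by simp, this.2⟩⟩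

theorem Tri2.ok (T : M.Tri2 h p0 q0 p1 q1 p2 q2 z1 z2 z3 z4) {e0 : E} {C D : List (E × Bool)}
    (O : Ok M e0 ((p1, false) :: C) ((q1, false) :: D) z2 z2) :
    Ok (M.ext h p1 q1 z3) (.inl e0) ((.inl p1, false) :: (.inr true, false) :: C.map up)
      ((.inl q1, false) :: (.inr false, false) :: D.map up) (some z2) (some z2) := by
  have c3 := O.c3
  have d3 := O.d3
  rw [List.map_cons, List.nodup_cons] at c3 d3
  obtain ⟨a1, a2, a3⟩ := tour_up (h := h) true (Or.inl rfl) T.d1.p1 (fun a ha =>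
    ⟨fun y => c3.1 (List.mem_map.2 ⟨a, ha, y⟩),
      O.hCD a (List.mem_cons_of_mem _ ha) _ List.mem_cons_self⟩) O.c1 O.c2 O.c3
  obtain ⟨b1, b2, b3⟩ := tour_up (h := h) false (Or.inr rfl) T.d1.q1 (fun a ha =>
    ⟨(O.hCD _ List.mem_cons_self a (List.mem_cons_of_mem _ ha)).symm,
      fun y => d3.1 (List.mem_map.2 ⟨a, ha, y⟩)⟩) O.d1 O.d2 O.d3
  have conn : ∀ e, Relation.ReflTransGen (fun e f => (M.ext h p1 q1 z3).T e f = true ∨
      (M.ext h p1 q1 z3).T f e = true) (.inl e0) (.inl e) := fun e =>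
    (O.hT e).lift Sum.inl fun _ _ y => y
  refine ⟨?_, T.pairFree O.hP, fun _ => rfl, by simp [O.hE]; omega, by simpa using O.c0, a1, a2,
    a3, by simpa using O.d0, b1, b2, b3, ?_⟩
  · rintro (e | e)
    · exact conn e
    · exact (conn h).tail (Or.inr (by simp [Model.ext]))
  · have H := O.hCD
    simp only [List.mem_cons, List.mem_map, forall_eq_or_imp, forall_exists_index, and_imp,
      forall_apply_eq_imp_iff₂, up, ne_eq, Sum.inl.injEq, reduceCtorEq, not_false_eq_true,
      true_and, implies_true, and_true, Sum.inr.injEq] at H ⊢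
    exact H

end Model

theorem fails_all (n : ℕ) : ∀ {X E : Type} [Fintype X] [DecidableEq X] [Fintype E] [DecidableEq E]
    {M : Model X E} {h p0 q0 p1 q1 p2 q2 e0 : E} {z1 z2 z3 z4 : X} {C D : List (E × Bool)},
    M.Tri2 h p0 q0 p1 q1 p2 q2 z1 z2 z3 z4 → Ok M e0 ((p1, false) :: C) ((q1, false) :: D) z2 z2 →
    Fails (Fintype.card X + n + 1) := by
  induction n with
  | zero => exact fun _ O => O.fails
  | succ n ih =>
    intro X E _ _ _ _ M h p0 q0 p1 q1 p2 q2 e0 z1 z2 z3 z4 C D T O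
    have := ih T.ext.1 (T.ok O)
    rwa [Fintype.card_option, add_assoc _ 1 n, add_comm 1 n] at this

end Pool.Agent.Lib.MP_4f0fb4_co.RZ
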