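import Pool.Agent.Lib.MP_4f0fb4_co.Cv33
import Pool.Agent.Lib.MP_4f0fb4_co.Cv34
import Pool.Agent.Lib.MP_4f0fb4_co.Cv35
import Pool.Agent.Lib.MP_4f0fb4_co.Cv36

namespace Pool.Agent.Lib.MP_4f0fb4_co.RZ

theorem fails_of_le (k : ℕ) (hk : 34 ≤ k) : Fails k := by
  by_cases h : 37 ≤ k
  · have := fails_all (k - 37) Cv36.tri Cv36.ok
    rwa [Fintype.card_fin, show 36 + (k - 37) + 1 = k by omega] at this
  · have a := Cv33.ok.fails
    have b := Cv34.ok.fails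
    have c := Cv35.ok.fails
    rw [Fintype.card_fin] at a b c
    obtain rfl | rfl | rfl : k = 34 ∨ k = 35 ∨ k = 36 := by omega
    exacts [a, b, c]

end Pool.Agent.Lib.MP_4f0fb4_co.RZ
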