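import Pool.Agent.Lib.MP_4f0fb4_co.Piece

/-!
Every thin position is the left end of a piece of large weight.
-/

namespace Pool.Agent.Lib.MP_4f0fb4_co

open Finset

variable {V : Type} {r : V → V → Prop} {C : Set V}

theorem Conn.acc {A : Set V} {y w : V} {l : List V} (h : Conn r y w l) (hl : ∀ v ∈ l, v ∈ A)
    (hw : w ∈ A) : Acc r A y w := by
  obtain ⟨u, h1, h2⟩ := h
  cases h1 with
  | one => exact ⟨w, h2, Rch.refl hw⟩
  | cons h3 h4 => exact ⟨_, h3, Rch.tail ⟨l, h4, hl⟩ h2 hw⟩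

theorem Acc.priv {M Z : Set V} {y u : V} (h : Acc r M y u) (hu : u ∈ Z) :
    ∃ w ∈ Z, ∀ v ∈ Z, v ≠ w → Acc r (M \ {v}) y w := by
  obtain ⟨w, h1, h2, l, h3, -, h4⟩ := h.first hu
  exact ⟨w, h1, fun v hv hne => h3.acc
    (fun x hx => ⟨(h4 x hx).1, fun e => (h4 x hx).2 (e ▸ hv)⟩) ⟨h2, hne.symm⟩⟩

theorem arithA {D n κ a : ℝ} (hn : 5 ≤ n) (hD : 0 ≤ D) (h : 2 * (D - 4) ≤ 7 * n)
    (ha : κ * (18 * (n - 2) - D) ≤ a * (18 * (n - 2))) :
    ∃ cap, 0 ≤ cap ∧ cap ≤ (n + 2) / 2 + 2 ∧ 5 * cap ≤ D ∧ κ * D ≤ 9 * a * cap := by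
  have h1 : 0 < 18 * (n - 2) - D := by linarith
  refine ⟨2 * D * (n - 2) / (18 * (n - 2) - D), div_nonneg (by nlinarith) h1.le, ?_, ?_, ?_⟩
  · rw [div_le_iff₀ h1]; nlinarith
  · rw [← mul_div_assoc, div_le_iff₀ h1]; nlinarith
  · rw [← mul_div_assoc, le_div_iff₀ h1]; nlinarith

namespace Line

variable {b : ℕ → V} {p : ℕ} (h : Line r C b p)
include h

theorem few {α β : ℕ} (hβ : β < p) {T : Finset ℕ} (hT : T ⊆ Ioo α β) (z z' : V) :
    ∃ T' ⊆ T, T.card ≤ T'.card + 2 ∧ ∀ t ∈ T', b t ≠ z ∧ b t ≠ z' := by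
  classical
  refine ⟨T.filter fun t => b t ≠ z ∧ b t ≠ z', filter_subset _ _, ?_, by simp⟩
  rw [← card_filter_add_card_filter_not (s := T) fun t => b t ≠ z ∧ b t ≠ z']
  refine Nat.add_le_add_left (le_trans (card_le_card_of_injOn (t := {z, z'}) b ?_ ?_) card_le_two) _
  · intro t ht
    have := (mem_filter.1 ht).2
    simp only [coe_insert, coe_singleton, Set.mem_insert_iff, Set.mem_singleton_iff]
    tauto
  · intro s hs t ht e
    have := mem_Ioo.1 (hT (mem_filter.1 hs).1)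
    have := mem_Ioo.1 (hT (mem_filter.1 ht).1)
    exact h.inj s (by omega) t (by omega) e

theorem single [Finite V] {κ : ℕ} (hK : KC r C (κ + 4)) {α β : ℕ} {M : Set V} {z z' : V}
    (R : Reg r C b p α β M z z') (hαβ : α + 4 ≤ β) (hβ : β < p) {cap : ℝ} (hc : cap ≤ 2) :
    ∃ N : Finset V, N.card = κ ∧ Piece r C b p α β M N cap := by
  classical
  obtain ⟨T, h1, h2, h3⟩ := h.few hβ (Subset.refl (Ioo α β)) z z'
  obtain ⟨t, ht⟩ : T.Nonempty := card_pos.1 (by rw [Nat.card_Ioo] at h2; omega)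
  have h4 := mem_Ioo.1 (h1 ht)
  obtain ⟨y, F, f1, f2, -⟩ := h.fan' hK R (R.mem t h4.1 h4.2 (h3 t ht).1 (h3 t ht).2)
  refine ⟨univ.image y, by rw [card_image_of_injective _ f1]; simp,
    h.small (fun v hv => (R.off v hv).1) R.win (fun v hv => ?_) hc⟩
  obtain ⟨i, -, rfl⟩ := mem_image.1 hv
  exact ⟨(f2 i).1, t, by omega, (f2 i).2.2.mono (f2 i).2.1⟩

theorem heavy [Finite V] {κ : ℕ} (hK : KC r C (κ + 4)) {τ α β : ℕ} {M : Set V} {z z' : V}
    (R : Reg r C b p α β M z z') (h1 : τ ≤ α) (h2 : α < τ + 4) (h3 : τ + 19 ≤ β) (hβ : β < p)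
    (ht : ∀ v, α < v → v < β → ∀ z, ¬Sep r C b p v z) :
    ∃ N cap, Piece r C b p τ β M N cap ∧ 0 ≤ cap ∧ 5 * cap ≤ (β : ℝ) - τ ∧
      κ * ((β : ℝ) - τ) ≤ 9 * N.card * cap := by
  classical
  obtain ⟨Z, z1, z2, ⟨i, i1, i2⟩, ⟨j, j1, j2, j3⟩, T, t1, t2, t3⟩ := h.thick (by omega) hβ ht
  obtain ⟨T', t4, t5, t6⟩ := h.few hβ t1 z z'
  have tw : ∀ t ∈ T, α < t ∧ t < β := fun t ht => mem_Ioo.1 (t1 ht)
  have off : ∀ v ∈ M, v ∉ C := fun v hv => (R.off v hv).1
  have win : ∀ t < p, b t ∈ M → τ < t ∧ t < β := fun t h4 h5 => by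
    have := R.win t h4 h5; omega
  have hZ : T.card + 2 ≤ Z.length := by
    have e : (insert i (insert j T)).card = T.card + 2 := by
      rw [card_insert_of_notMem, card_insert_of_notMem]
      · intro h4; have := tw j h4; omega
      · simp only [mem_insert, not_or]
        exact ⟨by omega, fun h4 => by have := tw i h4; omega⟩
    rw [← e, ← List.toFinset_card_of_nodup z1.1]
    have hp : ∀ t ∈ insert i (insert j T), t < p ∧ b t ∈ Z := by
      simp only [mem_insert, forall_eq_or_imp]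
      exact ⟨⟨by omega, i2⟩, ⟨j2, j3⟩, fun t ht => ⟨by have := tw t ht; omega, t2 t ht⟩⟩
    exact card_le_card_of_injOn b (fun t ht => by simpa using (hp t ht).2)
      fun s hs t ht => h.inj s (hp s hs).1 t (hp t ht).1
  choose y F f1 f2 f3 using fun t : T' => h.fan' hK R
    (R.mem t (tw t (t4 t.2)).1 (tw t (t4 t.2)).2 (t6 t t.2).1 (t6 t t.2).2)
  have acc : ∀ t : T', ∀ s, y t s ∈ C ∧ ∃ t' < p, Acc r M (y t s) (b t') := fun t s =>
    ⟨(f2 t s).1, t, by have := tw t (t4 t.2); omega, (f2 t s).2.2.mono (f2 t s).2.1⟩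
  let Q : T' → Fin κ → Prop := fun t s => ∃ w ∈ Z, Acc r (M \ {b t}) (y t s) w
  have c1 : (5 : ℝ) ≤ T.card := by exact_mod_cast (show 5 ≤ T.card by omega)
  have c2 : (τ : ℝ) + 19 ≤ β := by exact_mod_cast h3
  have c3 : 2 * ((β : ℝ) - τ - 4) ≤ 7 * T.card := by
    have : ((2 * β : ℕ) : ℝ) ≤ (7 * T.card + 2 * τ + 8 : ℕ) := by exact_mod_cast (by omega)
    push_cast at this; linarith
  by_cases hA : ∃ t, (κ : ℝ) * (18 * (T.card - 2) - (β - τ)) ≤
      (univ.filter (Q t)).card * (18 * (T.card - 2))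
  · obtain ⟨t, hA⟩ := hA
    obtain ⟨cap, d1, d2, d3, d4⟩ := arithA c1 (by linarith) c3 hA
    have d5 : cap ≤ Z.length / 2 + 2 := by
      have : (T.card : ℝ) + 2 ≤ Z.length := by exact_mod_cast hZ
      linarith
    refine ⟨(univ.filter (Q t)).image (y t), cap, ⟨off, win, ?_, ?_, ?_⟩, d1, d3,
      by rwa [card_image_of_injective _ (f1 t)]⟩
    · intro v hv
      obtain ⟨s, -, rfl⟩ := mem_image.1 hv
      exact acc t s
    · intro v hv v' hv' hne
      obtain ⟨s, -, rfl⟩ := mem_image.1 hv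
      obtain ⟨s', hs, rfl⟩ := mem_image.1 hv'
      obtain ⟨w, w1, w2⟩ := (mem_filter.1 hs).2
      obtain ⟨A, a1, A', a2, a3, u, a4, u', a5, a6, a7⟩ := double (Z := {v | v ∈ Z}) off
        (f2 t s).1 (f2 t s').1 hne (t2 t (t4 t.2)) w1 (f2 t s).2.1 (f2 t s').2.1 (f2 t s).2.2
        (f2 t s').2.2 (f3 t s s' fun e => hne (by rw [e])) w2
      exact (cp_cyc h.symm z1 z2 a3 (fun v hv => off v (a1 hv)) (fun v hv => off v (a2 hv))
        a6 a4 a7 a5).mono d5
    · intro v hv y' t' h4 h5 h6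
      obtain ⟨s, -, rfl⟩ := mem_image.1 hv
      have key : ∀ u < p, b u ∈ Z → (∀ x, min t' u ≤ x → x ≤ max t' u → x ≤ α ∨ β ≤ x) →
          CP r C (y t s) y' cap := fun u u1 u2 u3 =>
        (cp_cyc h.symm z1 z2 Set.disjoint_sdiff_right off (fun v hv => hv.1)
          ((f2 t s).2.2.mono (f2 t s).2.1) (t2 t (t4 t.2))
          (h6.trans (h.seg_rch h4 u1 fun x x1 x2 => ⟨h.off x (by omega), fun x3 => by
            have := R.win x (by omega) x3; have := u3 x x1 x2; omega⟩)) u2).mono d5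
      rcases h5 with h5 | h5
      · exact key i (by omega) i2 (by omega)
      · exact key j j2 j3 (by omega)
  · simp only [not_exists, not_le] at hA
    refine ⟨univ.biUnion fun t => (univ.filter fun s => ¬Q t s).image (y t), 2,
      h.small off win (fun v hv => ?_) le_rfl, by norm_num, by linarith, ?_⟩
    · obtain ⟨t, -, hv⟩ := mem_biUnion.1 hv
      obtain ⟨s, -, rfl⟩ := mem_image.1 hv
      exact acc t s
    rw [card_biUnion]
    · have e : ∀ t : T', (κ : ℝ) * (β - τ) ≤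
          ((univ.filter fun s => ¬Q t s).image (y t)).card * (18 * (T.card - 2)) := fun t => by
        rw [card_image_of_injective _ (f1 t)]
        have := card_filter_add_card_filter_not (s := univ) (Q t)
        rw [card_univ, Fintype.card_fin] at this
        have : ((univ.filter (Q t)).card : ℝ) + (univ.filter fun s => ¬Q t s).card = κ := by
          exact_mod_cast this
        have := hA t
        nlinarith
      have e1 := sum_le_sum fun t (_ : t ∈ univ) => e t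
      rw [sum_const, card_univ, Fintype.card_coe, nsmul_eq_mul, ← sum_mul] at e1
      have e2 : (T.card : ℝ) ≤ T'.card + 2 := by exact_mod_cast t5
      have e3 : (0 : ℝ) ≤ κ * (β - τ) := mul_nonneg (Nat.cast_nonneg _) (by linarith)
      push_cast
      refine le_of_mul_le_mul_right ?_ (show (0 : ℝ) < T.card - 2 by linarith)
      have := mul_le_mul_of_nonneg_left (show (T.card : ℝ) - 2 ≤ T'.card by linarith) e3
      linarith
    · intro t _ t' _ hne
      refine disjoint_left.2 fun v hv hv' => ?_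
      obtain ⟨s, hs, rfl⟩ := mem_image.1 hv
      obtain ⟨s', hs', e⟩ := mem_image.1 hv'
      obtain ⟨w, w1, w2⟩ := ((f2 t s).2.2.mono (f2 t s).2.1).priv (Z := {v | v ∈ Z})
        (t2 t (t4 t.2))
      by_cases e' : b t = w
      · refine (mem_filter.1 hs').2 ⟨w, w1, e ▸ w2 _ (t2 t' (t4 t'.2)) fun e'' => hne ?_⟩
        have := tw t (t4 t.2)
        have := tw t' (t4 t'.2)
        exact Subtype.ext (h.inj _ (by omega) _ (by omega) (e'.trans e''.symm))
      · exact (mem_filter.1 hs).2 ⟨w, w1, w2 _ (t2 t (t4 t.2)) e'⟩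

theorem piece [Finite V] {κ : ℕ} (hK : KC r C (κ + 4)) {z : ℕ → V}
    (hz : ∀ x, (∃ z, Sep r C b p x z) → Sep r C b p x (z x))
    (hn : ∀ x' x, x' < x → x < p → (∃ z, Sep r C b p x' z) → (∃ z, Sep r C b p x z) →
      Lft r C b x' (z x') ⊆ Lft r C b x (z x))
    {τ : ℕ} (hτ : (∃ z, Sep r C b p τ z) ∧ τ + 4 < p) :
    ∃ τ' M N cap, τ + 4 ≤ τ' ∧ τ' < p ∧ (∃ z, Sep r C b p τ' z) ∧ Piece r C b p τ τ' M N cap ∧
      M ⊆ Lft r C b τ' (z τ') \ Lft r C b τ (z τ) ∧ 0 ≤ cap ∧ 5 * cap ≤ (τ' : ℝ) - τ ∧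
      κ * ((τ' : ℝ) - τ) ≤ 9 * N.card * cap := by
  classical
  have ex : ∃ x, τ + 4 ≤ x ∧ x < p ∧ ∃ z, Sep r C b p x z :=
    ⟨p - 1, by omega, by omega, b 0, fun i _ j _ _ => by omega⟩
  obtain ⟨b1, b2, b3⟩ := Nat.find_spec ex
  have b4 := fun x => Nat.find_min ex (m := x)
  set β := Nat.find ex
  have b5 : (τ : ℝ) + 4 ≤ β := by exact_mod_cast b1
  by_cases hΔ : β ≤ τ + 18
  · have b6 : (β : ℝ) ≤ τ + 18 := by exact_mod_cast hΔ
    obtain ⟨N, n1, n2⟩ := h.single hK (h.reg (by omega) b2 (hz τ hτ.1) (hz β b3)) b1 b2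
      (cap := ((β : ℝ) - τ) / 9) (by linarith)
    exact ⟨β, _, N, _, b1, b2, b3, n2, fun v hv => ⟨hv.1, fun h1 => hv.2 (Or.inl h1)⟩,
      by linarith, by linarith, by rw [n1]; linarith⟩
  · let P := fun x => ∃ z, Sep r C b p x z
    have a1 : P (Nat.findGreatest P (τ + 3)) := Nat.findGreatest_spec (m := τ) (by omega) hτ.1
    have a2 := Nat.findGreatest_le (P := P) (τ + 3)
    have a3 := Nat.le_findGreatest (P := P) (n := τ + 3) (by omega) hτ.1
    have a4 := fun x => Nat.findGreatest_is_greatest (P := P) (n := τ + 3) (k := x)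
    set α := Nat.findGreatest P (τ + 3)
    obtain ⟨N, cap, n1, n2⟩ := h.heavy hK (h.reg (by omega) b2 (hz α a1) (hz β b3)) a3 (by omega)
      (by omega) b2 fun v v1 v2 w hw => by
        by_cases v3 : v ≤ τ + 3
        · exact a4 v v1 v3 ⟨w, hw⟩
        · exact b4 v v2 ⟨by omega, by omega, w, hw⟩
    refine ⟨β, _, N, cap, b1, b2, b3, n1, fun v hv => ⟨hv.1, fun h1 => hv.2 (Or.inl ?_)⟩, n2⟩
    rcases a3.eq_or_lt with e | e
    · exact e ▸ h1
    · exact hn τ α e (by omega) hτ.1 a1 h1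

end Line

end Pool.Agent.Lib.MP_4f0fb4_co
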