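import Pool.Agent.Lib.MP_4f0fb4_co.Count

/-!
Two longest cycles of a `k`-connected graph: the bound for lists, and the passage to walks.
-/

namespace Pool.Agent.Lib.MP_4f0fb4_co

open Finset

variable {V : Type} {r : V → V → Prop} {C : Set V}

def KConn (r : V → V → Prop) (k : ℕ) : Prop :=
  ∀ S : Finset V, S.card < k → ∀ u ∉ S, ∀ v ∉ S, Rch r (↑S : Set V)ᶜ u v

theorem exists_out {L : List V} (hL : L.Nodup) {S : Finset V} (h : S.card < L.length) :
    ∃ c ∈ L, c ∉ S := by
  classical
  obtain ⟨c, h1, h2⟩ := exists_mem_notMem_of_card_lt_card (s := S) (t := L.toFinset)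
    (by rwa [List.toFinset_card_of_nodup hL])
  exact ⟨c, by simpa using h1, h2⟩

theorem KConn.kc {L : List V} (hL : L.Nodup) {k k' : ℕ} (h : KConn r k) (h1 : k' ≤ k)
    (h2 : k' ≤ L.length) : KC r {v | v ∈ L} k' := fun S hS v hv =>
  let ⟨c, c1, c2⟩ := exists_out hL (hS.trans_le h2)
  ⟨c, c1, h S (hS.trans_le h1) v hv c c2⟩

theorem Longest.two_mul [Finite V] {L : List V} (hL : Longest r L) {k : ℕ} (hk : 2 ≤ k)
    (hK : KC r {v | v ∈ L} k) {v : V} (hv : v ∉ L) : 2 * k ≤ L.length := by
  classical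
  obtain ⟨y, F, f1, f2, -⟩ := fan hL.symm hK (M := {v | v ∈ L}ᶜ) (D := ∅) (κ := k) (v := v)
    (fun v hv => ⟨hv, by simp⟩) (fun _ _ w _ => by by_cases h : w ∈ L <;> simp [h]) (by simp) hv
  have e : (univ.image y).card = k := by rw [card_image_of_injective _ f1]; simp
  have := hL.count (Y := univ.image y) (W := fun _ => 1) (K := 1) (fun v hv => by
    obtain ⟨i, -, rfl⟩ := mem_image.1 hv
    exact (f2 i).1) (by omega) (by
      intro w hw w' hw' _ q hq
      obtain ⟨i, -, rfl⟩ := mem_image.1 hw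
      obtain ⟨j, -, rfl⟩ := mem_image.1 hw'
      have := hq _ (cp_two hL.symm ((f2 i).2.2.mono (f2 i).2.1) ((f2 j).2.2.mono (f2 j).2.1)
        (Rch.refl hv))
      linarith)
  rw [sum_const, e, nsmul_eq_mul, mul_one, one_mul] at this
  exact_mod_cast this

theorem Longest.meet [Finite V] {L D : List V} (hL : Longest r L) (hD : Cyc r D)
    (h1 : L.length ≤ D.length) (h2 : 2 ≤ D.length) (hK : KC r {v | v ∈ L} 2) : ∃ v ∈ D, v ∈ L := by
  classical
  by_contra hc
  simp only [not_exists, not_and] at hc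
  obtain ⟨W, w1, w2⟩ := menger (r := fun x w => r x w ∧ w ∉ L) (A := {v | v ∈ L})
    (B := {v | v ∈ D}) (k := 2) (by
      intro S hS
      obtain ⟨d, d1, d2⟩ := exists_out hD.1 (hS.trans_le h2)
      obtain ⟨c, c1, c2⟩ := hK S hS d d2
      have := c2.ind (P := fun u => (∃ a ∈ L, Rch (fun x w => r x w ∧ w ∉ L) (↑S : Set V)ᶜ a d) ∨
          u ∉ L ∧ Rch (fun x w => r x w ∧ w ∉ L) (↑S : Set V)ᶜ u d)
        (Or.inr ⟨hc d d1, Rch.refl d2⟩) (by
          rintro u w (h3 | h3) - h5 h6
          · exact Or.inl h3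
          have := (Rch.refl (r := fun x w => r x w ∧ w ∉ L) h5).step ⟨hL.symm _ _ h6, h3.1⟩ h3.2
          by_cases hw : w ∈ L
          · exact Or.inl ⟨w, hw, this⟩
          · exact Or.inr ⟨hw, this⟩)
      obtain ⟨a, a1, a2⟩ := this.resolve_right fun h => h.1 c1
      exact ⟨a, a1, d, d1, a2⟩)
  have key : ∀ i, ∃ a ∈ L, a ∈ W i ∧ ∃ u ∈ D, Acc r (W i ∩ {v | v ∈ L}ᶜ) a u := fun i => by
    obtain ⟨a, ha, u, hu, h3⟩ := w2 i
    refine ⟨a, ha, h3.left, u, hu, ?_⟩
    have := h3.ind (P := fun u => u = a ∨ Acc r (W i ∩ {v | v ∈ L}ᶜ) a u) (Or.inl rfl) (by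
      rintro x x' (rfl | ⟨c, h4, h5⟩) _ h7 h8
      · exact Or.inr ⟨x', h8.1, Rch.refl ⟨h7, h8.2⟩⟩
      · exact Or.inr ⟨c, h4, h5.tail h8.1 ⟨h7, h8.2⟩⟩)
    exact this.resolve_left fun e => hc u hu (e ▸ ha)
  have hd := w1 0 1 (by decide)
  obtain ⟨a, ha, b1, u, hu, b2⟩ := key 0
  obtain ⟨a', ha', b3, u', hu', b4⟩ := key 1
  have hne : a ≠ a' := fun e => Set.disjoint_left.1 hd b1 (e ▸ b3)
  have cp := cp_cyc (C := {v | v ∈ L}) hL.symm hD hc
    (hd.mono Set.inter_subset_left Set.inter_subset_left) (fun _ h => h.2) (fun _ h => h.2)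
    b2 hu b4 hu'
  have := hL.count (Y := {a, a'}) (W := fun _ => D.length / 2 + 2) (K := 2)
    (by simp [ha, ha']) (by rw [card_pair hne]) (by
      intro y hy y' hy' h3 q hq
      simp only [mem_insert, mem_singleton] at hy hy'
      rcases hy with rfl | rfl <;> rcases hy' with rfl | rfl
      · exact (h3 rfl).elim
      · have := hq _ cp; linarith
      · have := hq _ (cp.symm hL.symm); linarith
      · exact (h3 rfl).elim)
  rw [sum_pair hne] at this
  have : (L.length : ℝ) ≤ D.length := by exact_mod_cast h1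
  linarith

theorem Wk.chain {a e : V} {l : List V} (h : Wk r a e l) : l.IsChain r := by
  induction h with
  | one a => simp
  | cons h1 h2 ih =>
    obtain ⟨t, rfl⟩ := h2.eq_cons
    exact List.IsChain.cons_cons h1 ih

theorem cover [DecidableEq V] {L : List V} {p : ℕ}
    (hp : ∀ l : List V, l.IsChain r → l.Nodup → (∀ v ∈ l, v ∉ L) → l.length ≤ p)
    (l s : List V) (h1 : (s ++ l).IsChain r) (h2 : (s ++ l).Nodup) (h3 : ∀ v ∈ s, v ∉ L) :
    s.length + l.length ≤ p + (p + 1) * (l.filter (· ∈ L)).length := by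
  induction l generalizing s with
  | nil => simpa using hp s (by simpa using h1) (by simpa using h2) h3
  | cons a l ih =>
    by_cases ha : a ∈ L
    · have := hp s h1.left_of_append h2.of_append_left h3
      have := ih [] h1.right_of_append.tail h2.of_append_right.of_cons (by simp)
      simp only [List.filter_cons, ha, decide_true, if_true, List.length_cons, List.length_nil,
        mul_add] at this ⊢
      omega
    · have := ih (s ++ [a]) (by simpa using h1) (by simpa using h2) (by
        simpa [or_imp, forall_and, ha] using h3)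
      simp only [List.filter_cons, ha, decide_false, List.length_cons, List.length_nil,
        List.length_append, Bool.false_eq_true, if_false] at this ⊢
      omega

theorem main [Fintype V] [DecidableEq V] {k : ℕ} (hk : 2 ≤ k) (hV : k < Fintype.card V)
    (hK : KConn r k) {L D : List V} (hL : Longest r L) (hD : Longest r D) (h3 : 3 ≤ L.length)
    (h3' : 3 ≤ D.length) : k ≤ 23 * (L.toFinset ∩ D.toFinset).card + 4 := by
  classical
  have e1 := hL.max D hD.cyc h3'
  have e2 := hD.max L hL.cyc h3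
  obtain ⟨a, a1, a2⟩ := hL.meet hD.cyc e2 (by omega) (hK.kc hL.cyc.1 hk (by omega))
  let P := fun n => ∃ l : List V, l.IsChain r ∧ l.Nodup ∧ (∀ v ∈ l, v ∉ L) ∧ l.length = n
  obtain ⟨l, l1, l2, l3, l4⟩ : P (Nat.findGreatest P (Fintype.card V)) :=
    Nat.findGreatest_spec (m := 0) (by omega) ⟨[], by simp⟩
  have hp : ∀ l' : List V, l'.IsChain r → l'.Nodup → (∀ v ∈ l', v ∉ L) → l'.length ≤ l.length :=
    fun l' h1 h2 h3 => l4 ▸ Nat.le_findGreatest h2.length_le_card ⟨l', h1, h2, h3, rfl⟩
  have hm : L.length ≤ (l.length + 1) * (L.toFinset ∩ D.toFinset).card := by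
    obtain ⟨s, t, rfl⟩ := List.append_of_mem a1
    obtain ⟨n1, _, _, n2, -⟩ := hD.cyc.rot
    have := cover hp (t ++ s) [] n2.chain.tail n1.of_cons (by simp)
    have e : (L.toFinset ∩ (s ++ a :: t).toFinset).card =
        ((a :: t ++ s).filter (· ∈ L)).length := by
      rw [← List.toFinset_card_of_nodup (n1.filter _)]
      congr 1; ext v
      simp only [mem_inter, List.mem_toFinset, List.mem_append, List.mem_cons, List.mem_filter,
        decide_eq_true_eq]
      tauto
    rw [e]
    simp only [List.cons_append, List.filter_cons, a2, decide_true, if_true, List.length_cons,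
      List.length_nil, List.length_append, mul_add] at this e2 ⊢
    omega
  have m1 : 1 ≤ (L.toFinset ∩ D.toFinset).card := card_pos.2 ⟨a, by simp [a1, a2]⟩
  generalize (L.toFinset ∩ D.toFinset).card = m at *
  by_cases hall : ∀ v, v ∈ L
  · have : l = [] := List.eq_nil_iff_forall_not_mem.2 fun v hv => l3 v hv (hall v)
    have e : L.toFinset = univ := eq_univ_of_forall fun v => by simp [hall v]
    have := List.toFinset_card_of_nodup hL.cyc.1
    rw [e, card_univ] at this
    subst l
    simp at hm; omega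
  obtain ⟨v, hv⟩ := not_forall.1 hall
  have c1 := hL.two_mul (k := min k L.length) (by omega)
    (hK.kc hL.cyc.1 (min_le_left _ _) (min_le_right _ _)) hv
  by_cases c2 : l.length + 1 ≤ 46
  · have := Nat.mul_le_mul_right m c2
    omega
  by_cases c3 : k ≤ 27
  · omega
  obtain ⟨κ, rfl⟩ : ∃ κ, k = κ + 4 := ⟨k - 4, by omega⟩
  have := hL.bound (b := fun i => l.getD i a) (p := l.length) ⟨hL.symm, fun i hi j hj e => by
      simpa [hi, hj, l2.getElem_inj_iff] using e, fun i hi => by
      simpa [hi, show i < l.length by omega] using List.isChain_iff_getElem.1 l1 i hi,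
      fun i hi => by simpa [hi] using l3 _ (List.getElem_mem hi)⟩
    (hK.kc hL.cyc.1 le_rfl (by omega)) (by omega)
  have c4 : (L.length : ℝ) ≤ (l.length + 1) * m := by exact_mod_cast hm
  have c5 : (46 : ℝ) ≤ l.length := by exact_mod_cast (by omega)
  have c6 : (1 : ℝ) ≤ m := by exact_mod_cast m1
  have : (κ : ℝ) ≤ 23 * m := by
    refine le_of_mul_le_mul_right ?_ (show (0 : ℝ) < l.length - 4 by linarith)
    nlinarith
  have : κ ≤ 23 * m := by exact_mod_cast this
  omega

variable {G : SimpleGraph V}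

theorem wk_of_walk {u v : V} (w : G.Walk u v) : Wk G.Adj u v w.support := by
  induction w with
  | nil => exact Wk.one _
  | cons h _ ih => exact Wk.cons h ih

theorem Wk.walk {u v : V} {l : List V} (h : Wk G.Adj u v l) : ∃ w : G.Walk u v, w.support = l := by
  induction h with
  | one a => exact ⟨.nil, rfl⟩
  | cons h1 _ ih => obtain ⟨w, rfl⟩ := ih; exact ⟨.cons h1 w, rfl⟩

theorem longest_of {u : V} {p : G.Walk u u} (hp : p.IsCycle)
    (h : ∀ (w : V) (c : G.Walk w w), c.IsCycle → c.length ≤ p.length) :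
    ∃ L, Longest G.Adj L ∧ 3 ≤ L.length ∧ ∀ v, v ∈ p.support ↔ v ∈ L := by
  have h3 := hp.three_le_length
  cases p with
  | nil => simp at h3
  | cons h1 p =>
    refine ⟨p.support, ⟨fun _ _ => SimpleGraph.Adj.symm, ⟨by simpa using hp.support_nodup, _, _,
      wk_of_walk p, h1⟩, ?_⟩, by simpa using h3, fun v => by
        simpa using fun e => e ▸ p.end_mem_support⟩
    rintro l ⟨l1, a, e, l2, l3⟩ l4
    obtain ⟨w, rfl⟩ := l2.walk
    simpa using h e (.cons l3 w) (SimpleGraph.Walk.isCycle_iff_isPath_tail_and_le_length.2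
      ⟨by simpa [SimpleGraph.Walk.isPath_def] using l1, by simpa using l4⟩)

theorem kconn_of {k : ℕ}
    (h : ∀ S : Finset V, S.card < k → (G.induce ((↑S : Set V)ᶜ)).Connected) : KConn G.Adj k := by
  intro S hS u hu v hv
  obtain ⟨w⟩ := (h S hS).preconnected ⟨u, hu⟩ ⟨v, hv⟩
  have : ∀ (x y : ((↑S : Set V)ᶜ : Set V)) (w : (G.induce ((↑S : Set V)ᶜ)).Walk x y),
      Rch G.Adj (↑S : Set V)ᶜ x y := fun x y w => by
    induction w with
    | @nil x => exact Rch.refl x.2
    | @cons x _ _ h1 _ ih => exact (Rch.refl x.2).step h1 ih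
  exact this _ _ w

end Pool.Agent.Lib.MP_4f0fb4_co
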