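import Pool.Agent.Lib.MP_4f0fb4_co.Basic

/-!
Interval covers and strands.
-/

namespace Pool.Agent.Lib.MP_4f0fb4_co

open Finset

section generic

variable {α : Type} {r : α → α → Prop}

theorem Wk.mem_cases {a b x : α} {l : List α} (h : Wk r a b l) (hx : x ∈ l) :
    (x = a ∨ ∃ u, r u x) ∧ (x = b ∨ ∃ w, r x w) := by
  induction h with
  | one a => simp [List.mem_singleton.1 hx]
  | @cons a b c l h1 h2 ih =>
    rcases List.mem_cons.1 hx with rfl | hx
    · exact ⟨Or.inl rfl, Or.inr ⟨_, h1⟩⟩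
    · refine ⟨Or.inr ?_, (ih hx).2⟩
      rcases (ih hx).1 with rfl | h
      · exact ⟨_, h1⟩
      · exact h

theorem Wk.rch {a b x : α} {l : List α} (h : Wk r a b l) (hx : x ∈ l) :
    Rch r Set.univ a x ∧ Rch r Set.univ x b := by
  obtain ⟨s, t, rfl⟩ := List.append_of_mem hx
  exact ⟨⟨_, h.split.1, by simp⟩, ⟨_, h.split.2, by simp⟩⟩

theorem Wk.mem_of_rch (hu : ∀ v w w', r v w → r v w' → w = w') {a e x : α} {l : List α}
    (h : Wk r a e l) (he : ∀ w, ¬r e w) (hx : Rch r Set.univ a x) : x ∈ l := by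
  refine hx.ind (P := fun x => x ∈ l) h.head_mem fun x y h1 _ _ h2 => ?_
  obtain ⟨s, t, rfl⟩ := List.append_of_mem h1
  have h3 := h.split.2
  cases h3 with
  | one => exact (he _ h2).elim
  | cons h4 h5 => rw [hu _ _ _ h2 h4]; simp [h5.head_mem]

theorem end_unique (hu : ∀ v w w', r v w → r v w' → w = w') {a e e' : α}
    (h : Rch r Set.univ a e) (h' : Rch r Set.univ a e') (he : ∀ w, ¬r e w) (he' : ∀ w, ¬r e' w) :
    e' = e := by
  obtain ⟨l, h1, -⟩ := h
  exact (h1.mem_cases (h1.mem_of_rch hu he h')).2.resolve_right fun ⟨w, hw⟩ => he' w hw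

theorem Wk.nodup_of_pot {pot : α → ℕ} (hp : ∀ v w, r v w → pot v < pot w) {a b : α} {l : List α}
    (h : Wk r a b l) : l.Nodup ∧ ∀ x ∈ l, pot a ≤ pot x := by
  induction h with
  | one a => simp
  | cons h1 _ ih =>
    have := hp _ _ h1
    refine ⟨List.nodup_cons.2 ⟨fun h => ?_, ih.1⟩, fun x hx => ?_⟩
    · have := ih.2 _ h; omega
    · rcases List.mem_cons.1 hx with rfl | hx
      · rfl
      · have := ih.2 _ hx; omega

theorem exists_end {pot : α → ℕ} {M : ℕ} (hp : ∀ v w, r v w → pot v < pot w ∧ pot v < M) (a : α) :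
    ∃ e l, Wk r a e l ∧ ∀ w, ¬r e w := by
  induction h : M - pot a using Nat.strong_induction_on generalizing a with
  | _ n ih =>
    by_cases h1 : ∃ w, r a w
    · obtain ⟨w, hw⟩ := h1
      have := hp _ _ hw
      obtain ⟨e, l, h2, h3⟩ := ih (M - pot w) (by omega) w rfl
      exact ⟨e, a :: l, Wk.cons hw h2, h3⟩
    · exact ⟨a, [a], Wk.one a, fun w hw => h1 ⟨w, hw⟩⟩

end generic

def cnt (X : Finset ℕ) (rt : ℕ → ℕ) (v : ℕ) : ℕ := (X.filter fun x => x < v ∧ v < rt x).card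
def ce (X : Finset ℕ) (rt : ℕ → ℕ) (v : ℕ) : ℕ := (X.filter fun x => x ≤ v ∧ v < rt x).card

theorem cnt_mono {X Y : Finset ℕ} (h : X ⊆ Y) (rt : ℕ → ℕ) (v : ℕ) : cnt X rt v ≤ cnt Y rt v :=
  card_le_card (filter_subset_filter _ h)

structure MinCov (X : Finset ℕ) (rt c : ℕ → ℕ) (α β j : ℕ) : Prop where
  inj : ∀ x ∈ X, ∀ y ∈ X, rt x = rt y → x = y
  cov : ∀ v, α < v → v < β → j ≤ cnt X rt v
  crit : ∀ x ∈ X, α < c x ∧ c x < β ∧ x < c x ∧ c x < rt x ∧ cnt X rt (c x) ≤ j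

theorem exists_min (X : Finset ℕ) (rt : ℕ → ℕ) (α β j : ℕ)
    (h : ∀ v, α < v → v < β → j ≤ cnt X rt v) : ∃ Y ⊆ X, ∃ c : ℕ → ℕ,
      (∀ v, α < v → v < β → j ≤ cnt Y rt v) ∧
      ∀ x ∈ Y, α < c x ∧ c x < β ∧ x < c x ∧ c x < rt x ∧ cnt Y rt (c x) ≤ j := by
  classical
  obtain ⟨Y, hY, hm⟩ := exists_min_image
    (X.powerset.filter fun Y => ∀ v, α < v → v < β → j ≤ cnt Y rt v) card ⟨X, by simpa using h⟩
  simp only [mem_filter, mem_powerset] at hY hm
  have : ∀ x ∈ Y, ∃ u, α < u ∧ u < β ∧ x < u ∧ u < rt x ∧ cnt Y rt u ≤ j := by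
    intro x hx
    by_contra hc
    push Not at hc
    have := hm (Y.erase x) ⟨(erase_subset _ _).trans hY.1, fun v h1 h2 => ?_⟩
    · have := card_erase_add_one hx; omega
    · unfold cnt
      rw [filter_erase]
      by_cases h3 : x < v ∧ v < rt x
      · have := hc v h1 h2 h3.1 h3.2
        have h4 := pred_card_le_card_erase (s := Y.filter fun x => x < v ∧ v < rt x) (a := x)
        unfold cnt at this; omega
      · rw [erase_eq_of_notMem (by simp [h3])]; exact hY.2 v h1 h2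
  choose! c hc using this
  exact ⟨Y, hY.1, c, hY.2, hc⟩

def arc (X : Finset ℕ) (rt : ℕ → ℕ) (v w : ℕ) : Prop :=
  (v ∈ X ∧ w = rt v) ∨ (v ∉ X ∧ (w = v + 1 ∨ v = w + 1))

def Two (X : Finset ℕ) (rt : ℕ → ℕ) (α β : ℕ) (T : Finset ℕ) : Prop :=
  ∃ s s' e e' l l', Wk (arc X rt) s e l ∧ Wk (arc X rt) s' e' l' ∧ (l ++ l').Nodup ∧
    s ≤ α + 1 ∧ s' ≤ α + 1 ∧ β ≤ e + 1 ∧ β ≤ e' + 1 ∧ e ∉ X ∧ e' ∉ X ∧
    (∀ v ∈ l ++ l', (v ≤ α → v = s ∨ v = s') ∧ (β ≤ v → v = e ∨ v = e') ∧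
      (v < β ∨ ∃ x ∈ X, rt x = v)) ∧ ∀ v ∈ T, v ∈ l ++ l'

namespace MinCov

variable {X : Finset ℕ} {rt c : ℕ → ℕ} {α β j : ℕ} (h : MinCov X rt c α β j)
include h

theorem left {A : Finset ℕ} (hA : A ⊆ X) (H : ∀ x ∈ A, ∀ y ∈ A, c x < rt y) : A.card ≤ j := by
  rcases A.eq_empty_or_nonempty with rfl | hne
  · simp
  obtain ⟨x, hx, hm⟩ := exists_max_image A id hne
  obtain ⟨-, -, h1, -, h2⟩ := h.crit x (hA hx)
  exact le_trans (card_le_card fun y hy => mem_filter.2
    ⟨hA hy, lt_of_le_of_lt (hm y hy) h1, H x hx y hy⟩) h2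

theorem right {A : Finset ℕ} (hA : A ⊆ X) (H : ∀ x ∈ A, ∀ y ∈ A, y < c x) : A.card ≤ j := by
  rcases A.eq_empty_or_nonempty with rfl | hne
  · simp
  obtain ⟨x, hx, hm⟩ := exists_min_image A rt hne
  obtain ⟨-, -, -, h1, h2⟩ := h.crit x (hA hx)
  exact le_trans (card_le_card fun y hy => mem_filter.2
    ⟨hA hy, H x hx y hy, lt_of_lt_of_le h1 (hm y hy)⟩) h2

theorem ce_le (v : ℕ) : ce X rt v ≤ 2 * j := by
  have h1 := card_filter_add_card_filter_not (s := X.filter fun x => x ≤ v ∧ v < rt x)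
    fun x => c x ≤ v
  have h2 := h.left (A := (X.filter fun x => x ≤ v ∧ v < rt x).filter fun x => c x ≤ v)
    ((filter_subset _ _).trans (filter_subset _ _)) (by simp only [mem_filter]; omega)
  have h3 := h.right (A := (X.filter fun x => x ≤ v ∧ v < rt x).filter fun x => ¬c x ≤ v)
    ((filter_subset _ _).trans (filter_subset _ _)) (by simp only [mem_filter]; omega)
  unfold ce; omega

theorem ce_lo {v : ℕ} (hv : v ≤ α) : ce X rt v ≤ j :=
  h.right (filter_subset _ _) fun x hx y hy => by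
    have := h.crit x (mem_filter.1 hx).1
    have := (mem_filter.1 hy).2; omega

theorem ce_hi {v : ℕ} (hv : β ≤ v + 1) : ce X rt v ≤ j :=
  h.left (filter_subset _ _) fun x hx y hy => by
    have := h.crit x (mem_filter.1 hx).1
    have := (mem_filter.1 hy).2; omega

theorem ce_in {v : ℕ} (hv : v ∈ X) : ce X rt v = cnt X rt v + 1 := by
  unfold ce cnt
  rw [← card_insert_of_notMem (a := v) (by simp)]
  congr 1; ext x
  have := h.crit v hv
  simp only [mem_filter, mem_insert]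
  constructor
  · rintro ⟨h1, h2⟩; by_cases h3 : x = v
    · exact Or.inl h3
    · exact Or.inr ⟨h1, by omega⟩
  · rintro (rfl | h1)
    · exact ⟨hv, by omega⟩
    · exact ⟨h1.1, by omega⟩

omit h in
theorem ce_out {v : ℕ} (hv : v ∉ X) : ce X rt v = cnt X rt v := by
  unfold ce cnt
  congr 1; ext x
  simp only [mem_filter, and_congr_right_iff]
  intro hx
  have : x ≠ v := fun h => hv (h ▸ hx)
  omega

theorem ce_r {v x : ℕ} (hx : x ∈ X) (e : rt x = v + 1) : ce X rt v = cnt X rt (v + 1) + 1 := by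
  unfold ce cnt
  rw [← card_insert_of_notMem (a := x) (by simp [e])]
  congr 1; ext y
  have := h.crit x hx
  simp only [mem_filter, mem_insert]
  constructor
  · rintro ⟨h1, h2⟩; by_cases h3 : y = x
    · exact Or.inl h3
    · have : rt y ≠ rt x := fun h4 => h3 (h.inj y h1 x hx h4)
      exact Or.inr ⟨h1, by omega⟩
  · rintro (rfl | h1)
    · exact ⟨hx, by omega⟩
    · exact ⟨h1.1, by omega⟩

omit h in
theorem ce_nr {v : ℕ} (hv : ¬∃ x ∈ X, rt x = v + 1) : ce X rt v = cnt X rt (v + 1) := by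
  unfold ce cnt
  congr 1; ext x
  simp only [mem_filter, and_congr_right_iff]
  intro hx
  have : rt x ≠ v + 1 := fun h => hv ⟨x, hx, h⟩
  omega

theorem not_bad (hj : j ≤ 2) {v x : ℕ} (hv : v ∈ X) (hx : x ∈ X) (e : rt x = v) :
    cnt X rt v ≠ j + 1 := by
  intro hc
  have h1 := card_filter_add_card_filter_not (s := X.filter fun x => x < v ∧ v < rt x)
    fun x => c x < v
  have c1 := h.crit x hx
  have c2 := h.crit v hv
  have h2 := h.left (A := insert x ((X.filter fun x => x < v ∧ v < rt x).filter fun x => c x < v))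
    (insert_subset hx ((filter_subset _ _).trans (filter_subset _ _))) (by
      simp only [mem_filter, mem_insert]
      rintro y (rfl | hy) z (rfl | hz) <;> omega)
  have h3 := h.right (A := insert v ((X.filter fun x => x < v ∧ v < rt x).filter
    fun x => ¬c x < v)) (insert_subset hv ((filter_subset _ _).trans (filter_subset _ _))) (by
      simp only [mem_filter, mem_insert]
      have : ∀ y ∈ X, c y ≠ v := fun y hy e => by have := h.crit y hy; rw [e] at this; omega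
      rintro y (rfl | hy) z (rfl | hz)
      · omega
      · omega
      · have := this y hy.1.1; omega
      · have := this y hy.1.1; omega)
  rw [card_insert_of_notMem (by simp; omega)] at h2
  rw [card_insert_of_notMem (by simp)] at h3
  unfold cnt at hc; omega

def ar (_h : MinCov X rt c α β j) (v w : ℕ) : Prop :=
  (v ∈ X ∧ w = rt v) ∨ (α < v ∧ w = v + 1 ∧ w < β ∧ ce X rt v = j) ∨
    (v = w + 1 ∧ ce X rt w = j + 2)

def Nd (_h : MinCov X rt c α β j) (v : ℕ) : Prop :=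
  (v ∈ X ∧ v ≤ α) ∨ (α < v ∧ v < β ∧ (cnt X rt v ≠ j + 1 ∨ v ∈ X ∨ ∃ x ∈ X, rt x = v))

theorem back {w : ℕ} (hw : ce X rt w = j + 2) : α < w ∧ w + 1 < β := by
  constructor <;> by_contra hc
  · have := h.ce_lo (not_lt.1 hc); omega
  · have := h.ce_hi (not_lt.1 hc); omega

theorem in_not (hj : j ≤ 2) {v : ℕ} (hv : v ∈ X) :
    ¬(α < v ∧ ce X rt v = j) ∧ ∀ w, v = w + 1 → ce X rt w ≠ j + 2 := by
  have h1 := h.ce_in hv
  have h2 := h.crit v hv
  refine ⟨fun h3 => ?_, ?_⟩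
  · have := h.cov v h3.1 (by omega); omega
  · rintro w rfl h3
    have := h.ce_le (w + 1)
    by_cases h4 : ∃ x ∈ X, rt x = w + 1
    · obtain ⟨x, hx, e⟩ := h4
      have := h.ce_r hx e
      have := h.not_bad hj hv hx e
      omega
    · have := ce_nr h4; omega

theorem r_not (hj : j ≤ 2) {x : ℕ} (hx : x ∈ X) :
    ce X rt (rt x) ≠ j + 2 ∧ ∀ v, rt x = v + 1 → v + 1 < β → ce X rt v ≠ j := by
  have h2 := h.crit x hx
  obtain ⟨w, e⟩ : ∃ w, rt x = w + 1 := ⟨rt x - 1, by omega⟩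
  have h1 := h.ce_r hx e
  refine ⟨fun h3 => ?_, fun v e' h3 => ?_⟩
  · have := h.ce_le w
    rw [e] at h3
    by_cases h4 : w + 1 ∈ X
    · have := h.ce_in h4
      have := h.not_bad hj h4 hx e
      omega
    · have := ce_out (rt := rt) h4; omega
  · obtain rfl : v = w := by omega
    have := h.cov (v + 1) (by omega) h3; omega

theorem ce_step (v : ℕ) : ce X rt (v + 1) ≤ ce X rt v + 1 ∧ ce X rt v ≤ ce X rt (v + 1) + 1 := by
  by_cases h1 : v + 1 ∈ X <;> by_cases h2 : ∃ x ∈ X, rt x = v + 1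
  · obtain ⟨x, hx, e⟩ := h2
    have := h.ce_in h1; have := h.ce_r hx e; omega
  · have := h.ce_in h1; have := ce_nr h2; omega
  · obtain ⟨x, hx, e⟩ := h2
    have := ce_out (rt := rt) h1; have := h.ce_r hx e; omega
  · have := ce_out (rt := rt) h1; have := ce_nr h2; omega

theorem ar_ru (hj : j ≤ 2) (v w w' : ℕ) (h1 : h.ar v w) (h2 : h.ar v w') : w = w' := by
  by_cases hv : v ∈ X
  · have := h.in_not hj hv
    have key : ∀ w, h.ar v w → w = rt v := by
      rintro w (h3 | h3 | h3)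
      · exact h3.2
      · exact (this.1 ⟨h3.1, h3.2.2.2⟩).elim
      · exact (this.2 w h3.1 h3.2).elim
    rw [key w h1, key w' h2]
  · rcases h1 with h1 | h1 | h1 <;> rcases h2 with h2 | h2 | h2 <;>
      first | exact (hv h1.1).elim | exact (hv h2.1).elim | omega | skip
    · obtain ⟨rfl, h3⟩ := h2; have := h.ce_step w'; omega
    · obtain ⟨rfl, h3⟩ := h1; have := h.ce_step w; omega

theorem ar_lu (hj : j ≤ 2) (w v v' : ℕ) (h1 : h.ar v w) (h2 : h.ar v' w) : v = v' := by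
  by_cases hw : ∃ x ∈ X, rt x = w
  · obtain ⟨x, hx, rfl⟩ := hw
    have := h.r_not hj hx
    have key : ∀ v, h.ar v (rt x) → v = x := by
      rintro v (h3 | h3 | h3)
      · exact h.inj _ h3.1 _ hx h3.2.symm
      · exact (this.2 v h3.2.1 (by omega) h3.2.2.2).elim
      · exact (this.1 h3.2).elim
    rw [key v h1, key v' h2]
  · rcases h1 with h1 | h1 | h1 <;> rcases h2 with h2 | h2 | h2 <;>
      first | exact (hw ⟨_, h1.1, h1.2.symm⟩).elim | exact (hw ⟨_, h2.1, h2.2.symm⟩).elim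
            | omega | skip
    · obtain ⟨-, rfl, -, h3⟩ := h1; have := h.ce_step v; omega
    · obtain ⟨-, rfl, -, h3⟩ := h2; have := h.ce_step v'; omega

theorem ar_bd {v w : ℕ} (h1 : h.ar v w) : v < β ∧ α + 1 < w ∨ v < β ∧ ce X rt w = j + 2 := by
  rcases h1 with h1 | h1 | h1
  · have := h.crit v h1.1; omega
  · omega
  · have := h.back h1.2; omega

theorem ar_lo {v w : ℕ} (h1 : h.ar v w) : v < β ∧ α + 1 < w := by
  rcases h.ar_bd h1 with h2 | h2
  · exact h2
  · have := h.back h2.2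
    have := h.ce_step α
    have := h.ce_lo le_rfl
    refine ⟨h2.1, lt_of_le_of_ne (by omega) ?_⟩
    rintro rfl; omega

theorem exists_pot : ∃ (pot : ℕ → ℕ) (M : ℕ), ∀ v w, h.ar v w → pot v < pot w ∧ pot v < M := by
  have hex : ∀ v, ∃ t, ce X rt (v + t) ≠ j + 2 := fun v =>
    ⟨β, by have := h.ce_hi (v := v + β) (by omega); omega⟩
  have hle : ∀ v t, ce X rt (v + t) ≠ j + 2 → Nat.find (hex v) ≤ t := fun v t ht =>
    Nat.find_min' (hex v) ht
  have hβ : ∀ v, Nat.find (hex v) ≤ β := fun v =>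
    hle v β (by have := h.ce_hi (v := v + β) (by omega); omega)
  refine ⟨fun v => (v + Nat.find (hex v)) * (β + 1) + Nat.find (hex v), (2 * β + 1) * (β + 1),
    fun v w h1 => ⟨?_, ?_⟩⟩
  · have key : v + Nat.find (hex v) < w → (v + Nat.find (hex v)) * (β + 1) + Nat.find (hex v) <
        (w + Nat.find (hex w)) * (β + 1) + Nat.find (hex w) := fun h2 => by
      have := Nat.mul_le_mul_right (β + 1)
        (show v + Nat.find (hex v) + 1 ≤ w + Nat.find (hex w) by omega)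
      have := hβ v
      rw [add_mul _ 1] at *; omega
    rcases h1 with h1 | h1 | h1
    · have h2 := h.crit v h1.1
      have : ce X rt (c v) ≤ j + 1 := by
        by_cases h3 : c v ∈ X
        · have := h.ce_in h3; omega
        · have := ce_out (rt := rt) h3; omega
      have := hle v (c v - v) (by rw [show v + (c v - v) = c v by omega]; omega)
      exact key (by omega)
    · have := hle v 0 (by rw [add_zero]; omega)
      exact key (by omega)
    · obtain ⟨rfl, h2⟩ := h1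
      have : Nat.find (hex w) = Nat.find (hex (w + 1)) + 1 := by
        rw [Nat.find_eq_iff]
        refine ⟨by rw [← add_assoc, add_right_comm]; exact Nat.find_spec (hex (w + 1)), ?_⟩
        rintro (_ | t) ht
        · simpa using h2
        · rw [← add_assoc, add_right_comm]; exact Nat.find_min (hex (w + 1)) (by omega)
      simp only [this]
      rw [show w + (Nat.find (hex (w + 1)) + 1) = w + 1 + Nat.find (hex (w + 1)) by omega]
      omega
  · have := hβ v
    have := (h.ar_lo h1).1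
    have := Nat.mul_le_mul_right (β + 1) (show v + Nat.find (hex v) + 1 ≤ 2 * β + 1 by omega)
    rw [add_mul _ 1] at this; simp only; omega

theorem nd_in (hj : j ≤ 2) {v : ℕ} (hv : h.Nd v) (h1 : α + 1 < v) : ∃ u, h.Nd u ∧ h.ar u v := by
  rcases hv with hv | ⟨-, h2, h3⟩
  · omega
  by_cases hr : ∃ x ∈ X, rt x = v
  · obtain ⟨x, hx, rfl⟩ := hr
    have := h.crit x hx
    refine ⟨x, ?_, Or.inl ⟨hx, rfl⟩⟩
    by_cases h4 : x ≤ α
    · exact Or.inl ⟨hx, h4⟩
    · exact Or.inr ⟨by omega, by omega, Or.inr (Or.inl hx)⟩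
  obtain ⟨w, rfl⟩ : ∃ w, v = w + 1 := ⟨v - 1, by omega⟩
  have e := ce_nr hr
  have c1 := h.cov _ (by omega) h2
  by_cases h4 : cnt X rt (w + 1) = j
  · refine ⟨w, Or.inr ⟨by omega, by omega, ?_⟩, Or.inr (Or.inl ⟨by omega, rfl, h2, by omega⟩)⟩
    by_cases h5 : w ∈ X
    · exact Or.inr (Or.inl h5)
    · have := ce_out (rt := rt) h5; left; omega
  · have := h.ce_le (w + 1)
    have h5 : ce X rt (w + 1) = j + 2 := by
      by_cases h5 : w + 1 ∈ X
      · have := h.ce_in h5; omega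
      · have := ce_out (rt := rt) h5
        rcases h3 with h3 | h3 | h3
        · omega
        · exact (h5 h3).elim
        · exact (hr h3).elim
    have := h.back h5
    refine ⟨w + 2, Or.inr ⟨by omega, by omega, ?_⟩, Or.inr (Or.inr ⟨rfl, h5⟩)⟩
    by_cases h6 : ∃ x ∈ X, rt x = w + 1 + 1
    · exact Or.inr (Or.inr h6)
    · have := ce_nr h6; left; show cnt X rt (w + 1 + 1) ≠ _; omega

theorem nd_out (hj : j ≤ 2) {v : ℕ} (hv : h.Nd v) (h1 : v + 1 < β) : ∃ w, h.ar v w := by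
  by_cases hx : v ∈ X
  · exact ⟨_, Or.inl ⟨hx, rfl⟩⟩
  rcases hv with hv | ⟨h2, -, h3⟩
  · exact (hx hv.1).elim
  have e := ce_out (rt := rt) hx
  have c1 := h.cov _ h2 (by omega)
  by_cases h4 : cnt X rt v = j
  · exact ⟨_, Or.inr (Or.inl ⟨h2, rfl, h1, by omega⟩)⟩
  obtain ⟨w, rfl⟩ : ∃ w, v = w + 1 := ⟨v - 1, by omega⟩
  refine ⟨w, Or.inr (Or.inr ⟨rfl, ?_⟩)⟩
  have := h.ce_le w
  by_cases hr : ∃ x ∈ X, rt x = w + 1
  · obtain ⟨x, h5, h6⟩ := hr
    have := h.ce_r h5 h6; omega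
  · have := ce_nr hr
    rcases h3 with h3 | h3 | h3
    · omega
    · exact (hx h3).elim
    · exact (hr h3).elim

theorem nd_step {v w : ℕ} (h1 : h.ar v w) : h.Nd w ∨ (β ≤ w ∧ ∃ x ∈ X, rt x = w) := by
  have h2 := h.ar_lo h1
  rcases h1 with h1 | h1 | h1
  · by_cases h3 : w < β
    · exact Or.inl (Or.inr ⟨by omega, h3, Or.inr (Or.inr ⟨v, h1.1, h1.2.symm⟩)⟩)
    · exact Or.inr ⟨by omega, v, h1.1, h1.2.symm⟩
  · obtain ⟨-, rfl, h3, h4⟩ := h1
    refine Or.inl (Or.inr ⟨by omega, h3, ?_⟩)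
    by_cases hr : ∃ x ∈ X, rt x = v + 1
    · exact Or.inr (Or.inr hr)
    · have := ce_nr hr; left; omega
  · have := h.back h1.2
    refine Or.inl (Or.inr ⟨by omega, by omega, ?_⟩)
    by_cases hx : w ∈ X
    · exact Or.inr (Or.inl hx)
    · have := ce_out (rt := rt) hx; left; omega

theorem strands (hj1 : 1 ≤ j) (hj : j ≤ 2) (hαβ : α + 1 < β) : ∃ T ⊆ Ioo α β, Two X rt α β T ∧
    2 * ((Ioo α β).filter fun v => cnt X rt v ≠ j + 1).card ≤ (j + 1) * T.card := by
  classical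
  obtain ⟨pot, M, hp⟩ := h.exists_pot
  choose e l hl he using exists_end hp
  set St := insert (α + 1) (X.filter fun x => x ≤ α) with hSt
  have c0 : cnt X rt (α + 1) = j ∧ (X.filter fun x => x ≤ α).card = j := by
    have h1 := h.cov (α + 1) (by omega) hαβ
    have h2 : cnt X rt (α + 1) ≤ (X.filter fun x => x ≤ α).card :=
      card_le_card fun x hx => by simp only [mem_filter] at hx ⊢; exact ⟨hx.1, by omega⟩
    have h3 := h.right (A := X.filter fun x => x ≤ α) (filter_subset _ _) fun x hx y hy => by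
      have := h.crit x (mem_filter.1 hx).1
      have := (mem_filter.1 hy).2; omega
    omega
  have hc : St.card = j + 1 := by rw [hSt, card_insert_of_notMem (by simp), c0.2]
  have hS : ∀ s ∈ St, s ≤ α + 1 ∧ h.Nd s := by
    intro s hs
    rcases mem_insert.1 hs with rfl | hs
    · exact ⟨le_rfl, Or.inr ⟨by omega, hαβ, Or.inl (by omega)⟩⟩
    · exact ⟨by have := (mem_filter.1 hs).2; omega, Or.inl (mem_filter.1 hs)⟩
  have cover : ∀ v, h.Nd v → ∃ s ∈ St, v ∈ l s := by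
    intro v
    induction hn : pot v using Nat.strong_induction_on generalizing v with
    | _ n ih =>
      intro hv
      by_cases h1 : α + 1 < v
      · obtain ⟨u, hu, h2⟩ := h.nd_in hj hv h1
        obtain ⟨s, hs, h3⟩ := ih _ (hn ▸ (hp _ _ h2).1) u rfl hu
        exact ⟨s, hs, (hl s).mem_of_rch (h.ar_ru hj) (he s)
          (((hl s).rch h3).1.tail h2 trivial)⟩
      · refine ⟨v, ?_, (hl v).head_mem⟩
        rcases hv with hv | hv
        · exact mem_insert_of_mem (mem_filter.2 hv)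
        · rw [show v = α + 1 by omega]; exact mem_insert_self _ _
  have node : ∀ s ∈ St, ∀ v ∈ l s, h.Nd v ∨ (β ≤ v ∧ ∃ x ∈ X, rt x = v) := by
    intro s hs v hv
    rcases ((hl s).mem_cases hv).1 with rfl | ⟨u, hu⟩
    · exact Or.inl (hS _ hs).2
    · exact h.nd_step hu
  have two : ∀ s ∈ St, ∀ s' ∈ St, s ≠ s' →
      Two X rt α β ((Ioo α β).filter fun v => v ∈ l s ∨ v ∈ l s') := by
    have hw : ∀ s, Wk (arc X rt) s (e s) (l s) := fun s => (hl s).mono fun v _ w _ h1 => by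
      by_cases hv : v ∈ X
      · exact Or.inl ⟨hv, h.ar_ru hj _ _ _ h1 (Or.inl ⟨hv, rfl⟩)⟩
      · rcases h1 with h1 | h1 | h1
        · exact (hv h1.1).elim
        · exact Or.inr ⟨hv, Or.inl h1.2.1⟩
        · exact Or.inr ⟨hv, Or.inr h1.1⟩
    have hend : ∀ s ∈ St, β ≤ e s + 1 ∧ e s ∉ X := fun s hs => by
      refine ⟨?_, fun hx => he s _ (Or.inl ⟨hx, rfl⟩)⟩
      rcases node s hs _ (hl s).last_mem with h1 | h1
      · by_contra h2
        obtain ⟨w, hw⟩ := h.nd_out hj h1 (by omega)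
        exact he s w hw
      · omega
    have hv : ∀ s ∈ St, ∀ v ∈ l s, (v ≤ α → v = s) ∧ (β ≤ v → v = e s) ∧
        (v < β ∨ ∃ x ∈ X, rt x = v) := fun s hs v hv => by
      have h1 := (hl s).mem_cases hv
      refine ⟨fun h2 => h1.1.resolve_right fun ⟨u, hu⟩ => ?_,
        fun h2 => h1.2.resolve_right fun ⟨u, hu⟩ => ?_, ?_⟩
      · have := h.ar_lo hu; omega
      · have := h.ar_lo hu; omega
      · rcases node s hs v hv with (h2 | h2) | h2
        · omega
        · omega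
        · exact Or.inr h2.2
    intro s hs s' hs' hne
    refine ⟨s, s', e s, e s', l s, l s', hw s, hw s', ?_, (hS s hs).1, (hS s' hs').1,
      (hend s hs).1, (hend s' hs').1, (hend s hs).2, (hend s' hs').2, fun v h1 => ?_,
      fun v h1 => List.mem_append.2 (mem_filter.1 h1).2⟩
    · refine List.nodup_append.2 ⟨((hl s).nodup_of_pot fun v w h => (hp v w h).1).1,
        ((hl s').nodup_of_pot fun v w h => (hp v w h).1).1, ?_⟩
      rintro v h1 _ h2 rfl
      refine hne (end_unique (r := fun x y => h.ar y x) (h.ar_lu hj) ((hl s').rch h2).1.flip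
        ((hl s).rch h1).1.flip (fun w hw => ?_) fun w hw => ?_)
      · have := h.ar_lo hw; have := (hS s' hs').1; omega
      · have := h.ar_lo hw; have := (hS s hs).1; omega
    · rcases List.mem_append.1 h1 with h1 | h1
      · have := hv s hs v h1
        exact ⟨fun h => Or.inl (this.1 h), fun h => Or.inl (this.2.1 h), this.2.2⟩
      · have := hv s' hs' v h1
        exact ⟨fun h => Or.inr (this.1 h), fun h => Or.inr (this.2.1 h), this.2.2⟩
  set U := (Ioo α β).filter fun v => cnt X rt v ≠ j + 1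
  have hU : ∀ v ∈ U, v ∈ Ioo α β ∧ ∃ s ∈ St, v ∈ l s := fun v hv => by
    have := mem_filter.1 hv
    exact ⟨this.1, cover v (Or.inr ⟨(mem_Ioo.1 this.1).1, (mem_Ioo.1 this.1).2, Or.inl this.2⟩)⟩
  obtain rfl | rfl : j = 1 ∨ j = 2 := by omega
  · obtain ⟨a, b, hab, e⟩ := card_eq_two.1 hc
    refine ⟨_, filter_subset _ _, two a (by simp [e]) b (by simp [e]) hab,
      Nat.mul_le_mul_left _ (card_le_card fun v hv => ?_)⟩
    obtain ⟨h1, s, hs, h2⟩ := hU v hv
    simp only [e, mem_insert, mem_singleton] at hs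
    exact mem_filter.2 ⟨h1, by rcases hs with rfl | rfl <;> simp [h2]⟩
  · obtain ⟨a, b, d, hab, had, hbd, e⟩ := card_eq_three.1 hc
    let F := fun s s' => (Ioo α β).filter fun v => v ∈ l s ∨ v ∈ l s'
    have : 2 * U.card ≤ (F a b).card + (F a d).card + (F b d).card := by
      simp only [card_eq_sum_ones U, F, card_filter, ← sum_add_distrib, mul_sum]
      refine le_trans (sum_le_sum fun v hv => ?_)
        (sum_le_sum_of_subset (f := fun v => _) (filter_subset _ (Ioo α β)))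
      obtain ⟨-, s, hs, h2⟩ := hU v hv
      simp only [e, mem_insert, mem_singleton] at hs
      rcases hs with rfl | rfl | rfl <;> simp only [h2, true_or, or_true, if_true] <;> omega
    by_cases h1 : 2 * U.card ≤ 3 * (F a b).card
    · exact ⟨_, filter_subset _ _, two a (by simp [e]) b (by simp [e]) hab, h1⟩
    by_cases h2 : 2 * U.card ≤ 3 * (F a d).card
    · exact ⟨_, filter_subset _ _, two a (by simp [e]) d (by simp [e]) had, h2⟩
    · exact ⟨_, filter_subset _ _, two b (by simp [e]) d (by simp [e]) hbd,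
        show _ ≤ 3 * (F b d).card by omega⟩

end MinCov

theorem cover_of_rch {ι : Type} {r : ι → ι → Prop} {W : Set ι} {a b : ι} {P : ι → Prop}
    {f : ι → ℕ} {v : ℕ} (h : Rch r W a b) (ha : P a ∨ f a ≤ v) (hb : v < f b)
    (hs : ∀ x y, r x y → f x ≤ v → P y ∨ f y ≤ v) : ∃ x ∈ W, P x := by
  have := h.ind (P := fun x => (∃ y ∈ W, P y) ∨ f x ≤ v)
    (ha.imp (fun h1 => ⟨a, h.left, h1⟩) id) (by
      rintro x y (h1 | h1) _ h3 h4
      · exact Or.inl h1
      · exact (hs x y h4 h1).imp (fun h5 => ⟨y, h3, h5⟩) id)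
  exact this.resolve_right (by omega)

theorem split_cover {X : Finset ℕ} {rt : ℕ → ℕ} {α β : ℕ} (hαβ : α + 1 < β)
    (h : ∀ v, α < v → v < β → 2 ≤ cnt X rt v) : ∃ X₁ ⊆ X, ∃ X₂ ⊆ X, Disjoint X₁ X₂ ∧
    (∀ v, α < v → v < β → 1 ≤ cnt X₁ rt v) ∧ ∀ v, α < v → v < β → 1 ≤ cnt X₂ rt v := by
  classical
  obtain ⟨W, h1, h2⟩ := menger (α := X) (r := fun a b => b.1 < rt a.1) (A := {a | a.1 ≤ α})
    (B := {a | β ≤ rt a.1}) (k := 2) (by
      intro S hS
      have hj : ∀ v, α < v → v < β → ∃ y : X, y ∉ S ∧ y.1 < v ∧ v < rt y.1 := by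
        intro v h1 h2
        obtain ⟨y, h3, h4⟩ := exists_mem_notMem_of_card_lt_card (s := S.image Subtype.val)
          (t := X.filter fun x => x < v ∧ v < rt x)
          (lt_of_le_of_lt card_image_le (hS.trans_le (h v h1 h2)))
        rw [mem_filter] at h3
        exact ⟨⟨y, h3.1⟩, fun h5 => h4 (mem_image_of_mem _ h5), h3.2⟩
      have : ∀ v, α + 1 ≤ v → v ≤ β → ∃ a : X, a.1 ≤ α ∧ ∃ x : X,
          Rch (fun a b : X => b.1 < rt a.1) (↑S : Set X)ᶜ a x ∧ v ≤ rt x.1 := by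
        intro v hv
        induction v, hv using Nat.le_induction with
        | base =>
          intro _
          obtain ⟨y, h1, h2, h3⟩ := hj (α + 1) (by omega) hαβ
          exact ⟨y, by omega, y, Rch.refl h1, h3.le⟩
        | succ v hv ih =>
          intro h0
          obtain ⟨a, ha, x, h1, h2⟩ := ih (by omega)
          obtain ⟨y, h3, h4, h5⟩ := hj v (by omega) (by omega)
          exact ⟨a, ha, y, h1.tail (show y.1 < rt x.1 by omega) h3, h5⟩
      obtain ⟨a, ha, x, h1, h2⟩ := this β (by omega) le_rfl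
      exact ⟨a, ha, x, h2, h1⟩)
  let F := fun i => X.filter fun x => ∃ hx : x ∈ X, ⟨x, hx⟩ ∈ W i
  have hF : ∀ i v, α < v → v < β → 1 ≤ cnt (F i) rt v := by
    intro i v h3 h4
    obtain ⟨a, ha, b, hb, h5⟩ := h2 i
    obtain ⟨x, hx, h6⟩ := cover_of_rch (P := fun x : X => x.1 < v ∧ v < rt x.1)
      (f := fun x => rt x.1) (v := v) h5 (by have : a.1 ≤ α := ha; omega)
      (by have : β ≤ rt b.1 := hb; omega) fun x y h6 h7 => by omega
    exact card_pos.2 ⟨x, mem_filter.2 ⟨mem_filter.2 ⟨x.2, x.2, hx⟩, h6⟩⟩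
  refine ⟨F 0, filter_subset _ _, F 1, filter_subset _ _, disjoint_left.2 fun x h3 h4 => ?_,
    hF 0, hF 1⟩
  obtain ⟨-, _, h3⟩ := mem_filter.1 h3
  obtain ⟨-, _, h4⟩ := mem_filter.1 h4
  exact Set.disjoint_left.1 (h1 0 1 (by decide)) h3 h4

theorem comb {X : Finset ℕ} {rt : ℕ → ℕ} {α β : ℕ} (hαβ : α + 1 < β)
    (inj : ∀ x ∈ X, ∀ y ∈ X, rt x = rt y → x = y) (h : ∀ v, α < v → v < β → 2 ≤ cnt X rt v) :
    ∃ Y ⊆ X, ∃ T ⊆ Ioo α β, Two Y rt α β T ∧ 2 * (β - α - 1) ≤ 7 * T.card := by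
  obtain ⟨E, hE, c, h1, h2⟩ := exists_min X rt α β 2 h
  obtain ⟨X₁, s1, X₂, s2, hd, h3, h4⟩ := split_cover hαβ h1
  obtain ⟨F₁, t1, c1, h5, h6⟩ := exists_min X₁ rt α β 1 h3
  obtain ⟨F₂, t2, c2, h7, h8⟩ := exists_min X₂ rt α β 1 h4
  have u1 := (t1.trans s1).trans hE
  have u2 := (t2.trans s2).trans hE
  obtain ⟨T, p1, p2, p3⟩ := MinCov.strands
    ⟨fun x hx y hy => inj x (hE hx) y (hE hy), h1, h2⟩ (by omega) le_rfl hαβ
  obtain ⟨T₁, q1, q2, q3⟩ := MinCov.strands
    ⟨fun x hx y hy => inj x (u1 hx) y (u1 hy), h5, h6⟩ le_rfl (by omega) hαβ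
  obtain ⟨T₂, r1, r2, r3⟩ := MinCov.strands
    ⟨fun x hx y hy => inj x (u2 hx) y (u2 hy), h7, h8⟩ le_rfl (by omega) hαβ
  have key : Ioo α β ⊆ (((Ioo α β).filter fun v => cnt E rt v ≠ 2 + 1) ∪
      (Ioo α β).filter fun v => cnt F₁ rt v ≠ 1 + 1) ∪
      (Ioo α β).filter fun v => cnt F₂ rt v ≠ 1 + 1 := by
    intro v hv
    have a1 := cnt_mono t1 rt v
    have a2 := cnt_mono t2 rt v
    have a3 : cnt X₁ rt v + cnt X₂ rt v ≤ cnt E rt v := by
      unfold cnt
      rw [← card_union_of_disjoint (disjoint_filter_filter hd), ← filter_union]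
      exact card_le_card (filter_subset_filter _ (union_subset s1 s2))
    simp only [mem_union, mem_filter, hv, true_and]
    omega
  have k1 := (card_le_card key).trans ((card_union_le _ _).trans
    (Nat.add_le_add_right (card_union_le _ _) _))
  rw [Nat.card_Ioo] at k1
  by_cases b1 : 2 * (β - α - 1) ≤ 7 * T.card
  · exact ⟨E, hE, T, p1, p2, b1⟩
  by_cases b2 : 2 * (β - α - 1) ≤ 7 * T₁.card
  · exact ⟨F₁, u1, T₁, q1, q2, b2⟩
  · exact ⟨F₂, u2, T₂, r1, r2, by omega⟩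

end Pool.Agent.Lib.MP_4f0fb4_co
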