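import Pool.Agent.Lib.MP_4f0fb4_co.Thick

/-!
Pieces of a path between two small separators.
-/

namespace Pool.Agent.Lib.MP_4f0fb4_co

open Finset

variable {V : Type} {r : V → V → Prop} {C : Set V}

/-- There is a path from `y` to `y'` with interior off `C` and with at least `q` edges. -/
def CP (r : V → V → Prop) (C : Set V) (y y' : V) (q : ℝ) : Prop :=
  ∃ m, Conn r y y' m ∧ m.Nodup ∧ m ≠ [] ∧ (∀ v ∈ m, v ∉ C) ∧ q ≤ m.length + 1

theorem CP.mono {y y' : V} {q q' : ℝ} (h : CP r C y y' q) (hq : q' ≤ q) : CP r C y y' q' :=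
  let ⟨m, h1, h2, h3, h4, h5⟩ := h; ⟨m, h1, h2, h3, h4, hq.trans h5⟩

theorem CP.symm (hs : ∀ x y, r x y → r y x) {y y' : V} {q : ℝ} (h : CP r C y y' q) :
    CP r C y' y q :=
  let ⟨m, h1, h2, h3, h4, h5⟩ := h
  ⟨m.reverse, h1.symm hs, by simpa using h2, by simpa using h3, by simpa using h4,
    by simpa using h5⟩

def Acc (r : V → V → Prop) (A : Set V) (y u : V) : Prop := ∃ a, r y a ∧ Rch r A a u

theorem Acc.mono {A A' : Set V} {y u : V} (h : Acc r A y u) (hA : A ⊆ A') : Acc r A' y u :=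
  let ⟨a, h1, h2⟩ := h; ⟨a, h1, h2.mono hA⟩

theorem Acc.trans {A : Set V} {y u w : V} (h : Acc r A y u) (h' : Rch r A u w) : Acc r A y w :=
  let ⟨a, h1, h2⟩ := h; ⟨a, h1, h2.trans h'⟩

theorem Acc.first {A Z : Set V} {y u : V} (h : Acc r A y u) (hu : u ∈ Z) :
    ∃ t ∈ Z, t ∈ A ∧ ∃ l, Conn r y t l ∧ l.Nodup ∧ ∀ v ∈ l, v ∈ A ∧ v ∉ Z := by
  obtain ⟨a, h1, h2⟩ := h
  obtain ⟨t, h3, h4, rfl | ⟨w, h5, h6⟩⟩ := h2.first hu
  · exact ⟨a, h3, h4, [], ⟨y, Wk.one y, h1⟩, by simp, by simp⟩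
  · obtain ⟨l, h7, h8, h9⟩ := h5.path
    exact ⟨t, h3, h4, l, ⟨w, Wk.cons h1 h7, h6⟩, h8, h9⟩

theorem cp_link (hs : ∀ x y, r x y → r y x) {A A' Z : Set V} {y y' u u' : V} {q : ℝ}
    (hd : Disjoint A A') (hA : ∀ v ∈ A, v ∉ C) (hA' : ∀ v ∈ A', v ∉ C) (h : Acc r A y u)
    (hu : u ∈ Z) (h' : Acc r A' y' u') (hu' : u' ∈ Z)
    (H : ∀ w ∈ A, w ∈ Z → ∀ w' ∈ A', w' ∈ Z → ∃ m, Wk r w w' m ∧ m.Nodup ∧
      (∀ v ∈ m, v ∈ Z ∧ v ∉ C) ∧ q ≤ m.length + 1) : CP r C y y' q := by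
  obtain ⟨t, t1, t2, l, ⟨w, l1, l2⟩, l3, l4⟩ := h.first hu
  obtain ⟨t', t1', t2', l', l1', l3', l4'⟩ := h'.first hu'
  obtain ⟨m, m1, m2, m3, m4⟩ := H t t2 t1 t' t2' t1'
  refine ⟨l ++ m ++ l'.reverse, by simpa [Conn] using (l1.append l2 m1).conn (l1'.symm hs), ?_, ?_, ?_, ?_⟩
  · refine List.nodup_append.2 ⟨List.nodup_append.2 ⟨l3, m2, ?_⟩, by simpa using l3', ?_⟩
    · rintro v h1 _ h2 rfl
      exact (l4 v h1).2 (m3 v h2).1
    · rintro v h1 _ h2 rfl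
      have h3 := l4' v (List.mem_reverse.1 h2)
      rcases List.mem_append.1 h1 with h1 | h1
      · exact Set.disjoint_left.1 hd (l4 v h1).1 h3.1
      · exact h3.2 (m3 v h1).1
  · have := m1.length_pos
    intro h0
    have := congrArg List.length h0
    simp only [List.length_append, List.length_nil] at this; omega
  · intro v h1
    simp only [List.mem_append, List.mem_reverse] at h1
    rcases h1 with (h1 | h1) | h1
    · exact hA v (l4 v h1).1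
    · exact (m3 v h1).2
    · exact hA' v (l4' v h1).1
  · simp only [List.length_append, Nat.cast_add]
    have := Nat.cast_nonneg (α := ℝ) l.length
    have := Nat.cast_nonneg (α := ℝ) l'.reverse.length
    linarith

theorem cp_cyc (hs : ∀ x y, r x y → r y x) {A A' : Set V} {Z : List V} {y y' u u' : V}
    (hZ : Cyc r Z) (hC : ∀ v ∈ Z, v ∉ C)
    (hd : Disjoint A A') (hA : ∀ v ∈ A, v ∉ C) (hA' : ∀ v ∈ A', v ∉ C) (h : Acc r A y u)
    (hu : u ∈ Z) (h' : Acc r A' y' u') (hu' : u' ∈ Z) : CP r C y y' (Z.length / 2 + 2) :=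
  cp_link (Z := {v | v ∈ Z}) hs hd hA hA' h hu h' hu' fun w h1 h2 w' h3 h4 => by
    obtain ⟨m, m1, m2, m3, m4⟩ := hZ.round hs h2 h4 fun e => Set.disjoint_left.1 hd h1 (e ▸ h3)
    refine ⟨m, m1, m2, fun v hv => ⟨m3 v hv, hC v (m3 v hv)⟩, ?_⟩
    have : (Z.length : ℝ) + 2 ≤ 2 * m.length := by exact_mod_cast m4
    linarith

theorem cp_two (hs : ∀ x y, r x y → r y x) {y y' u u' : V} (h : Acc r Cᶜ y u) (h' : Acc r Cᶜ y' u')
    (h'' : Rch r Cᶜ u u') : CP r C y y' 2 := by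
  obtain ⟨a, h1, h2⟩ := h
  obtain ⟨a', h3, h4⟩ := h'
  obtain ⟨l, l1, l2, l3⟩ := (h2.trans (h''.trans (h4.symm hs))).path
  have := l1.length_pos
  refine ⟨l, ⟨a', Wk.cons h1 l1, hs _ _ h3⟩, l2, List.ne_nil_of_length_pos this, l3, ?_⟩
  have : (1 : ℝ) ≤ l.length := by exact_mod_cast this
  linarith

def KC (r : V → V → Prop) (C : Set V) (k : ℕ) : Prop :=
  ∀ S : Finset V, S.card < k → ∀ v ∉ S, ∃ c ∈ C, Rch r (↑S : Set V)ᶜ v c

theorem fan [Finite V] (hs : ∀ x y, r x y → r y x) {k κ : ℕ} (hK : KC r C k) {M : Set V}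
    {D : Finset V} (hM : ∀ v ∈ M, v ∉ C ∧ v ∉ D) (hc : ∀ u ∈ M, ∀ w, r u w → w ∈ M ∨ w ∈ C ∨ w ∈ D)
    (hκ : κ + D.card ≤ k) {v : V} (hv : v ∈ M) : ∃ (y : Fin κ → V) (F : Fin κ → Set V),
      Function.Injective y ∧ (∀ i, y i ∈ C ∧ F i ⊆ M ∧ Acc r (F i) (y i) v) ∧
      ∀ i j, i ≠ j → ∀ u ∈ F i, u ∈ F j → u = v := by
  classical
  obtain ⟨W, h1, h2⟩ := menger (r := fun x w => r x w ∧ x ∈ M ∧ x ≠ v) (A := {a | r v a}) (B := C)
    (k := κ) (by
      intro S hS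
      have := card_union_le (S.erase v) D
      have := card_erase_le (s := S) (a := v)
      obtain ⟨c, c1, c2⟩ := hK (S.erase v ∪ D) (by omega) v (by simp [(hM v hv).2])
      let R := fun u => ∃ a, r v a ∧ Rch (fun x w => r x w ∧ x ∈ M ∧ x ≠ v) (↑S : Set V)ᶜ a u
      have := c2.ind (P := fun u => (∃ c ∈ C, R c) ∨ u = v ∨ (u ∈ M ∧ u ≠ v ∧ R u))
        (Or.inr (Or.inl rfl)) (by
          rintro u w (h3 | h3) - h5 h6
          · exact Or.inl h3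
          by_cases hw : w = v
          · exact Or.inr (Or.inl hw)
          simp only [coe_union, coe_erase, Set.mem_compl_iff, Set.mem_union, Set.mem_sdiff,
            mem_coe, Set.mem_singleton_iff, hw, not_false_eq_true, and_true, not_or] at h5
          have : u ∈ M ∧ R w := by
            rcases h3 with rfl | ⟨h3, h4, a, h7, h8⟩
            · exact ⟨hv, w, h6, Rch.refl h5.1⟩
            · exact ⟨h3, a, h7, h8.tail ⟨h6, h3, h4⟩ h5.1⟩
          rcases hc u this.1 w h6 with h7 | h7 | h7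
          · exact Or.inr (Or.inr ⟨h7, hw, this.2⟩)
          · exact Or.inl ⟨w, h7, this.2⟩
          · exact (h5.2 h7).elim)
      rcases this with ⟨c', h3, a, h4, h5⟩ | rfl | h3
      · exact ⟨a, h4, c', h3, h5⟩
      · exact ((hM _ hv).1 c1).elim
      · exact ((hM _ h3.1).1 c1).elim)
  choose a ha y hy h3 using h2
  refine ⟨y, fun i => {u | u = v ∨ (u ∈ W i ∧ u ∈ M)}, fun i j e => ?_,
    fun i => ⟨hy i, ?_, ?_⟩, ?_⟩
  · by_contra hne
    exact Set.disjoint_left.1 (h1 i j hne) (h3 i).right (e ▸ (h3 j).right)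
  · rintro u (rfl | hu)
    · exact hv
    · exact hu.2
  · obtain ⟨w, h4, h5⟩ := (h3 i).ind
      (P := fun u => ∃ w, Rch r {u | u = v ∨ (u ∈ W i ∧ u ∈ M)} v w ∧ r w u)
      ⟨v, Rch.refl (Or.inl rfl), ha i⟩ fun u u' ⟨w, h4, h5⟩ h6 _ h7 =>
        ⟨u, h4.tail h5 (Or.inr ⟨h6, h7.2.1⟩), h7.1⟩
    exact ⟨w, hs _ _ h5, h4.symm hs⟩
  · rintro i j hij u (rfl | h4) (h5 | h5)
    · rfl
    · rfl
    · exact h5
    · exact (Set.disjoint_left.1 (h1 i j hij) h4.1 h5.1).elim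

theorem double [Finite V] {M Z F F' : Set V} {y y' v w : V} (hM : ∀ v ∈ M, v ∉ C) (hy : y ∈ C)
    (hy' : y' ∈ C) (hne : y ≠ y') (hv : v ∈ Z) (hw : w ∈ Z) (f1 : F ⊆ M) (f2 : F' ⊆ M)
    (a1 : Acc r F y v) (a2 : Acc r F' y' v) (hF : ∀ u ∈ F, u ∈ F' → u = v)
    (a3 : Acc r (M \ {v}) y' w) : ∃ A ⊆ M, ∃ A' ⊆ M, Disjoint A A' ∧ ∃ u ∈ Z, ∃ u' ∈ Z,
      Acc r A y u ∧ Acc r A' y' u' := by
  have hv' : v ∈ M := let ⟨_, _, h⟩ := a1; f1 h.right
  obtain ⟨W, h1, h2⟩ := menger (r := fun x w => r x w ∧ w ∈ M) (A := {y, y'}) (B := Z ∩ M)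
    (k := 2) (by
      intro S hS
      have : Nonempty V := ⟨y⟩
      obtain ⟨s, hs⟩ := card_le_one_iff_subset_singleton.1 (show S.card ≤ 1 by omega)
      have key : ∀ {F : Set V} {y u : V}, F ⊆ M → Acc r F y u → s ≠ y → s ∉ F →
          u ∈ M ∧ Rch (fun x w => r x w ∧ w ∈ M) (↑S : Set V)ᶜ y u := by
        rintro F y u h1 ⟨a, h2, h3⟩ h4 h5
        refine ⟨h1 h3.right, (Rch.refl (S := (↑S : Set V)ᶜ) fun h => h4 (mem_singleton.1 (hs h)).symm).step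
          ⟨h2, h1 h3.left⟩ (h3.mono' (fun x hx h => h5 (mem_singleton.1 (hs h) ▸ hx))
            fun _ _ _ h6 h7 => ⟨h7, h1 h6⟩)⟩
      by_cases c1 : s ≠ y ∧ s ∉ F
      · exact ⟨y, by simp, v, ⟨hv, hv'⟩, (key f1 a1 c1.1 c1.2).2⟩
      have c2 : s ≠ y' := by
        rintro rfl
        exact c1 ⟨hne.symm, fun h => hM _ (f1 h) hy'⟩
      by_cases c3 : s ∈ F'
      · have : s = v := hF s (by
          by_contra h
          exact c1 ⟨fun e => hM _ (f2 c3) (e ▸ hy), h⟩) c3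
        have := key Set.sdiff_subset a3 c2 (by simp [this])
        exact ⟨y', by simp, w, ⟨hw, this.1⟩, this.2⟩
      · exact ⟨y', by simp, v, ⟨hv, hv'⟩, (key f2 a2 c2 c3).2⟩)
  have key : ∀ i, ∃ a ∈ ({y, y'} : Set V), a ∈ W i ∧ ∃ u ∈ Z, Acc r (W i ∩ M) a u := fun i => by
    obtain ⟨a, ha, u, hu, h3⟩ := h2 i
    refine ⟨a, ha, h3.left, u, hu.1, ?_⟩
    have := h3.ind (P := fun u => u = a ∨ Acc r (W i ∩ M) a u) (Or.inl rfl) (by
      rintro x x' (rfl | ⟨c, h4, h5⟩) _ h7 h8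
      · exact Or.inr ⟨x', h8.1, Rch.refl ⟨h7, h8.2⟩⟩
      · exact Or.inr ⟨c, h4, h5.tail h8.1 ⟨h7, h8.2⟩⟩)
    refine this.resolve_left ?_
    rintro rfl
    rcases ha with rfl | rfl
    · exact hM _ hu.2 hy
    · exact hM _ hu.2 hy'
  have hd := h1 0 1 (by decide)
  have hd' : Disjoint (W 0 ∩ M) (W 1 ∩ M) := hd.mono Set.inter_subset_left Set.inter_subset_left
  obtain ⟨a, ha, b1, u, hu, b2⟩ := key 0
  obtain ⟨a', ha', b3, u', hu', b4⟩ := key 1
  rcases ha with rfl | rfl <;> rcases ha' with rfl | rfl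
  · exact (Set.disjoint_left.1 hd b1 b3).elim
  · exact ⟨_, Set.inter_subset_right, _, Set.inter_subset_right, hd', u, hu, u', hu', b2, b4⟩
  · exact ⟨_, Set.inter_subset_right, _, Set.inter_subset_right, hd'.symm, u', hu', u, hu, b4, b2⟩
  · exact (Set.disjoint_left.1 hd b1 b3).elim

def Lft (r : V → V → Prop) (C : Set V) (b : ℕ → V) (x : ℕ) (z : V) : Set V :=
  {v | ∃ i < x, Rch r (Cᶜ \ {b x, z}) (b i) v}

structure Reg (r : V → V → Prop) (C : Set V) (b : ℕ → V) (p α β : ℕ) (M : Set V) (z z' : V) :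
    Prop where
  off : ∀ v ∈ M, v ∉ C ∧ v ≠ b α ∧ v ≠ z ∧ v ≠ b β ∧ v ≠ z'
  cl : ∀ u ∈ M, ∀ w, r u w → w ∈ M ∨ w ∈ C ∨ w = b α ∨ w = z ∨ w = b β ∨ w = z'
  win : ∀ t < p, b t ∈ M → α < t ∧ t < β
  mem : ∀ t, α < t → t < β → b t ≠ z → b t ≠ z' → b t ∈ M

structure Piece (r : V → V → Prop) (C : Set V) (b : ℕ → V) (p τ τ' : ℕ) (M : Set V)
    (N : Finset V) (cap : ℝ) : Prop where
  off : ∀ v ∈ M, v ∉ C
  win : ∀ t < p, b t ∈ M → τ < t ∧ t < τ'
  acc : ∀ y ∈ N, y ∈ C ∧ ∃ t < p, Acc r M y (b t)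
  inn : ∀ y ∈ N, ∀ y' ∈ N, y ≠ y' → CP r C y y' cap
  out : ∀ y ∈ N, ∀ y' t, t < p → (t ≤ τ ∨ τ' ≤ t) → Acc r (Cᶜ \ M) y' (b t) → CP r C y y' cap

namespace Line

variable {b : ℕ → V} {p : ℕ} (h : Line r C b p)
include h

theorem nest : ∃ z : ℕ → V, (∀ x, (∃ z, Sep r C b p x z) → Sep r C b p x (z x)) ∧
    ∀ x' x, x' < x → x < p → (∃ z, Sep r C b p x' z) → (∃ z, Sep r C b p x z) →
      Lft r C b x' (z x') ⊆ Lft r C b x (z x) := by
  classical
  have step : ∀ x' x z' z, x' < x → x < p → Sep r C b p x' z' → Sep r C b p x z →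
      ∃ z, Sep r C b p x z ∧ Lft r C b x' z' ⊆ Lft r C b x z := by
    intro x' x z' z h1 h2 s1 s2
    have sub : ∀ z, z ∉ Lft r C b x' z' → Lft r C b x' z' ⊆ Lft r C b x z := by
      rintro z hz v ⟨i, hi, h3⟩
      refine ⟨i, by omega, ?_⟩
      have := h3.ind (P := fun u => Rch r (Cᶜ \ {b x', z'}) (b i) u ∧
          Rch r (Lft r C b x' z') (b i) u) ⟨Rch.refl h3.left, Rch.refl ⟨i, hi, Rch.refl h3.left⟩⟩
        fun u w h4 _ h5 h6 => ⟨h4.1.tail h6 h5, h4.2.tail h6 ⟨i, hi, h4.1.tail h6 h5⟩⟩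
      refine this.2.mono ?_
      rintro u ⟨j, hj, h4⟩
      refine ⟨h4.right.1, ?_⟩
      rintro (rfl | rfl)
      · exact s1 j hj x h1 h2 h4
      · exact hz ⟨j, hj, h4⟩
    by_cases hz : z ∈ Lft r C b x' z'
    · refine ⟨z', fun i hi j hj hj' h3 => ?_, sub z' fun ⟨_, _, h3⟩ => h3.right.2 (Or.inr rfl)⟩
      have := h3.ind (P := fun u => u ∈ Lft r C b x' z' ∨ ∃ i < x, Rch r (Cᶜ \ {b x, z}) (b i) u)
        (by
          by_cases e : b i = z
          · exact Or.inl (e ▸ hz)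
          · exact Or.inr ⟨i, hi, Rch.refl ⟨h3.left.1, fun h4 => h4.elim
              (fun h5 => h3.left.2 (Or.inl h5)) e⟩⟩) (by
          intro u w h4 _ h5 h6
          by_cases e : w = z
          · exact Or.inl (e ▸ hz)
          have e' : w ∈ Cᶜ \ {b x, z} := ⟨h5.1, fun h4 => h4.elim (fun h6 => h5.2 (Or.inl h6)) e⟩
          rcases h4 with ⟨i', h7, h8⟩ | ⟨i', h7, h8⟩
          · by_cases e2 : w = b x'
            · exact Or.inr ⟨x', h1, e2 ▸ Rch.refl e'⟩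
            · exact Or.inl ⟨i', h7, h8.tail h6 ⟨h5.1, fun h4 => h4.elim e2
                fun h6 => h5.2 (Or.inr h6)⟩⟩
          · exact Or.inr ⟨i', h7, h8.tail h6 e'⟩)
      rcases this with ⟨i', h4, h5⟩ | ⟨i', h4, h5⟩
      · exact s1 i' h4 j (by omega) hj' h5
      · exact s2 i' h4 j hj hj' h5
    · exact ⟨z, s2, sub z hz⟩
  suffices H : ∀ n, ∃ z : ℕ → V, (∀ x, (∃ z, Sep r C b p x z) → Sep r C b p x (z x)) ∧
      ∀ x' x, x' < x → x < p → x < n → (∃ z, Sep r C b p x' z) → (∃ z, Sep r C b p x z) →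
        Lft r C b x' (z x') ⊆ Lft r C b x (z x) by
    obtain ⟨z, h1, h2⟩ := H p
    exact ⟨z, h1, fun x' x h3 h4 => h2 x' x h3 h4 h4⟩
  intro n
  induction n with
  | zero =>
    have : Nonempty V := ⟨b 0⟩
    choose! z hz using fun x (hx : ∃ z, Sep r C b p x z) => hx
    exact ⟨z, hz, by omega⟩
  | succ n ih =>
    obtain ⟨z, h1, h2⟩ := ih
    by_cases hn : n < p ∧ (∃ z, Sep r C b p n z) ∧ ∃ x' < n, ∃ z, Sep r C b p x' z
    · obtain ⟨n1, n2, x₀, n3, n4⟩ := hn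
      let P := fun x' => ∃ z, Sep r C b p x' z
      have m1 : P (Nat.findGreatest P (n - 1)) := Nat.findGreatest_spec (m := x₀) (by omega) n4
      have m2 := Nat.findGreatest_le (P := P) (n - 1)
      obtain ⟨w, w1, w2⟩ := step _ n _ _ (by omega) n1 (h1 _ m1) (h1 n n2)
      refine ⟨Function.update z n w, fun x hx => ?_, fun x' x c1 c2 c3 c4 c5 => ?_⟩
      · by_cases e : x = n
        · rw [e, Function.update_self]; exact w1
        · rw [Function.update_of_ne e]; exact h1 x hx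
      · rw [Function.update_of_ne (by omega)]
        by_cases e : x = n
        · rw [e, Function.update_self]
          refine subset_trans ?_ w2
          rcases (Nat.le_findGreatest (P := P) (n := n - 1) (by omega) c4).eq_or_lt with e' | e'
          · rw [← e']
          · exact h2 _ _ e' (by omega) (by omega) c4 m1
        · rw [Function.update_of_ne e]; exact h2 x' x c1 c2 (by omega) c4 c5
    · refine ⟨z, h1, fun x' x c1 c2 c3 c4 c5 => h2 x' x c1 c2 ?_ c4 c5⟩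
      by_contra c6
      obtain rfl : x = n := by omega
      exact hn ⟨c2, c5, x', c1, c4⟩

theorem reg {α β : ℕ} {z z' : V} (hαβ : α < β) (hβ : β < p) (s1 : Sep r C b p α z)
    (s2 : Sep r C b p β z') :
    Reg r C b p α β (Lft r C b β z' \ (Lft r C b α z ∪ {b α, z})) z z' where
  off := by
    rintro v ⟨⟨i, -, h1⟩, h2⟩
    have := h1.right
    simp only [Set.mem_sdiff, Set.mem_union, Set.mem_insert_iff, Set.mem_singleton_iff, not_or,
      Set.mem_compl_iff] at this h2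
    tauto
  cl := by
    rintro u ⟨⟨i, h0, h1⟩, h2⟩ w h3
    by_contra hc
    simp only [not_or] at hc
    refine hc.1 ⟨⟨i, h0, h1.tail h3 ⟨hc.2.1, by simp [hc]⟩⟩, ?_⟩
    rintro (⟨j, h4, h5⟩ | h4)
    · exact h2 (Or.inl ⟨j, h4, h5.tail (h.symm _ _ h3) ⟨h1.right.1, fun h6 => h2 (Or.inr h6)⟩⟩)
    · simp [hc] at h4
  win := by
    rintro t ht ⟨⟨i, h0, h1⟩, h2⟩
    constructor
    · by_contra hc
      rcases (not_lt.1 hc).eq_or_lt with rfl | h3
      · exact h2 (Or.inr (Or.inl rfl))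
      · exact h2 (Or.inl ⟨t, h3, Rch.refl ⟨h1.right.1, fun h6 => h2 (Or.inr h6)⟩⟩)
    · by_contra hc
      rcases (not_lt.1 hc).eq_or_lt with rfl | h3
      · exact h1.right.2 (Or.inl rfl)
      · exact s2 i h0 t h3 ht h1
  mem := by
    intro t h1 h2 h3 h4
    refine ⟨⟨t, h2, Rch.refl ⟨h.off t (by omega), ?_⟩⟩, ?_⟩
    · rintro (h5 | h5)
      · have := h.inj t (by omega) β hβ h5; omega
      · exact h4 h5
    · rintro (⟨j, h5, h6⟩ | h5 | h5)
      · exact s1 j h5 t h1 (by omega) h6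
      · have := h.inj t (by omega) α (by omega) h5; omega
      · exact h3 h5

theorem cp_small {y y' : V} {t t' : ℕ} {A A' : Set V} (ht : t < p) (ht' : t' < p)
    (hA : A ⊆ Cᶜ) (hA' : A' ⊆ Cᶜ) (a : Acc r A y (b t)) (a' : Acc r A' y' (b t')) :
    CP r C y y' 2 :=
  cp_two h.symm (a.mono hA) (a'.mono hA') (h.seg_rch ht ht' fun s _ h2 => h.off s (by omega))

theorem small {τ τ' : ℕ} {M : Set V} {N : Finset V} {cap : ℝ} (off : ∀ v ∈ M, v ∉ C)
    (win : ∀ t < p, b t ∈ M → τ < t ∧ t < τ') (acc : ∀ y ∈ N, y ∈ C ∧ ∃ t < p, Acc r M y (b t))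
    (hc : cap ≤ 2) : Piece r C b p τ τ' M N cap where
  off := off
  win := win
  acc := acc
  inn := fun y hy y' hy' _ =>
    let ⟨_, h1, h2⟩ := (acc y hy).2
    let ⟨_, h3, h4⟩ := (acc y' hy').2
    (h.cp_small h1 h3 off off h2 h4).mono hc
  out := fun y hy _ _ h3 _ h4 =>
    let ⟨_, h1, h2⟩ := (acc y hy).2
    (h.cp_small h1 h3 off Set.sdiff_subset h2 h4).mono hc

theorem fan' [Finite V] {κ : ℕ} (hK : KC r C (κ + 4)) {α β : ℕ} {M : Set V} {z z' : V}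
    (R : Reg r C b p α β M z z') {v : V} (hv : v ∈ M) :
    ∃ (y : Fin κ → V) (F : Fin κ → Set V),
      Function.Injective y ∧ (∀ i, y i ∈ C ∧ F i ⊆ M ∧ Acc r (F i) (y i) v) ∧
      ∀ i j, i ≠ j → ∀ u ∈ F i, u ∈ F j → u = v := by
  classical
  refine fan h.symm hK (D := {b α, z, b β, z'}) (fun v hv => by simpa using R.off v hv)
    (fun u hu w hw => by simpa using R.cl u hu w hw) (Nat.add_le_add_left card_le_four _) hv

end Line

end Pool.Agent.Lib.MP_4f0fb4_co
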