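import Mathlib

/-!
The matroid of a monotone submodular function.
-/

namespace Pool.Agent.Lib.MP_4f0fb4_co.RW

open Finset

variable {E : Type} [DecidableEq E]

structure Sub (F : Finset E → ℕ) : Prop where
  mono : ∀ {A B}, A ⊆ B → F A ≤ F B
  sub : ∀ A B, F (A ∪ B) + F (A ∩ B) ≤ F A + F B
  emp : F ∅ = 1

def Ind (F : Finset E → ℕ) (I : Finset E) : Prop := ∀ J ⊆ I, J.card < F J

variable {F : Finset E → ℕ} {I : Finset E}

theorem Sub.span (h : Sub F) (hI : Ind F I) (S : Finset E)
    (hS : ∀ x ∈ S, ¬ Ind F (insert x I)) : ∃ T ⊆ I, F (T ∪ S) ≤ T.card + 1 := by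
  induction S using Finset.induction_on with
  | empty => exact ⟨∅, empty_subset _, by simp [h.emp]⟩
  | insert x S _ ih =>
    obtain ⟨T, h1, h2⟩ := ih fun y hy => hS y (mem_insert_of_mem hy)
    have := hS x (mem_insert_self _ _)
    simp only [Ind, not_forall, not_lt] at this
    obtain ⟨J, h3, h4⟩ := this
    have h5 : J.erase x ⊆ I := (subset_insert_iff.1 h3)
    refine ⟨T ∪ J.erase x, union_subset h1 h5, ?_⟩
    have h6 := h.sub (T ∪ S) (insert x J)
    have h7 : F (insert x J) ≤ (J.erase x).card + 1 := by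
      by_cases y : x ∈ J
      · rw [insert_eq_of_mem y, card_erase_add_one y]
        exact h4
      · have := hI J (by rwa [erase_eq_of_notMem y] at h5)
        omega
    have h8 := hI (T ∩ J.erase x) (inter_subset_left.trans h1)
    have h9 : F (T ∩ J.erase x) ≤ F ((T ∪ S) ∩ insert x J) := h.mono
      (inter_subset_inter subset_union_left ((erase_subset _ _).trans (subset_insert _ _)))
    have h10 : F (T ∪ J.erase x ∪ insert x S) ≤ F (T ∪ S ∪ insert x J) := h.mono fun y => by
      simp only [mem_union, mem_erase, mem_insert]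
      tauto
    have := card_union_add_card_inter T (J.erase x)
    omega

theorem Sub.span' (h : Sub F) (hI : Ind F I) {X : Finset E} (hX : I ⊆ X)
    (hS : ∀ x ∈ X, x ∉ I → ¬ Ind F (insert x I)) :
    ∃ J ⊆ X, F J + (X \ J).card ≤ I.card + 1 := by
  obtain ⟨T, h1, h2⟩ := h.span hI (X \ I) fun x hx => hS x (mem_sdiff.1 hx).1 (mem_sdiff.1 hx).2
  refine ⟨T ∪ X \ I, union_subset (h1.trans hX) sdiff_subset, ?_⟩
  have : (X \ (T ∪ X \ I)).card ≤ (I \ T).card := card_le_card fun y => by
    simp only [mem_union, mem_sdiff]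
    tauto
  have := card_sdiff_add_card_eq_card h1
  omega

theorem Sub.le (h : Sub F) (hI : Ind F I) {X : Finset E} (hX : I ⊆ X) (J : Finset E) :
    I.card < F J + (X \ J).card := by
  have h1 := hI (I ∩ J) inter_subset_left
  have h2 : F (I ∩ J) ≤ F J := h.mono inter_subset_right
  have h3 : (I \ J).card ≤ (X \ J).card := card_le_card (sdiff_subset_sdiff hX subset_rfl)
  have := card_sdiff_add_card_inter I J
  omega

noncomputable def Sub.mat (h : Sub F) : Matroid E :=
  (IndepMatroid.ofFinset Set.univ (Ind F)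
    (fun J hJ => by rw [subset_empty.1 hJ, h.emp]; simp)
    (fun _ _ hJ hI K hK => hJ K (hK.trans hI))
    (fun I J hI hJ hc => by
      by_contra y
      push Not at y
      obtain ⟨K, -, h2⟩ := h.span' hI (subset_union_left (s₂ := J))
        fun x hx hx' => y x ((mem_union.1 hx).resolve_left hx') hx'
      have := h.le hJ (subset_union_right (s₁ := I)) K
      omega)
    fun _ _ => Set.subset_univ _).matroid

theorem Sub.mat_E (h : Sub F) : h.mat.E = Set.univ := rfl

theorem Sub.indep (h : Sub F) : h.mat.Indep ↑I ↔ Ind F I := by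
  unfold Sub.mat
  rw [IndepMatroid.matroid_indep_iff]
  exact IndepMatroid.ofFinset_indep ..

theorem Sub.rank (h : Sub F) (X : Finset E) : ∃ r : ℕ, h.mat.eRk ↑X = r ∧
    (∀ J, r < F J + (X \ J).card) ∧ ∃ J ⊆ X, F J + (X \ J).card ≤ r + 1 := by
  obtain ⟨I, hI⟩ := h.mat.exists_isBasis ↑X (Set.subset_univ _)
  lift I to Finset E using X.finite_toSet.subset hI.subset
  have h1 := h.indep.1 hI.indep
  have h2 : I ⊆ X := coe_subset.1 hI.subset
  refine ⟨I.card, by rw [hI.eRk_eq_encard, Set.encard_coe_eq_coe_finsetCard], h.le h1 h2,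
    h.span' h1 h2 fun x hx hx' y => ?_⟩
  exact (hI.insert_dep ⟨hx, hx'⟩).not_indep (by rw [← coe_insert]; exact h.indep.2 y)

theorem Sub.circ (h : Sub F) {Z : Finset E} :
    h.mat.IsCircuit ↑Z ↔ F Z ≤ Z.card ∧ ∀ J ⊂ Z, J.card < F J := by
  rw [Matroid.isCircuit_iff_forall_ssubset]
  refine ⟨fun ⟨h1, h2⟩ => ?_, fun ⟨h1, h2⟩ => ⟨⟨fun y => ?_, Set.subset_univ _⟩, fun I hI => ?_⟩⟩
  · have h3 : ∀ J ⊂ Z, J.card < F J := fun J hJ =>
      h.indep.1 (h2 (coe_ssubset.2 hJ)) J subset_rfl
    refine ⟨?_, h3⟩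
    by_contra y
    exact h1.not_indep (h.indep.2 fun J hJ => by
      rcases hJ.eq_or_ssubset with rfl | hJ
      exacts [by omega, h3 J hJ])
  · have := h.indep.1 y Z subset_rfl
    omega
  · lift I to Finset E using Z.finite_toSet.subset hI.subset
    exact h.indep.2 fun J hJ => h2 J (Finset.ssubset_of_subset_of_ssubset hJ (coe_ssubset.1 hI))

end Pool.Agent.Lib.MP_4f0fb4_co.RW
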