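import Pool.Agent.Lib.MP_4f0fb4_co.RwA

/-!
A subspace arrangement over the field with two elements and its submodular function.
-/

namespace Pool.Agent.Lib.MP_4f0fb4_co.RW

open Finset Module Submodule

abbrev Seg (s : ℕ) := Fin (s + 1) × Bool
abbrev Lf (s : ℕ) := Seg s × Bool
abbrev El (s n : ℕ) := (Lf s × Option (Fin (s + 1)) × Fin n) ⊕ Seg s
abbrev Co (s : ℕ) := Fin (s + 1) ⊕ Option (Seg s)
abbrev W (s : ℕ) := Co s → ZMod 2

variable {s n : ℕ} (P : Seg s → Fin (s + 1) → ZMod 2)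

instance decEl : DecidableEq (El s n) := inferInstance

def nv (p : Fin (s + 1) → ZMod 2) : W s := Sum.elim p 0
def z (o : Option (Seg s)) : W s := Pi.single (.inr o) 1
def pos (l : Lf s) : Fin (s + 1) → ZMod 2 := if l.2 then P l.1 + Pi.single l.1.1 1 else P l.1
def vec : Lf s ⊕ Seg s → W s
  | .inl l => nv (pos P l) + z (some l.1)
  | .inr e => z (some e) + z none

/-- The vectors supported on the first block and on the coordinates in `S`. -/
noncomputable def Sp (S : Finset (Option (Seg s))) : Submodule (ZMod 2) (W s) :=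
  Pi.spanSubset (ZMod 2) ↑((univ : Finset (Fin (s + 1))).disjSum S)

def idx : El s n → Lf s ⊕ Seg s
  | .inl x => .inl x.1
  | .inr e => .inr e

noncomputable def K : El s n → Submodule (ZMod 2) (W s)
  | .inl (l, none, _) => Sp {some l.1}
  | x => span _ {vec P (idx x)}

def O (s : ℕ) : Submodule (ZMod 2) (W s) := span _ {nv 1}
noncomputable def KK (J : Finset (El s n)) : Submodule (ZMod 2) (W s) := O s ⊔ J.sup (K P)
noncomputable def V (S : Finset (Lf s ⊕ Seg s)) : Submodule (ZMod 2) (W s) :=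
  O s ⊔ S.sup fun i => span _ {vec P i}

def vt (J : Finset (El s n)) : Finset (Lf s × Fin (s + 1)) :=
  univ.filter fun t => ∃ i : Fin n, (Sum.inl (t.1, some t.2, i) : El s n) ∈ J
def gd (J : Finset (El s n)) : Finset (Lf s) := (J.image idx).toLeft
def ln (J : Finset (El s n)) : Finset (Seg s) := (J.image idx).toRight

noncomputable def F (J : Finset (El s n)) : ℕ :=
  2 * (vt J).card + s * (gd J).card + finrank (ZMod 2) (KK P J)

variable {J A B : Finset (El s n)} {l : Lf s} {e : Seg s} {S : Finset (Option (Seg s))}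

theorem mem_vt {t : Lf s × Fin (s + 1)} : t ∈ vt J ↔ ∃ i, .inl (t.1, some t.2, i) ∈ J := by
  simp [vt]

theorem mem_gd : l ∈ gd J ↔ ∃ o i, .inl (l, o, i) ∈ J := by
  simp only [gd, mem_toLeft, mem_image]
  refine ⟨?_, fun ⟨o, i, h⟩ => ⟨_, h, rfl⟩⟩
  rintro ⟨⟨l', o, i⟩ | e, h1, h2⟩ <;> simp only [idx, Sum.inl.injEq, reduceCtorEq] at h2
  exact ⟨o, i, h2 ▸ h1⟩

theorem mem_ln : e ∈ ln J ↔ .inr e ∈ J := by
  simp only [ln, mem_toRight, mem_image]
  refine ⟨?_, fun h => ⟨_, h, rfl⟩⟩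
  rintro ⟨x | e, h1, h2⟩ <;> simp only [idx, Sum.inr.injEq, reduceCtorEq] at h2
  exact h2 ▸ h1

theorem mem_Sp {v : W s} : v ∈ Sp S ↔ ∀ o ∉ S, v (.inr o) = 0 := by
  simp [Sp, Pi.mem_spanSubset_iff]

theorem dim_Sp : finrank (ZMod 2) (Sp S) = s + 1 + S.card := by
  rw [Sp, Pi.dim_spanSubset, Set.ncard_coe_finset, card_disjSum, card_univ, Fintype.card_fin]

theorem nv_Sp (p : Fin (s + 1) → ZMod 2) : nv p ∈ Sp S := mem_Sp.2 fun _ _ => rfl

theorem z_Sp {o : Option (Seg s)} (h : o ∈ S) : z o ∈ Sp S := mem_Sp.2 fun o' h' => by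
  rw [z, Pi.single_eq_of_ne]
  rintro ⟨rfl⟩
  exact h' h

theorem nv_add (p q : Fin (s + 1) → ZMod 2) : nv (p + q) = nv p + nv q := by
  ext (i | o) <;> simp [nv]

theorem nv_mem {U : Submodule (ZMod 2) (W s)} {p : Fin (s + 1) → ZMod 2}
    (h : ∀ i, p i ≠ 0 → nv (Pi.single i 1) ∈ U) : nv p ∈ U := by
  have : nv p = ∑ i, p i • nv (Pi.single i 1) := by
    ext (i | o) <;> simp [nv, Finset.sum_apply, Pi.single_apply]
  rw [this]
  refine sum_mem fun i _ => ?_
  by_cases y : p i = 0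
  · simp [y]
  · exact smul_mem _ _ (h i y)

theorem Sp_le {U : Submodule (ZMod 2) (W s)} (h1 : ∀ i, nv (Pi.single i 1) ∈ U)
    (h2 : ∀ o ∈ S, z o ∈ U) : Sp S ≤ U := fun v hv => by
  have : v = nv (fun i => v (.inl i)) + ∑ o ∈ S, v (.inr o) • z o := by
    ext (i | o)
    · simp [nv, z, Finset.sum_apply]
    · by_cases y : o ∈ S
      · simp [nv, z, Finset.sum_apply, Pi.single_apply, y]
      · simp [nv, z, Finset.sum_apply, Pi.single_apply, y, mem_Sp.1 hv o y]
  rw [this]
  exact add_mem (nv_mem fun i _ => h1 i) (sum_mem fun o ho => smul_mem _ _ (h2 o ho))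

theorem two (v : W s) : v + v = 0 := by
  ext i
  exact CharTwo.add_self_eq_zero _

theorem vec_pair (e : Seg s) :
    vec P (.inl (e, true)) + vec P (.inl (e, false)) = nv (Pi.single e.1 1) := by
  simp only [vec, pos, if_true, nv_add, Bool.false_eq_true, if_false]
  linear_combination two (nv (P e)) + two (z (some e))

theorem vec_K (x : El s n) : vec P (idx x) ∈ K P x := by
  rcases x with ⟨l, _ | j, i⟩ | e
  · exact add_mem (nv_Sp _) (z_Sp (mem_singleton_self _))
  · exact mem_span_singleton_self _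
  · exact mem_span_singleton_self _

theorem K_le {x : El s n} (h : x ∈ J) : K P x ≤ KK P J := (le_sup h).trans le_sup_right

theorem KK_mono (h : A ⊆ B) : KK P A ≤ KK P B := sup_le_sup_left (sup_mono h) _

theorem KK_le (h1 : ∀ l ∈ gd J, some l.1 ∈ S) (h2 : ∀ e ∈ ln J, some e ∈ S ∧ none ∈ S) :
    KK P J ≤ Sp S := by
  refine sup_le ((span_singleton_le_iff_mem _ _).2 (nv_Sp _)) (Finset.sup_le ?_)
  rintro (⟨l, _ | j, i⟩ | e) hx
  · exact Sp_le (fun _ => nv_Sp _) fun o ho => z_Sp (mem_singleton.1 ho ▸ h1 l (mem_gd.2 ⟨_, _, hx⟩))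
  · exact (span_singleton_le_iff_mem _ _).2
      (add_mem (nv_Sp _) (z_Sp (h1 l (mem_gd.2 ⟨_, _, hx⟩))))
  · exact (span_singleton_le_iff_mem _ _).2
      (add_mem (z_Sp (h2 e (mem_ln.2 hx)).1) (z_Sp (h2 e (mem_ln.2 hx)).2))

/-- A coordinate that is used by `B` but not by `A` raises the dimension. -/
theorem KK_lt (h : A ⊆ B) {o : Option (Seg s)} {x : El s n} (hx : x ∈ B)
    (h0 : vec P (idx x) (.inr o) ≠ 0) (h1 : ∀ l ∈ gd A, some l.1 ≠ o)
    (h2 : ∀ e ∈ ln A, some e ≠ o ∧ none ≠ o) :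
    finrank (ZMod 2) (KK P A) < finrank (ZMod 2) (KK P B) :=
  finrank_lt_finrank_of_lt (lt_of_le_of_ne (KK_mono P h) fun y => h0 (mem_Sp.1
    (KK_le P (S := univ.erase o) (by simpa using h1) (by simpa using h2)
      (y ▸ K_le P hx (vec_K P x))) o (by simp)))

theorem dim_O : finrank (ZMod 2) (O s) = 1 :=
  finrank_span_singleton fun h => by simpa [nv] using congrFun h (.inl 0)

theorem dim_sup {ι : Type} [DecidableEq ι] (U : Submodule (ZMod 2) (W s)) (v : ι → W s)
    (T : Finset ι) : finrank (ZMod 2) ↥(U ⊔ T.sup fun i => span _ {v i}) ≤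
      finrank (ZMod 2) U + T.card := by
  induction T using Finset.induction_on with
  | empty => rw [sup_empty, sup_bot_eq]; simp
  | insert i T hi ih =>
    rw [sup_insert, card_insert_of_notMem hi, sup_comm (span _ {v i}), ← sup_assoc]
    refine (finrank_add_le_finrank_add_finrank _ _).trans ?_
    have : finrank (ZMod 2) (span (ZMod 2) {v i}) ≤ 1 := by
      simpa using finrank_span_le_card (R := ZMod 2) ({v i} : Set (W s))
    omega

variable {T T' : Finset (Lf s ⊕ Seg s)} {i : Lf s ⊕ Seg s}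

theorem vec_V (h : i ∈ T) : vec P i ∈ V P T :=
  mem_sup_right (le_sup (f := fun i => span (ZMod 2) {vec P i}) h (mem_span_singleton_self _))

theorem one_V : nv 1 ∈ V P T := mem_sup_left (mem_span_singleton_self _)

theorem V_le {U : Submodule (ZMod 2) (W s)} (h1 : nv 1 ∈ U) (h2 : ∀ i ∈ T, vec P i ∈ U) :
    V P T ≤ U :=
  sup_le ((span_singleton_le_iff_mem _ _).2 h1)
    (Finset.sup_le fun i hi => (span_singleton_le_iff_mem _ _).2 (h2 i hi))

theorem dim_V_sdiff (T T' : Finset (Lf s ⊕ Seg s)) :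
    finrank (ZMod 2) (V P T) ≤ finrank (ZMod 2) (V P T') + (T \ T').card :=
  (finrank_mono (V_le P (mem_sup_left (one_V P)) fun i hi => by
    by_cases y : i ∈ T'
    · exact mem_sup_left (vec_V P y)
    · exact mem_sup_right (le_sup (f := fun i => span (ZMod 2) {vec P i}) (mem_sdiff.2 ⟨hi, y⟩)
        (mem_span_singleton_self _)))).trans (dim_sup _ _ _)

theorem V_erase (h : vec P i ∈ V P (T.erase i)) : V P T ≤ V P (T.erase i) :=
  V_le P (one_V P) fun j hj => by
    by_cases y : j = i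
    · exact y ▸ h
    · exact vec_V P (mem_erase.2 ⟨y, hj⟩)

theorem dim_V_dep (hi : i ∈ T) (h : vec P i ∈ V P (T.erase i)) :
    finrank (ZMod 2) (V P T) ≤ T.card := by
  have := (finrank_mono (V_erase P h)).trans (dim_sup (O s) (vec P) _)
  rw [dim_O, ← card_erase_add_one hi] at *
  omega

theorem V_le_KK : V P (J.image idx) ≤ KK P J :=
  V_le P (mem_sup_left (mem_span_singleton_self _)) fun i hi => by
    obtain ⟨x, hx, rfl⟩ := mem_image.1 hi
    exact K_le P hx (vec_K P x)

theorem KK_le_V (h : ∀ l i, .inl (l, none, i) ∉ J) : KK P J ≤ V P (J.image idx) := by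
  refine sup_le le_sup_left (Finset.sup_le ?_)
  rintro (⟨l, _ | j, i⟩ | e) hx
  · exact (h _ _ hx).elim
  · exact (span_singleton_le_iff_mem _ _).2 (vec_V P (mem_image_of_mem _ hx))
  · exact (span_singleton_le_iff_mem _ _).2 (vec_V P (mem_image_of_mem _ hx))

theorem vt_mono (h : A ⊆ B) : vt A ⊆ vt B := fun _ ht =>
  let ⟨i, hi⟩ := mem_vt.1 ht; mem_vt.2 ⟨i, h hi⟩

theorem gd_mono (h : A ⊆ B) : gd A ⊆ gd B := fun _ ht =>
  let ⟨o, i, hi⟩ := mem_gd.1 ht; mem_gd.2 ⟨o, i, h hi⟩

theorem F_add (A B : Finset (El s n)) : F P (A ∪ B) + (2 * (vt A ∩ vt B).card +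
    s * (gd A ∩ gd B).card + finrank (ZMod 2) ↥(KK P A ⊓ KK P B)) = F P A + F P B := by
  have h1 : vt (A ∪ B) = vt A ∪ vt B := by
    ext t
    simp only [mem_vt, mem_union, exists_or]
  have h2 : gd (A ∪ B) = gd A ∪ gd B := by
    ext t
    simp only [mem_gd, mem_union, exists_or]
  have h3 : KK P (A ∪ B) = KK P A ⊔ KK P B := by
    rw [KK, KK, KK, sup_union, sup_sup_distrib_left]
  have h4 := card_union_add_card_inter (vt A) (vt B)
  have h5 := congrArg (s * ·) (card_union_add_card_inter (gd A) (gd B))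
  have h6 := finrank_sup_add_finrank_inf_eq (KK P A) (KK P B)
  simp only [mul_add] at h5
  simp only [F, h1, h2]
  rw [h3]
  omega

theorem sub : Sub (F P : Finset (El s n) → ℕ) where
  mono h := add_le_add (add_le_add (Nat.mul_le_mul_left _ (card_le_card (vt_mono h)))
    (Nat.mul_le_mul_left _ (card_le_card (gd_mono h)))) (finrank_mono (KK_mono P h))
  sub A B := by
    rw [← F_add P A B]
    exact Nat.add_le_add_left (add_le_add (add_le_add (Nat.mul_le_mul_left _ (card_le_card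
      (subset_inter (vt_mono inter_subset_left) (vt_mono inter_subset_right))))
      (Nat.mul_le_mul_left _ (card_le_card
      (subset_inter (gd_mono inter_subset_left) (gd_mono inter_subset_right)))))
      (finrank_mono (le_inf (KK_mono P inter_subset_left) (KK_mono P inter_subset_right)))) _
  emp := by
    have : KK P (∅ : Finset (El s n)) = O s := by simp [KK]
    have h : gd (∅ : Finset (El s n)) = ∅ := by
      ext l
      simp [mem_gd]
    rw [F, this, dim_O, h]
    simp [vt]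

theorem vt_le (J : Finset (El s n)) : (vt J).card ≤ (s + 1) * (gd J).card :=
  card_le_mul_card_image_of_maps_to (f := Prod.fst)
    (fun _ ht => let ⟨_, hi⟩ := mem_vt.1 ht; mem_gd.2 ⟨_, _, hi⟩) _ fun l _ => by
      refine (card_le_card_of_injOn Prod.snd (t := univ) (by simp) ?_).trans (by simp)
      rintro ⟨a, b⟩ ha ⟨c, d⟩ hc h
      simp only [coe_filter, Set.mem_ofPred_eq] at ha hc h
      rw [ha.2, hc.2, h]

end Pool.Agent.Lib.MP_4f0fb4_co.RW
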