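import Pool.Agent.Lib.MP_4f0fb4_co.RwE

/-!
Every circuit has at most `6 (s + 1) ^ 2` elements.
-/

namespace Pool.Agent.Lib.MP_4f0fb4_co.RW

open Finset Module Submodule

variable {s n : ℕ} {P : Seg s → Fin (s + 1) → ZMod 2} {Z J : Finset (El s n)} {l : Lf s}
  {e : Seg s}

theorem far_ex {v : Fin (s + 1) → ZMod 2} (h : Far v) (t : Fin (s + 1)) :
    ∃ w, (v = w ∨ v = w + 1) ∧ w t = 0 ∧ ∃ j, j ≠ t ∧ w j = 0 := by
  have h2 : ∀ x : ZMod 2, x ≠ 0 → x = 1 := by decide
  have h3 : ∀ w : Fin (s + 1) → ZMod 2, w t = 0 → w ≠ Pi.single t 1 + 1 →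
      ∃ j, j ≠ t ∧ w j = 0 := fun w h0 hw => by
    by_contra y
    push Not at y
    refine hw (funext fun j => ?_)
    by_cases hj : j = t
    · subst hj
      rw [h0, Pi.add_apply, Pi.single_eq_same]
      rfl
    · rw [h2 _ (y j hj), Pi.add_apply, Pi.single_eq_of_ne hj]
      rfl
  by_cases y : v t = 0
  · exact ⟨v, .inl rfl, y, h3 v y (h t).2⟩
  · have h0 : (v + 1) t = 0 := by
      rw [Pi.add_apply, h2 _ y]
      rfl
    exact ⟨v + 1, .inr (by linear_combination - two' 1), h0,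
      h3 _ h0 fun y' => (h t).1 (add_right_cancel y')⟩

theorem dep (hP : Good P) {T : Finset (Lf s ⊕ Seg s)} {U : Finset (Seg s)}
    (hU : ∀ e ∈ U, ∀ b, .inl (e, b) ∈ T) (hc : s ≤ U.card) {l l' : Lf s} (hn : l.1 ≠ l'.1)
    (h1 : .inl l ∈ T) (h2 : .inl l' ∈ T) (h3 : .inr l.1 ∈ T) (h4 : .inr l'.1 ∈ T)
    (h5 : l.1 ∉ U) (h6 : l'.1 ∉ U) :
    ∃ i ∈ T, ∃ j ∈ T.erase i, vec P j ∈ V P ((T.erase i).erase j) := by
  by_cases inj : Set.InjOn Prod.fst (U : Set (Seg s))
  · obtain ⟨t, ht⟩ : ∃ t, (U.image Prod.fst)ᶜ ⊆ {t} := card_le_one_iff_subset_singleton.1 (by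
      rw [card_compl, card_image_of_injOn inj, Fintype.card_fin]
      omega)
    have ht' : ∀ i, i ≠ t → ∃ g ∈ U, g.1 = i := fun i hi => by
      by_contra y
      exact hi (mem_singleton.1 (ht (mem_compl.2 fun y' => y (mem_image.1 y'))))
    obtain ⟨w, hw, h0, j, hj, hj'⟩ := far_ex (hP l l' hn) t
    obtain ⟨f, hf, rfl⟩ := ht' j hj
    refine ⟨_, hU f hf true, .inr l.1, by simpa using h3, ?_⟩
    have hm : ∀ k : Lf s, .inl k ∈ T → k.1 ≠ f →
        vec P (.inl k) ∈ V P ((T.erase (.inl (f, true))).erase (.inr l.1)) := fun k hk hk' =>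
      vec_V P (mem_erase.2 ⟨by simp, mem_erase.2 ⟨fun y => hk' (by cases y; rfl), hk⟩⟩)
    have h7 : nv w ∈ V P ((T.erase (.inl (f, true))).erase (.inr l.1)) := nv_mem fun i hi => by
      obtain ⟨g, hg, rfl⟩ := ht' i fun y => hi (y ▸ h0)
      have : g ≠ f := fun y => hi (y ▸ hj')
      rw [← vec_pair P]
      exact add_mem (hm _ (hU g hg _) this) (hm _ (hU g hg _) this)
    have h8 : nv (pos P l + pos P l') ∈
        V P ((T.erase (.inl (f, true))).erase (.inr l.1)) := by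
      rcases hw with y | y <;> rw [y]
      · exact h7
      · rw [nv_add]
        exact add_mem h7 (one_V P)
    have : vec P (.inr l.1) = vec P (.inr l'.1) + vec P (.inl l) + vec P (.inl l') +
        nv (pos P l + pos P l') := by
      simp only [vec, nv_add]
      linear_combination - two (z (some l'.1)) - two (nv (pos P l)) - two (nv (pos P l'))
    rw [this]
    exact add_mem (add_mem (add_mem (vec_V P (by simpa [hn.symm] using h4))
      (hm l h1 fun y => h5 (y ▸ hf))) (hm l' h2 fun y => h6 (y ▸ hf))) h8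
  · simp only [Set.InjOn, mem_coe, not_forall] at inj
    obtain ⟨f, hf, g, hg, h7, h8⟩ := inj
    refine ⟨_, h3, .inl (f, true), by simpa using hU f hf _, ?_⟩
    have : vec P (.inl (f, true)) =
        vec P (.inl (f, false)) + (vec P (.inl (g, true)) + vec P (.inl (g, false))) := by
      rw [vec_pair, ← h7, ← vec_pair P]
      linear_combination - two (vec P (.inl (f, false)))
    rw [this]
    exact add_mem (vec_V P (by simpa using hU f hf _)) (add_mem
      (vec_V P (by simpa [Ne.symm h8] using hU g hg _)) (vec_V P (by simpa using hU g hg _)))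

def ty : El s n → Option (Lf s × Fin (s + 1))
  | .inl (l, some j, _) => some (l, j)
  | _ => none

theorem ty_idx {x : El s n} {t : Lf s × Fin (s + 1)} (h : ty x = some t) : idx x = .inl t.1 := by
  rcases x with ⟨l, _ | j, i⟩ | e <;> cases h
  rfl

def nn (J : Finset (El s n)) : Finset (El s n) := J.filter (ty · = none)

theorem cnt : J.card = ∑ t ∈ vt J, (J.filter (ty · = some t)).card + (nn J).card := by
  rw [card_eq_sum_card_fiberwise (f := ty) (t := insertNone (vt J)), sum_insertNone, add_comm]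
  · congr!
  rintro (⟨l, _ | j, i⟩ | e) hx
  · simp [ty]
  · simpa [ty] using mem_vt.2 ⟨i, hx⟩
  · simp [ty]

theorem ln_sub : (ln J).map .inr ⊆ nn J := fun x hx => by
  obtain ⟨e, he, rfl⟩ := mem_map.1 hx
  exact mem_filter.2 ⟨mem_ln.1 he, rfl⟩

theorem vt_sub : vt J ⊆ gd J ×ˢ univ := fun _ ht =>
  let ⟨_, hi⟩ := mem_vt.1 ht; mem_product.2 ⟨mem_gd.2 ⟨_, _, hi⟩, mem_univ _⟩

theorem card_bool (S : Finset (Lf s)) : S.card = (univ.filter fun e => (e, false) ∈ S).card +
    (univ.filter fun e => (e, true) ∈ S).card := by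
  have : S.card = ∑ p : Lf s, if p ∈ S then 1 else 0 := by simp
  rw [this, Fintype.sum_prod_type_right, Fintype.sum_bool, card_filter, card_filter, add_comm]

structure Ci (P : Seg s → Fin (s + 1) → ZMod 2) (Z : Finset (El s n)) : Prop where
  le : F P Z ≤ Z.card
  lt : ∀ J ⊂ Z, J.card < F P J

theorem Ci.rem (h : Ci P Z) (p : El s n → Prop) [DecidablePred p] {x : El s n} (hx : x ∈ Z)
    (hp : p x) : F P Z < F P (Z.filter (¬ p ·)) + (Z.filter p).card := by
  have h1 := h.lt (Z.filter (¬ p ·)) (filter_ssubset.2 ⟨x, hx, not_not.2 hp⟩)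
  have := card_filter_add_card_filter_not (s := Z) p
  have := h.le
  omega

theorem Ci.card_le (h : Ci P Z) : Z.card ≤ F P Z := by
  rcases Z.eq_empty_or_nonempty with rfl | ⟨x, hx⟩
  · simp
  have h1 := h.lt _ (erase_ssubset hx)
  have h2 := (sub P).mono (erase_subset x Z)
  have := card_erase_add_one hx
  omega

theorem Ci.link (h : Ci P Z) (he : e ∈ ln Z) : finrank (ZMod 2) (KK P Z) ≤
    finrank (ZMod 2) (KK P (Z.filter (¬ · = .inr e))) := by
  have h1 := h.rem (· = .inr e) (mem_ln.1 he) rfl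
  have h2 : (Z.filter (· = .inr e)).card ≤ 1 :=
    card_le_one.2 fun a ha b hb => (mem_filter.1 ha).2.trans (mem_filter.1 hb).2.symm
  have h3 := card_le_card (vt_mono (filter_subset (¬ · = .inr e) Z))
  have h4 := Nat.mul_le_mul_left s (card_le_card (gd_mono (filter_subset (¬ · = .inr e) Z)))
  simp only [F] at h1
  omega

theorem Ci.link_gd (h : Ci P Z) (he : e ∈ ln Z) : ∃ b, (e, b) ∈ gd Z := by
  by_contra y
  refine (h.link he).not_gt (KK_lt P (filter_subset _ _) (o := some e) (mem_ln.1 he)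
    (by simp [vec, idx, z]) (fun l hl y' => y ⟨l.2, ?_⟩) fun f hf => ⟨fun y' => ?_, by simp⟩)
  · cases y'
    exact gd_mono (filter_subset _ _) hl
  · cases y'
    exact (mem_filter.1 (mem_ln.1 hf)).2 rfl

theorem Ci.link_two (h : Ci P Z) (he : e ∈ ln Z) : 1 < (ln Z).card := by
  by_contra y
  refine (h.link he).not_gt (KK_lt P (filter_subset _ _) (o := none) (mem_ln.1 he)
    (by simp [vec, idx, z]) (by simp) fun f hf => (y (one_lt_card.2 ⟨e, he, f, ?_, ?_⟩)).elim)
  · exact mem_ln.2 (mem_filter.1 (mem_ln.1 hf)).1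
  · rintro rfl
    exact (mem_filter.1 (mem_ln.1 hf)).2 rfl

theorem Ci.gad (h : Ci P Z) (hl : l ∈ gd Z) :
    2 * ((vt Z).filter (·.1 = l)).card + (s + 1) +
      (if (l.1, !l.2) ∉ gd Z ∧ l.1 ∉ ln Z then 1 else 0) ≤ (Z.filter (idx · = .inl l)).card := by
  obtain ⟨o, i, hx⟩ := mem_gd.1 hl
  have h1 := h.rem (idx · = .inl l) hx rfl
  have h0 : ∀ k ∈ gd (Z.filter (¬ idx · = .inl l)), k ≠ l := fun k hk y =>
    let ⟨_, _, hi⟩ := mem_gd.1 hk; (mem_filter.1 hi).2 (y ▸ rfl)
  have h2 : (vt (Z.filter (¬ idx · = .inl l))).card ≤ ((vt Z).filter (¬ ·.1 = l)).card :=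
    card_le_card fun t ht => mem_filter.2 ⟨vt_mono (filter_subset _ _) ht,
      h0 _ (mem_product.1 (vt_sub ht)).1⟩
  have h3 := card_filter_add_card_filter_not (s := vt Z) (·.1 = l)
  have h4 : (gd (Z.filter (¬ idx · = .inl l))).card + 1 ≤ (gd Z).card :=
    card_lt_card ⟨gd_mono (filter_subset _ _), fun y => h0 l (y hl) rfl⟩
  have h5 := Nat.mul_le_mul_left s h4
  have h6 := finrank_mono (KK_mono P (filter_subset (¬ idx · = .inl l) Z))
  simp only [F] at h1
  rw [mul_add] at h5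
  split_ifs with y
  · have := KK_lt P (filter_subset (¬ idx · = .inl l) Z) (o := some l.1) hx
      (by simp [vec, idx, z, nv]) (fun k hk y' => y.1 (by
        have h7 := h0 k hk
        have h8 := gd_mono (filter_subset _ _) hk
        obtain ⟨f, b⟩ := l
        obtain ⟨g, c⟩ := k
        cases y'
        cases b <;> cases c <;> simp_all))
      fun f hf => ⟨fun y' => y.2 (by
        cases y'
        exact mem_ln.2 (mem_filter.1 (mem_ln.1 hf)).1), by simp⟩
    omega
  · omega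

theorem Ci.sum (h : Ci P Z) : 2 * (vt Z).card + (s + 1) * (gd Z).card +
    ((gd Z).filter fun l => (l.1, !l.2) ∉ gd Z ∧ l.1 ∉ ln Z).card + (ln Z).card ≤ Z.card := by
  rw [card_eq_sum_card_image idx Z, ← toLeft_disjSum_toRight (u := Z.image idx), sum_disjSum]
  refine add_le_add (le_trans (le_of_eq ?_) (sum_le_sum fun l hl => h.gad hl))
    (le_trans (le_of_eq (card_eq_sum_ones _)) (sum_le_sum fun e he =>
      card_pos.2 ⟨_, mem_filter.2 ⟨mem_ln.1 he, rfl⟩⟩))
  rw [sum_add_distrib, sum_add_distrib, ← mul_sum, card_filter, sum_const, smul_eq_mul,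
    card_eq_sum_card_fiberwise (f := Prod.fst) (t := gd Z)
      fun t ht => (mem_product.1 (vt_sub ht)).1, mul_comm (s + 1)]
  rfl

theorem Ci.three (h : Ci P Z) {t : Lf s × Fin (s + 1)} (ht : t ∈ vt Z) :
    3 ≤ (Z.filter (ty · = some t)).card := by
  obtain ⟨i, hi⟩ := mem_vt.1 ht
  have h1 := h.rem (ty · = some t) hi rfl
  have h2 : (vt (Z.filter (¬ ty · = some t))).card < (vt Z).card :=
    card_lt_card ⟨vt_mono (filter_subset _ _), fun y =>
      let ⟨_, hi⟩ := mem_vt.1 (y ht); (mem_filter.1 hi).2 rfl⟩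
  have h4 := Nat.mul_le_mul_left s (card_le_card (gd_mono (filter_subset (¬ ty · = some t) Z)))
  have h6 := finrank_mono (KK_mono P (filter_subset (¬ ty · = some t) Z))
  simp only [F] at h1
  omega

theorem Ci.ind (h : Ci P Z) (h1 : vt Z = gd Z ×ˢ univ) (h2 : ∀ l i, .inl (l, none, i) ∉ Z)
    {i : Lf s ⊕ Seg s} (hi : i ∈ Z.image idx) :
    ((Z.image idx).erase i).card < finrank (ZMod 2) (V P ((Z.image idx).erase i)) := by
  obtain ⟨x, hx, hx'⟩ := mem_image.1 hi
  have h3 : (Z.image idx).erase i = (Z.filter (¬ idx · = i)).image idx := by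
    ext j
    simp only [mem_erase, mem_image, mem_filter]
    exact ⟨fun ⟨a, y, b, c⟩ => ⟨y, ⟨b, c ▸ a⟩, c⟩, fun ⟨y, ⟨a, b⟩, c⟩ => ⟨c ▸ b, y, a, c⟩⟩
  have h4 := h.lt (Z.filter (¬ idx · = i)) (filter_ssubset.2 ⟨x, hx, not_not.2 hx'⟩)
  rw [h3]
  generalize hJ : Z.filter (¬ idx · = i) = J at *
  have hs : J ⊆ Z := hJ ▸ filter_subset _ _
  have h0 : ∀ l ∈ gd J, ∀ x ∈ Z, idx x = .inl l → x ∈ J := fun l hl x hx y => by
    obtain ⟨_, _, hi⟩ := mem_gd.1 hl
    rw [← hJ] at hi ⊢
    exact mem_filter.2 ⟨hx, y ▸ (mem_filter.1 hi).2⟩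
  have h5 := finrank_mono (KK_le_V P (J := J) fun l i y => h2 l i (hs y))
  have h6 : (gd J ×ˢ univ).card ≤ (vt J).card := card_le_card fun t ht => by
    have h7 := (mem_product.1 ht).1
    obtain ⟨k, hk⟩ := mem_vt.1 (h1 ▸ mem_product.2 ⟨gd_mono hs h7, mem_univ t.2⟩ : t ∈ vt Z)
    exact mem_vt.2 ⟨k, h0 _ h7 _ hk rfl⟩
  have h7 := card_nsmul_le_sum (vt J) (fun t => (J.filter (ty · = some t)).card) 3 fun t ht =>
    (h.three (vt_mono hs ht)).trans (card_le_card fun x hx => mem_filter.2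
      ⟨h0 _ (mem_product.1 (vt_sub ht)).1 x (mem_filter.1 hx).1 (ty_idx (mem_filter.1 hx).2),
        (mem_filter.1 hx).2⟩)
  have h8 := card_le_card (ln_sub (J := J))
  have h9 := cnt (J := J)
  have h10 : (gd J).card + (ln J).card = _ := card_toLeft_add_card_toRight (u := J.image idx)
  rw [card_product, card_univ, Fintype.card_fin, mul_comm, add_mul] at h6
  rw [card_map] at h8
  rw [smul_eq_mul] at h7
  simp only [F] at h4
  omega

theorem Ci.bound (hP : Good P) (h : Ci P Z) : Z.card ≤ 6 * (s + 1) ^ 2 := by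
  have h1 := h.card_le
  have h2 := h.sum
  have h3 := vt_le Z
  have h4 := card_bool (gd Z)
  generalize hA : (univ.filter fun e => (e, false) ∈ gd Z) = A at h4
  generalize hB : (univ.filter fun e => (e, true) ∈ gd Z) = B at h4
  have mA : ∀ e, e ∈ A ↔ (e, false) ∈ gd Z := by simp [← hA]
  have mB : ∀ e, e ∈ B ↔ (e, true) ∈ gd Z := by simp [← hB]
  have mU : ∀ e b, (e, b) ∈ gd Z → e ∈ A ∪ B := fun e b => by
    cases b <;> simp +contextual [mA, mB]
  have h5 := card_union_add_card_inter A B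
  have h6 := card_union_add_card_inter (A ∩ B) (ln Z)
  have h7 : A ∩ B ∪ ln Z ⊆ A ∪ B := union_subset inter_subset_union fun e he =>
    let ⟨b, hb⟩ := h.link_gd he; mU e b hb
  have h8 := card_sdiff_add_card_eq_card h7
  have h9 : ((A ∪ B) \ (A ∩ B ∪ ln Z)).card ≤
      ((gd Z).filter fun l => (l.1, !l.2) ∉ gd Z ∧ l.1 ∉ ln Z).card :=
    (card_le_card fun e he => by
      simp only [mem_sdiff, mem_union, mem_inter, mA, mB, not_or, not_and] at he
      by_cases y : (e, false) ∈ gd Z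
      · exact mem_image.2 ⟨(e, false), mem_filter.2 ⟨y, he.2.1 y, he.2.2⟩, rfl⟩
      · exact mem_image.2 ⟨(e, true), mem_filter.2 ⟨he.1.resolve_left y, y, he.2.2⟩, rfl⟩).trans
      (card_image_le (f := Prod.fst))
  simp only [F] at h1
  rw [add_mul] at h2 h3
  rcases (ln Z).eq_empty_or_nonempty with y | ⟨e, he⟩
  · have h10 := finrank_mono (KK_le P (J := Z) (S := (A ∪ B).map .some)
      (fun l hl => mem_map_of_mem _ (mU l.1 l.2 hl)) (by simp [y]))
    rw [dim_Sp, card_map] at h10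
    have := Nat.mul_le_mul_left s (show (gd Z).card ≤ 2 * s + 2 by omega)
    nlinarith
  have h10 := finrank_mono (KK_le P (J := Z) (S := insertNone (A ∪ B))
    (fun l hl => some_mem_insertNone.2 (mU l.1 l.2 hl))
    fun e he => ⟨some_mem_insertNone.2 (h7 (mem_union_right _ he)), none_mem_insertNone⟩)
  rw [dim_Sp, card_insertNone] at h10
  have h11 := h.link_two he
  by_cases y : (gd Z).card ≤ 2 * s + 1
  · have := Nat.mul_le_mul_left s y
    nlinarith
  have hG : (gd Z).card = 2 * s + 2 := by omega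
  by_cases y' : (vt Z).card < s * (gd Z).card + (gd Z).card
  · have : (A ∪ B).card ≤ s + 2 := by omega
    rw [hG] at h1 y'
    nlinarith
  have h12 : vt Z = gd Z ×ˢ univ := eq_of_subset_of_card_le vt_sub (by
    rw [card_product, card_univ, Fintype.card_fin, mul_comm, add_mul]
    omega)
  have h13 : ∀ l i, .inl (l, none, i) ∉ Z := fun l i hx => by
    have h14 := card_lt_card (s := (ln Z).map .inr) (t := nn Z)
      ⟨ln_sub, fun y => by simpa using y (mem_filter.2 ⟨hx, rfl⟩)⟩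
    have h15 := card_nsmul_le_sum (vt Z) (fun t => (Z.filter (ty · = some t)).card) 3
      fun t ht => h.three ht
    have h16 := cnt (J := Z)
    have := h.card_le
    rw [card_map] at h14
    rw [smul_eq_mul] at h15
    simp only [F] at this
    omega
  obtain ⟨f, hf, g, hg, hn⟩ := one_lt_card.1 h11
  obtain ⟨b, hb⟩ := h.link_gd hf
  obtain ⟨c, hc⟩ := h.link_gd hg
  have h14 : ∀ e ∈ ln Z, e ∉ A ∩ B := fun e he y => by
    have := card_pos.2 ⟨e, mem_inter.2 ⟨y, he⟩⟩
    omega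
  obtain ⟨i, hi, j, hj, hv⟩ := dep hP (T := Z.image idx) (U := A ∩ B) (fun e he b => by
      rw [mem_inter, mA, mB] at he
      cases b
      exacts [mem_toLeft.1 he.1, mem_toLeft.1 he.2]) (by omega) (l := (f, b)) (l' := (g, c)) hn
    (mem_toLeft.1 hb) (mem_toLeft.1 hc) (mem_toRight.1 hf) (mem_toRight.1 hg) (h14 f hf)
    (h14 g hg)
  exact ((h.ind h12 h13 hi).not_ge (dim_V_dep P hj hv)).elim

end Pool.Agent.Lib.MP_4f0fb4_co.RW
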