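import Pool.Agent.Lib.MP_4f0fb4_co.RwC

/-!
Connectivity of the matroid.
-/

namespace Pool.Agent.Lib.MP_4f0fb4_co.RW

open Finset Module Submodule

variable {s n : ℕ} (P : Seg s → Fin (s + 1) → ZMod 2) {X Y J J' : Finset (El s n)} {l : Lf s}
  {e : Seg s}

theorem dim_le (U : Submodule (ZMod 2) (W s)) : finrank (ZMod 2) U ≤ 3 * s + 4 :=
  (finrank_le U).trans (by simp; omega)

theorem F_le (J : Finset (El s n)) : F P J ≤ 12 * (s + 1) ^ 2 + 1 := by
  have h1 := vt_le J
  have h2 : (gd J).card ≤ 4 * s + 4 := (card_le_univ _).trans (by simp; omega)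
  have h3 := dim_le (KK P J)
  have h4 := Nat.mul_le_mul_left s h2
  rw [F]
  nlinarith

theorem F_pos (J : Finset (El s n)) : 1 ≤ F P J := (sub P).emp.ge.trans ((sub P).mono (empty_subset _))

theorem none_le {i : Fin n} (h : .inl (l, none, i) ∈ J) : Sp {some l.1} ≤ KK P J := K_le P h

theorem link_mem (h : .inr e ∈ J) : z (some e) + z none ∈ KK P J := K_le P h (vec_K P _)

theorem F_full (h : ∀ l o, ∃ i, .inl (l, o, i) ∈ J) (X : Finset (El s n)) :
    F P X ≤ F P J + 1 ∧ ∀ e, .inr e ∈ J → F P X ≤ F P J := by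
  have h1 : (vt X).card ≤ (vt J).card := card_le_card fun t _ => mem_vt.2 (h _ _)
  have h2 := Nat.mul_le_mul_left s (card_le_card (s := gd X) (t := gd J) fun t _ =>
    mem_gd.2 ⟨none, h _ _⟩)
  have h3 : ∀ p, nv p ∈ KK P J := fun p =>
    let ⟨_, hi⟩ := h ((0, true), true) none; none_le P hi (nv_Sp p)
  have h4 : ∀ e, z (some e) ∈ KK P J := fun e =>
    let ⟨_, hi⟩ := h (e, true) none; none_le P hi (z_Sp (mem_singleton_self _))
  have h5 := dim_le (KK P X)
  have h6 := finrank_mono (Sp_le (S := univ.map .some) (fun _ => h3 _) fun o ho => by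
    obtain ⟨e, -, rfl⟩ := mem_map.1 ho
    exact h4 e)
  rw [dim_Sp, card_map, card_univ] at h6
  simp only [Fintype.card_prod, Fintype.card_fin, Fintype.card_bool] at h6
  refine ⟨by simp only [F]; omega, fun e he => ?_⟩
  have h7 := finrank_mono (Sp_le (S := univ) (fun _ => h3 _) fun o _ => by
    rcases o with _ | f
    · simpa using sub_mem (link_mem P he) (h4 e)
    · exact h4 f)
  rw [dim_Sp, card_univ] at h7
  simp only [Fintype.card_prod, Fintype.card_fin, Fintype.card_bool, Fintype.card_option] at h7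
  simp only [F]
  omega

theorem link_dim (h : gd J = ∅) : J.card < finrank (ZMod 2) (KK P J) := by
  induction J using Finset.induction_on with
  | empty => exact dim_O.ge.trans (finrank_mono le_sup_left)
  | insert x J hx ih =>
    have h1 : gd J = ∅ := subset_empty.1 (h ▸ gd_mono (subset_insert x J))
    rcases x with ⟨l, o, i⟩ | e
    · exact absurd (h ▸ mem_gd.2 ⟨o, i, mem_insert_self _ _⟩ : l ∈ (∅ : Finset _)) (by simp)
    have := KK_lt P (subset_insert (.inr e) J) (o := some e) (mem_insert_self _ _)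
      (by simp [vec, idx, z]) (by simp [h1]) fun f hf => ⟨fun y => hx (by
        cases y
        exact mem_ln.1 hf), by simp⟩
    have := ih h1
    rw [card_insert_of_notMem hx]
    omega

theorem dim_lt {U U' : Submodule (ZMod 2) (W s)} (h1 : U ≤ U') (h2 : U ≤ Sp ∅) {v : W s}
    (hv : v ∈ U') {o : Option (Seg s)} (h0 : v (.inr o) ≠ 0) :
    finrank (ZMod 2) U < finrank (ZMod 2) U' :=
  finrank_lt_finrank_of_lt (lt_of_le_of_ne h1 fun y => h0 (mem_Sp.1 (h2 (y ▸ hv)) o (by simp)))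

theorem links_le (h : ∀ e, .inr e ∈ X) : 2 * s + 2 ≤ X.card :=
  le_trans (by simp; omega) (card_le_card (s := univ.map .inr) fun x hx => by
    obtain ⟨e, -, rfl⟩ := mem_map.1 hx
    exact h e)

theorem conn2 (hc : ∀ x, x ∈ X ∨ x ∈ Y) (h : ∀ l o, ∃ i, .inl (l, o, i) ∈ J ∪ J')
    (h0 : gd J' = ∅) {k : ℕ} (hk : k ≤ s + 1) (hY : k ≤ Y.card) :
    F P (univ : Finset (El s n)) + k + 1 ≤
      F P J + (X \ J).card + (F P J' + (Y \ J').card) := by
  obtain ⟨h1, h2⟩ := F_full P (J := J) (fun l o => let ⟨i, hi⟩ := h l o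
    ⟨i, (mem_union.1 hi).resolve_right fun y =>
      absurd (h0 ▸ mem_gd.2 ⟨o, i, y⟩ : l ∈ (∅ : Finset _)) (by simp)⟩) univ
  have h3 := link_dim P h0
  have h4 := card_le_card_sdiff_add_card (s := Y) (t := J')
  have h5 : finrank (ZMod 2) (KK P J') ≤ F P J' := Nat.le_add_left _ _
  by_cases y : ∃ e, .inr e ∈ J
  · have := h2 _ y.choose_spec
    omega
  · have := (links_le (X := X \ J ∪ Y) fun e => mem_union.2 ((hc _).imp_left fun y' =>
      mem_sdiff.2 ⟨y', fun y'' => y ⟨e, y''⟩⟩)).trans (card_union_le _ _)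
    omega

theorem conn (hn : 12 * (s + 1) ^ 2 + s + 1 ≤ n) (hc : ∀ x, x ∈ X ∨ x ∈ Y) {k r : ℕ}
    (hk : k ≤ s + 1) (hX : k ≤ X.card) (hY : k ≤ Y.card)
    (hr : ∀ J : Finset (El s n), r < F P J + (univ \ J).card) :
    r + k + 2 ≤ F P J + (X \ J).card + (F P J' + (Y \ J').card) := by
  have h1 := hr univ
  have h2 := hr (J ∪ J')
  have h3 : (univ \ (J ∪ J')).card ≤ (X \ J).card + (Y \ J').card :=
    (card_le_card fun x hx => by
      have := hc x
      simp only [mem_sdiff, mem_union] at hx ⊢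
      tauto).trans (card_union_le _ _)
  rw [sdiff_self, bot_eq_empty, card_empty] at h1
  by_cases h : ∀ l o, ∃ i, .inl (l, o, i) ∈ J ∪ J'
  swap
  · push Not at h
    obtain ⟨l, o, h⟩ := h
    have h4 := card_le_card_of_injOn (s := univ) (t := univ \ (J ∪ J'))
      (fun i => .inl (l, o, i)) (fun i _ => mem_sdiff.2 ⟨mem_univ _, h i⟩)
      fun i _ j _ y => by simpa using y
    rw [card_univ, Fintype.card_fin] at h4
    have := F_le P (univ : Finset (El s n))
    have := F_pos P J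
    have := F_pos P J'
    omega
  rcases (gd J').eq_empty_or_nonempty with y | ⟨l', hl'⟩
  · have := conn2 P hc h y hk hY
    omega
  rcases (gd J).eq_empty_or_nonempty with y | ⟨l, hl⟩
  · have := conn2 P (fun x => (hc x).symm) (J := J') (J' := J) (by rwa [union_comm]) y hk hX
    omega
  have h4 := F_add P J J'
  rcases (gd J ∩ gd J').eq_empty_or_nonempty with y | ⟨l, hl⟩
  swap
  · obtain ⟨o, i, hi⟩ := mem_gd.1 (mem_inter.1 hl).1
    obtain ⟨o', i', hi'⟩ := mem_gd.1 (mem_inter.1 hl).2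
    have h5 := dim_lt (U := O s) (U' := KK P J ⊓ KK P J') (le_inf le_sup_left le_sup_left)
      ((span_singleton_le_iff_mem _ _).2 (nv_Sp _)) (o := some l.1)
      ⟨K_le P hi (vec_K P _), K_le P hi' (vec_K P (.inl (l, o', i')))⟩ (by simp [vec, idx, z, nv])
    have h6 := Nat.mul_le_mul_left s (card_pos.2 ⟨l, hl⟩)
    rw [dim_O] at h5
    omega
  have h5 : Sp {some l.1} ≤ KK P J := by
    obtain ⟨i, hi⟩ := h l none
    exact none_le P ((mem_union.1 hi).resolve_right fun y' =>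
      absurd (y ▸ mem_inter.2 ⟨hl, mem_gd.2 ⟨_, _, y'⟩⟩ : l ∈ (∅ : Finset _)) (by simp))
  have h6 : Sp {some l'.1} ≤ KK P J' := by
    obtain ⟨i, hi⟩ := h l' none
    exact none_le P ((mem_union.1 hi).resolve_left fun y' =>
      absurd (y ▸ mem_inter.2 ⟨mem_gd.2 ⟨_, _, y'⟩, hl'⟩ : l' ∈ (∅ : Finset _)) (by simp))
  have h7 : Sp ∅ ≤ KK P J ⊓ KK P J' :=
    Sp_le (fun _ => ⟨h5 (nv_Sp _), h6 (nv_Sp _)⟩) (by simp)
  have h8 := h5 (z_Sp (mem_singleton_self _))
  have h9 := h6 (z_Sp (mem_singleton_self _))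
  by_cases y' : .inr l.1 ∈ J ∪ J' ∧ .inr l'.1 ∈ J ∪ J'
  · have : finrank (ZMod 2) (Sp (s := s) ∅) < finrank (ZMod 2) ↥(KK P J ⊓ KK P J') := by
      rcases mem_union.1 y'.1 with a | a <;> rcases mem_union.1 y'.2 with b | b
      · refine dim_lt h7 le_rfl (o := some l'.1) ⟨?_, h9⟩ (by simp [z])
        simpa using sub_mem (link_mem P b) (sub_mem (link_mem P a) h8)
      · refine dim_lt h7 le_rfl (o := none) (v := z none) ⟨?_, ?_⟩ (by simp [z])
        · simpa using sub_mem (link_mem P a) h8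
        · simpa using sub_mem (link_mem P b) h9
      · refine dim_lt h7 le_rfl (o := none) ⟨add_mem h8 (link_mem P b), ?_⟩ (by simp [z])
        rw [add_left_comm]
        exact add_mem h9 (link_mem P a)
      · refine dim_lt h7 le_rfl (o := some l.1) ⟨h8, ?_⟩ (by simp [z])
        simpa using sub_mem (link_mem P a) (sub_mem (link_mem P b) h9)
    rw [dim_Sp] at this
    omega
  have h10 := finrank_mono h7
  rw [dim_Sp] at h10
  obtain ⟨h11, h12⟩ := F_full P h univ
  by_cases y'' : ∃ e, .inr e ∈ J ∪ J'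
  · have := h12 _ y''.choose_spec
    have : 0 < (univ \ (J ∪ J')).card := card_pos.2 (by
      rcases not_and_or.1 y' with a | a <;> exact ⟨_, mem_sdiff.2 ⟨mem_univ _, a⟩⟩)
    omega
  · have := links_le (X := univ \ (J ∪ J')) fun e => mem_sdiff.2 ⟨mem_univ _, fun a => y'' ⟨e, a⟩⟩
    omega

end Pool.Agent.Lib.MP_4f0fb4_co.RW
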