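import Pool.Agent.Lib.MP_4f0fb4_co.RwB

/-!
Positions that are far apart in the folded cube.
-/

namespace Pool.Agent.Lib.MP_4f0fb4_co.RW

open Finset

variable {s : ℕ}

def Far (p : Fin (s + 1) → ZMod 2) : Prop := ∀ t, p ≠ Pi.single t 1 ∧ p ≠ Pi.single t 1 + 1

def Good (P : Seg s → Fin (s + 1) → ZMod 2) : Prop :=
  ∀ l l' : Lf s, l.1 ≠ l'.1 → Far (pos P l + pos P l')

theorem two' (v : Fin (s + 1) → ZMod 2) : v + v = 0 := by
  ext i
  exact CharTwo.add_self_eq_zero _

theorem greedy (h : 16 * (s + 1) ^ 2 < 2 ^ (s + 1)) (S : Finset (Seg s)) :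
    ∃ P : Seg s → Fin (s + 1) → ZMod 2,
      ∀ l l' : Lf s, l.1 ∈ S → l'.1 ∈ S → l.1 ≠ l'.1 → Far (pos P l + pos P l') := by
  induction S using Finset.induction_on with
  | empty => exact ⟨0, by simp⟩
  | insert e S _ ih =>
    obtain ⟨P, hP⟩ := ih
    obtain ⟨p, hp⟩ : ∃ p, ∀ x : Lf s × Bool × Fin (s + 1) × Bool,
        pos P x.1 + (if x.2.1 then Pi.single e.1 1 else 0) +
          (Pi.single x.2.2.1 1 + if x.2.2.2 then 1 else 0) ≠ p := by
      by_contra y
      push Not at y
      have := Fintype.card_le_of_surjective _ y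
      simp only [Fintype.card_prod, Fintype.card_fin, Fintype.card_bool, Fintype.card_fun,
        ZMod.card] at this
      nlinarith
    have h1 : ∀ l : Lf s, l.1 ≠ e → pos (Function.update P e p) l = pos P l := fun l hl => by
      simp only [pos, Function.update_of_ne hl]
    have h2 : ∀ l l' : Lf s, l.1 = e → l'.1 ≠ e →
        Far (pos (Function.update P e p) l + pos (Function.update P e p) l') := by
      rintro ⟨f, b⟩ l' rfl hl t
      rw [h1 l' hl]
      have h3 := hp (l', b, t, false)
      have h4 := hp (l', b, t, true)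
      cases b <;> simp only [pos, Function.update_self, if_true, Bool.false_eq_true,
        if_false] at h3 h4 ⊢
      · exact ⟨fun y => h3 (by linear_combination y - two' p + two' (Pi.single t 1)),
          fun y => h4 (by linear_combination y - two' p + two' (Pi.single t 1 + 1))⟩
      · exact ⟨fun y => h3 (by linear_combination y - two' p + two' (Pi.single t 1)),
          fun y => h4 (by linear_combination y - two' p + two' (Pi.single t 1 + 1))⟩
    refine ⟨Function.update P e p, fun l l' hl hl' hn => ?_⟩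
    by_cases y : l.1 = e
    · exact h2 l l' y (y ▸ hn.symm)
    by_cases y' : l'.1 = e
    · rw [add_comm]
      exact h2 l' l y' y
    rw [h1 l y, h1 l' y']
    exact hP l l' ((mem_insert.1 hl).resolve_left y) ((mem_insert.1 hl').resolve_left y') hn

def tab (L : List ℕ) (e : Seg s) (i : Fin (s + 1)) : ZMod 2 :=
  if (L.getD (2 * e.1 + if e.2 then 1 else 0) 0).testBit i then 1 else 0

theorem good7 : Good (s := 7) (tab [0, 124, 48, 76, 97, 98, 19, 36, 41, 73, 90, 10, 55, 7, 47, 20]) := by
  unfold Good Far
  decide +kernel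

theorem good8 : Good (s := 8) (tab [0, 252, 241, 233, 226, 219, 208, 197, 175, 170, 153, 150,
    142, 131, 53, 48, 123, 119]) := by
  unfold Good Far
  decide +kernel

theorem good9 : Good (s := 9) (tab [0, 508, 497, 489, 482, 475, 464, 453, 431, 426, 409, 406,
    398, 387, 309, 304, 172, 161, 251, 248]) := by
  unfold Good Far
  decide +kernel

theorem exists_good (h : 7 ≤ s) : ∃ P : Seg s → Fin (s + 1) → ZMod 2, Good P := by
  by_cases y : s < 10
  · interval_cases s
    exacts [⟨_, good7⟩, ⟨_, good8⟩, ⟨_, good9⟩]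
  have : 16 * (s + 1) ^ 2 < 2 ^ (s + 1) := by
    induction s, Nat.le_of_not_lt y using Nat.le_induction with
    | base => norm_num
    | succ k hk ih =>
      have := ih (by omega) (by omega)
      rw [pow_succ 2]
      nlinarith
  obtain ⟨P, hP⟩ := greedy this univ
  exact ⟨P, fun l l' => hP l l' (mem_univ _) (mem_univ _)⟩

end Pool.Agent.Lib.MP_4f0fb4_co.RW
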