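import Pool.Agent.Lib.MP_4f0fb4_co.RwD

/-!
The two largest circuits and the rank of their union.
-/

namespace Pool.Agent.Lib.MP_4f0fb4_co.RW

open Finset Module Submodule

variable {s n : ℕ} (P : Seg s → Fin (s + 1) → ZMod 2) {S : Finset (Seg s)}
  {J : Finset (El s (n + 3))}

def emb (x : Lf s × Fin (s + 1) × Fin 3) : El s (n + 3) :=
  .inl (x.1, some x.2.1, x.2.2.castLE (Nat.le_add_left 3 n))

theorem emb_inj : Function.Injective (emb : _ → El s (n + 3)) := by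
  rintro ⟨a, b, c⟩ ⟨d, e, f⟩ h
  simpa [emb] using h

def Cc (n : ℕ) (S : Finset (Seg s)) : Finset (El s (n + 3)) := ((S ×ˢ univ) ×ˢ univ).image emb

def TT (S : Finset (Seg s)) : Finset (Lf s ⊕ Seg s) := (S ×ˢ univ).map .inl

theorem mem_TT {l : Lf s} (h : l.1 ∈ S) : .inl l ∈ TT S :=
  mem_map_of_mem _ (mem_product.2 ⟨h, mem_univ _⟩)

theorem card_TT : (TT S).card = 2 * S.card := by
  simp [TT, mul_comm]

theorem card_Cc : (Cc n S).card = 6 * (s + 1) * S.card := by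
  rw [Cc, card_image_of_injective _ emb_inj]
  simp only [card_product, card_univ, Fintype.card_prod, Fintype.card_fin, Fintype.card_bool]
  ring

theorem mem_Cc {x : El s (n + 3)} : x ∈ Cc n S ↔ ∃ y, y.1.1 ∈ S ∧ emb y = x := by
  simp only [Cc, mem_image, mem_product, mem_univ, and_true]

theorem Cc_three (h : J ⊆ Cc n S) : J.card ≤ 3 * (vt J).card :=
  (card_le_card (t := (vt J ×ˢ (univ : Finset (Fin 3))).image fun t => emb (t.1.1, t.1.2, t.2))
    fun x hx => by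
      obtain ⟨y, -, rfl⟩ := mem_Cc.1 (h hx)
      exact mem_image.2 ⟨((y.1, y.2.1), y.2.2),
        mem_product.2 ⟨mem_vt.2 ⟨_, hx⟩, mem_univ _⟩, rfl⟩).trans
    (card_image_le.trans (by simp [mul_comm]))

theorem Cc_idx (h : J ⊆ Cc n S) : J.image idx ⊆ TT S := fun i hi => by
  obtain ⟨x, hx, rfl⟩ := mem_image.1 hi
  obtain ⟨y, hy, rfl⟩ := mem_Cc.1 (h hx)
  exact mem_TT hy

theorem Cc_ln (h : J ⊆ Cc n S) : ln J = ∅ := eq_empty_of_forall_notMem fun e he => by
  obtain ⟨y, -, hy⟩ := mem_Cc.1 (h (mem_ln.1 he))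
  cases hy

theorem Cc_gd (h : J ⊆ Cc n S) : (J.image idx).card = (gd J).card := by
  have h1 : (gd J).card + (ln J).card = _ := card_toLeft_add_card_toRight (u := J.image idx)
  rw [← h1, Cc_ln h]
  rfl

theorem dim_TT (h : ∀ i, ∃ c, (i, c) ∈ S) : s + 1 + S.card ≤ finrank (ZMod 2) (V P (TT S)) := by
  have h1 : ∀ i, nv (Pi.single i 1) ∈ V P (TT S) := fun i => by
    obtain ⟨c, hc⟩ := h i
    rw [← vec_pair P (i, c)]
    exact add_mem (vec_V P (mem_TT hc)) (vec_V P (mem_TT hc))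
  have := finrank_mono (Sp_le (S := S.map .some) h1 fun o ho => by
    obtain ⟨e, he, rfl⟩ := mem_map.1 ho
    simpa [vec] using sub_mem (vec_V P (mem_TT (l := (e, false)) he))
      (nv_mem (p := pos P (e, false)) fun i _ => h1 i))
  rwa [dim_Sp, card_map] at this

theorem dim_KK (h : ∀ i, ∃ c, (i, c) ∈ S) (hJ : J ⊆ Cc n S) :
    s + 1 + (gd J).card ≤ finrank (ZMod 2) (KK P J) + S.card := by
  have h1 := (dim_TT P h).trans (dim_V_sdiff P _ (J.image idx))
  have h2 := card_sdiff_add_card_eq_card (Cc_idx hJ)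
  have h3 := finrank_mono (V_le_KK P (J := J))
  rw [card_TT, Cc_gd hJ] at h2
  omega

theorem TT_erase (c : Bool) {x : Lf s ⊕ Seg s} (hx : x ∈ TT (univ ×ˢ {c})) :
    vec P x ∈ V P ((TT (univ ×ˢ {c})).erase x) := by
  obtain ⟨⟨⟨i, d⟩, b⟩, h1, rfl⟩ := mem_map.1 hx
  obtain rfl : d = c := mem_singleton.1 (mem_product.1 (mem_product.1 h1).1).2
  have h2 : ∀ j a, (j ≠ i ∨ a ≠ b) → vec P (.inl ((j, d), a)) ∈
      V P ((TT (univ ×ˢ {d})).erase (.inl ((i, d), b))) := fun j a h =>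
    vec_V P (mem_erase.2 ⟨by simpa [imp_iff_not_or] using h, mem_TT (by simp)⟩)
  have h3 := add_mem (nv_mem (p := Pi.single i 1 + 1) fun j hj => by
    have : j ≠ i := by
      rintro rfl
      exact hj (by rw [Pi.add_apply, Pi.single_eq_same]; rfl)
    rw [← vec_pair P (j, d)]
    exact add_mem (h2 j _ (.inl this)) (h2 j _ (.inl this))) (one_V P)
  rw [nv_add, add_assoc, two, add_zero, ← vec_pair P (i, d)] at h3
  cases b
  · simpa using sub_mem h3 (h2 i true (by simp))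
  · simpa using sub_mem h3 (h2 i false (by simp))

theorem Ci_Cc (c : Bool) : Ci P (Cc n (univ ×ˢ {c})) := by
  have h0 : ∀ i : Fin (s + 1), ∃ d, (i, d) ∈ univ ×ˢ ({c} : Finset Bool) := fun i => ⟨c, by simp⟩
  have h1 : (univ ×ˢ {c} : Finset (Seg s)).card = s + 1 := by simp
  have h2 : ∀ J ⊆ Cc n (univ ×ˢ {c} : Finset (Seg s)), (gd J).card ≤ 2 * (s + 1) := fun J hJ => by
    have := card_le_card (Cc_idx hJ)
    rwa [Cc_gd hJ, card_TT, h1] at this
  refine ⟨?_, fun J hJ => ?_⟩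
  · have h3 := finrank_mono (KK_le P (J := Cc n (univ ×ˢ {c})) (S := (univ ×ˢ {c}).map .some)
      (fun l hl => by
        obtain ⟨_, _, hi⟩ := mem_gd.1 hl
        obtain ⟨y, hy, h⟩ := mem_Cc.1 hi
        cases h
        exact mem_map_of_mem _ hy) (by simp [Cc_ln subset_rfl]))
    have h4 := h2 _ subset_rfl
    have h5 := vt_le (Cc n (univ ×ˢ {c} : Finset (Seg s)))
    have h6 := Nat.mul_le_mul_left s h4
    rw [dim_Sp, card_map, h1] at h3
    rw [card_Cc, h1, F]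
    nlinarith
  have h3 := Cc_three hJ.subset
  have h4 := vt_le J
  have h5 := dim_KK P h0 hJ.subset
  have h6 := card_lt_card hJ
  rw [card_Cc, h1] at h6
  rw [h1] at h5
  rw [add_mul] at h4
  rw [F]
  rcases (Cc_idx hJ.subset).eq_or_ssubset with y | y
  · have h7 := congrArg card y
    rw [card_TT, h1, Cc_gd hJ.subset] at h7
    by_cases y' : (vt J).card < s * (gd J).card + (gd J).card
    · omega
    · rw [h7] at *
      nlinarith
  · obtain ⟨x, hx, hx'⟩ := exists_of_ssubset y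
    have h7 := (dim_TT P h0).trans ((finrank_mono (V_erase P (TT_erase P c hx))).trans
      (dim_V_sdiff P _ (J.image idx)))
    have h8 := card_sdiff_add_card_eq_card (subset_erase.2 ⟨y.subset, hx'⟩)
    have h9 := card_erase_add_one hx
    have h10 := finrank_mono (V_le_KK P (J := J))
    rw [card_TT, h1] at h9
    rw [h1] at h7
    rw [Cc_gd hJ.subset] at h8
    omega

theorem Cc_univ (hJ : J ⊆ Cc n univ) :
    12 * (s + 1) ^ 2 ≤ F P J + (Cc n univ \ J).card + (s + 1) := by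
  have h1 := Cc_three hJ
  have h2 := vt_le J
  have h3 := dim_KK P (fun i => ⟨true, mem_univ _⟩) hJ
  have h4 := card_sdiff_add_card_eq_card hJ
  have h5 : (univ : Finset (Seg s)).card = 2 * (s + 1) := by simp [mul_comm]
  rw [card_Cc, h5] at h4
  rw [h5] at h3
  rw [add_mul] at h2
  rw [F]
  nlinarith

theorem Cc_union : Cc n (univ ×ˢ {false}) ∪ Cc n (univ ×ˢ {true}) = Cc n (s := s) univ := by
  ext x
  simp only [mem_union, mem_Cc, ← exists_or, ← or_and_right]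
  refine exists_congr fun y => and_congr_left fun _ => ?_
  simp only [mem_product, mem_univ, mem_singleton, true_and, iff_true]
  exact y.1.1.2.dichotomy

theorem Cc_disj : Disjoint (Cc n (univ ×ˢ {false})) (Cc n (s := s) (univ ×ˢ {true})) :=
  disjoint_left.2 fun x h1 h2 => by
    obtain ⟨y, hy, rfl⟩ := mem_Cc.1 h1
    obtain ⟨y', hy', h⟩ := mem_Cc.1 h2
    cases emb_inj h
    cases (mem_singleton.1 (mem_product.1 hy).2).symm.trans (mem_singleton.1 (mem_product.1 hy').2)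

theorem main (k : ℕ) (hk : 9 ≤ k) : ∃ (α : Type) (M : Matroid α), M.E.Finite ∧
    2 * k ≤ M.E.ncard ∧
    (∀ l : ℕ, l < k → ∀ X Y : Set α, X ∪ Y = M.E →
      (l : ℕ∞) ≤ X.encard → (l : ℕ∞) ≤ Y.encard → M.eRank + l ≤ M.eRk X + M.eRk Y) ∧
    ∃ C D, M.IsCircuit C ∧ M.IsCircuit D ∧ Disjoint C D ∧
      (∀ Z, M.IsCircuit Z → Z.encard ≤ C.encard ∧ Z.encard ≤ D.encard) ∧
      M.eRk C + M.eRk D + 1 < M.eRk (C ∪ D) + k := by
  obtain ⟨s, rfl⟩ : ∃ s, k = s + 2 := ⟨k - 2, by omega⟩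
  obtain ⟨P, hP⟩ := exists_good (s := s) (by omega)
  obtain ⟨n, hn⟩ : ∃ n, 12 * (s + 1) ^ 2 + s + 1 ≤ n + 3 := ⟨_, Nat.le_add_right _ _⟩
  have h := sub (n := n + 3) P
  have hc : ∀ c, h.mat.IsCircuit (Cc n (univ ×ˢ {c}) : Finset (El s (n + 3))) := fun c =>
    h.circ.2 ⟨(Ci_Cc P c).le, (Ci_Cc P c).lt⟩
  have h1 : ∀ c, (Cc n (univ ×ˢ {c} : Finset (Seg s))).card = 6 * (s + 1) ^ 2 := fun c => by
    rw [card_Cc]
    simp [sq, mul_assoc]
  refine ⟨_, h.mat, Set.toFinite _, ?_, fun l hl X Y hXY hX hY => ?_, _, _, hc false, hc true,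
    disjoint_coe.2 Cc_disj, fun Z hZ => ?_, ?_⟩
  · rw [h.mat_E, ← coe_univ, Set.ncard_coe_finset]
    refine le_trans ?_ (card_le_univ (Cc n (univ ×ˢ {true})))
    rw [h1]
    nlinarith
  · lift X to Finset (El s (n + 3)) using X.toFinite
    lift Y to Finset (El s (n + 3)) using Y.toFinite
    obtain ⟨r, h2, h3, -⟩ := h.rank univ
    obtain ⟨a, h4, -, J, -, h5⟩ := h.rank X
    obtain ⟨b, h6, -, J', -, h7⟩ := h.rank Y
    rw [Set.encard_coe_eq_coe_finsetCard, Nat.cast_le] at hX hY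
    have := conn P (J := J) (J' := J') hn (fun x => (hXY ▸ Set.mem_univ x : x ∈ (X ∪ Y : Set _)))
      (by omega) hX hY h3
    rw [← h.mat.eRk_ground, h.mat_E, ← coe_univ, h2, h4, h6]
    exact_mod_cast (by omega : r + l ≤ a + b)
  · lift Z to Finset (El s (n + 3)) using Z.toFinite
    have := Ci.bound hP ⟨(h.circ.1 hZ).1, (h.circ.1 hZ).2⟩
    simpa only [Set.encard_coe_eq_coe_finsetCard, Nat.cast_le, h1, and_self]
  · obtain ⟨r, h2, -, J, hJ, h3⟩ := h.rank (Cc n univ)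
    obtain ⟨a, h4, -⟩ := h.rank (Cc n (univ ×ˢ {false}))
    obtain ⟨b, h5, -⟩ := h.rank (Cc n (univ ×ˢ {true}))
    have h6 := (hc false).eRk_add_one_eq
    have h7 := (hc true).eRk_add_one_eq
    rw [h4, Set.encard_coe_eq_coe_finsetCard, h1] at h6
    rw [h5, Set.encard_coe_eq_coe_finsetCard, h1] at h7
    have h8 := Cc_univ P hJ
    rw [← coe_union, Cc_union, h2, h4, h5]
    have h9 : a + 1 = 6 * (s + 1) ^ 2 := by exact_mod_cast h6
    have h10 : b + 1 = 6 * (s + 1) ^ 2 := by exact_mod_cast h7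
    exact_mod_cast (by omega : a + b + 1 < r + (s + 2))

end Pool.Agent.Lib.MP_4f0fb4_co.RW
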