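import Mathlib

/-!
A cycle as a connected 2-regular neighbour system; edge counts between vertex sets.
-/

namespace Pool.Agent.Lib.MP_4f0fb4_co.RZ

open Finset

variable {V : Type} [Fintype V] [DecidableEq V]

structure Cy (G : SimpleGraph V) (N : V → Finset V) (K : Finset V) : Prop where
  symm : ∀ u v, v ∈ N u → u ∈ N v
  adj : ∀ u v, v ∈ N u → G.Adj u v
  deg : ∀ v, (N v).card = if v ∈ K then 2 else 0
  conn : ∀ U : Finset V, (∃ u ∈ K, u ∈ U) → (∃ v ∈ K, v ∉ U) → ∃ u ∈ U, ∃ v ∈ N u, v ∉ U

def d (N : V → Finset V) (A B : Finset V) : ℕ := ∑ u ∈ A, ∑ v ∈ B, if v ∈ N u then 1 else 0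

variable {G : SimpleGraph V} {N : V → Finset V} {K : Finset V}

omit [Fintype V] in
theorem d_eq (A B : Finset V) : d N A B = ∑ u ∈ A, (B ∩ N u).card := by
  unfold d
  refine sum_congr rfl fun u _ => ?_
  rw [← card_filter, filter_mem_eq_inter]

theorem Cy.d_comm (h : Cy G N K) (A B : Finset V) : d N A B = d N B A := by
  unfold d
  rw [sum_comm]
  refine sum_congr rfl fun u _ => sum_congr rfl fun v _ => ?_
  exact if_congr ⟨h.symm _ _, h.symm _ _⟩ rfl rfl

omit [Fintype V] in
theorem d_le {A B A' B' : Finset V} (h0 : A ⊆ A') (h : ∀ u ∈ A, ∀ v ∈ N u, v ∈ B → v ∈ B') :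
    d N A B ≤ d N A' B' := by
  rw [d_eq, d_eq]
  refine (sum_le_sum fun u hu => card_le_card fun v hv => ?_).trans
    (sum_le_sum_of_subset h0)
  rw [mem_inter] at hv ⊢
  exact ⟨h u hu v hv.2 hv.1, hv.2⟩

omit [Fintype V] in
theorem d_union {A B B' : Finset V} (h : Disjoint B B') :
    d N A (B ∪ B') = d N A B + d N A B' := by
  unfold d
  rw [← sum_add_distrib]
  exact sum_congr rfl fun u _ => sum_union h

omit [Fintype V] in
theorem d_union_le (A B B' : Finset V) : d N A (B ∪ B') ≤ d N A B + d N A B' := by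
  rw [d_eq, d_eq, d_eq, ← sum_add_distrib]
  refine sum_le_sum fun u _ => ?_
  rw [union_inter_distrib_right]
  exact card_union_le _ _

omit [Fintype V] in
theorem d_pos {A B : Finset V} {u v : V} (hu : u ∈ A) (hv : v ∈ N u) (hB : v ∈ B) :
    0 < d N A B := by
  rw [d_eq]
  exact lt_of_lt_of_le (card_pos.2 ⟨v, mem_inter.2 ⟨hB, hv⟩⟩)
    (single_le_sum (f := fun u => (B ∩ N u).card) (fun _ _ => Nat.zero_le _) hu)

theorem Cy.d_univ (h : Cy G N K) (A : Finset V) : d N A univ = 2 * (A ∩ K).card := by
  rw [d_eq]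
  simp only [univ_inter, h.deg]
  rw [← filter_mem_eq_inter, card_filter, mul_sum]
  exact sum_congr rfl fun u _ => by split_ifs <;> rfl

theorem Cy.even_self (h : Cy G N K) (A : Finset V) : Even (d N A A) := by
  induction A using Finset.induction_on with
  | empty => simp [d]
  | insert a A ha ih =>
    have e1 : d N (insert a A) (insert a A) = d N {a} A + (d N A {a} + d N A A) := by
      have : a ∉ N a := fun h' => (h.adj _ _ h').ne rfl
      unfold d
      simp only [sum_insert ha, if_neg this, zero_add, sum_singleton, sum_add_distrib]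
    rw [e1, h.d_comm A {a}, ← add_assoc]
    exact (Even.add_self _).add ih

theorem Cy.even_cross (h : Cy G N K) (A : Finset V) : Even (d N A Aᶜ) := by
  have e := h.d_univ A
  rw [← union_compl A, d_union disjoint_compl_right] at e
  have := h.even_self A
  rw [Nat.even_iff] at this ⊢
  omega

theorem Cy.two_le (h : Cy G N K) {U : Finset V} (h1 : ∃ u ∈ K, u ∈ U) (h2 : ∃ v ∈ K, v ∉ U) :
    2 ≤ d N U Uᶜ := by
  obtain ⟨u, hu, v, hv, h3⟩ := h.conn U h1 h2
  have := d_pos (N := N) hu hv (mem_compl.2 h3)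
  have := Nat.even_iff.1 (h.even_cross U)
  omega

theorem Cy.mem (h : Cy G N K) {u v : V} (hv : v ∈ N u) : u ∈ K := by
  by_contra hc
  have := h.deg u
  rw [if_neg hc, card_eq_zero] at this
  simp [this] at hv

theorem exists_cy {w : V} {r : G.Walk w w} (hr : r.IsCycle) :
    ∃ N K, Cy G N K ∧ K.card = r.length := by
  classical
  refine ⟨fun u => univ.filter fun v => r.toSubgraph.Adj u v, r.support.toFinset,
    ⟨fun u v h => by simpa using (by simpa using h : r.toSubgraph.Adj u v).symm,
      fun u v h => (by simpa using h : r.toSubgraph.Adj u v).adj_sub, fun v => ?_, ?_⟩, ?_⟩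
  · split_ifs with hv
    · rw [← hr.ncard_neighborSet_toSubgraph_eq_two (by simpa using hv), ← Set.ncard_coe_finset]
      congr 1
      ext x
      simp
    · rw [card_eq_zero, filter_eq_empty_iff]
      intro x _ hx
      exact hv (by simpa using hx.fst_mem)
  · rintro U ⟨u, hu, hu'⟩ ⟨v, hv, hv'⟩
    by_contra hc
    push Not at hc
    obtain ⟨p⟩ := r.toSubgraph_connected.preconnected ⟨u, by simpa using hu⟩ ⟨v, by simpa using hv⟩
    have : ∀ (x y : r.toSubgraph.verts) (p : r.toSubgraph.coe.Walk x y), x.1 ∈ U → y.1 ∈ U := by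
      intro x y p
      induction p with
      | nil => exact id
      | cons h1 _ ih => exact fun hx => ih (hc _ hx _ (by simpa using h1))
    exact hv' (this _ _ p hu')
  · have e : r.support.toFinset = r.support.tail.toFinset := by
      ext x
      simp only [List.mem_toFinset]
      refine ⟨fun hx => ?_, List.mem_of_mem_tail⟩
      rcases (r.mem_support_iff).1 hx with rfl | hx
      · exact r.end_mem_tail_support hr.not_nil
      · exact hx
    rw [e, List.toFinset_card_of_nodup hr.support_nodup]
    simp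

end Pool.Agent.Lib.MP_4f0fb4_co.RZ
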