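import Pool.Agent.Lib.MP_4f0fb4_co.RzCy

/-!
The graph built from a segment model, and the upper bound for its cycles.
-/

set_option linter.unusedSectionVars false

namespace Pool.Agent.Lib.MP_4f0fb4_co.RZ

open Finset

/-- Segments `E`, each with two ends labelled in `X` and weighted; links `T` between segments. -/
structure Model (X E : Type) where
  lab : E × Bool → X
  T : E → E → Bool
  w : E × Bool → ℕ

variable {X E : Type} [Fintype X] [DecidableEq X] [Fintype E] [DecidableEq E] (M : Model X E)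

namespace Model

def s (_ : Model X E) : ℕ := Fintype.card X + 1
def B : ℕ := Fintype.card E + ∑ l, M.w l + 2
def n0 : ℕ := M.s * (M.B + 1) + M.B
def n (l : E × Bool) : ℕ := M.n0 + M.w l
def isS (i : ℕ) : Prop := i % (M.B + 1) = M.B ∧ i < M.s * (M.B + 1)
def blk (i : ℕ) : ℕ := min (i / (M.B + 1)) M.s
instance : DecidablePred M.isS := fun _ => inferInstanceAs (Decidable (_ ∧ _))

abbrev V : Type := X ⊕ E ⊕ (Σ l : E × Bool, Fin (M.n l))
abbrev mid (e : E) : M.V := .inr (.inl e)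
abbrev gv (l : E × Bool) (i : Fin (M.n l)) : M.V := .inr (.inr ⟨l, i⟩)

def rel : M.V → M.V → Prop
  | .inl x, .inr (.inr g) => M.isS g.2 ∨ M.lab g.1 = x
  | .inr (.inl e), .inr (.inl f) => M.T e f = true
  | .inr (.inl e), .inr (.inr g) => g.1.1 = e
  | .inr (.inr g), .inr (.inr h) => g.1 = h.1 ∧ (M.blk g.2 = M.blk h.2 ∨ M.isS g.2)
  | _, _ => False

def G : SimpleGraph M.V := SimpleGraph.fromRel M.rel

def gad : M.V → Option (E × Bool)
  | .inr (.inr g) => some g.1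
  | _ => none

def pos : M.V → ℕ
  | .inr (.inr g) => g.2
  | _ => 0

def L (l : E × Bool) : Finset M.V := univ.filter fun v => M.gad v = some l
def Xs : Finset M.V := univ.map ⟨Sum.inl, Sum.inl_injective⟩

theorem mem_L {l : E × Bool} {v : M.V} : v ∈ M.L l ↔ ∃ i, v = M.gv l i := by
  rcases v with x | e | ⟨l', i⟩ <;> simp [L, gad]
  rintro rfl
  exact ⟨i, HEq.rfl⟩

theorem mem_Xs {v : M.V} : v ∈ M.Xs ↔ ∃ x, v = .inl x := by
  simp [Xs, eq_comm]

theorem adjL {l : E × Bool} {i : Fin (M.n l)} {v : M.V} (h : M.G.Adj (M.gv l i) v) :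
    (∃ j, v = M.gv l j ∧ (M.blk i = M.blk j ∨ M.isS i ∨ M.isS j)) ∨ v = M.mid l.1 ∨
      ∃ x, v = .inl x ∧ (M.isS i ∨ M.lab l = x) := by
  rcases v with x | e | ⟨l', j⟩ <;> simp only [G, SimpleGraph.fromRel_adj, rel] at h
  · exact Or.inr (Or.inr ⟨x, rfl, by tauto⟩)
  · exact Or.inr (Or.inl (by rw [h.2.resolve_left id]))
  · obtain ⟨-, ⟨rfl, h⟩ | ⟨rfl, h⟩⟩ := h
    · exact Or.inl ⟨j, rfl, by tauto⟩
    · exact Or.inl ⟨j, rfl, by rcases h with h | h; exacts [Or.inl h.symm, Or.inr (Or.inr h)]⟩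

theorem adjX {x : X} {v : M.V} (h : M.G.Adj (.inl x) v) : ∃ l i, v = M.gv l i := by
  rcases v with x | e | ⟨l', j⟩ <;> simp only [G, SimpleGraph.fromRel_adj, rel] at h
  · tauto
  · tauto
  · exact ⟨_, _, rfl⟩

theorem adjM {e : E} {v : M.V} (h : M.G.Adj (M.mid e) v) :
    (∃ f, v = M.mid f ∧ (M.T e f = true ∨ M.T f e = true)) ∨ ∃ b i, v = M.gv (e, b) i := by
  rcases v with x | f | ⟨⟨e', b⟩, j⟩ <;> simp only [G, SimpleGraph.fromRel_adj, rel] at h
  · tauto
  · exact Or.inl ⟨f, rfl, h.2⟩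
  · obtain rfl : e' = e := by tauto
    exact Or.inr ⟨b, j, rfl⟩

theorem blk_succ (i : ℕ) : M.blk i = M.blk (i + 1) ∨ M.isS i := by
  unfold blk isS
  by_cases h : (M.B + 1) ∣ i + 1
  · have h1 : i % (M.B + 1) = M.B := by
      obtain ⟨c, hc⟩ := h
      obtain ⟨c, rfl⟩ : ∃ c', c = c' + 1 := ⟨c - 1, by rcases c with _ | c <;> simp at hc ⊢⟩
      have : i = M.B + (M.B + 1) * c := by rw [mul_add] at hc; omega
      rw [this, Nat.add_mul_mod_self_left, Nat.mod_eq_of_lt (by omega)]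
    by_cases h2 : i < M.s * (M.B + 1)
    · exact Or.inr ⟨h1, h2⟩
    · left
      have h3 : M.s ≤ i / (M.B + 1) := (Nat.le_div_iff_mul_le (by omega)).2 (by omega)
      have h4 : i / (M.B + 1) ≤ (i + 1) / (M.B + 1) := Nat.div_le_div_right (by omega)
      rw [min_eq_right h3, min_eq_right (h3.trans h4)]
  · left
    rw [Nat.succ_div_of_not_dvd h]

theorem pos_lt {j t : ℕ} (l : E × Bool) (hj : j ≤ M.s) (ht : t < M.B) :
    t + (M.B + 1) * j < M.n l := by
  have := Nat.mul_le_mul_left (M.B + 1) hj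
  unfold n n0
  rw [mul_comm M.s]
  omega

theorem sp_lt {j : ℕ} (hj : j < M.s) : M.B + (M.B + 1) * j < M.s * (M.B + 1) := by
  have := Nat.mul_le_mul_left (M.B + 1) (Nat.succ_le_of_lt hj)
  rw [mul_comm M.s]
  rw [Nat.mul_succ] at this
  omega

def S (l : E × Bool) : Finset M.V := (M.L l).filter fun v => M.isS (M.pos v)
def Bl (l : E × Bool) (j : ℕ) : Finset M.V :=
  (M.L l).filter fun v => ¬ M.isS (M.pos v) ∧ M.blk (M.pos v) = j

theorem card_S (l : E × Bool) : (M.S l).card ≤ M.s := by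
  rw [← card_range M.s]
  refine card_le_card_of_injOn (fun v => M.pos v / (M.B + 1)) (fun v hv => ?_) ?_
  · simp only [S, coe_filter, Set.mem_ofPred_eq] at hv
    simp only [coe_range, Set.mem_Iio]
    exact (Nat.div_lt_iff_lt_mul (by omega)).2 hv.2.2
  · intro u hu v hv h
    simp only [S, coe_filter, Set.mem_ofPred_eq, mem_L] at hu hv
    obtain ⟨⟨i, rfl⟩, h1⟩ := hu
    obtain ⟨⟨j, rfl⟩, h2⟩ := hv
    simp only [pos] at h h1 h2
    have e1 := Nat.div_add_mod i (M.B + 1)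
    have e2 := Nat.div_add_mod j (M.B + 1)
    rw [h1.1, h] at e1
    rw [h2.1] at e2
    rw [show i = j from Fin.ext (by omega)]

theorem card_L (l : E × Bool) : (M.L l).card = M.n l := by
  rw [← Fintype.card_fin (M.n l), ← card_univ]
  symm
  refine card_bij (fun i _ => M.gv l i) (fun i _ => M.mem_L.2 ⟨i, rfl⟩) (fun i _ j _ h => ?_)
    fun v hv => ?_
  · simpa using h
  · obtain ⟨i, rfl⟩ := M.mem_L.1 hv
    exact ⟨i, mem_univ _, rfl⟩

theorem card_Bl (l : E × Bool) {j : ℕ} (hj : j ≤ M.s) : M.B ≤ (M.Bl l j).card := by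
  rw [← Fintype.card_fin M.B, ← card_univ]
  refine card_le_card_of_injOn (fun t => M.gv l ⟨_, M.pos_lt l hj t.2⟩) (fun t _ => ?_) ?_
  · simp only [Bl, coe_filter, Set.mem_ofPred_eq, mem_L, pos, isS, blk]
    have := t.2
    refine ⟨⟨_, rfl⟩, ?_, ?_⟩
    · rw [Nat.add_mul_mod_self_left, Nat.mod_eq_of_lt (by omega)]
      omega
    · rw [Nat.add_mul_div_left _ _ (by omega), Nat.div_eq_of_lt (by omega), zero_add,
        min_eq_left hj]
  · intro t _ t' _ h
    simp only [Sum.inr.injEq, Sigma.mk.injEq, heq_eq_eq, true_and, Fin.mk.injEq] at h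
    exact Fin.ext (by omega)

end Model

end Pool.Agent.Lib.MP_4f0fb4_co.RZ
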