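import Pool.Agent.Lib.MP_4f0fb4_co.RzUp

/-!
Connectivity of the graph of a segment model, its two long cycles, and the conclusion.
-/

set_option linter.unusedSectionVars false

namespace Pool.Agent.Lib.MP_4f0fb4_co.RZ

open Finset

variable {X E : Type} [Fintype X] [DecidableEq X] [Fintype E] [DecidableEq E] (M : Model X E)

namespace Model

theorem adj_xg {x : X} {l : E × Bool} {i : Fin (M.n l)} (h : M.isS i ∨ M.lab l = x) :
    M.G.Adj (.inl x) (M.gv l i) := by
  simp only [G, SimpleGraph.fromRel_adj, rel]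
  exact ⟨by simp, Or.inl h⟩

theorem adj_mg {l : E × Bool} {i : Fin (M.n l)} : M.G.Adj (M.mid l.1) (M.gv l i) := by
  simp [G, SimpleGraph.fromRel_adj, rel]

theorem adj_gg {l : E × Bool} {i j : Fin (M.n l)} (h0 : i ≠ j)
    (h : M.blk i = M.blk j ∨ M.isS i) : M.G.Adj (M.gv l i) (M.gv l j) := by
  simp only [G, SimpleGraph.fromRel_adj, rel]
  exact ⟨by simpa using h0, Or.inl ⟨trivial, h⟩⟩

theorem exists_S (l : E × Bool) {R : Finset M.V} (hR : R.card < Fintype.card X + 1) :
    ∃ i : Fin (M.n l), M.isS i ∧ M.gv l i ∉ R := by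
  by_contra hc
  push Not at hc
  have lt : ∀ j : Fin M.s, M.B + (M.B + 1) * j < M.n l := fun j => by
    have := M.sp_lt j.2
    unfold n n0
    omega
  have := card_le_card_of_injOn (s := (univ : Finset (Fin M.s))) (t := R)
    (fun j => M.gv l ⟨_, lt j⟩) (fun j _ => hc _ ⟨by
      rw [Nat.add_mul_mod_self_left, Nat.mod_eq_of_lt (by omega)], M.sp_lt j.2⟩) (by
    intro t _ t' _ h
    simp only [Sum.inr.injEq, Sigma.mk.injEq, heq_eq_eq, true_and, Fin.mk.injEq] at h
    exact Fin.ext (Nat.eq_of_mul_eq_mul_left (show 0 < M.B + 1 by omega) (by omega)))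
  rw [card_univ, Fintype.card_fin, s] at this
  omega

theorem connected (e0 : E)
    (hT : ∀ e, Relation.ReflTransGen (fun e f => M.T e f = true ∨ M.T f e = true) e0 e)
    (R : Finset M.V) (hR : R.card < Fintype.card X + 1) :
    (M.G.induce ((↑R : Set M.V)ᶜ)).Connected := by
  choose σ s1 s2 using fun l => M.exists_S l hR
  have step : ∀ {u v : M.V} (hu : u ∉ R) (hv : v ∉ R), u = v ∨ M.G.Adj u v →
      (M.G.induce ((↑R : Set M.V)ᶜ)).Reachable ⟨u, hu⟩ ⟨v, hv⟩ := by
    rintro u v hu hv (rfl | h)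
    · rfl
    · exact SimpleGraph.Adj.reachable (by simpa using h)
  have toS : ∀ (l) (i) (h : M.gv l i ∉ R),
      (M.G.induce ((↑R : Set M.V)ᶜ)).Reachable ⟨_, s2 l⟩ ⟨_, h⟩ := fun l i h => by
    by_cases e : σ l = i
    · exact step _ _ (Or.inl (by rw [e]))
    · exact step _ _ (Or.inr (M.adj_gg e (Or.inr (s1 l))))
  have hub : ∀ l, (M.G.induce ((↑R : Set M.V)ᶜ)).Reachable ⟨_, s2 (e0, true)⟩ ⟨_, s2 l⟩ := by
    by_cases hx : ∃ x, Sum.inl x ∉ R
    · obtain ⟨x, hx⟩ := hx
      exact fun l => (step _ hx (Or.inr (M.adj_xg (Or.inl (s1 _))).symm)).trans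
        (step hx _ (Or.inr (M.adj_xg (Or.inl (s1 _)))))
    · push Not at hx
      have h1 : M.Xs = R := eq_of_subset_of_card_le (fun v hv => by
        obtain ⟨x, rfl⟩ := M.mem_Xs.1 hv
        exact hx x) (by simp only [Xs, card_map, card_univ]; omega)
      have h2 : ∀ e, M.mid e ∉ R := fun e => by simp [← h1, mem_Xs]
      have h3 : ∀ e, (M.G.induce ((↑R : Set M.V)ᶜ)).Reachable ⟨_, h2 e0⟩ ⟨_, h2 e⟩ := fun e => by
        induction hT e with
        | refl => rfl
        | @tail b c _ h ih =>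
          refine ih.trans (step _ _ ?_)
          by_cases e : b = c
          · exact Or.inl (by rw [e])
          · right
            simp only [G, SimpleGraph.fromRel_adj, rel]
            exact ⟨by simpa using e, h⟩
      exact fun l => (step _ (h2 e0) (Or.inr (M.adj_mg (l := (e0, true))).symm)).trans
        ((h3 l.1).trans (step _ _ (Or.inr M.adj_mg)))
  rw [SimpleGraph.connected_iff_exists_forall_reachable]
  refine ⟨⟨_, s2 (e0, true)⟩, ?_⟩
  rintro ⟨x | e | ⟨l, i⟩, hv⟩
  · exact step _ hv (Or.inr (M.adj_xg (Or.inl (s1 _))).symm)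
  · exact (hub (e, true)).trans (step _ hv (Or.inr (M.adj_mg (l := (e, true))).symm))
  · exact (hub l).trans (toS l i hv)

def gl (l : E × Bool) : List M.V := List.ofFn (M.gv l)

def seg (p : E × Bool) : List M.V :=
  .inl (M.lab p) :: (M.gl p ++ M.mid p.1 :: M.gl (p.1, !p.2))

theorem n_pos (l : E × Bool) : 0 < M.n l := by
  unfold n n0 B
  omega

theorem gl_chain (l : E × Bool) {u v : M.V} {t : List M.V} (hu : ∀ i, M.G.Adj u (M.gv l i))
    (hv : ∀ i, M.G.Adj (M.gv l i) v) (ht : (v :: t).IsChain M.G.Adj) :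
    (u :: (M.gl l ++ v :: t)).IsChain M.G.Adj := by
  have h1 : (M.gl l).IsChain M.G.Adj := by
    rw [gl, List.isChain_ofFn]
    intro i hi
    exact M.adj_gg (by simp) (M.blk_succ i)
  have h2 : ∀ y ∈ M.gl l, ∃ i, M.gv l i = y := fun y hy => by simpa [gl] using hy
  rw [← List.cons_append]
  refine List.IsChain.append (List.IsChain.cons h1 fun y hy => ?_) ht fun y hy z hz => ?_
  · obtain ⟨i, rfl⟩ := h2 y (List.mem_of_mem_head? hy)
    exact hu i
  · obtain rfl : v = z := by simpa using hz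
    have hne : M.gl l ≠ [] := by
      have := M.n_pos l
      intro h
      have := congrArg List.length h
      simp [gl] at this
      omega
    rw [List.getLast?_cons_of_ne_nil hne] at hy
    obtain ⟨i, rfl⟩ := h2 y (List.mem_of_mem_getLast? hy)
    exact hv i

/-- The list of oriented segments is a walk from `x` to `y`. -/
def Path : X → List (E × Bool) → X → Prop
  | x, [], y => x = y
  | x, p :: l, y => M.lab p = x ∧ Path (M.lab (p.1, !p.2)) l y

instance decPath : ∀ x l y, Decidable (M.Path x l y)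
  | x, [], y => inferInstanceAs (Decidable (x = y))
  | x, p :: l, y => @instDecidableAnd _ _ _ (decPath (M.lab (p.1, !p.2)) l y)

theorem path_chain : ∀ (l : List (E × Bool)) (x y : X), M.Path x l y →
    ∃ t, l.flatMap M.seg ++ [.inl y] = .inl x :: t ∧ (Sum.inl x :: t).IsChain M.G.Adj
  | [], x, y, h => ⟨[], by rw [show x = y from h]; rfl, List.isChain_singleton _⟩
  | p :: l, x, y, ⟨h1, h2⟩ => by
    obtain ⟨t, e, h⟩ := path_chain l _ y h2
    subst h1
    refine ⟨M.gl p ++ M.mid p.1 :: (M.gl (p.1, !p.2) ++ .inl (M.lab (p.1, !p.2)) :: t), ?_, ?_⟩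
    · simp [seg, ← e]
    · exact M.gl_chain p (fun i => M.adj_xg (Or.inr rfl)) (fun i => M.adj_mg.symm)
        (M.gl_chain (p.1, !p.2) (fun i => M.adj_mg (l := (p.1, !p.2))) (fun i => (M.adj_xg (Or.inr rfl)).symm) h)

theorem mem_seg {p : E × Bool} {v : M.V} (h : v ∈ M.seg p) :
    v = .inl (M.lab p) ∨ v = M.mid p.1 ∨ ∃ b i, v = M.gv (p.1, b) i := by
  simp only [seg, gl, List.mem_cons, List.mem_append, List.mem_ofFn] at h
  rcases h with h | ⟨i, h⟩ | h | ⟨i, h⟩
  exacts [Or.inl h, Or.inr (Or.inr ⟨_, i, h.symm⟩), Or.inr (Or.inl h),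
    Or.inr (Or.inr ⟨_, i, h.symm⟩)]

theorem seg_nodup (p : E × Bool) : (M.seg p).Nodup := by
  have h : ∀ l, (M.gl l).Nodup := fun l =>
    List.nodup_ofFn.2 fun i j h => by simpa using h
  obtain ⟨e, b⟩ := p
  simp only [seg, List.nodup_cons, List.nodup_append, h, true_and]
  simp only [gl, List.mem_append, List.mem_cons, List.mem_ofFn]
  refine ⟨by simp, by simp, ?_⟩
  rintro _ ⟨i, rfl⟩ _ (rfl | ⟨j, rfl⟩) <;> simp

def val (l : List (E × Bool)) : ℕ := (l.map fun p => M.w p + M.w (p.1, !p.2) + 1).sum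

theorem walk_of_chain {V : Type} {G : SimpleGraph V} : ∀ (t : List V) (a b : V),
    (a :: (t ++ [b])).IsChain G.Adj → ∃ p : G.Walk a b, p.support = a :: (t ++ [b])
  | [], a, b, h => ⟨.cons (by simpa using h) .nil, rfl⟩
  | c :: t, a, b, h => by
    obtain ⟨h1, h2⟩ := List.isChain_cons_cons.1 h
    obtain ⟨p, hp⟩ := walk_of_chain t c b h2
    exact ⟨.cons h1 p, by simp [hp]⟩

theorem exists_cycle {l : List (E × Bool)} {x : X} (h0 : l ≠ []) (h1 : M.Path x l x)
    (h2 : (l.map M.lab).Nodup) (h3 : (l.map Prod.fst).Nodup) :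
    ∃ p : M.G.Walk (.inl x) (.inl x), p.IsCycle ∧
      p.length = l.length + 2 * l.length * M.n0 + M.val l ∧
      ∀ v ∈ p.support, v ∈ M.Xs ∨ ∃ q ∈ l, v = M.mid q.1 ∨ ∃ b i, v = M.gv (q.1, b) i := by
  have nd : (l.flatMap M.seg).Nodup := by
    refine List.nodup_flatMap.2 ⟨fun p _ => M.seg_nodup p, ?_⟩
    rw [List.Nodup, List.pairwise_map] at h2 h3
    refine (h2.and h3).imp fun {p q} h v hp hq => ?_
    rcases M.mem_seg hp with rfl | rfl | ⟨b, i, rfl⟩ <;>
      rcases M.mem_seg hq with e | e | ⟨b, i, e⟩ <;> simp at e <;> tauto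
  have len : (l.flatMap M.seg).length = l.length + 2 * l.length * M.n0 + M.val l := by
    clear nd h0 h1 h2 h3
    induction l with
    | nil => simp [val]
    | cons p l ih =>
      simp only [List.flatMap_cons, List.length_append, ih, seg, gl, List.length_cons,
        List.length_ofFn, val, List.map_cons, List.sum_cons, n]
      ring
  obtain ⟨t, e, hc⟩ := M.path_chain l x x h1
  obtain ⟨p, l, rfl⟩ := List.exists_cons_of_ne_nil h0
  obtain ⟨rfl, -⟩ := h1
  obtain ⟨t', ht⟩ : ∃ t', (p :: l).flatMap M.seg = .inl (M.lab p) :: t' := ⟨_, by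
    rw [List.flatMap_cons, seg, List.cons_append]⟩
  rw [ht] at e nd len
  obtain rfl : t' ++ [Sum.inl (M.lab p)] = t := by simpa using e
  obtain ⟨w, hw⟩ := walk_of_chain _ _ _ hc
  have wl : w.length = (p :: l).length + 2 * (p :: l).length * M.n0 + M.val (p :: l) := by
    have := w.length_support
    rw [hw] at this
    simp only [List.length_cons, List.length_append, List.length_nil] at this len ⊢
    omega
  refine ⟨w, ?_, wl, fun v hv => ?_⟩
  · have h3 : 3 ≤ w.length := by
      have : 2 ≤ M.n0 := by unfold n0 B; omega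
      rw [wl, List.length_cons]
      nlinarith
    refine SimpleGraph.Walk.isCycle_iff_isPath_tail_and_le_length.2 ⟨?_, h3⟩
    rw [SimpleGraph.Walk.isPath_def, SimpleGraph.Walk.support_tail_of_not_nil _
      (SimpleGraph.Walk.not_nil_iff_lt_length.2 (by omega)), hw, List.tail_cons]
    exact (List.perm_append_singleton _ _).nodup_iff.2 nd
  · have : v ∈ (p :: l).flatMap M.seg := by
      rw [ht]
      rw [hw] at hv
      simp only [List.mem_cons, List.mem_append, List.not_mem_nil, or_false] at hv ⊢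
      tauto
    obtain ⟨q, hq, h⟩ := List.mem_flatMap.1 this
    rcases M.mem_seg h with h | h
    · exact Or.inl (M.mem_Xs.2 ⟨_, h⟩)
    · exact Or.inr ⟨q, hq, h⟩

/-- A segment model with a connected link graph, two link-free tours on disjoint segment sets, and
no tour of larger value yields two longest cycles with fewer than `k` common vertices. -/
theorem not_smith (e0 : E)
    (hT : ∀ e, Relation.ReflTransGen (fun e f => M.T e f = true ∨ M.T f e = true) e0 e)
    {W : ℕ} (hB : M.Bound W) {C D : List (E × Bool)} {x y : X} (hX : 0 < Fintype.card X)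
    (c0 : C.length = Fintype.card X) (c1 : M.Path x C x) (c2 : (C.map M.lab).Nodup)
    (c3 : (C.map Prod.fst).Nodup) (c4 : M.val C = W)
    (d0 : D.length = Fintype.card X) (d1 : M.Path y D y) (d2 : (D.map M.lab).Nodup)
    (d3 : (D.map Prod.fst).Nodup) (d4 : M.val D = W) (hCD : ∀ p ∈ C, ∀ q ∈ D, p.1 ≠ q.1) :
    ¬ (∀ (V : Type) [Fintype V] [DecidableEq V] (G : SimpleGraph V) (k : ℕ),
      2 ≤ k → k < Fintype.card V →
      (∀ S : Finset V, S.card < k → (G.induce ((↑S : Set V)ᶜ)).Connected) →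
      ∀ (u v : V) (p : G.Walk u u) (q : G.Walk v v),
        p.IsCycle → q.IsCycle →
        (∀ (w : V) (r : G.Walk w w), r.IsCycle → r.length ≤ p.length) →
        (∀ (w : V) (r : G.Walk w w), r.IsCycle → r.length ≤ q.length) →
        k ≤ (p.support.toFinset ∩ q.support.toFinset).card) := by
  intro h
  obtain ⟨p, p1, p2, p3⟩ := M.exists_cycle (by rintro rfl; simp at c0; omega) c1 c2 c3
  obtain ⟨q, q1, q2, q3⟩ := M.exists_cycle (by rintro rfl; simp at d0; omega) d1 d2 d3
  have up : ∀ (w : M.V) (r : M.G.Walk w w), r.IsCycle →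
      r.length ≤ Fintype.card X + 2 * Fintype.card X * M.n0 + W := fun w r hr => by
    obtain ⟨N, K, h1, h2⟩ := exists_cy hr
    exact h2 ▸ M.upper hB h1 hX
  have h1 := h M.V M.G (Fintype.card X + 1) (by omega) (by
      have h1 := card_le_univ (M.L (e0, true))
      have : M.s * 3 ≤ M.s * (M.B + 1) := Nat.mul_le_mul_left _ (by unfold B; omega)
      rw [card_L] at h1
      unfold n n0 at h1
      have h2 : M.s = Fintype.card X + 1 := rfl
      exact lt_of_lt_of_le (by omega) h1) (M.connected e0 hT) _ _ p q p1 q1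
    (by rw [p2, c0, c4]; exact up) (by rw [q2, d0, d4]; exact up)
  have h2 : p.support.toFinset ∩ q.support.toFinset ⊆ M.Xs := fun v hv => by
    simp only [mem_inter, List.mem_toFinset] at hv
    rcases p3 v hv.1 with h | ⟨a, ha, h⟩
    · exact h
    rcases q3 v hv.2 with h' | ⟨b, hb, h'⟩
    · exact h'
    have := hCD a ha b hb
    rcases h with rfl | ⟨_, _, rfl⟩ <;> rcases h' with e | ⟨_, _, e⟩ <;> simp at e <;> tauto
  have := card_le_card h2
  simp only [Xs, card_map, card_univ] at this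
  omega

end Model

end Pool.Agent.Lib.MP_4f0fb4_co.RZ
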