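import Pool.Agent.Lib.MP_4f0fb4_co.RzDpSnd
import Pool.Agent.Lib.MP_4f0fb4_co.RzMain

/-!
From the dynamic programme to the bound for a segment model.
-/

namespace Pool.Agent.Lib.MP_4f0fb4_co.RZ.DP

open Finset

def edges : List Op → List (ℕ × ℕ × ℤ)
  | [] => []
  | .e a b _ _ p q :: r => (a, b, (p : ℤ) - q) :: edges r
  | .n _ _ :: r => edges r

variable {c : ℕ → ℕ → Bool}

theorem rem_eq (r : List Op) (v : ℕ) : rem c r v = ((edges r).map fun t =>
    if c t.1 t.2.1 = true ∧ (t.1 = v ∨ t.2.1 = v) then 1 else 0).sum := by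
  induction r with
  | nil => rfl
  | cons o r ih => cases o <;> simp only [rem, edges, List.map_cons, List.sum_cons, ih, add_comm]

theorem val_eq (r : List Op) :
    val c r = ((edges r).map fun t => if c t.1 t.2.1 = true then t.2.2 else 0).sum := by
  induction r with
  | nil => rfl
  | cons o r ih => cases o <;> simp only [val, edges, List.map_cons, List.sum_cons, ih, add_comm]

theorem cross_of {U : ℕ → Prop} (r : List Op) {t : ℕ × ℕ × ℤ} (h : t ∈ edges r)
    (h1 : c t.1 t.2.1 = true) (h2 : U t.1 ↔ ¬ U t.2.1) : Cross c U r := by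
  induction r with
  | nil => cases h
  | cons o r ih =>
    cases o with
    | n j v => exact ih h
    | e a b su sv p q =>
      rcases List.mem_cons.1 h with rfl | h
      exacts [Or.inl ⟨h1, h2⟩, Or.inr (ih h)]

variable {m k : ℕ} (M : Model (Fin m) (Fin k)) (pot : Fin m → ℕ) (lk : List (Fin k × Fin k))

def leaf (l : Fin k × Bool) : ℕ × ℕ × ℤ := (M.lab l, m + l.1, 2 * M.w l + 1 - pot (M.lab l))
def link (p : Fin k × Fin k) : ℕ × ℕ × ℤ := (m + p.1, m + p.2, 2)
def all : List (ℕ × ℕ × ℤ) :=
  ((List.finRange k).map fun e => leaf M pot (e, true)) ++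
    (((List.finRange k).map fun e => leaf M pot (e, false)) ++ lk.map (link (m := m)))

theorem sum_all {β : Type} [AddCommMonoid β] (hn : lk.Nodup) (f : ℕ × ℕ × ℤ → β) :
    ((all M pot lk).map f).sum =
      ∑ l, f (leaf M pot l) + ∑ p ∈ lk.toFinset, f (link (m := m) p) := by
  rw [List.sum_toFinset _ hn, Fintype.sum_prod_type]
  simp only [all, List.map_append, List.sum_append, List.map_map, Fintype.sum_bool,
    sum_add_distrib, Fin.sum_univ_def, add_assoc, Function.comp_def]

theorem bound_of_good {ops : List Op} {own : List ℕ} {off W' W : ℕ}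
    (g : Good m W' ops own (L.cons 0 off L.nil)) (hown : own.Nodup)
    (hp : (edges ops).Perm (all M pot lk))
    (hT : ∀ e f, M.T e f = true → (e, f) ∈ lk) (hn : lk.Nodup) (hs : ∀ p ∈ lk, p.swap ∉ lk)
    (hlab : ∀ e, M.lab (e, true) ≠ M.lab (e, false))
    (hW : W' + 2 * ∑ x, pot x ≤ off + 2 * W) : M.Bound W := by
  classical
  intro A t Y h1 h2 h3 h4 h5
  let c : ℕ → ℕ → Bool := fun a b => decide ((∃ l ∈ A, (M.lab l : ℕ) = a ∧ m + l.1 = b) ∨
    ∃ e, ∃ f ∈ t e, m + e = a ∧ m + f = b)
  have c1 : ∀ l : Fin k × Bool, c (M.lab l) (m + l.1) = true ↔ l ∈ A := fun l => by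
    simp only [c, decide_eq_true_eq]
    refine ⟨?_, fun h => Or.inl ⟨l, h, rfl, rfl⟩⟩
    rintro (⟨⟨e, b⟩, a1, a2, a3⟩ | ⟨e, f, -, a, -⟩)
    · obtain ⟨e', b'⟩ := l
      obtain rfl : e = e' := Fin.ext (by simpa using a3)
      have a2 := Fin.ext a2
      cases b <;> cases b'
      exacts [a1, (hlab e a2.symm).elim, (hlab e a2).elim, a1]
    · have := (M.lab l).2
      omega
  have c2 : ∀ e f : Fin k, c (m + e) (m + f) = true ↔ f ∈ t e := fun e f => by
    simp only [c, decide_eq_true_eq]
    refine ⟨?_, fun h => Or.inr ⟨e, f, h, rfl, rfl⟩⟩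
    rintro (⟨l, -, a, -⟩ | ⟨e', f', a1, a2, a3⟩)
    · have := (M.lab l).2
      omega
    · obtain rfl : e' = e := Fin.ext (by omega)
      obtain rfl : f' = f := Fin.ext (by omega)
      exact a1
  have R : ∀ v, rem c ops v = #(A.filter fun l => (M.lab l : ℕ) = v ∨ m + l.1 = v) +
      #(lk.toFinset.filter fun p => p.2 ∈ t p.1 ∧ (m + p.1 = v ∨ m + p.2 = v)) := fun v => by
    rw [rem_eq, (hp.map _).sum_eq, sum_all M pot lk hn]
    simp only [leaf, link, c1, c2]
    rw [← card_filter, ← card_filter, ← filter_filter, filter_univ_mem]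
  have T : ∀ e, #(lk.toFinset.filter fun p => p.2 ∈ t p.1 ∧ (p.1 = e ∨ p.2 = e)) = #(t e) := by
    intro e
    refine card_bij (fun p _ => if p.1 = e then p.2 else p.1) (fun p hp => ?_) ?_ fun f hf => ?_
    · obtain ⟨-, a, b⟩ := mem_filter.1 hp
      split_ifs with y
      · exact y ▸ a
      · exact b.resolve_left y ▸ h1 _ _ a
    · rintro ⟨p1, p2⟩ hp ⟨q1, q2⟩ hq h
      simp only [mem_filter, List.mem_toFinset] at hp hq h
      split_ifs at h with y z z
      · rw [y, z, h]
      · obtain rfl := hq.2.2.resolve_left z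
        subst y h
        exact (hs _ hp.1 hq.1).elim
      · obtain rfl := hp.2.2.resolve_left y
        subst z h
        exact (hs _ hp.1 hq.1).elim
      · rw [hp.2.2.resolve_left y, hq.2.2.resolve_left z, h]
    · obtain ⟨a, b | b⟩ := h2 e f hf
      · exact ⟨(e, f), by simp [hT _ _ b, hf], by simp⟩
      · exact ⟨(f, e), by simp [hT _ _ b, h1 _ _ hf], by simp [a.symm]⟩
  have R1 : ∀ x : Fin m, rem c ops x = 2 := fun x => by
    have := x.2
    rw [R, ← h3 x, filter_false_of_mem (s := lk.toFinset) (fun p _ => by omega), card_empty,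
      add_zero]
    exact congrArg _ (filter_congr fun l _ => ⟨fun h => Fin.ext (by omega), fun h => by simp [h]⟩)
  have R2 : ∀ e : Fin k, rem c ops (m + e) = if e ∈ Y then 2 else 0 := fun e => by
    rw [R, ← h4 e, ← T e]
    congr 2
    · exact filter_congr fun l _ => ⟨fun h => Fin.ext (by have := (M.lab l).2; omega),
        fun h => by simp [h]⟩
    · exact filter_congr fun p _ => by simp [Fin.ext_iff]
  have R3 : ∀ v : ℕ, (∃ x : Fin m, v = x) ∨ (∃ e : Fin k, v = m + e) ∨
      (m ≤ v ∧ rem c ops v = 0) := by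
    intro v
    by_cases a : v < m
    · exact Or.inl ⟨⟨v, a⟩, rfl⟩
    by_cases b : v - m < k
    · exact Or.inr (Or.inl ⟨⟨_, b⟩, by simp only; omega⟩)
    refine Or.inr (Or.inr ⟨by omega, ?_⟩)
    rw [R, filter_false_of_mem (s := lk.toFinset)
      (fun p _ => by have := p.1.2; have := p.2.2; omega),
      filter_false_of_mem (fun l _ => by have := l.1.2; have := (M.lab l).2; omega)]
    rfl
  have F : ∀ v, Fr c m ops v := fun v => by
    unfold Fr
    rcases R3 v with ⟨x, rfl⟩ | ⟨e, rfl⟩ | h
    · exact Or.inl (R1 x)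
    · rw [R2]
      split_ifs <;> omega
    · exact Or.inr h.symm
  have G0 : ∀ j, get 0 j = 0 := fun j => by
    show (0 >>> (4 * j)) &&& 15 = 0
    simp
  have := g c 0 off (Or.inl ⟨rfl, rfl⟩) ⟨fun i hi j hj h => ?_, fun j _ h => by simp [G0] at h,
    fun j _ _ => F _, fun j _ k h => by simp [G0] at h, fun v _ _ => F v,
    fun U _ a b ha hb p1 p2 => ?_⟩
  · rw [val_eq, (hp.map _).sum_eq, sum_all M pot lk hn] at this
    simp only [leaf, link, c1, c2] at this
    rw [← sum_filter, ← sum_filter, filter_univ_mem, sum_sub_distrib, sum_add_distrib,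
      ← mul_sum, sum_const, sum_const] at this
    have e1 : ∑ l ∈ A, pot (M.lab l) = 2 * ∑ x, pot x := by
      rw [← sum_fiberwise A M.lab, mul_sum]
      refine sum_congr rfl fun x _ => ?_
      rw [sum_congr rfl (fun l hl => by rw [(mem_filter.1 hl).2]), sum_const, h3, smul_eq_mul]
    have e2 : #A + 2 * #(lk.toFinset.filter fun p => p.2 ∈ t p.1) = 2 * #Y := by
      have a1 : ∑ e, (if e ∈ Y then 2 else 0) = 2 * #Y := by
        rw [← sum_filter, filter_univ_mem, sum_const, smul_eq_mul, mul_comm]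
      rw [← a1, ← sum_congr rfl fun e _ => h4 e, sum_add_distrib,
        ← card_eq_sum_card_fiberwise (f := fun l : Fin k × Bool => l.1) (fun _ _ => mem_univ _),
        ← sum_congr rfl fun e _ => T e]
      congr 1
      simp only [card_filter]
      rw [sum_comm, mul_sum]
      refine sum_congr rfl fun p hp => ?_
      by_cases y : p.2 ∈ t p.1
      · simp only [y, true_and, if_true]
        rw [← card_filter, show univ.filter (fun e => p.1 = e ∨ p.2 = e) = {p.1, p.2} by
          ext e; simp [eq_comm], card_pair (h2 _ _ y).1, mul_one]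
      · simp [y]
    have e3 : ∑ l ∈ A, (pot (M.lab l) : ℤ) = ((∑ l ∈ A, pot (M.lab l) : ℕ) : ℤ) := by push_cast; rfl
    have e4 : ∑ l ∈ A, (M.w l : ℤ) = ((∑ l ∈ A, M.w l : ℕ) : ℤ) := by push_cast; rfl
    rw [e3, e4, e1] at this
    simp only [nsmul_eq_mul] at this
    omega
  · rw [List.getD_eq_getElem _ _ hi, List.getD_eq_getElem _ _ hj] at h
    exact (List.Nodup.getElem_inj_iff hown).1 h
  · have := h5 (univ.filter fun x => U x) (univ.filter fun e => U (m + e)) ?_ ?_
    rotate_left
    · rcases R3 a with ⟨x, rfl⟩ | ⟨e, rfl⟩ | h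
      · exact Or.inl ⟨x, by simpa using ha⟩
      · refine Or.inr ⟨e, ?_, by simpa using ha⟩
        by_contra y
        rw [R2, if_neg y] at p1
        omega
      · omega
    · rcases R3 b with ⟨x, rfl⟩ | ⟨e, rfl⟩ | h
      · exact Or.inl ⟨x, by simpa using hb⟩
      · refine Or.inr ⟨e, ?_, by simpa using hb⟩
        by_contra y
        rw [R2, if_neg y] at p2
        omega
      · omega
    rcases this with ⟨⟨e, z⟩, a1, a2⟩ | ⟨e, a1, f, a2, a3⟩
    · refine cross_of (t := leaf M pot (e, z)) ops (hp.mem_iff.2 ?_) ((c1 _).2 a1)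
        (by simpa [leaf] using a2)
      cases z <;> simp [all]
    · simp only [mem_filter, mem_univ, true_and] at a1 a3
      rcases (h2 e f a2).2 with y | y
      · exact cross_of (t := link (m := m) (e, f)) ops (hp.mem_iff.2 (by
          simp only [all, List.mem_append]
          exact Or.inr (Or.inr (List.mem_map_of_mem (hT _ _ y))))) ((c2 _ _).2 a2)
          (by simp [link, a1, a3])
      · exact cross_of (t := link (m := m) (f, e)) ops (hp.mem_iff.2 (by
          simp only [all, List.mem_append]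
          exact Or.inr (Or.inr (List.mem_map_of_mem (hT _ _ y))))) ((c2 _ _).2 (h1 _ _ a2))
          (by simp [link, a1, a3])

/-- Every segment reaches the root along parent links of decreasing depth. -/
theorem conn_of_par {E : Type} (T : E → E → Bool) (e0 : E) (par : E → E) (dep : E → ℕ)
    (h : ∀ e, e = e0 ∨ (dep (par e) < dep e ∧ (T (par e) e = true ∨ T e (par e) = true))) (e : E) :
    Relation.ReflTransGen (fun e f => T e f = true ∨ T f e = true) e0 e := by
  induction hd : dep e using Nat.strong_induction_on generalizing e with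
  | _ n ih =>
    rcases h e with rfl | ⟨h1, h2⟩
    · exact .refl
    · exact (ih _ (hd ▸ h1) _ rfl).tail h2

end Pool.Agent.Lib.MP_4f0fb4_co.RZ.DP
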