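import Mathlib

/-!
A frontier dynamic programme for the heaviest cycle through all of the first `m` vertices:
definitions.
-/

namespace Pool.Agent.Lib.MP_4f0fb4_co.RZ.DP

/-- Tables of pairs (state, value). -/
inductive L where
  | nil : L
  | cons (s x : ℕ) (t : L) : L

/-- `e`: an edge `u v` of weight `p - q` with its two slots; `n`: slot `j` is handed to `v`. -/
inductive Op where
  | e (u v su sv p q : ℕ) : Op
  | n (j v : ℕ) : Op

noncomputable section

def fz {α : Type} (a : ℕ) (k : ℕ → α) : α := Nat.rec (k 0) (fun n _ => k (Nat.succ n)) a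

def force {α : Type} (a : L) (k : L → α) : α :=
  L.rec (k L.nil) (fun s x t _ => k (L.cons s x t)) a

def rv (s x : ℕ) (ih : L → L) (acc : L) : L := ih (L.cons s x acc)
def revApp (a : L) : L → L := L.rec (fun acc => acc) (fun s x _ ih => rv s x ih) a

def mA (iha : L → L → L) (s x s' x' : ℕ) (b' : L) (ihb : L → L) (acc : L) : L :=
  Bool.rec (ihb (L.cons s' x' acc)) (iha (L.cons s' x' b') (L.cons s x acc)) (Nat.ble s s')
def mD (iha : L → L → L) (s x s' x' : ℕ) (b' : L) (ihb : L → L) (acc : L) : L :=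
  Bool.rec (ihb (L.cons s' x' acc)) (iha (L.cons s' x' b') (L.cons s x acc)) (Nat.ble s' s)
def mN (s x : ℕ) (a acc : L) : L := revApp a (L.cons s x acc)

/-- Merge of two tables onto an accumulator; ascending tables give a descending one. -/
def mergeA (a : L) : L → L → L :=
  L.rec revApp (fun s x a iha b => L.rec (mN s x a) (mA iha s x) b) a

/-- Merge of two tables onto an accumulator; descending tables give an ascending one. -/
def mergeD (a : L) : L → L → L :=
  L.rec revApp (fun s x a iha b => L.rec (mN s x a) (mD iha s x) b) a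

def pass (mg : L → L → L → L) (rs : List L) : Option L → List L → List L :=
  List.rec (fun o acc => Option.rec acc (fun a => force (revApp a L.nil) fun r => r :: acc) o)
    (fun b _ ih o acc => Option.rec (ih (some b) acc)
      (fun a => force (mg a b L.nil) fun r => ih none (r :: acc)) o) rs

def rn (s x : ℕ) (_ : L) (ih : ℕ → L → List L → List L) (p : ℕ) (cur : L) (acc : List L) : List L :=
  Bool.rec (ih s (L.cons s x L.nil) (cur :: acc)) (ih s (L.cons s x cur) acc) (Nat.ble s p)

/-- Cuts a table into descending pieces, each stored reversed. -/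
def runs (a : L) : List L :=
  L.rec [] (fun s x t _ => L.rec (motive := fun _ => ℕ → L → List L → List L)
    (fun _ cur acc => cur :: acc) rn t s (L.cons s x L.nil) []) a

def flat (rs : List L) : L := List.rec L.nil (fun a _ ih => revApp a ih) rs

/-- Ascending pieces to one ascending table. -/
def sortA (fuel : ℕ) : List L → L :=
  Nat.rec flat (fun _ ih rs => List.rec L.nil (fun a t _ =>
    List.rec a (fun b t' _ => ih (pass mergeD (pass mergeA (a :: b :: t') none []) none [])) t) rs)
    fuel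

def d1 (cut s' x' : ℕ) (ih : ℕ → ℕ → L → L) (s x : ℕ) (acc : L) : L :=
  Bool.rec (ih s' x' (L.cons s x acc)) (ih s' x' acc) (Nat.ble x cut)
def d2 (x' : ℕ) (ih : ℕ → ℕ → L → L) (s x : ℕ) (acc : L) : L :=
  Bool.rec (ih s x acc) (ih s x' acc) (Nat.ble x x')
def d0 (cut s' x' : ℕ) (_ : L) (ih : ℕ → ℕ → L → L) (s x : ℕ) (acc : L) : L :=
  Bool.rec (d1 cut s' x' ih s x acc) (d2 x' ih s x acc) (Nat.beq s s')

/-- Removes values up to `cut` and neighbours with equal state, keeping the larger value;
reverses the table. -/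
def dd (cut : ℕ) (a : L) : L :=
  L.rec L.nil (fun s x t _ => L.rec (motive := fun _ => ℕ → ℕ → L → L)
    (fun s x acc => L.cons s x acc) (d0 cut) t s x L.nil) a

def get (s j : ℕ) : ℕ := Nat.land (Nat.shiftRight s (Nat.mul 4 j)) 15

def occ (v : ℕ) (r : List Op) : Bool :=
  List.rec false (fun o _ ih => Op.rec (fun a b _ _ _ _ =>
    Bool.rec (Bool.rec ih true (Nat.beq b v)) true (Nat.beq a v)) (fun _ _ => ih) o) r

def mem (v : ℕ) (l : List ℕ) : Bool := List.rec false (fun a _ ih => Bool.rec ih true (Nat.beq a v)) l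

def slack (r : List Op) : ℕ :=
  List.rec 0 (fun o _ ih => Op.rec (fun _ _ _ _ p q => Nat.add (Nat.sub p q) ih) (fun _ _ => ih) o) r

def future (m : ℕ) (own : List ℕ) (r : List Op) : Bool :=
  List.rec false (fun o _ ih => Op.rec (fun a _ _ _ _ _ =>
    Bool.rec (Bool.rec true ih (mem a own)) ih (Nat.ble m a)) (fun _ _ => ih) o) r

/-- Some slot other than `su`, `sv` belongs to one of the first `m` vertices and is not dead. -/
def live (m s su sv : ℕ) (own : List ℕ) : ℕ → Bool :=
  List.rec (fun _ => false) (fun a _ ih j =>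
    Bool.rec (Bool.rec (Bool.rec (Bool.rec true (ih (Nat.succ j)) (Nat.beq (get s j) 1))
      (ih (Nat.succ j)) (Nat.beq j sv)) (ih (Nat.succ j)) (Nat.beq j su)) (ih (Nat.succ j))
      (Nat.ble m a)) own

abbrev K := L → Option L

def em2 (ih : K) (hi : L) (y s' : ℕ) : Option L :=
  Nat.rec (ih (L.cons 0 y hi)) (fun n _ => ih (L.cons (Nat.succ n) y hi)) s'
def em1 (cut : ℕ) (ih : K) (hi : L) (s' y : ℕ) : Option L :=
  Bool.rec (em2 ih hi y s') (ih hi) (Nat.ble y cut)
def em (cut p q : ℕ) (ih : K) (hi : L) (x s' : ℕ) : Option L :=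
  Nat.rec (ih hi) (fun n _ => em1 cut ih hi s' (Nat.succ n)) (Nat.sub (Nat.add x p) q)

/-- One end fresh (shift `a`), the other end (shift `b`) with mate `d`. -/
def j01 (a b k s d : ℕ) : ℕ :=
  Nat.xor (Nat.xor (Nat.xor s (Nat.shiftLeft (Nat.add d 2) a))
    (Nat.shiftLeft (Nat.xor (Nat.add d 2) 1) b)) (Nat.shiftLeft k (Nat.mul 4 d))
def j11 (a b ka kb s c d : ℕ) : ℕ :=
  Nat.xor (Nat.xor (Nat.xor (Nat.xor s (Nat.shiftLeft (Nat.xor (Nat.add c 2) 1) a))
    (Nat.shiftLeft (Nat.xor (Nat.add d 2) 1) b))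
    (Nat.shiftLeft (Nat.xor ka (Nat.add d 2)) (Nat.mul 4 c)))
    (Nat.shiftLeft (Nat.xor kb (Nat.add c 2)) (Nat.mul 4 d))

abbrev EM := K → L → ℕ → ℕ → Option L

def e0b (E : EM) (a b k : ℕ) (ih : K) (hi : L) (s x c : ℕ) : Option L :=
  Nat.rec (ih hi) (fun d _ => E ih hi x (j01 a b k s d)) c
def e0 (E : EM) (a b k m0 : ℕ) (ih : K) (hi : L) (s x : ℕ) : Option L :=
  Nat.rec (E ih hi x (Nat.xor s m0)) (fun c _ => e0b E a b k ih hi s x c)
    (Nat.land (Nat.shiftRight s b) 15)
def e2c (E : EM) (a b ka kb : ℕ) (ih : K) (hi : L) (s x c d : ℕ) : Option L :=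
  Nat.rec (ih hi) (fun d _ => E ih hi x (j11 a b ka kb s c d)) d
def e2b (E : EM) (a b k ka kb : ℕ) (ih : K) (hi : L) (s x c : ℕ) : Option L :=
  Nat.rec (E ih hi x (j01 b a k s c)) (fun d _ => e2c E a b ka kb ih hi s x c d)
    (Nat.land (Nat.shiftRight s b) 15)
def e2a (E C : EM) (sv a b k ka kb : ℕ) (ih : K) (hi : L) (s x c : ℕ) : Option L :=
  Bool.rec (e2b E a b k ka kb ih hi s x c) (C ih hi s x) (Nat.beq c sv)
def e1 (F : K → L → ℕ → ℕ → ℕ → Option L) (ih : K) (hi : L) (s x c : ℕ) : Option L :=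
  Nat.rec (ih hi) (fun c _ => F ih hi s x c) c
def e (G : EM) (F : K → L → ℕ → ℕ → ℕ → Option L) (a s x : ℕ) (_ : L) (ih : K) (hi : L) :
    Option L :=
  Nat.rec (G ih hi s x) (fun c _ => e1 F ih hi s x c) (Nat.land (Nat.shiftRight s a) 15)

def skip : EM := fun ih hi _ _ => ih hi
def close (m W su sv p q : ℕ) (own : List ℕ) : EM := fun ih hi s x =>
  Bool.rec (Bool.rec none (ih hi) (Nat.ble (Nat.sub (Nat.add x p) q) W)) (ih hi)
    (live m s su sv own 0)

/-- The states reached by using the edge. -/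
def edge (C : EM) (cut su sv p q : ℕ) (t : L) : Option L :=
  fz (Nat.mul 4 su) fun a => fz (Nat.mul 4 sv) fun b => fz (Nat.add su 2) fun ka =>
  fz (Nat.add sv 2) fun kb => fz (Nat.xor ka kb) fun k =>
  fz (Nat.xor (Nat.shiftLeft kb a) (Nat.shiftLeft ka b)) fun m0 =>
  L.rec (motive := fun _ => K) some
    (e (e0 (em cut p q) a b k m0) (e2a (em cut p q) C sv a b k ka kb) a) t L.nil

abbrev K2 := L → L → L

def h2 (ih : K2) (lo hi : L) (x s' : ℕ) : L :=
  Nat.rec (ih lo (L.cons 0 x hi)) (fun n _ => ih lo (L.cons (Nat.succ n) x hi)) s'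
def h1 (k : ℕ) (ih : K2) (lo hi : L) (s x c : ℕ) : L :=
  Nat.rec (h2 ih lo hi x (Nat.xor s k)) (fun _ _ => ih lo hi) c
def hT (a k s x : ℕ) (_ : L) (ih : K2) (lo hi : L) : L :=
  Nat.rec (ih (L.cons s x lo) hi) (fun c _ => h1 k ih lo hi s x c) (Nat.land (Nat.shiftRight s a) 15)
def hF (a k s x : ℕ) (_ : L) (ih : K2) (lo hi : L) : L :=
  Nat.rec (ih lo hi) (fun c _ => h1 k ih lo hi s x c) (Nat.land (Nat.shiftRight s a) 15)

def hand (j : ℕ) (free : Bool) (t : L) : L :=
  fz (Nat.mul 4 j) fun a => fz (Nat.shiftLeft 1 a) fun k => Bool.rec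
    (L.rec (motive := fun _ => K2) (fun _ hi => revApp hi L.nil) (hF a k) t L.nil L.nil)
    (L.rec (motive := fun _ => K2) (fun lo hi => revApp (dd 0 (mergeD lo hi L.nil)) L.nil) (hT a k) t
      L.nil L.nil) free

def step (m W : ℕ) (o : Op) (r : List Op) (own : List ℕ) (a : L) : Option L :=
  Op.rec
    (fun u v su sv p q => Bool.rec none
      (fz (Nat.sub W (slack r)) fun cut => Option.rec none
        (fun hi => some (dd cut (mergeA a (sortA 40 (runs hi)) L.nil)))
        (Bool.rec (motive := fun _ => Option L) (edge (close m W su sv p q own) cut su sv p q a)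
          (edge skip cut su sv p q a) (future m own r)))
      (Nat.beq (own.getD su 0) u && Nat.beq (own.getD sv 0) v && Nat.blt su own.length &&
        Nat.blt sv own.length && !Nat.beq su sv && Nat.ble (slack r) W && Nat.ble own.length 14))
    (fun j v => Bool.rec none (some (hand j (Nat.ble m (own.getD j 0)) a))
      (Nat.blt j own.length && !occ (own.getD j 0) r && !mem v own && (occ v r || Nat.ble m v) &&
        Nat.ble (slack r) W)) o

def newOwn (o : Op) (own : List ℕ) : List ℕ :=
  Op.rec (fun _ _ _ _ _ _ => own) (fun j v => own.set j v) o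

def fl {α : Type} (l : List ℕ) : (List ℕ → α) → α :=
  List.rec (fun k => k []) (fun a _ ih k => fz a fun a' => ih fun t => k (a' :: t)) l

def sb (s x : ℕ) (_ : L) (ih : L → Bool) (b : L) : Bool :=
  L.rec false (fun s' x' b' _ =>
    Bool.rec false (Bool.rec false (ih b') (Nat.ble x x')) (Nat.beq s s')) b
def sub (a : L) : L → Bool := L.rec (fun _ => true) sb a

/-- `n` steps from `(own, a)` lead to `own'` and a table dominated by `a'`. -/
def steps (m W : ℕ) (own' : List ℕ) (a' : L) (n : ℕ) : List Op → List ℕ → L → Bool :=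
  Nat.rec (fun _ own a => decide (own = own') && sub a a') (fun _ ih ops own a =>
    List.rec false (fun o r _ => Option.rec false
      (fun b => fl (newOwn o own) fun w => force b fun b => ih r w b) (step m W o r own a)) ops) n

def un (n : ℕ) (acc : L) : L :=
  Nat.rec (motive := fun _ => ℕ → L → L) (fun _ acc => acc) (fun _ ih n acc =>
    Nat.rec acc (fun _ _ => fz (Nat.land n 72057594037927935) fun s =>
      fz (Nat.land (Nat.shiftRight n 56) 1099511627775) fun x =>
      fz (Nat.shiftRight n 96) fun n' => ih n' (L.cons s x acc)) n) 64 n acc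

/-- A table from packed numbers (96 bits for an entry); the order is reversed. -/
def unpack (l : List ℕ) : L → L :=
  List.rec (fun acc => acc) (fun n _ ih acc => force (un n acc) ih) l

end

end Pool.Agent.Lib.MP_4f0fb4_co.RZ.DP
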