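import Pool.Agent.Lib.MP_4f0fb4_co.RzDpBr

/-!
Fast checks for the side conditions of a certificate.
-/

namespace Pool.Agent.Lib.MP_4f0fb4_co.RZ.DP

open Finset

def nd : List ℕ → ℕ → Bool
  | [], _ => true
  | a :: l, acc => !acc.testBit a && nd l (acc ||| 2 ^ a)

def orr : List ℕ → ℕ → ℕ
  | [], acc => acc
  | a :: l, acc => orr l (acc ||| 2 ^ a)

theorem nd_spec : ∀ (l : List ℕ) (acc : ℕ), nd l acc = true →
    l.Nodup ∧ ∀ a ∈ l, acc.testBit a = false
  | [], _, _ => by simp
  | a :: l, acc, h => by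
    simp only [nd, Bool.and_eq_true, Bool.not_eq_true'] at h
    obtain ⟨h1, h2⟩ := nd_spec l _ h.2
    simp only [Nat.testBit_or, Bool.or_eq_false_iff] at h2
    refine ⟨List.nodup_cons.2 ⟨fun ha => by simpa using (h2 a ha).2, h1⟩, ?_⟩
    simp only [List.mem_cons, forall_eq_or_imp]
    exact ⟨h.1, fun b hb => (h2 b hb).1⟩

theorem orr_spec (e : ℕ) : ∀ (l : List ℕ) (acc : ℕ), (orr l acc).testBit e = true →
    acc.testBit e = true ∨ e ∈ l
  | [], _, h => Or.inl h
  | a :: l, acc, h => by
    rcases orr_spec e l _ h with h | h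
    · rw [Nat.testBit_or, Bool.or_eq_true, Nat.testBit_two_pow, decide_eq_true_eq] at h
      exact h.imp_right fun h => by simp [h]
    · exact Or.inr (List.mem_cons_of_mem _ h)

def eq3 (a b : ℕ × ℕ × ℤ) : Bool := Nat.beq a.1 b.1 && Nat.beq a.2.1 b.2.1 && decide (a.2.2 = b.2.2)

def hd (a : ℕ × ℕ × ℤ) : List (ℕ × ℕ × ℤ) → Bool
  | [] => false
  | b :: _ => eq3 a b

theorem hd_spec {a : ℕ × ℕ × ℤ} {l : List (ℕ × ℕ × ℤ)} (h : hd a l = true) : l = a :: l.tail := by
  cases l with
  | nil => cases h
  | cons b l =>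
    simp only [hd, eq3, Bool.and_eq_true, Nat.beq_eq, decide_eq_true_eq] at h
    rw [show a = b from Prod.ext h.1.1 (Prod.ext h.1.2 h.2), List.tail_cons]

/-- The first list interleaves the other three. -/
def inter : List (ℕ × ℕ × ℤ) → List (ℕ × ℕ × ℤ) → List (ℕ × ℕ × ℤ) → List (ℕ × ℕ × ℤ) → Bool
  | [], A, B, C => A.isEmpty && B.isEmpty && C.isEmpty
  | a :: l, A, B, C => bif hd a A then inter l A.tail B C else bif hd a B then inter l A B.tail C
      else hd a C && inter l A B C.tail

theorem inter_spec : ∀ l A B C, inter l A B C = true → l.Perm (A ++ (B ++ C))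
  | [], A, B, C, h => by
    simp only [inter, Bool.and_eq_true, List.isEmpty_iff] at h
    simp [h.1.1, h.1.2, h.2]
  | a :: l, A, B, C, h => by
    unfold inter at h
    cases h1 : hd a A
    · cases h2 : hd a B
      · rw [h1, h2, cond_false, cond_false, Bool.and_eq_true] at h
        rw [hd_spec h.1, ← List.append_assoc]
        exact ((inter_spec _ _ _ _ h.2).cons a).trans (by
          rw [← List.append_assoc]; exact List.perm_middle.symm)
      · rw [h1, h2, cond_false, cond_true] at h
        rw [hd_spec h2]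
        exact ((inter_spec _ _ _ _ h).cons a).trans List.perm_middle.symm
    · rw [h1, cond_true] at h
      rw [hd_spec h1]
      exact (inter_spec _ _ _ _ h).cons a

variable {m k : ℕ}

theorem not_smith_of (lab : Fin k × Bool → Fin m) (w : Fin k × Bool → ℕ) (pot : Fin m → ℕ)
    (lk : List (Fin k × Fin k)) (dep : ℕ → ℕ) (e0 : Fin k) (C D : List (Fin k × Bool))
    (x y : Fin m) {ops : List Op} {own : List ℕ} {off W' W : ℕ}
    (g : Good m W' ops own (L.cons 0 off L.nil)) (M : Model (Fin m) (Fin k))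
    (hM : M = ⟨lab, fun e f => decide ((e, f) ∈ lk), w⟩) (h1 : nd own 0 = true)
    (h2 : inter (edges ops) ((List.finRange k).map fun e => leaf M pot (e, true))
      ((List.finRange k).map fun e => leaf M pot (e, false)) (lk.map (link (m := m))) = true)
    (h3 : nd (lk.map fun p => p.1.1) 0 = true)
    (h4 : orr (lk.map fun p => p.1.1) (2 ^ e0.1) = 2 ^ k - 1)
    (h5 : lk.all (fun p => Nat.blt (dep p.2) (dep p.1)) = true)
    (h6 : (List.finRange k).all (fun e => !Nat.beq (lab (e, true)) (lab (e, false))) = true)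
    (h7 : W' + 2 * ((List.finRange m).map pot).sum ≤ off + 2 * W)
    (h8 : nd ((C ++ D).map fun p => p.1.1) 0 = true)
    (c0 : C.length = m) (c1 : M.Path x C x) (c2 : nd (C.map fun p => (lab p).1) 0 = true)
    (c4 : M.val C = W)
    (d0 : D.length = m) (d1 : M.Path y D y) (d2 : nd (D.map fun p => (lab p).1) 0 = true)
    (d4 : M.val D = W) :
    ¬ (∀ (V : Type) [Fintype V] [DecidableEq V] (G : SimpleGraph V) (k : ℕ),
      2 ≤ k → k < Fintype.card V →
      (∀ S : Finset V, S.card < k → (G.induce ((↑S : Set V)ᶜ)).Connected) →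
      ∀ (u v : V) (p : G.Walk u u) (q : G.Walk v v),
        p.IsCycle → q.IsCycle →
        (∀ (w : V) (r : G.Walk w w), r.IsCycle → r.length ≤ p.length) →
        (∀ (w : V) (r : G.Walk w w), r.IsCycle → r.length ≤ q.length) →
        k ≤ (p.support.toFinset ∩ q.support.toFinset).card) := by
  have hT : ∀ e f, M.T e f = true ↔ (e, f) ∈ lk := fun e f => by simp [hM]
  have hl : M.lab = lab := by rw [hM]
  have h5' : ∀ p ∈ lk, dep p.2 < dep p.1 := fun p hp =>
    Nat.blt_eq.mp (List.all_eq_true.1 h5 p hp)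
  have hB : M.Bound W := bound_of_good M pot lk g (nd_spec _ _ h1).1 (inter_spec _ _ _ _ h2)
    (fun e f => (hT e f).1) (nd_spec _ _ h3).1.of_map
    (fun p hp hq => by have := h5' p hp; have := h5' _ hq; simp at this; omega)
    (fun e he => by
      have := List.all_eq_true.1 h6 e (List.mem_finRange e)
      rw [hl] at he
      simp [he] at this) (by rwa [Fin.sum_univ_def])
  have hc : ∀ e, Relation.ReflTransGen (fun e f => M.T e f = true ∨ M.T f e = true) e0 e := by
    intro e
    induction hd : dep e using Nat.strong_induction_on generalizing e with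
    | _ n ih =>
      rcases orr_spec e (lk.map fun p => p.1.1) (2 ^ e0.1) (by simp [h4]) with h | h
      · rw [Nat.testBit_two_pow, decide_eq_true_eq] at h
        rw [Fin.ext h]
      · obtain ⟨⟨a, b⟩, hp, he⟩ := List.mem_map.1 h
        obtain rfl : a = e := Fin.ext he
        exact (ih _ (hd ▸ h5' _ hp) b rfl).tail (Or.inr ((hT _ _).2 hp))
  have n8 := (nd_spec _ _ h8).1
  rw [List.map_append, List.nodup_append] at n8
  have nf : ∀ l : List (Fin k × Bool), (l.map fun p => p.1.1).Nodup → (l.map Prod.fst).Nodup :=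
    fun l h => List.Nodup.of_map Fin.val (by rwa [List.map_map])
  have nl : ∀ l : List (Fin k × Bool), nd (l.map fun p => (lab p).1) 0 = true →
      (l.map M.lab).Nodup := fun l h =>
    List.Nodup.of_map Fin.val (by rw [List.map_map, hl]; exact (nd_spec _ _ h).1)
  exact M.not_smith e0 hc hB (by simpa using x.pos) (by simpa using c0) c1 (nl C c2)
    (nf C n8.1) c4 (by simpa using d0) d1 (nl D d2) (nf D n8.2.1) d4 fun p hp q hq e =>
      n8.2.2 _ (List.mem_map_of_mem hp) _ (List.mem_map_of_mem hq) (by rw [e])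

end Pool.Agent.Lib.MP_4f0fb4_co.RZ.DP
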