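import Pool.Agent.Lib.MP_4f0fb4_co.RzDpTab

/-!
The invariant of the dynamic programme.
-/

namespace Pool.Agent.Lib.MP_4f0fb4_co.RZ.DP

variable (c : ℕ → ℕ → Bool)

/-- Number of chosen edges at `v`. -/
def rem : List Op → ℕ → ℕ
  | [], _ => 0
  | .e a b _ _ _ _ :: r, v => rem r v + if c a b = true ∧ (a = v ∨ b = v) then 1 else 0
  | .n _ _ :: r, v => rem r v

/-- Weight of the chosen edges. -/
def val : List Op → ℤ
  | [] => 0
  | .e a b _ _ p q :: r => val r + if c a b = true then (p : ℤ) - q else 0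
  | .n _ _ :: r => val r

/-- A chosen edge leaves `U`. -/
def Cross (U : ℕ → Prop) : List Op → Prop
  | [] => False
  | .e a b _ _ _ _ :: r => (c a b = true ∧ (U a ↔ ¬ U b)) ∨ Cross U r
  | .n _ _ :: r => Cross U r

variable {c}

theorem val_le (r : List Op) : val c r ≤ slack r := by
  induction r with
  | nil => exact le_rfl
  | cons o r ih =>
    cases o with
    | n j v => exact ih
    | e a b su sv p q =>
      show val c r + _ ≤ ((p - q + slack r : ℕ) : ℤ)
      split_ifs <;> omega

theorem occ_e {v a b su sv p q : ℕ} {r : List Op} :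
    occ v (.e a b su sv p q :: r) = true ↔ a = v ∨ b = v ∨ occ v r = true := by
  show Bool.rec (Bool.rec (occ v r) true (Nat.beq b v)) true (Nat.beq a v) = true ↔ _
  rw [← Nat.beq_eq, ← Nat.beq_eq (x := b)]
  cases Nat.beq a v <;> cases Nat.beq b v <;> simp

theorem rem_occ {v : ℕ} (r : List Op) (h : ¬ occ v r = true) : rem c r v = 0 := by
  induction r with
  | nil => rfl
  | cons o r ih =>
    cases o with
    | n j w => exact ih h
    | e a b su sv p q =>
      rw [occ_e] at h
      simp only [rem]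
      rw [ih (by tauto), if_neg (by tauto)]

theorem val_zero (r : List Op) (h : ∀ v, rem c r v = 0) : val c r = 0 := by
  induction r with
  | nil => rfl
  | cons o r ih =>
    cases o with
    | n j w => exact ih h
    | e a b su sv p q =>
      simp only [rem, val] at h ⊢
      rw [ih fun v => by have := h v; omega, if_neg fun hc => by simpa [hc] using h a]
      rfl

theorem cross_congr {U U' : ℕ → Prop} (r : List Op) (h : ∀ v, 0 < rem c r v → (U v ↔ U' v))
    (hc : Cross c U r) : Cross c U' r := by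
  induction r with
  | nil => exact hc
  | cons o r ih =>
    cases o with
    | n j w => exact ih h hc
    | e a b su sv p q =>
      simp only [rem] at h
      rcases hc with ⟨h1, h2⟩ | hc
      · exact Or.inl ⟨h1, by rw [← h a (by simp [h1]), ← h b (by simp [h1])]; exact h2⟩
      · exact Or.inr (ih (fun v hv => h v (by omega)) hc)

theorem cross_pos {U : ℕ → Prop} (r : List Op) (hc : Cross c U r) : ∃ v, U v ∧ 0 < rem c r v := by
  induction r with
  | nil => exact hc.elim
  | cons o r ih =>
    cases o with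
    | n j w => exact ih hc
    | e a b su sv p q =>
      simp only [rem]
      rcases hc with ⟨h1, h2⟩ | hc
      · by_cases h : U a
        · exact ⟨a, h, by simp [h1]⟩
        · exact ⟨b, by tauto, by simp [h1]⟩
      · obtain ⟨v, h1, h2⟩ := ih hc
        exact ⟨v, h1, by omega⟩

def Fr (c : ℕ → ℕ → Bool) (m : ℕ) (r : List Op) (v : ℕ) : Prop :=
  rem c r v = 2 ∨ (rem c r v = 0 ∧ m ≤ v)

structure Inv (c : ℕ → ℕ → Bool) (m n : ℕ) (r : List Op) (o g : ℕ → ℕ) : Prop where
  inj : ∀ i < n, ∀ j < n, o i = o j → i = j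
  dead : ∀ j < n, g j = 1 → rem c r (o j) = 0
  fresh : ∀ j < n, g j = 0 → Fr c m r (o j)
  mate : ∀ j < n, ∀ k, g j = k + 2 → rem c r (o j) = 1 ∧ k < n ∧ k ≠ j ∧ g k = j + 2
  out : ∀ v, (∀ j < n, o j ≠ v) → occ v r = true → Fr c m r v
  cut : ∀ U : ℕ → Prop, (∀ j < n, ∀ k, g j = k + 2 → U (o j) → U (o k)) →
    ∀ a b, U a → ¬ U b → 0 < rem c r a → 0 < rem c r b → Cross c U r

variable {m n u v su sv p q : ℕ} {r : List Op} {o g : ℕ → ℕ}

theorem Inv.congr {o' g' : ℕ → ℕ} (h : Inv c m n r o g) (ho : ∀ j < n, o' j = o j)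
    (hg : ∀ j < n, g' j = g j) : Inv c m n r o' g' where
  inj i hi j hj := by rw [ho i hi, ho j hj]; exact h.inj i hi j hj
  dead j hj := by rw [ho j hj, hg j hj]; exact h.dead j hj
  fresh j hj := by rw [ho j hj, hg j hj]; exact h.fresh j hj
  mate j hj k := by
    rw [ho j hj, hg j hj]
    intro e
    have := h.mate j hj k e
    rwa [hg k this.2.1]
  out v hv := h.out v fun j hj => ho j hj ▸ hv j hj
  cut U hU := h.cut U fun j hj k e => by
    rw [← ho j hj, ← ho k (h.mate j hj k e).2.1]
    exact hU j hj k (by rw [hg j hj, e])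

theorem Inv.skip (h : Inv c m n (.e u v su sv p q :: r) o g) (hc : ¬ c u v = true) :
    Inv c m n r o g := by
  have e : ∀ w, rem c (.e u v su sv p q :: r) w = rem c r w := fun w => by simp [rem, hc]
  exact ⟨h.inj, fun j hj hg => e _ ▸ h.dead j hj hg,
    fun j hj hg => by have := h.fresh j hj hg; rwa [Fr, e] at this,
    fun j hj k hg => e _ ▸ h.mate j hj k hg,
    fun w hw ho => by have := h.out w hw (occ_e.2 (Or.inr (Or.inr ho))); rwa [Fr, e] at this,
    fun U hU a b ha hb h1 h2 =>
      (h.cut U hU a b ha hb (by rwa [e]) (by rwa [e])).resolve_left fun hh => hc hh.1⟩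

theorem rem_e (hc : c u v = true) (w : ℕ) :
    rem c (.e u v su sv p q :: r) w = rem c r w + if u = w ∨ v = w then 1 else 0 := by
  simp [rem, hc]

theorem Inv.ne1 (h : Inv c m n (.e u v su sv p q :: r) o g) (hc : c u v = true) {j : ℕ}
    (hj : j < n) (e : u = o j ∨ v = o j) : g j ≠ 1 := fun hg => by
  have := h.dead j hj hg
  rw [rem_e hc, if_pos e] at this
  omega

theorem Inv.close (h : Inv c m n (.e u v su sv p q :: r) o g) (hc : c u v = true)
    (h1 : su < n) (eu : o su = u) (ev : o sv = v) (hg : g su = sv + 2) (w : ℕ) :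
    rem c r w = 0 := by
  obtain ⟨a1, h2, -, a2⟩ := h.mate su h1 sv hg
  have a3 := (h.mate sv h2 su a2).1
  rw [rem_e hc, if_pos (by omega), eu] at a1
  rw [rem_e hc, if_pos (by omega), ev] at a3
  by_contra hw
  have := h.cut (fun z => u = z ∨ v = z) (fun j hj k e hz => by
    rcases hz with hz | hz
    · obtain rfl := h.inj su h1 j hj (by omega)
      exact Or.inr (by rw [show k = sv by omega, ev])
    · obtain rfl := h.inj sv h2 j hj (by omega)
      exact Or.inl (by rw [show k = su by omega, eu])) u w (Or.inl rfl)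
    (by rintro (rfl | rfl) <;> omega) (by rw [rem_e hc, if_pos (Or.inl rfl)]; omega)
    (by rw [rem_e hc]; omega)
  rcases this with ⟨-, h3⟩ | h3
  · simp at h3
  · obtain ⟨z, rfl | rfl, h4⟩ := cross_pos r h3 <;> omega

def mt (g : ℕ → ℕ) (j : ℕ) : ℕ := if g j = 0 then j else g j - 2

def upd (g : ℕ → ℕ) (su sv j : ℕ) : ℕ :=
  if j = mt g su then mt g sv + 2 else if j = mt g sv then mt g su + 2
  else if j = su ∨ j = sv then 1 else g j

theorem mt_eq {j k : ℕ} (e : g j = k + 2) : k = mt g j := by simp [mt, e]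

theorem Inv.mt_back (h : Inv c m n r o g) {j k : ℕ} (hj : j < n) (h1 : g j ≠ 1)
    (e : g (mt g j) = k + 2) : k = j := by
  rcases z : g j with _ | _ | d
  · rw [mt, if_pos z] at e
    omega
  · exact (h1 z).elim
  · have := (h.mate j hj d z).2.2.2
    rw [← mt_eq z] at e
    omega

theorem Inv.take (h : Inv c m n (.e u v su sv p q :: r) o g) (hc : c u v = true)
    (h1 : su < n) (h2 : sv < n) (h3 : su ≠ sv) (eu : o su = u) (ev : o sv = v)
    (hg : g su ≠ sv + 2) : Inv c m n r o (upd g su sv) := by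
  have n1 := h.ne1 hc h1 (Or.inl eu.symm)
  have n2 := h.ne1 hc h2 (Or.inr ev.symm)
  have R : ∀ j < n, rem c (.e u v su sv p q :: r) (o j) =
      rem c r (o j) + if j = su ∨ j = sv then 1 else 0 := fun j hj => by
    rw [rem_e hc]
    refine congrArg _ (if_congr (or_congr ⟨fun e => h.inj j hj su h1 (by omega), ?_⟩
      ⟨fun e => h.inj j hj sv h2 (by omega), ?_⟩) rfl rfl)
    · rintro rfl; exact eu.symm
    · rintro rfl; exact ev.symm
  have A : ∀ j < n, g j ≠ 1 → j = su ∨ j = sv → (g j = 0 ∧ mt g j = j ∧ rem c r (o j) = 1) ∨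
      (g j = mt g j + 2 ∧ mt g j < n ∧ mt g j ≠ j ∧ g (mt g j) = j + 2 ∧ rem c r (o j) = 0 ∧
        rem c (.e u v su sv p q :: r) (o (mt g j)) = 1) := fun j hj e e' => by
    have := R j hj
    rw [if_pos e'] at this
    by_cases z : g j = 0
    · have f := h.fresh j hj z
      unfold Fr at f
      exact Or.inl ⟨z, if_pos z, by omega⟩
    · have y : g j = mt g j + 2 := by rw [mt, if_neg z]; omega
      obtain ⟨b1, b2, b3, b4⟩ := h.mate j hj _ y
      exact Or.inr ⟨y, b2, b3, b4, by omega, (h.mate _ b2 _ b4).1⟩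
  have A1 := A su h1 n1 (Or.inl rfl)
  have A2 := A sv h2 n2 (Or.inr rfl)
  have hg' : g sv ≠ su + 2 := fun e => hg (h.mate sv h2 su e).2.2.2
  have D : mt g su ≠ mt g sv ∧ mt g su ≠ sv ∧ mt g sv ≠ su ∧ mt g su < n ∧ mt g sv < n := by
    refine ⟨fun e => ?_, by omega, by omega, by omega, by omega⟩
    rw [e] at A1
    omega
  have B1 : rem c r (o (mt g su)) = 1 := by
    rcases A1 with A1 | A1
    · rw [A1.2.1]; exact A1.2.2
    · have := R _ A1.2.1
      rw [if_neg (by omega)] at this
      omega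
  have B2 : rem c r (o (mt g sv)) = 1 := by
    rcases A2 with A2 | A2
    · rw [A2.2.1]; exact A2.2.2
    · have := R _ A2.2.1
      rw [if_neg (by omega)] at this
      omega
  have U1 : upd g su sv (mt g su) = mt g sv + 2 := if_pos rfl
  have U2 : upd g su sv (mt g sv) = mt g su + 2 := by rw [upd, if_neg D.1.symm, if_pos rfl]
  have U3 : ∀ j, j ≠ mt g su → j ≠ mt g sv → upd g su sv j = if j = su ∨ j = sv then 1 else g j :=
    fun j a b => by rw [upd, if_neg a, if_neg b]
  refine ⟨h.inj, fun j hj e => ?_, fun j hj e => ?_, fun j hj k e => ?_, fun w hw ho => ?_,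
    fun U hU a b ha hb p1 p2 => ?_⟩
  · have a : j ≠ mt g su := by rintro rfl; omega
    have b : j ≠ mt g sv := by rintro rfl; omega
    rw [U3 j a b] at e
    have := R j hj
    split_ifs at e this with z
    · rcases z with rfl | rfl <;> omega
    · have := h.dead j hj e
      omega
  · have a : j ≠ mt g su := by rintro rfl; omega
    have b : j ≠ mt g sv := by rintro rfl; omega
    rw [U3 j a b] at e
    have := R j hj
    split_ifs at e this with z
    have f := h.fresh j hj e
    unfold Fr at f ⊢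
    omega
  · by_cases a : j = mt g su
    · subst a
      obtain rfl : k = mt g sv := by omega
      exact ⟨B1, D.2.2.2.2, D.1.symm, U2⟩
    by_cases b : j = mt g sv
    · subst b
      obtain rfl : k = mt g su := by omega
      exact ⟨B2, D.2.2.2.1, D.1, U1⟩
    rw [U3 j a b] at e
    have := R j hj
    split_ifs at e this with z
    · omega
    obtain ⟨b1, b2, b3, b4⟩ := h.mate j hj k e
    have c1 : k ≠ su := by rintro rfl; omega
    have c2 : k ≠ sv := by rintro rfl; omega
    refine ⟨by omega, b2, b3, ?_⟩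
    rw [U3 k (by rintro rfl; omega) (by rintro rfl; omega), if_neg (by omega), b4]
  · have := h.out w hw (occ_e.2 (Or.inr (Or.inr ho)))
    rwa [Fr, rem_e hc, if_neg (by have := hw su h1; have := hw sv h2; omega)] at this
  · have uv : u ≠ v := fun e => h3 (h.inj su h1 sv h2 (by omega))
    have M : U (o (mt g su)) ↔ U (o (mt g sv)) :=
      ⟨hU _ D.2.2.2.1 _ U1, hU _ D.2.2.2.2 _ U2⟩
    let U' : ℕ → Prop := fun z => if z = u ∨ z = v then U (o (mt g su)) else U z
    have E : ∀ z, 0 < rem c r z → (U' z ↔ U z) := fun z hz => by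
      simp only [U']
      split_ifs with y
      · rcases y with rfl | rfl
        · rw [show mt g su = su by rw [eu] at A1; omega, eu]
        · rw [M, show mt g sv = sv by rw [ev] at A2; omega, ev]
      · rfl
    have F : ∀ j < n, j = su ∨ j = sv ∨ j = mt g su ∨ j = mt g sv →
        (U' (o j) ↔ U (o (mt g su))) := fun j hj e => by
      rcases e with rfl | rfl | rfl | rfl
      · simp [U', eu]
      · simp [U', ev]
      · exact E _ (by omega)
      · rw [M]; exact E _ (by omega)
    have S : ∀ j k, g j = k + 2 → j = su ∨ j = sv ∨ j = mt g su ∨ j = mt g sv →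
        k = su ∨ k = sv ∨ k = mt g su ∨ k = mt g sv := fun j k e y => by
      rcases y with rfl | rfl | y | y
      · exact Or.inr (Or.inr (Or.inl (mt_eq e)))
      · exact Or.inr (Or.inr (Or.inr (mt_eq e)))
      · exact Or.inl (h.mt_back h1 n1 (y ▸ e))
      · exact Or.inr (Or.inl (h.mt_back h2 n2 (y ▸ e)))
    have := h.cut U' (fun j hj k e hz => by
      obtain ⟨b1, b2, b3, b4⟩ := h.mate j hj k e
      by_cases y : j = su ∨ j = sv ∨ j = mt g su ∨ j = mt g sv
      · exact (F k b2 (S j k e y)).2 ((F j hj y).1 hz)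
      · have y' : ¬ (k = su ∨ k = sv ∨ k = mt g su ∨ k = mt g sv) := fun z => y (S k j b4 z)
        have r1 := R j hj
        have r2 := R k b2
        have b5 := (h.mate k b2 j b4).1
        simp only [not_or] at y y'
        rw [if_neg (not_or.2 ⟨y.1, y.2.1⟩), b1] at r1
        rw [if_neg (not_or.2 ⟨y'.1, y'.2.1⟩), b5] at r2
        refine (E _ (r2 ▸ Nat.one_pos : 0 < _ + 0)).2
          (hU j hj k ?_ ((E _ (r1 ▸ Nat.one_pos : 0 < _ + 0)).1 hz))
        rw [U3 j y.2.2.1 y.2.2.2, if_neg (not_or.2 ⟨y.1, y.2.1⟩), e]) a b ((E a p1).2 ha)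
      (fun z => hb ((E b p2).1 z)) (by rw [rem_e hc]; omega) (by rw [rem_e hc]; omega)
    rcases this with ⟨-, z⟩ | z
    · simp [U'] at z
    · exact cross_congr r E z

theorem Inv.hand {j : ℕ} (h : Inv c m n (.n j v :: r) o g) (hj : j < n)
    (h1 : ¬ occ (o j) r = true) (h2 : ∀ i < n, o i ≠ v) (h3 : occ v r = true ∨ m ≤ v) :
    (g j = 1 ∨ (g j = 0 ∧ m ≤ o j)) ∧
      Inv c m n r (fun i => if i = j then v else o i) (fun i => if i = j then 0 else g i) := by
  have z : rem c r (o j) = 0 := rem_occ r h1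
  have A : g j = 1 ∨ (g j = 0 ∧ m ≤ o j) := by
    rcases e : g j with _ | _ | k
    · have f : Fr c m r (o j) := h.fresh j hj e
      unfold Fr at f
      omega
    · exact Or.inl rfl
    · have f : rem c r (o j) = 1 := (h.mate j hj k e).1
      omega
  refine ⟨A, fun a ha b hb e => ?_, fun i hi e => ?_, fun i hi e => ?_, fun i hi k e => ?_,
    fun w hw ho => ?_, fun U hU a b ha hb p1 p2 => ?_⟩
  · split_ifs at e with e1 e2 e2
    · omega
    · exact (h2 b hb e.symm).elim
    · exact (h2 a ha e).elim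
    · exact h.inj a ha b hb e
  · split_ifs at e ⊢ with e1
    exact h.dead i hi e
  · split_ifs at e ⊢ with e1
    · by_cases y : occ v r = true
      · exact h.out v h2 y
      · exact Or.inr ⟨rem_occ r y, h3.resolve_left y⟩
    · exact h.fresh i hi e
  · split_ifs at e with e1
    obtain ⟨b1, b2, b3, b4⟩ := h.mate i hi k e
    rw [if_neg e1, if_neg (by rintro rfl; omega)]
    exact ⟨b1, b2, b3, b4⟩
  · refine h.out w (fun i hi e => ?_) ho
    by_cases y : i = j
    · subst y
      exact h1 (e ▸ ho)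
    · exact hw i hi (by rw [if_neg y, e])
  · refine h.cut U (fun i hi k e hz => ?_) a b ha hb p1 p2
    obtain ⟨b1, b2, b3, b4⟩ := h.mate i hi k e
    have y1 : i ≠ j := by rintro rfl; omega
    have y2 : k ≠ j := by rintro rfl; omega
    have := hU i hi k (by rw [if_neg y1, e])
    rw [if_neg y1, if_neg y2] at this
    exact this hz

end Pool.Agent.Lib.MP_4f0fb4_co.RZ.DP
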