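import Pool.Agent.Lib.MP_4f0fb4_co.RzDpInv

/-!
Soundness of the dynamic programme.
-/

namespace Pool.Agent.Lib.MP_4f0fb4_co.RZ.DP

noncomputable def nx (su sv s : ℕ) : ℕ :=
  match get s su, get s sv with
  | 0, 0 => Nat.xor s (Nat.xor (Nat.shiftLeft (Nat.add sv 2) (Nat.mul 4 su))
      (Nat.shiftLeft (Nat.add su 2) (Nat.mul 4 sv)))
  | 0, d + 2 => j01 (Nat.mul 4 su) (Nat.mul 4 sv) (Nat.xor (Nat.add su 2) (Nat.add sv 2)) s d
  | c + 2, 0 => j01 (Nat.mul 4 sv) (Nat.mul 4 su) (Nat.xor (Nat.add su 2) (Nat.add sv 2)) s c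
  | c + 2, d + 2 => j11 (Nat.mul 4 su) (Nat.mul 4 sv) (Nat.add su 2) (Nat.add sv 2) s c d
  | _, _ => 0

theorem xor_lt {a b : ℕ} (ha : a < 16) (hb : b < 16) : Nat.xor a b < 16 :=
  Nat.xor_lt_two_pow (n := 4) ha hb

variable {c : ℕ → ℕ → Bool} {m n su sv s x cut p q : ℕ} {r : List Op} {o : ℕ → ℕ}

theorem get_nx (h : Inv c m n r o (get s)) (hn : n ≤ 14) (h1 : su < n) (h2 : sv < n)
    (h3 : su ≠ sv) (n1 : get s su ≠ 1) (n2 : get s sv ≠ 1) (hg : get s su ≠ sv + 2) (j : ℕ) :
    get (nx su sv s) j = upd (get s) su sv j := by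
  have X : ∀ a b, Nat.xor a b = a ^^^ b := fun _ _ => rfl
  have l1 : Nat.add su 2 < 16 := by show su + 2 < 16; omega
  have l2 : Nat.add sv 2 < 16 := by show sv + 2 < 16; omega
  unfold nx upd mt
  rcases e1 : get s su with _ | _ | a
  · rcases e2 : get s sv with _ | _ | b
    · simp only [get_xor, get_sh l1, get_sh l2, if_true]
      by_cases y1 : j = su
      · simp [y1, h3, e1, X]
      by_cases y2 : j = sv
      · simp [y2, h3.symm, e2, X]
      simp [y1, y2, X]
    · exact (n2 e2).elim
    · obtain ⟨-, b2, b3, b4⟩ := h.mate sv h2 b e2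
      have l3 : Nat.add b 2 < 16 := by show b + 2 < 16; omega
      have b5 : b ≠ su := by rintro rfl; omega
      simp only [j01, get_xor, get_sh l3, get_sh (xor_lt l3 (by omega : 1 < 16)),
        get_sh (xor_lt l1 l2), if_true]
      by_cases y1 : j = su
      · simp [y1, h3, e1, X, b5.symm]
      by_cases y2 : j = sv
      · simp [y2, h3.symm, e2, X, b3.symm]
      by_cases y3 : j = b
      · simp [y3, b3, b5, b4, X]
      simp [y1, y2, y3, X]
  · exact (n1 e1).elim
  · obtain ⟨-, a2, a3, a4⟩ := h.mate su h1 a e1
    have l4 : Nat.add a 2 < 16 := by show a + 2 < 16; omega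
    have a5 : a ≠ sv := by rintro rfl; omega
    rcases e2 : get s sv with _ | _ | b
    · simp only [j01, get_xor, get_sh l4, get_sh (xor_lt l4 (by omega : 1 < 16)),
        get_sh (xor_lt l1 l2), if_true]
      by_cases y1 : j = su
      · simp [y1, h3, e1, X, a3.symm]
      by_cases y2 : j = sv
      · simp [y2, h3.symm, e2, X, a5.symm]
      by_cases y3 : j = a
      · simp [y3, a3, a5, a4, X]
      simp [y1, y2, y3, X]
    · exact (n2 e2).elim
    · obtain ⟨-, b2, b3, b4⟩ := h.mate sv h2 b e2
      have l3 : Nat.add b 2 < 16 := by show b + 2 < 16; omega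
      have b5 : b ≠ su := by rintro rfl; omega
      have b6 : a ≠ b := by rintro rfl; omega
      simp only [j11, get_xor, get_sh (xor_lt l3 (by omega : 1 < 16)),
        get_sh (xor_lt l4 (by omega : 1 < 16)), get_sh (xor_lt l1 l3), get_sh (xor_lt l2 l4)]
      by_cases y1 : j = su
      · simp [y1, h3, e1, X, a3.symm, b5.symm]
      by_cases y2 : j = sv
      · simp [y2, h3.symm, e2, X, a5.symm, b3.symm]
      by_cases y3 : j = a
      · simp [y3, a3, a5, a4, b6, X]
      by_cases y4 : j = b
      · simp [y4, b3, b5, b4, b6.symm, X]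
      simp [y1, y2, y3, y4, X]

theorem em_spec {ih : K} {hi res : L} {s' : ℕ} (h : em cut p q ih hi x s' = some res) :
    (x + p - q ≤ cut ∧ ih hi = some res) ∨ ih (L.cons s' (x + p - q) hi) = some res := by
  unfold em at h
  change Nat.rec (motive := fun _ => Option L) _ _ (x + p - q) = _ at h
  rcases e : x + p - q with _ | y
  · rw [e] at h
    exact Or.inl ⟨Nat.zero_le _, h⟩
  · rw [e] at h
    change em1 cut ih hi s' (y + 1) = _ at h
    unfold em1 at h
    cases f : Nat.ble (y + 1) cut
    · rw [f] at h
      right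
      cases s' <;> exact h
    · rw [f] at h
      exact Or.inl ⟨Nat.le_of_ble_eq_true f, h⟩

def Rel (Q : ℕ → ℕ → Prop) (cut su sv p q s x : ℕ) (res : L) : Prop :=
  get s su ≠ 1 → get s sv ≠ 1 → (get s su = sv + 2 ∧ Q s x) ∨
    (get s su ≠ sv + 2 ∧ (x + p - q ≤ cut ∨ res.Mem (nx su sv s) (x + p - q)))

theorem edge_spec {C : EM} {Q : ℕ → ℕ → Prop}
    (hC : ∀ ih hi s x res, C ih hi s x = some res → Q s x ∧ ih hi = some res) {t res : L}
    (h : edge C cut su sv p q t = some res) (hs : t.Mem s x) : Rel Q cut su sv p q s x res := by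
  simp only [edge, fz_eq] at h
  suffices ∀ (t acc : L), L.rec (motive := fun _ => K) some _ t acc = some res →
      (∀ s x, acc.Mem s x → res.Mem s x) ∧ ∀ s x, t.Mem s x → Rel Q cut su sv p q s x res from
    (this t _ h).2 s x hs
  intro t
  induction t with
  | nil =>
    intro acc h
    cases h
    exact ⟨fun _ _ h => h, fun _ _ h => h.elim⟩
  | cons s x t ih =>
    intro acc h
    suffices ∃ acc', L.rec (motive := fun _ => K) some _ t acc' = some res ∧
        (∀ s x, acc.Mem s x → acc'.Mem s x) ∧ Rel Q cut su sv p q s x acc' by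
      obtain ⟨acc', h1, h2, h3⟩ := this
      obtain ⟨h4, h5⟩ := ih acc' h1
      refine ⟨fun s x h => h4 _ _ (h2 _ _ h), ?_⟩
      rintro s x (⟨rfl, rfl⟩ | h)
      · exact fun a b => (h3 a b).imp_right (And.imp_right (Or.imp_right (h4 _ _)))
      · exact h5 s x h
    change e _ _ _ s x t _ acc = _ at h
    generalize L.rec (motive := fun _ => K) some _ t = ih at h ⊢
    have fin : ∀ s', em cut p q ih acc x s' = some res → get s su ≠ sv + 2 → nx su sv s = s' →
        ∃ acc', ih acc' = some res ∧ (∀ s x, acc.Mem s x → acc'.Mem s x) ∧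
          Rel Q cut su sv p q s x acc' := by
      rintro _ h a rfl
      rcases em_spec h with h | h
      · exact ⟨acc, h.2, fun _ _ h => h, fun _ _ => Or.inr ⟨a, Or.inl h.1⟩⟩
      · exact ⟨_, h, fun _ _ h => Or.inr h, fun _ _ => Or.inr ⟨a, Or.inr (Or.inl ⟨rfl, rfl⟩)⟩⟩
    unfold e at h
    change Nat.rec (motive := fun _ => Option L) _ _ (get s su) = _ at h
    rcases e1 : get s su with _ | _ | a
    · rw [e1] at h
      change e0 _ _ _ _ _ ih acc s x = _ at h
      unfold e0 at h
      change Nat.rec (motive := fun _ => Option L) _ _ (get s sv) = _ at h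
      rcases e2 : get s sv with _ | _ | b
      · rw [e2] at h
        exact fin _ h (by omega) (by unfold nx; rw [e1, e2])
      · rw [e2] at h
        exact ⟨acc, h, fun _ _ h => h, fun _ b => (b e2).elim⟩
      · rw [e2] at h
        exact fin _ h (by omega) (by unfold nx; rw [e1, e2])
    · rw [e1] at h
      exact ⟨acc, h, fun _ _ h => h, fun a => (a e1).elim⟩
    · rw [e1] at h
      change e2a _ _ _ _ _ _ _ _ ih acc s x a = _ at h
      unfold e2a at h
      cases f : Nat.beq a sv
      · rw [f] at h
        have f := Nat.ne_of_beq_eq_false f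
        change e2b _ _ _ _ _ _ ih acc s x a = _ at h
        unfold e2b at h
        change Nat.rec (motive := fun _ => Option L) _ _ (get s sv) = _ at h
        rcases e2 : get s sv with _ | _ | b
        · rw [e2] at h
          exact fin _ h (by omega) (by unfold nx; rw [e1, e2])
        · rw [e2] at h
          exact ⟨acc, h, fun _ _ h => h, fun _ b => (b e2).elim⟩
        · rw [e2] at h
          exact fin _ h (by omega) (by unfold nx; rw [e1, e2])
      · rw [f] at h
        obtain ⟨h1, h2⟩ := hC _ _ _ _ _ h
        exact ⟨acc, h2, fun _ _ h => h, fun _ _ =>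
          Or.inl ⟨by rw [e1, Nat.eq_of_beq_eq_true f], h1⟩⟩

theorem h1_spec {k : ℕ} {ih : K2} {lo hi : L} {a : ℕ} :
    h1 k ih lo hi s x a = ih lo (if a = 0 then L.cons (Nat.xor s k) x hi else hi) := by
  cases a with
  | zero =>
    show h2 ih lo hi x (Nat.xor s k) = ih lo (L.cons (Nat.xor s k) x hi)
    cases Nat.xor s k <;> rfl
  | succ a => rfl

theorem hand_spec {j : ℕ} {free : Bool} {t : L} (hs : t.Mem s x)
    (h : get s j = 1 ∨ (get s j = 0 ∧ free = true)) :
    ∃ s', (∀ i, get s' i = if i = j then 0 else get s i) ∧ Dom 0 s' x (hand j free t) := by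
  have G : get s j = 1 → ∀ i, get (Nat.xor s (Nat.shiftLeft 1 (Nat.mul 4 j))) i =
      if i = j then 0 else get s i := fun e i => by
    rw [get_xor, get_sh (by omega)]
    split_ifs with y
    · rw [y, e]; rfl
    · exact Nat.xor_zero _
  simp only [hand, fz_eq]
  cases free
  · have e : get s j = 1 := h.resolve_right (by simp)
    refine ⟨_, G e, Or.inr ⟨x, le_rfl, ?_⟩⟩
    suffices ∀ (t lo hi : L), t.Mem s x ∨ hi.Mem (Nat.xor s (Nat.shiftLeft 1 (Nat.mul 4 j))) x →
        (L.rec (motive := fun _ => K2) (fun _ hi => revApp hi L.nil)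
          (hF (Nat.mul 4 j) (Nat.shiftLeft 1 (Nat.mul 4 j))) t lo hi).Mem _ x from
      this t _ _ (Or.inl hs)
    intro t
    induction t with
    | nil => intro lo hi h; exact mem_revApp _ _ (Or.inl (h.resolve_left id))
    | cons s1 x1 t ih =>
      intro lo hi h
      change (hF _ _ s1 x1 t _ lo hi).Mem _ _
      unfold hF
      change L.Mem _ _ (Nat.rec _ _ (get s1 j))
      rcases e1 : get s1 j with _ | a
      · refine ih _ _ (h.imp_left fun h => h.resolve_left ?_)
        rintro ⟨rfl, -⟩
        omega
      · change L.Mem _ _ (h1 _ _ lo hi s1 x1 a)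
        rw [h1_spec]
        refine ih _ _ ?_
        rcases h with (⟨rfl, rfl⟩ | h) | h
        · rw [if_pos (by omega)]
          exact Or.inr (Or.inl ⟨rfl, rfl⟩)
        · exact Or.inl h
        · split_ifs
          exacts [Or.inr (Or.inr h), Or.inr h]
  · obtain ⟨s', h0, h1', h2'⟩ : ∃ s', (∀ i, get s' i = if i = j then 0 else get s i) ∧
        (get s j = 0 → s' = s) ∧ (get s j ≠ 0 → s' = Nat.xor s (Nat.shiftLeft 1 (Nat.mul 4 j))) := by
      rcases h with h | h
      · exact ⟨_, G h, by omega, fun _ => rfl⟩
      · exact ⟨s, fun i => by split_ifs with y; exacts [y ▸ h.1, rfl], fun _ => rfl,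
          fun y => (y h.1).elim⟩
    refine ⟨s', h0, ?_⟩
    suffices ∀ (t lo hi : L), t.Mem s x ∨ lo.Mem s' x ∨ hi.Mem s' x →
        Dom 0 s' x (L.rec (motive := fun _ => K2)
          (fun lo hi => revApp (dd 0 (mergeD lo hi L.nil)) L.nil)
          (hT (Nat.mul 4 j) (Nat.shiftLeft 1 (Nat.mul 4 j))) t lo hi) from
      this t _ _ (Or.inl hs)
    intro t
    induction t with
    | nil =>
      intro lo hi h
      refine (dom_dd 0 _ (keeps_mergeD s' x lo hi L.nil ?_)).imp_right ?_
      · exact (h.resolve_left id).imp_right Or.inl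
      · rintro ⟨y, a, b⟩
        exact ⟨y, a, mem_revApp _ _ (Or.inl b)⟩
    | cons s1 x1 t ih =>
      intro lo hi hh
      change Dom _ _ _ (hT _ _ s1 x1 t _ lo hi)
      unfold hT
      change Dom _ _ _ (Nat.rec _ _ (get s1 j))
      rcases e1 : get s1 j with _ | a
      · refine ih _ _ ?_
        rcases hh with (⟨rfl, rfl⟩ | hh) | hh | hh
        exacts [Or.inr (Or.inl (Or.inl ⟨h1' e1, rfl⟩)), Or.inl hh, Or.inr (Or.inl (Or.inr hh)),
          Or.inr (Or.inr hh)]
      · change Dom _ _ _ (h1 _ _ lo hi s1 x1 a)
        rw [h1_spec]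
        refine ih _ _ ?_
        rcases hh with (⟨rfl, rfl⟩ | hh) | hh | hh
        · rw [if_pos (by omega)]
          exact Or.inr (Or.inr (Or.inl ⟨h2' (by omega), rfl⟩))
        · exact Or.inl hh
        · exact Or.inr (Or.inl hh)
        · split_ifs
          exacts [Or.inr (Or.inr (Or.inr hh)), Or.inr (Or.inr hh)]

theorem mem_spec {v : ℕ} (l : List ℕ) : mem v l = true ↔ ∃ j < l.length, l.getD j 0 = v := by
  induction l with
  | nil => simp [mem]
  | cons a l ih =>
    change Bool.rec (mem v l) true (Nat.beq a v) = true ↔ _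
    rw [List.length_cons, Nat.exists_lt_succ_left]
    simp only [List.getD_cons_zero, List.getD_cons_succ]
    rw [← ih, ← Nat.beq_eq]
    cases Nat.beq a v <;> simp

theorem future_spec {own : List ℕ} (r : List Op) (h : future m own r = true) :
    ∃ a < m, ¬ mem a own = true ∧ occ a r = true := by
  induction r with
  | nil => cases h
  | cons o r ih =>
    cases o with
    | n j v => exact ih h
    | e a b su sv p q =>
      change Bool.rec (Bool.rec true (future m own r) (mem a own)) (future m own r)
        (Nat.ble m a) = true at h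
      have t : future m own r = true → ∃ a' < m, ¬ mem a' own = true ∧
          occ a' (.e a b su sv p q :: r) = true := fun h => by
        obtain ⟨a', h1, h2, h3⟩ := ih h
        exact ⟨a', h1, h2, occ_e.2 (Or.inr (Or.inr h3))⟩
      cases e : Nat.ble m a
      · cases f : mem a own
        · exact ⟨a, Nat.lt_of_not_le (fun y => by rw [Nat.ble_eq_true_of_le y] at e; cases e),
            by simp [f], occ_e.2 (Or.inl rfl)⟩
        · rw [e, f] at h
          exact t h
      · rw [e] at h
        exact t h

theorem live_spec (own : List ℕ) : ∀ j0, live m s su sv own j0 = true →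
    ∃ i < own.length, own.getD i 0 < m ∧ j0 + i ≠ su ∧ j0 + i ≠ sv ∧ get s (j0 + i) ≠ 1 := by
  induction own with
  | nil => intro _ h; cases h
  | cons a l ih =>
    intro j h
    change Bool.rec (Bool.rec (Bool.rec (Bool.rec true (live m s su sv l (j + 1))
      (Nat.beq (get s j) 1)) (live m s su sv l (j + 1)) (Nat.beq j sv)) (live m s su sv l (j + 1))
      (Nat.beq j su)) (live m s su sv l (j + 1)) (Nat.ble m a) = true at h
    by_cases t : live m s su sv l (j + 1) = true
    · obtain ⟨i, h1, h2, h3⟩ := ih _ t
      exact ⟨i + 1, by simpa using h1, h2, by rwa [show j + (i + 1) = j + 1 + i by omega]⟩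
    · refine ⟨0, by simp, ?_⟩
      cases e1 : Nat.ble m a
      · cases e2 : Nat.beq j su
        · cases e3 : Nat.beq j sv
          · cases e4 : Nat.beq (get s j) 1
            · exact ⟨Nat.lt_of_not_le (fun y : m ≤ a => by rw [Nat.ble_eq_true_of_le y] at e1; cases e1),
                Nat.ne_of_beq_eq_false e2, Nat.ne_of_beq_eq_false e3, Nat.ne_of_beq_eq_false e4⟩
            · rw [e1, e2, e3, e4] at h; exact (t h).elim
          · rw [e1, e2, e3] at h; exact (t h).elim
        · rw [e1, e2] at h; exact (t h).elim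
      · rw [e1] at h; exact (t h).elim

/-- No entry of the table `a` can be completed to a value above `W`. -/
def Good (m W : ℕ) (r : List Op) (own : List ℕ) (a : L) : Prop :=
  ∀ c s x, a.Mem s x → Inv c m own.length r (fun j => own.getD j 0) (get s) →
    (x : ℤ) + val c r ≤ W

variable {W : ℕ} {own own' : List ℕ} {a b : L}

theorem Good.dom (g : Good m W r own a) (hW : cut + slack r ≤ W) (h : Dom cut s x a)
    (hi : Inv c m own.length r (fun j => own.getD j 0) (get s)) : (x : ℤ) + val c r ≤ W := by
  rcases h with h | ⟨y, h, h'⟩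
  · have := val_le (c := c) r
    omega
  · have := g c s y h' hi
    omega

theorem step_sound {op : Op} (h : step m W op r own a = some b)
    (g : Good m W r (newOwn op own) b) : Good m W (op :: r) own a := by
  intro c s x hs hi
  cases op with
  | n j v =>
    change Bool.rec none (some (hand j (Nat.ble m (own.getD j 0)) a)) (Nat.blt j own.length &&
      !occ (own.getD j 0) r && !mem v own && (occ v r || Nat.ble m v) && Nat.ble (slack r) W) =
      some b at h
    generalize e : (_ && _ : Bool) = z at h
    cases z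
    · cases h
    cases h
    simp only [Bool.and_eq_true, Bool.or_eq_true, Bool.not_eq_true', Nat.blt_eq, Nat.ble_eq] at e
    obtain ⟨⟨⟨⟨e1, e2⟩, e3⟩, e4⟩, e5⟩ := e
    obtain ⟨h1, h2⟩ := hi.hand e1 (by simp only [e2]; simp)
      (fun i h y => by rw [(mem_spec own).2 ⟨i, h, y⟩] at e3; cases e3) e4
    obtain ⟨s', h3, h4⟩ := hand_spec (free := Nat.ble m (own.getD j 0)) hs
      (h1.imp_right (And.imp_right Nat.ble_eq_true_of_le))
    have l : (newOwn (.n j v) own).length = own.length := List.length_set
    have hi' : Inv c m (newOwn (.n j v) own).length r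
        (fun i => (newOwn (.n j v) own).getD i 0) (get s') := by
      rw [l]
      refine h2.congr (fun i h => ?_) fun i _ => h3 i
      change (own.set j v).getD i 0 = _
      split_ifs with y
      · simp [y, List.getD_eq_getElem?_getD, e1]
      · simp [List.getD_eq_getElem?_getD, List.getElem?_set_ne (Ne.symm y)]
    exact g.dom (by omega) h4 hi'
  | e u v su sv p q =>
    change Bool.rec none (fz (W - slack r) fun cut => Option.rec none
        (fun hi => some (dd cut (mergeA a (sortA 40 (runs hi)) L.nil)))
        (Bool.rec (motive := fun _ => Option L) (edge (close m W su sv p q own) cut su sv p q a)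
          (edge skip cut su sv p q a) (future m own r)))
      (Nat.beq (own.getD su 0) u && Nat.beq (own.getD sv 0) v && Nat.blt su own.length &&
        Nat.blt sv own.length && !Nat.beq su sv && Nat.ble (slack r) W && Nat.ble own.length 14) =
      some b at h
    generalize e : (_ && _ : Bool) = z at h
    cases z
    · cases h
    simp only [Bool.and_eq_true, Bool.not_eq_true', Nat.blt_eq, Nat.ble_eq, Nat.beq_eq] at e
    obtain ⟨⟨⟨⟨⟨⟨e1, e2⟩, e3⟩, e4⟩, e5⟩, e6⟩, e7⟩ := e
    have e5 := Nat.ne_of_beq_eq_false e5
    rw [fz_eq] at h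
    generalize e : Bool.rec (motive := fun _ => Option L) _ _ (future m own r) = z at h
    rcases z with _ | hi'
    · cases h
    cases h
    have hW : W - slack r + slack r ≤ W := by omega
    change (x : ℤ) + (val c r + if c u v = true then (p : ℤ) - q else 0) ≤ W
    by_cases hc : c u v = true
    swap
    · rw [if_neg hc, add_zero]
      exact g.dom hW (dom_dd _ _ (keeps_mergeA _ _ _ _ _ (Or.inl hs))) (hi.skip hc)
    rw [if_pos hc]
    have n1 := hi.ne1 hc e3 (Or.inl e1.symm)
    have n2 := hi.ne1 hc e4 (Or.inr e2.symm)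
    have R : Rel (fun s x => future m own r = true ∨ live m s su sv own 0 = true ∨ x + p - q ≤ W)
        (W - slack r) su sv p q s x hi' := by
      cases f : future m own r
      · rw [f] at e
        refine edge_spec (fun ih hi s x res h => ?_) e hs
        unfold close at h
        cases f1 : live m s su sv own 0
        · cases f2 : Nat.ble (Nat.sub (Nat.add x p) q) W
          · rw [f1, f2] at h; cases h
          · rw [f1, f2] at h
            exact ⟨Or.inr (Or.inr (Nat.le_of_ble_eq_true f2)), h⟩
        · rw [f1] at h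
          exact ⟨Or.inr (Or.inl rfl), h⟩
      · rw [f] at e
        exact edge_spec (fun ih hi s x res h => ⟨Or.inl rfl, h⟩) e hs
    rcases R n1 n2 with ⟨h1, h2⟩ | ⟨h1, h2⟩
    · have z := hi.close hc e3 e1 e2 h1
      have uv : ∀ j < own.length, j ≠ su → j ≠ sv → ¬ (u = own.getD j 0 ∨ v = own.getD j 0) := by
        rintro j hj y1 y2 (y | y)
        exacts [y1 (hi.inj j hj su e3 (y.symm.trans e1.symm)),
          y2 (hi.inj j hj sv e4 (y.symm.trans e2.symm))]
      rcases h2 with h2 | h2 | h2
      · obtain ⟨w, w1, w2, w3⟩ := future_spec r h2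
        have := hi.out w (fun j hj y => w2 ((mem_spec own).2 ⟨j, hj, y⟩))
          (occ_e.2 (Or.inr (Or.inr w3)))
        rw [Fr, rem_e hc, z] at this
        split_ifs at this <;> omega
      · obtain ⟨j, j1, j2, j3, j4, j5⟩ := live_spec own 0 h2
        rw [zero_add] at j3 j4 j5
        rcases y : get s j with _ | _ | k
        · have := hi.fresh j j1 y
          rw [Fr, rem_e hc, z, if_neg (uv j j1 j3 j4)] at this
          omega
        · exact (j5 y).elim
        · have := (hi.mate j j1 k y).1
          rw [rem_e hc, z, if_neg (uv j j1 j3 j4)] at this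
          omega
      · rw [val_zero r z]
        omega
    · have hi2 : Inv c m own.length r (fun j => own.getD j 0) (get (nx su sv s)) :=
        (hi.take hc e3 e4 e5 e1 e2 h1).congr (fun _ _ => rfl)
          fun j _ => get_nx hi e7 e3 e4 e5 n1 n2 h1 j
      have : Dom (W - slack r) (nx su sv s) (x + p - q)
          (dd (W - slack r) (mergeA a (sortA 40 (runs hi')) L.nil)) := by
        rcases h2 with h2 | h2
        · exact Or.inl h2
        · exact dom_dd _ _ (keeps_mergeA _ _ _ _ _ (Or.inr (Or.inl (mem_sortA _ _ (ml_runs _ h2)))))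
      have := g.dom hW this hi2
      omega

theorem steps_sound {a' : L} (n : ℕ) : ∀ (ops : List Op) (own : List ℕ) (a : L),
    steps m W own' a' n ops own a = true → Good m W (ops.drop n) own' a' → Good m W ops own a := by
  induction n with
  | zero =>
    intro ops own a h g c s x hs hi
    change (decide (own = own') && sub a a') = true at h
    rw [Bool.and_eq_true, decide_eq_true_eq] at h
    obtain ⟨rfl, h⟩ := h
    obtain ⟨y, h1, h2⟩ := dom_sub a a' h hs
    have := g c s y h2 hi
    rw [List.drop_zero] at this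
    omega
  | succ n ih =>
    intro ops own a h g
    cases ops with
    | nil => cases h
    | cons o r =>
      change Option.rec false (fun b => fl (newOwn o own) fun w => force b fun b =>
        steps m W own' a' n r w b) (step m W o r own a) = true at h
      rcases e : step m W o r own a with _ | b
      · rw [e] at h; cases h
      · rw [e] at h
        change fl _ _ = true at h
        rw [fl_eq, force_eq] at h
        exact step_sound e (ih r _ b h g)

theorem chain {a' : L} {n k : ℕ} {ops : List Op}
    (h : steps m W own' a' n (ops.drop k) own a = true) (g : Good m W (ops.drop (k + n)) own' a') :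
    Good m W (ops.drop k) own a :=
  steps_sound n _ _ _ h (by rwa [List.drop_drop])

theorem start {t : L} {ops : List Op} (h : sub a t = true) (g : Good m W (ops.drop 0) own t) :
    Good m W ops own a := fun c s x hs hi => by
  obtain ⟨y, h1, h2⟩ := dom_sub a t h hs
  have := g c s y h2 hi
  rw [List.drop_zero] at this
  omega

theorem good_nil (r : List Op) : Good m W r own L.nil := fun _ _ _ h => h.elim

end Pool.Agent.Lib.MP_4f0fb4_co.RZ.DP
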