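import Pool.Agent.Lib.MP_4f0fb4_co.RzDpDef

/-!
The table operations of the dynamic programme lose no entry that matters.
-/

namespace Pool.Agent.Lib.MP_4f0fb4_co.RZ.DP

def L.Mem (s x : ℕ) : L → Prop
  | .nil => False
  | .cons s' x' t => (s = s' ∧ x = x') ∨ L.Mem s x t

variable {s x : ℕ}

theorem fz_eq {α : Type} (a : ℕ) (k : ℕ → α) : fz a k = k a := by cases a <;> rfl

theorem force_eq {α : Type} (a : L) (k : L → α) : force a k = k a := by cases a <;> rfl

theorem fl_eq {α : Type} (l : List ℕ) : ∀ k : List ℕ → α, fl l k = k l := by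
  induction l with
  | nil => intro k; rfl
  | cons a t ih =>
    intro k
    show fz a (fun a' => fl t fun t => k (a' :: t)) = _
    rw [fz_eq, ih]

theorem mem_revApp (a : L) : ∀ acc : L, a.Mem s x ∨ acc.Mem s x → (revApp a acc).Mem s x := by
  induction a with
  | nil => intro acc h; exact h.resolve_left id
  | cons s' x' t ih =>
    intro acc h
    refine ih (L.cons s' x' acc) ?_
    simp only [L.Mem] at h ⊢
    tauto

def Keeps (mg : L → L → L → L) : Prop :=
  ∀ s x a b acc, a.Mem s x ∨ b.Mem s x ∨ acc.Mem s x → (mg a b acc).Mem s x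

theorem keeps_mergeA : Keeps mergeA := by
  intro s x a
  induction a with
  | nil => intro b acc h; exact mem_revApp b acc (h.resolve_left id)
  | cons s1 x1 a iha =>
    intro b
    induction b with
    | nil =>
      intro acc h
      refine mem_revApp a (L.cons s1 x1 acc) ?_
      simp only [L.Mem] at h ⊢
      tauto
    | cons s2 x2 b ihb =>
      intro acc h
      show (mA (mergeA a) s1 x1 s2 x2 b (mergeA (L.cons s1 x1 a) b) acc).Mem s x
      unfold mA
      cases Nat.ble s1 s2
      · refine ihb _ ?_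
        simp only [L.Mem] at h ⊢
        tauto
      · refine iha _ _ ?_
        simp only [L.Mem] at h ⊢
        tauto

theorem keeps_mergeD : Keeps mergeD := by
  intro s x a
  induction a with
  | nil => intro b acc h; exact mem_revApp b acc (h.resolve_left id)
  | cons s1 x1 a iha =>
    intro b
    induction b with
    | nil =>
      intro acc h
      refine mem_revApp a (L.cons s1 x1 acc) ?_
      simp only [L.Mem] at h ⊢
      tauto
    | cons s2 x2 b ihb =>
      intro acc h
      show (mD (mergeD a) s1 x1 s2 x2 b (mergeD (L.cons s1 x1 a) b) acc).Mem s x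
      unfold mD
      cases Nat.ble s2 s1
      · refine ihb _ ?_
        simp only [L.Mem] at h ⊢
        tauto
      · refine iha _ _ ?_
        simp only [L.Mem] at h ⊢
        tauto

def ML (s x : ℕ) (rs : List L) : Prop := ∃ a ∈ rs, a.Mem s x

theorem ml_cons {a : L} {rs : List L} : ML s x (a :: rs) ↔ a.Mem s x ∨ ML s x rs := by
  simp [ML]

theorem ml_nil : ¬ ML s x [] := by simp [ML]

theorem ml_pass {mg : L → L → L → L} (hk : Keeps mg) (rs : List L) : ∀ (o : Option L)
    (acc : List L), ML s x rs ∨ (∃ a, o = some a ∧ a.Mem s x) ∨ ML s x acc →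
      ML s x (pass mg rs o acc) := by
  induction rs with
  | nil =>
    intro o acc h
    rcases o with _ | a
    · rcases h with h | ⟨a, h, -⟩ | h
      exacts [(ml_nil h).elim, (nomatch h), h]
    · show ML s x (force (revApp a L.nil) fun r => r :: acc)
      rw [force_eq, ml_cons]
      rcases h with h | ⟨a, h, h'⟩ | h
      · exact (ml_nil h).elim
      · cases h
        exact Or.inl (mem_revApp _ _ (Or.inl h'))
      · exact Or.inr h
  | cons b rs ih =>
    intro o acc h
    rw [ml_cons] at h
    rcases o with _ | a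
    · refine ih (some b) acc ?_
      rcases h with (h | h) | ⟨a, h, -⟩ | h
      exacts [Or.inr (Or.inl ⟨b, rfl, h⟩), Or.inl h, (nomatch h), Or.inr (Or.inr h)]
    · show ML s x (force (mg a b L.nil) fun r => pass mg rs none (r :: acc))
      rw [force_eq]
      refine ih none _ ?_
      rw [ml_cons]
      rcases h with (h | h) | ⟨a, h, h'⟩ | h
      · exact Or.inr (Or.inr (Or.inl (hk _ _ _ _ _ (Or.inr (Or.inl h)))))
      · exact Or.inl h
      · cases h
        exact Or.inr (Or.inr (Or.inl (hk _ _ _ _ _ (Or.inl h'))))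
      · exact Or.inr (Or.inr (Or.inr h))

theorem ml_runs (a : L) (h : a.Mem s x) : ML s x (runs a) := by
  have key : ∀ (t : L) (p : ℕ) (cur : L) (acc : List L), t.Mem s x ∨ cur.Mem s x ∨ ML s x acc →
      ML s x (L.rec (motive := fun _ => ℕ → L → List L → List L)
        (fun _ cur acc => cur :: acc) rn t p cur acc) := by
    intro t
    induction t with
    | nil => intro p cur acc h; exact ml_cons.2 (h.resolve_left id)
    | cons s1 x1 t ih =>
      intro p cur acc h
      show ML s x (rn s1 x1 t _ p cur acc)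
      unfold rn
      cases Nat.ble s1 p
      · refine ih _ _ _ ?_
        simp only [L.Mem, ml_cons] at h ⊢
        tauto
      · refine ih _ _ _ ?_
        simp only [L.Mem] at h ⊢
        tauto
  cases a with
  | nil => exact h.elim
  | cons s1 x1 t =>
    refine key t s1 _ _ ?_
    simp only [L.Mem] at h ⊢
    tauto

theorem mem_flat (rs : List L) (h : ML s x rs) : (flat rs).Mem s x := by
  induction rs with
  | nil => exact (ml_nil h).elim
  | cons a rs ih => exact mem_revApp a (flat rs) ((ml_cons.1 h).imp_right ih)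

theorem mem_sortA (fuel : ℕ) : ∀ rs : List L, ML s x rs → (sortA fuel rs).Mem s x := by
  induction fuel with
  | zero => exact mem_flat
  | succ n ih =>
    intro rs h
    rcases rs with _ | ⟨a, _ | ⟨b, t⟩⟩
    · exact (ml_nil h).elim
    · exact (ml_cons.1 h).resolve_right ml_nil
    · exact ih _ (ml_pass keeps_mergeD _ _ _ (Or.inl (ml_pass keeps_mergeA _ _ _ (Or.inl h))))

/-- The entry `(s, x)` is at most `cut` or is dominated in `a`. -/
def Dom (cut s x : ℕ) (a : L) : Prop := x ≤ cut ∨ ∃ y, x ≤ y ∧ a.Mem s y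

theorem dom_dd (cut : ℕ) (a : L) (h : a.Mem s x) : Dom cut s x (dd cut a) := by
  have key : ∀ (t : L) (s1 x1 : ℕ) (acc : L), t.Mem s x ∨ Dom cut s x (L.cons s1 x1 acc) →
      Dom cut s x (L.rec (motive := fun _ => ℕ → ℕ → L → L)
        (fun s x acc => L.cons s x acc) (d0 cut) t s1 x1 acc) := by
    intro t
    induction t with
    | nil => intro s1 x1 acc h; exact h.resolve_left id
    | cons s2 x2 t ih =>
      intro s1 x1 acc h
      show Dom cut s x (d0 cut s2 x2 t _ s1 x1 acc)
      unfold d0 d1 d2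
      cases e : Nat.beq s1 s2
      · cases f : Nat.ble x1 cut
        · refine ih _ _ _ ?_
          rcases h with (h | h) | h | ⟨y, h, h'⟩
          exacts [Or.inr (Or.inr ⟨x, le_rfl, Or.inl h⟩), Or.inl h, Or.inr (Or.inl h),
            Or.inr (Or.inr ⟨y, h, Or.inr h'⟩)]
        · refine ih _ _ _ ?_
          have f := Nat.le_of_ble_eq_true f
          rcases h with (h | h) | h | ⟨y, h, ⟨-, rfl⟩ | h'⟩
          exacts [Or.inr (Or.inr ⟨x, le_rfl, Or.inl h⟩), Or.inl h, Or.inr (Or.inl h),
            Or.inr (Or.inl (h.trans f)), Or.inr (Or.inr ⟨y, h, Or.inr h'⟩)]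
      · obtain rfl := Nat.eq_of_beq_eq_true e
        cases f : Nat.ble x1 x2
        · refine ih _ _ _ ?_
          have f := Nat.le_of_not_le (fun h => by rw [Nat.ble_eq_true_of_le h] at f; cases f)
          rcases h with (⟨rfl, rfl⟩ | h) | h
          exacts [Or.inr (Or.inr ⟨x1, f, Or.inl ⟨rfl, rfl⟩⟩), Or.inl h, Or.inr h]
        · refine ih _ _ _ ?_
          have f := Nat.le_of_ble_eq_true f
          rcases h with (h | h) | h | ⟨y, h, ⟨rfl, rfl⟩ | h'⟩
          exacts [Or.inr (Or.inr ⟨x, le_rfl, Or.inl h⟩), Or.inl h, Or.inr (Or.inl h),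
            Or.inr (Or.inr ⟨x2, h.trans f, Or.inl ⟨rfl, rfl⟩⟩), Or.inr (Or.inr ⟨y, h, Or.inr h'⟩)]
  cases a with
  | nil => exact h.elim
  | cons s1 x1 t =>
    refine key t s1 x1 _ ?_
    rcases h with h | h
    exacts [Or.inr (Or.inr ⟨x, le_rfl, Or.inl h⟩), Or.inl h]

theorem dom_sub (a : L) : ∀ b : L, sub a b = true → a.Mem s x → ∃ y, x ≤ y ∧ b.Mem s y := by
  induction a with
  | nil => intro b _ h; exact h.elim
  | cons s1 x1 a ih =>
    intro b hb h
    cases b with
    | nil => cases hb
    | cons s2 x2 b =>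
      change Bool.rec false (Bool.rec false (sub a b) (Nat.ble x1 x2)) (Nat.beq s1 s2) = true at hb
      cases e : Nat.beq s1 s2
      · rw [e] at hb; cases hb
      · cases f : Nat.ble x1 x2
        · rw [e, f] at hb; cases hb
        · rw [e, f] at hb
          obtain rfl := Nat.eq_of_beq_eq_true e
          rcases h with ⟨rfl, rfl⟩ | h
          · exact ⟨x2, Nat.le_of_ble_eq_true f, Or.inl ⟨rfl, rfl⟩⟩
          · obtain ⟨y, h1, h2⟩ := ih b hb h
            exact ⟨y, h1, Or.inr h2⟩

theorem get_xor (a b j : ℕ) : get (Nat.xor a b) j = Nat.xor (get a j) (get b j) := by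
  show ((a ^^^ b) >>> (4 * j)) &&& 15 = ((a >>> (4 * j)) &&& 15) ^^^ ((b >>> (4 * j)) &&& 15)
  rw [Nat.shiftRight_xor_distrib, Nat.and_xor_distrib_right]

theorem get_sh {k : ℕ} (hk : k < 16) (j i : ℕ) :
    get (Nat.shiftLeft k (Nat.mul 4 j)) i = if i = j then k else 0 := by
  show ((k <<< (4 * j)) >>> (4 * i)) &&& (2 ^ 4 - 1) = _
  apply Nat.eq_of_testBit_eq
  intro b
  have hb : ∀ c, 4 ≤ c → k.testBit c = false := fun c hc =>
    Nat.testBit_lt_two_pow (hk.trans_le (Nat.pow_le_pow_right (n := 2) (by omega) hc))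
  rw [Nat.testBit_and, Nat.testBit_shiftRight, Nat.testBit_shiftLeft, Nat.testBit_two_pow_sub_one]
  split_ifs with h
  · subst h
    by_cases h4 : b < 4
    · simp [h4]
    · simp [h4, hb b (by omega)]
  · by_cases h4 : b < 4
    · by_cases h5 : 4 * j ≤ 4 * i + b
      · simp [hb (4 * i + b - 4 * j) (by omega)]
      · simp [h5]
    · simp [h4]

end Pool.Agent.Lib.MP_4f0fb4_co.RZ.DP
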