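import Pool.Agent.Lib.MP_4f0fb4_co.RzDpDef

/-!
Three edges at a vertex of degree three in one step: definitions.
-/

namespace Pool.Agent.Lib.MP_4f0fb4_co.RZ.DP

noncomputable section

def ek3 (ok : ℕ → Bool) (ih : K) (hi : L) (y s' : ℕ) : Option L :=
  Bool.rec (ih hi) (ih (L.cons s' y hi)) (ok s')
def ek2 (ok : ℕ → Bool) (ih : K) (hi : L) (y s' : ℕ) : Option L :=
  Nat.rec (ek3 ok ih hi y 0) (fun n _ => ek3 ok ih hi y (Nat.succ n)) s'
def ek1 (ok : ℕ → Bool) (cut : ℕ) (ih : K) (hi : L) (s' y : ℕ) : Option L :=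
  Bool.rec (ek2 ok ih hi y s') (ih hi) (Nat.ble y cut)
def ek (ok : ℕ → Bool) (cut p q : ℕ) (ih : K) (hi : L) (x s' : ℕ) : Option L :=
  Nat.rec (ih hi) (fun n _ => ek1 ok cut ih hi s' (Nat.succ n)) (Nat.sub (Nat.add x p) q)

def edgeG (E C : EM) (su sv : ℕ) (t acc : L) : Option L :=
  fz (Nat.mul 4 su) fun a => fz (Nat.mul 4 sv) fun b => fz (Nat.add su 2) fun ka =>
  fz (Nat.add sv 2) fun kb => fz (Nat.xor ka kb) fun k =>
  fz (Nat.xor (Nat.shiftLeft kb a) (Nat.shiftLeft ka b)) fun m0 =>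
  L.rec (motive := fun _ => K) some (e (e0 E a b k m0) (e2a E C sv a b k ka kb) a) t acc

def k1 (ok : ℕ → Bool) (cut s' x' : ℕ) (ih : ℕ → ℕ → L → L) (s x : ℕ) (acc : L) : L :=
  Bool.rec (Bool.rec (ih s' x' acc) (ih s' x' (L.cons s x acc)) (ok s)) (ih s' x' acc)
    (Nat.ble x cut)
def k0 (ok : ℕ → Bool) (cut s' x' : ℕ) (_ : L) (ih : ℕ → ℕ → L → L) (s x : ℕ) (acc : L) : L :=
  Bool.rec (k1 ok cut s' x' ih s x acc) (d2 x' ih s x acc) (Nat.beq s s')
def dk (ok : ℕ → Bool) (cut : ℕ) (a : L) : L :=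
  L.rec L.nil (fun s x t _ => L.rec (motive := fun _ => ℕ → ℕ → L → L)
    (fun s x acc => L.cons s x acc) (k0 ok cut) t s x L.nil) a

def cnt (v : ℕ) (r : List Op) : ℕ :=
  List.rec 0 (fun o _ ih => Op.rec (fun a b _ _ _ _ =>
    Bool.rec (Bool.rec ih (Nat.succ ih) (Nat.beq b v)) (Nat.succ ih) (Nat.beq a v))
    (fun _ _ => ih) o) r

def okN (a s : ℕ) : Bool := Nat.ble 1 (Nat.land s a)
def okD (a s : ℕ) : Bool := Nat.beq (Nat.land (Nat.shiftRight s a) 15) 1
def ok2 (f g : ℕ → Bool) (s : ℕ) : Bool := Bool.rec false (g s) (f s)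

/-- The test for a slot whose owner has `c` edges left. -/
def pick {α : Type} (c j : ℕ) (k0 : α) (k : (ℕ → Bool) → α) : α :=
  Nat.rec (fz (Nat.mul 4 j) fun a => k (okD a)) (fun c _ =>
    Nat.rec (fz (Nat.shiftLeft 15 (Nat.mul 4 j)) fun a => k (okN a)) (fun _ _ => k0) c) c

def pick2 {α : Type} (c j d i : ℕ) (k : (ℕ → Bool) → α) : α :=
  pick c j (pick d i (k fun _ => true) k) fun f => pick d i (k f) fun g => k (ok2 f g)

def fine (m z : ℕ) (r : List Op) : Bool :=
  List.rec true (fun o _ ih => Op.rec (fun a b _ _ _ _ =>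
    Bool.rec (Bool.rec (Bool.rec false ih (Nat.ble m b)) false (Nat.beq b z)) false (Nat.beq a z))
    (fun _ _ => ih) o) r

def opt (m W : ℕ) (own : List ℕ) (fut : Bool) (ok : ℕ → Bool) (cut su sv p q : ℕ) (a acc : L) :
    Option L :=
  fz p fun p => fz q fun q => Bool.rec (motive := fun _ => Option L)
    (edgeG (ek ok cut p q) (close m W su sv p q own) su sv a acc)
    (edgeG (ek ok cut p q) skip su sv a acc) fut

def ob (o : Option L) (f : L → Option L) : Option L := Option.rec none f o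

def step3 (m W x y h z sx sy sh p1 q1 p2 q2 p3 q3 : ℕ) (r : List Op) (own : List ℕ) (a : L) :
    Option L :=
  Bool.rec none
    (fz (Nat.sub W (slack r)) fun cut => pick2 (cnt x r) sx (cnt y r) sy fun ok =>
      ob (opt m W own (future m own r) ok cut sx sy (Nat.add p1 p2) (Nat.add q1 q2) a L.nil) fun t =>
      ob (opt m W own (future m own r) ok cut sh sx (Nat.add p1 p3) (Nat.add q1 q3) a t) fun t =>
      ob (opt m W own (future m own r) ok cut sh sy (Nat.add p2 p3) (Nat.add q2 q3) a t) fun t =>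
      some (dk ok cut (mergeA a (sortA 40 (runs t)) L.nil)))
    (Nat.beq (own.getD sx 0) x && Nat.beq (own.getD sy 0) y && Nat.beq (own.getD sh 0) h &&
      Nat.blt sx own.length && Nat.blt sy own.length && Nat.blt sh own.length &&
      !Nat.beq sx sy && !Nat.beq sh sx && !Nat.beq sh sy && Nat.blt x m && Nat.blt y m &&
      Nat.ble m z && !mem z own && fine m z r && Nat.ble (slack r) W && Nat.ble own.length 14)

/-- The next step: its length, the remaining list and the new table. -/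
def next (m W : ℕ) (o : Op) (r : List Op) (own : List ℕ) (a : L)
    (k : ℕ → List Op → Option L → Bool) : Bool :=
  match o, r with
  | .e x z sx t p1 q1, .e z1 h _ sh p3 q3 :: .e y z2 sy _ p2 q2 :: r' =>
      bif Nat.beq t 99 && Nat.beq z1 z && Nat.beq z2 z then
        k 3 r' (step3 m W x y h z sx sy sh p1 q1 p2 q2 p3 q3 r' own a)
      else k 1 r (step m W o r own a)
  | _, _ => k 1 r (step m W o r own a)

def run (m W : ℕ) (own' : List ℕ) (a' : L) (f : ℕ) : ℕ → List Op → List ℕ → L → Bool :=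
  Nat.rec (fun n _ own a => Nat.beq n 0 && decide (own = own') && sub a a')
    (fun _ ih n ops own a => List.rec false (fun o r _ => next m W o r own a fun d r' t =>
      Nat.ble d n && Option.rec false (fun b => fz (Nat.sub n d) fun n' =>
        fl (newOwn o own) fun w => force b fun b => ih n' r' w b) t) ops) f

end

end Pool.Agent.Lib.MP_4f0fb4_co.RZ.DP
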