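import Pool.Agent.Lib.MP_4f0fb4_co.RzDpSnd
import Pool.Agent.Lib.MP_4f0fb4_co.RzMcDef

/-!
Soundness of the step for three edges at a vertex of degree three.
-/

namespace Pool.Agent.Lib.MP_4f0fb4_co.RZ.DP

variable {c : ℕ → ℕ → Bool} {m n su sv s x cut p q W : ℕ} {r : List Op} {o g : ℕ → ℕ}
  {ok : ℕ → Bool} {own own' : List ℕ}

theorem ek_spec {ih : K} {hi res : L} {s' : ℕ} (h : ek ok cut p q ih hi x s' = some res) :
    ((x + p - q ≤ cut ∨ ok s' = false) ∧ ih hi = some res) ∨
      ih (L.cons s' (x + p - q) hi) = some res := by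
  unfold ek at h
  change Nat.rec (motive := fun _ => Option L) _ _ (x + p - q) = _ at h
  rcases e : x + p - q with _ | y
  · rw [e] at h
    exact Or.inl ⟨Or.inl (Nat.zero_le _), h⟩
  · rw [e] at h
    change ek1 ok cut ih hi s' (y + 1) = _ at h
    unfold ek1 at h
    cases f : Nat.ble (y + 1) cut
    · rw [f] at h
      have h : ek3 ok ih hi (y + 1) s' = some res := by cases s' <;> exact h
      unfold ek3 at h
      cases f' : ok s'
      · rw [f'] at h
        exact Or.inl ⟨Or.inr rfl, h⟩
      · rw [f'] at h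
        exact Or.inr h
    · rw [f] at h
      exact Or.inl ⟨Or.inl (Nat.le_of_ble_eq_true f), h⟩

def Rk (ok : ℕ → Bool) (Q : ℕ → ℕ → Prop) (cut su sv p q s x : ℕ) (res : L) : Prop :=
  get s su ≠ 1 → get s sv ≠ 1 → (get s su = sv + 2 ∧ Q s x) ∨
    (get s su ≠ sv + 2 ∧ ((x + p - q ≤ cut ∨ ok (nx su sv s) = false) ∨
      res.Mem (nx su sv s) (x + p - q)))

theorem edgeG_spec {C : EM} {Q : ℕ → ℕ → Prop}
    (hC : ∀ ih hi s x res, C ih hi s x = some res → Q s x ∧ ih hi = some res) {t acc res : L}
    (h : edgeG (ek ok cut p q) C su sv t acc = some res) :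
    (∀ s x, acc.Mem s x → res.Mem s x) ∧ ∀ s x, t.Mem s x → Rk ok Q cut su sv p q s x res := by
  simp only [edgeG, fz_eq] at h
  revert acc
  induction t with
  | nil =>
    intro acc h
    cases h
    exact ⟨fun _ _ h => h, fun _ _ h => h.elim⟩
  | cons s x t ih =>
    intro acc h
    suffices ∃ acc', L.rec (motive := fun _ => K) some _ t acc' = some res ∧
        (∀ s x, acc.Mem s x → acc'.Mem s x) ∧ Rk ok Q cut su sv p q s x acc' by
      obtain ⟨acc', h1, h2, h3⟩ := this
      obtain ⟨h4, h5⟩ := ih h1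
      refine ⟨fun s x h => h4 _ _ (h2 _ _ h), ?_⟩
      rintro s x (⟨rfl, rfl⟩ | h)
      · exact fun a b => (h3 a b).imp_right (And.imp_right (Or.imp_right (h4 _ _)))
      · exact h5 s x h
    change e _ _ _ s x t _ acc = _ at h
    generalize L.rec (motive := fun _ => K) some _ t = ih at h ⊢
    have fin : ∀ s', ek ok cut p q ih acc x s' = some res → get s su ≠ sv + 2 → nx su sv s = s' →
        ∃ acc', ih acc' = some res ∧ (∀ s x, acc.Mem s x → acc'.Mem s x) ∧
          Rk ok Q cut su sv p q s x acc' := by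
      rintro _ h a rfl
      rcases ek_spec h with h | h
      · exact ⟨acc, h.2, fun _ _ h => h, fun _ _ => Or.inr ⟨a, Or.inl h.1⟩⟩
      · exact ⟨_, h, fun _ _ h => Or.inr h, fun _ _ => Or.inr ⟨a, Or.inr (Or.inl ⟨rfl, rfl⟩)⟩⟩
    unfold e at h
    change Nat.rec (motive := fun _ => Option L) _ _ (get s su) = _ at h
    rcases e1 : get s su with _ | _ | a
    · rw [e1] at h
      change e0 _ _ _ _ _ ih acc s x = _ at h
      unfold e0 at h
      change Nat.rec (motive := fun _ => Option L) _ _ (get s sv) = _ at h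
      rcases e2 : get s sv with _ | _ | b
      · rw [e2] at h
        exact fin _ h (by omega) (by unfold nx; rw [e1, e2])
      · rw [e2] at h
        exact ⟨acc, h, fun _ _ h => h, fun _ b => (b e2).elim⟩
      · rw [e2] at h
        exact fin _ h (by omega) (by unfold nx; rw [e1, e2])
    · rw [e1] at h
      exact ⟨acc, h, fun _ _ h => h, fun a => (a e1).elim⟩
    · rw [e1] at h
      change e2a _ _ _ _ _ _ _ _ ih acc s x a = _ at h
      unfold e2a at h
      cases f : Nat.beq a sv
      · rw [f] at h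
        have f := Nat.ne_of_beq_eq_false f
        change e2b _ _ _ _ _ _ ih acc s x a = _ at h
        unfold e2b at h
        change Nat.rec (motive := fun _ => Option L) _ _ (get s sv) = _ at h
        rcases e2 : get s sv with _ | _ | b
        · rw [e2] at h
          exact fin _ h (by omega) (by unfold nx; rw [e1, e2])
        · rw [e2] at h
          exact ⟨acc, h, fun _ _ h => h, fun _ b => (b e2).elim⟩
        · rw [e2] at h
          exact fin _ h (by omega) (by unfold nx; rw [e1, e2])
      · rw [f] at h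
        obtain ⟨h1, h2⟩ := hC _ _ _ _ _ h
        exact ⟨acc, h2, fun _ _ h => h, fun _ _ =>
          Or.inl ⟨by rw [e1, Nat.eq_of_beq_eq_true f], h1⟩⟩

theorem dom_dk (a : L) (h : a.Mem s x) (hk : ok s = true) : Dom cut s x (dk ok cut a) := by
  have key : ∀ (t : L) (s1 x1 : ℕ) (acc : L), t.Mem s x ∨ Dom cut s x (L.cons s1 x1 acc) →
      Dom cut s x (L.rec (motive := fun _ => ℕ → ℕ → L → L)
        (fun s x acc => L.cons s x acc) (k0 ok cut) t s1 x1 acc) := by
    intro t
    induction t with
    | nil => intro s1 x1 acc h; exact h.resolve_left id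
    | cons s2 x2 t ih =>
      intro s1 x1 acc h
      show Dom cut s x (k0 ok cut s2 x2 t _ s1 x1 acc)
      unfold k0 k1 d2
      cases e : Nat.beq s1 s2
      · cases f : Nat.ble x1 cut
        · cases f' : ok s1
          · refine ih _ _ _ ?_
            rcases h with (h | h) | h | ⟨y, h, ⟨rfl, -⟩ | h'⟩
            exacts [Or.inr (Or.inr ⟨x, le_rfl, Or.inl h⟩), Or.inl h, Or.inr (Or.inl h),
              by simp [hk] at f', Or.inr (Or.inr ⟨y, h, Or.inr h'⟩)]
          · refine ih _ _ _ ?_
            rcases h with (h | h) | h | ⟨y, h, h'⟩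
            exacts [Or.inr (Or.inr ⟨x, le_rfl, Or.inl h⟩), Or.inl h, Or.inr (Or.inl h),
              Or.inr (Or.inr ⟨y, h, Or.inr h'⟩)]
        · refine ih _ _ _ ?_
          have f := Nat.le_of_ble_eq_true f
          rcases h with (h | h) | h | ⟨y, h, ⟨-, rfl⟩ | h'⟩
          exacts [Or.inr (Or.inr ⟨x, le_rfl, Or.inl h⟩), Or.inl h, Or.inr (Or.inl h),
            Or.inr (Or.inl (h.trans f)), Or.inr (Or.inr ⟨y, h, Or.inr h'⟩)]
      · obtain rfl := Nat.eq_of_beq_eq_true e
        cases f : Nat.ble x1 x2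
        · refine ih _ _ _ ?_
          have f := Nat.le_of_not_le (fun h => by rw [Nat.ble_eq_true_of_le h] at f; cases f)
          rcases h with (⟨rfl, rfl⟩ | h) | h
          exacts [Or.inr (Or.inr ⟨x1, f, Or.inl ⟨rfl, rfl⟩⟩), Or.inl h, Or.inr h]
        · refine ih _ _ _ ?_
          have f := Nat.le_of_ble_eq_true f
          rcases h with (h | h) | h | ⟨y, h, ⟨rfl, rfl⟩ | h'⟩
          exacts [Or.inr (Or.inr ⟨x, le_rfl, Or.inl h⟩), Or.inl h, Or.inr (Or.inl h),
            Or.inr (Or.inr ⟨x2, h.trans f, Or.inl ⟨rfl, rfl⟩⟩), Or.inr (Or.inr ⟨y, h, Or.inr h'⟩)]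
  cases a with
  | nil => exact h.elim
  | cons s1 x1 t =>
    refine key t s1 x1 _ ?_
    rcases h with h | h
    exacts [Or.inr (Or.inr ⟨x, le_rfl, Or.inl h⟩), Or.inl h]

theorem rem_le_cnt (v : ℕ) (r : List Op) : rem c r v ≤ cnt v r := by
  induction r with
  | nil => exact le_rfl
  | cons o r ih =>
    cases o with
    | n j w => exact ih
    | e a b su sv p q =>
      change rem c r v + _ ≤ Bool.rec (Bool.rec (cnt v r) (cnt v r + 1) (Nat.beq b v))
        (cnt v r + 1) (Nat.beq a v)
      cases e1 : Nat.beq a v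
      · cases e2 : Nat.beq b v
        · rw [if_neg fun h => h.2.elim (Nat.ne_of_beq_eq_false e1) (Nat.ne_of_beq_eq_false e2)]
          exact ih
        · show _ ≤ cnt v r + 1
          split_ifs <;> omega
      · show _ ≤ cnt v r + 1
        split_ifs <;> omega

/-- The test accepts every state that fits the invariant. -/
def Acc (m : ℕ) (r : List Op) (own : List ℕ) (ok : ℕ → Bool) : Prop :=
  ∀ c s, Inv c m own.length r (fun j => own.getD j 0) (get s) → ok s = true

theorem pick_spec {α : Type} {j : ℕ} {k0 : α} {k : (ℕ → Bool) → α} (hj : j < own.length)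
    (hx : own.getD j 0 < m) : pick (cnt (own.getD j 0) r) j k0 k = k0 ∨
      ∃ f, Acc m r own f ∧ pick (cnt (own.getD j 0) r) j k0 k = k f := by
  rcases e : cnt (own.getD j 0) r with _ | _ | d
  · refine Or.inr ⟨okD (Nat.mul 4 j), fun c s hi => ?_, fz_eq _ fun a => k (okD a)⟩
    have := rem_le_cnt (c := c) (own.getD j 0) r
    change Nat.beq (get s j) 1 = true
    rw [Nat.beq_eq]
    rcases y : get s j with _ | _ | k
    · have := hi.fresh j hj y
      unfold Fr at this
      omega
    · rfl
    · have := (hi.mate j hj k y).1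
      omega
  · refine Or.inr ⟨okN (Nat.shiftLeft 15 (Nat.mul 4 j)), fun c s hi => ?_,
      fz_eq _ fun a => k (okN a)⟩
    have := rem_le_cnt (c := c) (own.getD j 0) r
    refine Nat.ble_eq_true_of_le (Nat.pos_of_ne_zero fun y => ?_)
    have y' : get s j = 0 := by
      have := congrArg (· >>> (4 * j)) y
      simp only [Nat.zero_shiftRight] at this
      rw [← this]
      show (s >>> (4 * j)) &&& 15 = (s &&& (15 <<< (4 * j))) >>> (4 * j)
      rw [Nat.shiftRight_and_distrib, Nat.shiftLeft_shiftRight]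
    have := hi.fresh j hj y'
    unfold Fr at this
    omega
  · exact Or.inl rfl

theorem pick2_spec {α : Type} {j i : ℕ} {k : (ℕ → Bool) → α} (hj : j < own.length)
    (hx : own.getD j 0 < m) (hi : i < own.length) (hy : own.getD i 0 < m) :
    ∃ f, Acc m r own f ∧ pick2 (cnt (own.getD j 0) r) j (cnt (own.getD i 0) r) i k = k f := by
  unfold pick2
  rcases pick_spec hj hx with e | ⟨f, hf, e⟩
  · rw [e]
    rcases pick_spec hi hy with e | ⟨f, hf, e⟩
    exacts [⟨_, fun _ _ _ => rfl, e⟩, ⟨f, hf, e⟩]
  · rw [e]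
    rcases pick_spec hi hy with e | ⟨f', hf', e⟩
    · exact ⟨f, hf, e⟩
    · exact ⟨ok2 f f', fun c s h => by rw [ok2, hf c s h, hf' c s h], e⟩

theorem fine_spec {z : ℕ} (a b : ℕ) (hb : b < m) (r : List Op) (h : fine m z r = true) :
    ¬ occ z r = true ∧ (∀ v, rem (fun u v => decide (u = a ∧ v = b) || c u v) r v = rem c r v) ∧
      val (fun u v => decide (u = a ∧ v = b) || c u v) r = val c r ∧
      ∀ U, Cross c U r → Cross (fun u v => decide (u = a ∧ v = b) || c u v) U r := by
  induction r with
  | nil => exact ⟨by simp [occ], fun _ => rfl, rfl, fun _ h => h⟩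
  | cons o r ih =>
    cases o with
    | n j w => exact ih h
    | e u v su sv p q =>
      change Bool.rec (Bool.rec (Bool.rec false (fine m z r) (Nat.ble m v)) false (Nat.beq v z))
        false (Nat.beq u z) = true at h
      cases e1 : Nat.beq u z
      swap
      · rw [e1] at h; cases h
      cases e2 : Nat.beq v z
      swap
      · rw [e1, e2] at h; cases h
      cases e3 : Nat.ble m v
      · rw [e1, e2, e3] at h; cases h
      rw [e1, e2, e3] at h
      obtain ⟨i1, i2, i3, i4⟩ := ih h
      have e3 := Nat.le_of_ble_eq_true e3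
      have e : decide (u = a ∧ v = b) = false := decide_eq_false (by omega)
      refine ⟨?_, fun w => ?_, ?_, fun U hU => ?_⟩
      · rw [occ_e]
        rintro (y | y | y)
        exacts [Nat.ne_of_beq_eq_false e1 y, Nat.ne_of_beq_eq_false e2 y, i1 y]
      · simp only [rem, i2, e, Bool.false_or]
      · simp only [val, i3, e, Bool.false_or]
      · exact hU.imp (by simp only [e, Bool.false_or]; exact id) (i4 U)

/-- Two chosen edges at `z` act as one edge. -/
theorem Inv.contract {R : List Op} {a b z : ℕ} (h : Inv c m n R o g) (hb : b < m)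
    (hf : fine m z r = true) (hz : ∀ i < n, o i ≠ z) (ha : ∃ i < n, o i = a)
    (hb' : ∃ i < n, o i = b)
    (h1 : ∀ w, w ≠ z → rem c R w = rem c r w + if a = w ∨ b = w then 1 else 0)
    (h2 : ∀ U, Cross c U R → (U a ↔ ¬ U z) ∨ (U b ↔ ¬ U z) ∨ Cross c U r)
    (h3 : ∀ w, occ w r = true → occ w R = true) :
    Inv (fun u v => decide (u = a ∧ v = b) || c u v) m n (.e a b su sv p q :: r) o g := by
  obtain ⟨f1, f2, -, f4⟩ := fine_spec (c := c) a b hb r hf
  have az : a ≠ z := by obtain ⟨i, hi, rfl⟩ := ha; exact hz i hi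
  have bz : b ≠ z := by obtain ⟨i, hi, rfl⟩ := hb'; exact hz i hi
  have e : ∀ w, w ≠ z → rem (fun u v => decide (u = a ∧ v = b) || c u v)
      (.e a b su sv p q :: r) w = rem c R w := fun w hw => by
    rw [rem_e (by simp), f2, h1 w hw]
  have ez : rem (fun u v => decide (u = a ∧ v = b) || c u v) (.e a b su sv p q :: r) z = 0 := by
    rw [rem_e (by simp), f2, rem_occ r f1, if_neg (by tauto)]
  refine ⟨h.inj, fun j hj hg => e _ (hz j hj) ▸ h.dead j hj hg,
    fun j hj hg => by have := h.fresh j hj hg; rwa [Fr, ← e _ (hz j hj)] at this,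
    fun j hj k hg => e _ (hz j hj) ▸ h.mate j hj k hg, fun w hw ho => ?_,
    fun U hU a' b' ha' hb'' p1 p2 => ?_⟩
  · have ho : occ w r = true := by
      rcases occ_e.1 ho with rfl | rfl | y
      · obtain ⟨i, hi, y⟩ := ha; exact (hw i hi y).elim
      · obtain ⟨i, hi, y⟩ := hb'; exact (hw i hi y).elim
      · exact y
    have := h.out w hw (h3 w ho)
    rwa [Fr, ← e w (by rintro rfl; exact f1 ho)] at this
  · have n1 : a' ≠ z := by rintro rfl; omega
    have n2 : b' ≠ z := by rintro rfl; omega
    have := h2 _ (h.cut (fun w => if w = z then U a else U w) (fun j hj k y => by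
      rw [if_neg (hz j hj), if_neg (hz k (h.mate j hj k y).2.1)]
      exact hU j hj k y) a' b' (by rwa [if_neg n1]) (by rwa [if_neg n2])
      (by rwa [← e _ n1]) (by rwa [← e _ n2]))
    simp only [if_neg az, if_neg bz, if_true] at this
    rcases this with y | y | y
    · tauto
    · exact Or.inl ⟨by simp, by tauto⟩
    · exact Or.inr (f4 U (cross_congr r (fun v hv => by
        rw [if_neg (by rintro rfl; rw [rem_occ r f1] at hv; omega)]) y))

theorem take_sound {u v : ℕ} {t b : L} (g : Good m W r own b) (hW : cut + slack r ≤ W)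
    (hk : Acc m r own ok) (ht : ∀ s x, t.Mem s x → ok s = true → Dom cut s x b)
    (hi : Inv c m own.length (.e u v su sv p q :: r) (fun j => own.getD j 0) (get s))
    (hc : c u v = true) (e1 : own.getD su 0 = u) (e2 : own.getD sv 0 = v) (e3 : su < own.length)
    (e4 : sv < own.length) (e5 : su ≠ sv) (e7 : own.length ≤ 14)
    (R : Rk ok (fun s x => future m own r = true ∨ live m s su sv own 0 = true ∨ x + p - q ≤ W)
      cut su sv p q s x t) : (x : ℤ) + (val c r + (p - q)) ≤ W := by
  have n1 := hi.ne1 hc e3 (Or.inl e1.symm)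
  have n2 := hi.ne1 hc e4 (Or.inr e2.symm)
  rcases R n1 n2 with ⟨h1, h2⟩ | ⟨h1, h2⟩
  · have z := hi.close hc e3 e1 e2 h1
    have uv : ∀ j < own.length, j ≠ su → j ≠ sv → ¬ (u = own.getD j 0 ∨ v = own.getD j 0) := by
      rintro j hj y1 y2 (y | y)
      exacts [y1 (hi.inj j hj su e3 (y.symm.trans e1.symm)),
        y2 (hi.inj j hj sv e4 (y.symm.trans e2.symm))]
    rcases h2 with h2 | h2 | h2
    · obtain ⟨w, w1, w2, w3⟩ := future_spec r h2
      have := hi.out w (fun j hj y => w2 ((mem_spec own).2 ⟨j, hj, y⟩))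
        (occ_e.2 (Or.inr (Or.inr w3)))
      rw [Fr, rem_e hc, z] at this
      split_ifs at this <;> omega
    · obtain ⟨j, j1, j2, j3, j4, j5⟩ := live_spec own 0 h2
      rw [zero_add] at j3 j4 j5
      rcases y : get s j with _ | _ | k
      · have := hi.fresh j j1 y
        rw [Fr, rem_e hc, z, if_neg (uv j j1 j3 j4)] at this
        omega
      · exact (j5 y).elim
      · have := (hi.mate j j1 k y).1
        rw [rem_e hc, z, if_neg (uv j j1 j3 j4)] at this
        omega
    · rw [val_zero r z]
      omega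
  · have hi2 : Inv c m own.length r (fun j => own.getD j 0) (get (nx su sv s)) :=
      (hi.take hc e3 e4 e5 e1 e2 h1).congr (fun _ _ => rfl)
        fun j _ => get_nx hi e7 e3 e4 e5 n1 n2 h1 j
    have : Dom cut (nx su sv s) (x + p - q) b := by
      rcases h2 with (h2 | h2) | h2
      · exact Or.inl h2
      · simp [hk c _ hi2] at h2
      · exact ht _ _ h2 (hk c _ hi2)
    have := g.dom hW this hi2
    omega

theorem opt_spec {a acc res : L} (h : opt m W own (future m own r) ok cut su sv p q a acc = some res) :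
    (∀ s x, acc.Mem s x → res.Mem s x) ∧ ∀ s x, a.Mem s x →
      Rk ok (fun s x => future m own r = true ∨ live m s su sv own 0 = true ∨ x + p - q ≤ W)
        cut su sv p q s x res := by
  simp only [opt, fz_eq] at h
  cases f : future m own r
  · rw [f] at h
    refine edgeG_spec (fun ih hi s x res h => ?_) h
    unfold close at h
    cases f1 : live m s su sv own 0
    · cases f2 : Nat.ble (Nat.sub (Nat.add x p) q) W
      · rw [f1, f2] at h; cases h
      · rw [f1, f2] at h
        exact ⟨Or.inr (Or.inr (Nat.le_of_ble_eq_true f2)), h⟩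
    · rw [f1] at h
      exact ⟨Or.inr (Or.inl rfl), h⟩
  · rw [f] at h
    exact edgeG_spec (fun ih hi s x res h => ⟨Or.inl rfl, h⟩) h

theorem Rk.mono {Q : ℕ → ℕ → Prop} {t t' : L} (h : Rk ok Q cut su sv p q s x t)
    (ht : ∀ s x, t.Mem s x → t'.Mem s x) : Rk ok Q cut su sv p q s x t' :=
  fun a b => (h a b).imp_right (And.imp_right (Or.imp_right (ht _ _)))

theorem ob_some {o : Option L} {f : L → Option L} {b : L} (h : ob o f = some b) :
    ∃ t, o = some t ∧ f t = some b := by
  cases o with
  | none => cases h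
  | some t => exact ⟨t, rfl, h⟩

theorem step3_sound {x0 y h z sx sy sh p1 q1 p2 q2 p3 q3 j1 j2 j3 : ℕ} {a b : L}
    (hs : step3 m W x0 y h z sx sy sh p1 q1 p2 q2 p3 q3 r own a = some b) (g : Good m W r own b) :
    Good m W (.e x0 z sx j1 p1 q1 :: .e z h j2 sh p3 q3 :: .e y z sy j3 p2 q2 :: r) own a := by
  intro c s x hm hi
  unfold step3 at hs
  generalize e : (_ && _ : Bool) = w at hs
  cases w
  · cases hs
  simp only [Bool.and_eq_true, Bool.not_eq_true', Nat.blt_eq, Nat.ble_eq, Nat.beq_eq] at e
  obtain ⟨⟨⟨⟨⟨⟨⟨⟨⟨⟨⟨⟨⟨⟨⟨rfl, rfl⟩, rfl⟩, l1⟩, l2⟩, l3⟩, d1⟩, d2⟩, d3⟩, m1⟩, m2⟩, m3⟩, m4⟩, f⟩, sl⟩,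
    l4⟩ := e
  have d1 := Nat.ne_of_beq_eq_false d1
  have d2 := Nat.ne_of_beq_eq_false d2
  have d3 := Nat.ne_of_beq_eq_false d3
  change fz _ _ = _ at hs
  rw [fz_eq] at hs
  obtain ⟨ok, hk, e⟩ := pick2_spec (r := r) (k := _) l1 m1 l2 m2
  rw [e] at hs
  obtain ⟨t1, a1, hs⟩ := ob_some hs
  obtain ⟨t2, a2, hs⟩ := ob_some hs
  obtain ⟨t3, a3, hs⟩ := ob_some hs
  cases hs
  have hW : Nat.sub W (slack r) + slack r ≤ W := by show W - slack r + slack r ≤ W; omega
  have ht : ∀ s x, t3.Mem s x → ok s = true →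
      Dom (Nat.sub W (slack r)) s x (dk ok (Nat.sub W (slack r))
        (mergeA a (sortA 40 (runs t3)) L.nil)) := fun s x h =>
    dom_dk _ (keeps_mergeA _ _ _ _ _ (Or.inr (Or.inl (mem_sortA _ _ (ml_runs _ h)))))
  have b1 := opt_spec a1
  have b2 := opt_spec a2
  have b3 := opt_spec a3
  have hz : ∀ i < own.length, own.getD i 0 ≠ z := fun i h y => by
    rw [(mem_spec own).2 ⟨i, h, y⟩] at m4; cases m4
  have z1 := hz sx l1
  have z2 := hz sy l2
  have z3 := hz sh l3
  have i1 : own.getD sx 0 ≠ own.getD sy 0 := fun y => d1 (hi.inj sx l1 sy l2 y)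
  have i2 : own.getD sh 0 ≠ own.getD sx 0 := fun y => d2 (hi.inj sh l3 sx l1 y)
  have i3 : own.getD sh 0 ≠ own.getD sy 0 := fun y => d3 (hi.inj sh l3 sy l2 y)
  have oc : ∀ w, occ w r = true → occ w (.e (own.getD sx 0) z sx j1 p1 q1 ::
      .e z (own.getD sh 0) j2 sh p3 q3 :: .e (own.getD sy 0) z sy j3 p2 q2 :: r) = true :=
    fun w h => by simp [occ_e, h]
  have fz := hi.out z hz (occ_e.2 (Or.inr (Or.inl rfl)))
  have r0 : rem c r z = 0 := rem_occ r (fine_spec (c := c) 0 _ m1 r f).1
  have vv := fun a => (fine_spec (c := c) a _ m1 r f).2.2.1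
  have vw := fun a => (fine_spec (c := c) a _ m2 r f).2.2.1
  simp only [Fr, rem, r0] at fz
  simp only [val]
  by_cases c1 : c (own.getD sx 0) z = true <;> by_cases c2 : c (own.getD sy 0) z = true <;>
    by_cases c3 : c z (own.getD sh 0) = true <;>
    simp only [c1, c2, c3, true_and, or_true, true_or, if_true, Bool.false_eq_true, false_and,
      if_false] at fz ⊢
  · omega
  · have := take_sound (p := p1 + p2) (q := q1 + q2) g hW hk ht
      (hi.contract m2 f hz ⟨sx, l1, rfl⟩ ⟨sy, l2, rfl⟩ (fun w hw => ?_) (fun U hU => ?_) oc)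
      (by simp) rfl rfl l1 l2 d1 l4 (((b1.2 s x hm).mono b2.1).mono b3.1)
    · rw [vw] at this
      push_cast at this
      omega
    · simp only [rem, c1, c2, c3, true_and, Bool.false_eq_true, false_and, if_false, hw.symm,
        or_false]
      split_ifs <;> omega
    · simp only [Cross, c1, c2, c3, true_and, Bool.false_eq_true, false_and, false_or] at hU
      exact hU
  · have := take_sound (p := p1 + p3) (q := q1 + q3) g hW hk ht
      (hi.contract m1 f hz ⟨sh, l3, rfl⟩ ⟨sx, l1, rfl⟩ (fun w hw => ?_) (fun U hU => ?_) oc)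
      (by simp) rfl rfl l3 l1 d2 l4 ((b2.2 s x hm).mono b3.1)
    · rw [vv] at this
      push_cast at this
      omega
    · simp only [rem, c1, c2, c3, true_and, Bool.false_eq_true, false_and, if_false, hw.symm,
        or_false, false_or]
      split_ifs <;> omega
    · simp only [Cross, c1, c2, c3, true_and, Bool.false_eq_true, false_and, false_or] at hU
      tauto
  · omega
  · have := take_sound (p := p2 + p3) (q := q2 + q3) g hW hk ht
      (hi.contract m2 f hz ⟨sh, l3, rfl⟩ ⟨sy, l2, rfl⟩ (fun w hw => ?_) (fun U hU => ?_) oc)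
      (by simp) rfl rfl l3 l2 d3 l4 (b3.2 s x hm)
    · rw [vw] at this
      push_cast at this
      omega
    · simp only [rem, c1, c2, c3, true_and, Bool.false_eq_true, false_and, if_false, hw.symm,
        or_false, false_or]
      split_ifs <;> omega
    · simp only [Cross, c1, c2, c3, true_and, Bool.false_eq_true, false_and, false_or] at hU
      tauto
  · omega
  · omega
  · have hi' := ((hi.skip c1).skip c3).skip c2
    have := g.dom hW (dom_dk _ (keeps_mergeA _ _ _ _ _ (Or.inl hm)) (hk c s hi')) hi'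
    omega

theorem run_sound {a' : L} (f : ℕ) : ∀ (n : ℕ) (ops : List Op) (own : List ℕ) (a : L),
    run m W own' a' f n ops own a = true → Good m W (ops.drop n) own' a' → Good m W ops own a := by
  induction f with
  | zero =>
    intro n ops own a h g
    change (Nat.beq n 0 && decide (own = own') && sub a a') = true at h
    rw [Bool.and_eq_true, Bool.and_eq_true, decide_eq_true_eq, Nat.beq_eq] at h
    obtain ⟨⟨rfl, rfl⟩, h⟩ := h
    exact start h g
  | succ f ih =>
    intro n ops own a h g
    cases ops with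
    | nil => cases h
    | cons o r =>
      have K : ∀ d r' t, (o :: r).drop d = r' → (Nat.ble d n && Option.rec false (fun b =>
          fz (Nat.sub n d) fun n' => fl (newOwn o own) fun w => force b fun b =>
            run m W own' a' f n' r' w b) t) = true →
          ∃ b, t = some b ∧ Good m W r' (newOwn o own) b := by
        rintro d _ t rfl h
        rw [Bool.and_eq_true, Nat.ble_eq] at h
        rcases t with _ | b
        · cases h.2
        · have h2 : fz _ _ = true := h.2
          rw [fz_eq, fl_eq, force_eq] at h2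
          refine ⟨b, rfl, ih _ _ _ _ h2 ?_⟩
          rw [List.drop_drop]
          rwa [show d + Nat.sub n d = n from Nat.add_sub_cancel' h.1]
      change next m W o r own a (fun d r' t => Nat.ble d n && Option.rec false (fun b =>
        fz (Nat.sub n d) fun n' => fl (newOwn o own) fun w => force b fun b =>
          run m W own' a' f n' r' w b) t) = true at h
      unfold next at h
      split at h
      · cases e : (_ && _ : Bool)
        · rw [e, cond_false] at h
          obtain ⟨b, h1, h2⟩ := K 1 _ _ rfl h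
          exact step_sound h1 h2
        · rw [e, cond_true] at h
          simp only [Bool.and_eq_true, Nat.beq_eq] at e
          obtain ⟨⟨-, rfl⟩, rfl⟩ := e
          obtain ⟨b, h1, h2⟩ := K 3 _ _ rfl h
          exact step3_sound h1 h2
      · obtain ⟨b, h1, h2⟩ := K 1 _ _ rfl h
        exact step_sound h1 h2

theorem chain3 {a a' : L} {f n k : ℕ} {ops : List Op}
    (h : run m W own' a' f n (ops.drop k) own a = true) (g : Good m W (ops.drop (k + n)) own' a') :
    Good m W (ops.drop k) own a :=
  run_sound f n _ _ _ h (by rwa [List.drop_drop])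

end Pool.Agent.Lib.MP_4f0fb4_co.RZ.DP
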