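import Pool.Agent.Lib.MP_4f0fb4_co.RzDef

/-!
Upper bound for the cycles of the graph of a segment model.
-/

set_option linter.unusedSectionVars false

namespace Pool.Agent.Lib.MP_4f0fb4_co.RZ

open Finset

variable {X E : Type} [Fintype X] [DecidableEq X] [Fintype E] [DecidableEq E] (M : Model X E)

namespace Model

/-- Every connected tour of the model has value at most `W`. -/
def Bound (W : ℕ) : Prop :=
  ∀ (A : Finset (E × Bool)) (t : E → Finset E) (Y : Finset E),
    (∀ e f, f ∈ t e → e ∈ t f) →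
    (∀ e f, f ∈ t e → e ≠ f ∧ (M.T e f = true ∨ M.T f e = true)) →
    (∀ x, (A.filter fun l => M.lab l = x).card = 2) →
    (∀ e, (A.filter fun l => l.1 = e).card + (t e).card = if e ∈ Y then 2 else 0) →
    (∀ (P : Finset X) (Q : Finset E), (P.Nonempty ∨ ∃ e ∈ Y, e ∈ Q) →
      ((∃ x, x ∉ P) ∨ ∃ e ∈ Y, e ∉ Q) →
      (∃ l ∈ A, (M.lab l ∈ P ↔ l.1 ∉ Q)) ∨ ∃ e ∈ Q, ∃ f ∈ t e, f ∉ Q) →
    ∑ l ∈ A, M.w l + Y.card ≤ W

variable {N : M.V → Finset M.V} {K : Finset M.V}

def a (N : M.V → Finset M.V) (l : E × Bool) : ℕ := d N (M.L l) (M.Xs.erase (.inl (M.lab l)))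
def b (N : M.V → Finset M.V) (l : E × Bool) : ℕ := d N (M.L l) {.inl (M.lab l)}
def c (N : M.V → Finset M.V) (l : E × Bool) : ℕ := d N (M.L l) {M.mid l.1}

theorem ab (l : E × Bool) : d N (M.L l) M.Xs = M.a N l + M.b N l := by
  rw [a, b, ← d_union (by simp), union_comm, ← insert_eq, insert_erase (M.mem_Xs.2 ⟨_, rfl⟩)]

theorem cross_eq (h : Cy M.G N K) (l : E × Bool) :
    d N (M.L l) (M.L l)ᶜ = M.a N l + M.b N l + M.c N l := by
  rw [← ab, c, ← d_union (by simp [mem_Xs])]
  refine le_antisymm (d_le subset_rfl fun u hu v hv h1 => ?_) (d_le subset_rfl fun u _ v _ h1 => ?_)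
  · obtain ⟨i, rfl⟩ := M.mem_L.1 hu
    rcases M.adjL (h.adj _ _ hv) with ⟨j, rfl, -⟩ | rfl | ⟨x, rfl, -⟩
    · exact (mem_compl.1 h1 (M.mem_L.2 ⟨j, rfl⟩)).elim
    · simp
    · simp [mem_Xs]
  · simp only [mem_union, mem_Xs, mem_singleton] at h1
    rcases h1 with ⟨x, rfl⟩ | rfl <;> simp [mem_L]

theorem c_le (h : Cy M.G N K) (l : E × Bool) : M.c N l ≤ 2 := by
  rw [c, h.d_comm]
  refine (d_le (B' := univ) subset_rfl fun _ _ _ _ _ => mem_univ _).trans ?_
  rw [h.d_univ]
  have : ({M.mid l.1} ∩ K).card ≤ 1 := (card_le_card inter_subset_left).trans (by simp)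
  omega

theorem full (h : Cy M.G N K) (l : E × Bool) (hX : ∃ v ∈ K, v ∉ M.L l)
    (hn : M.n l < (K ∩ M.L l).card + M.B) : 2 + M.a N l ≤ M.b N l + M.c N l := by
  have h1 : ∀ j ∈ range (M.s + 1), 2 ≤
      d N (M.Bl l j) (M.S l ∪ ({.inl (M.lab l)} ∪ {M.mid l.1})) := by
    intro j hj
    have hj' : j ≤ M.s := Nat.lt_succ_iff.1 (mem_range.1 hj)
    have hs : M.Bl l j ⊆ M.L l := filter_subset _ _
    refine (h.two_le (U := M.Bl l j) ?_ ?_).trans (d_le subset_rfl fun u hu v hv h2 => ?_)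
    · by_contra hc
      push Not at hc
      have : K ∩ M.L l ⊆ M.L l \ M.Bl l j := fun v hv =>
        mem_sdiff.2 ⟨(mem_inter.1 hv).2, hc v (mem_inter.1 hv).1⟩
      have := card_le_card this
      rw [card_sdiff_of_subset hs, card_L] at this
      have := M.card_Bl l hj'
      have := card_le_card hs
      rw [card_L] at this
      omega
    · obtain ⟨v, h1, h2⟩ := hX
      exact ⟨v, h1, fun h3 => h2 (hs h3)⟩
    · obtain ⟨i, rfl⟩ := M.mem_L.1 (hs hu)
      simp only [Bl, mem_filter, mem_compl, pos] at hu h2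
      rcases M.adjL (h.adj _ _ hv) with ⟨k, rfl, h3⟩ | rfl | ⟨x, rfl, h3⟩
      · have hk : M.gv l k ∈ M.L l := M.mem_L.2 ⟨k, rfl⟩
        refine mem_union_left _ (mem_filter.2 ⟨hk, ?_⟩)
        by_contra h4
        simp only [pos] at h4 h2
        exact h2 ⟨hk, h4, by rw [← hu.2.2]; tauto⟩
      · simp
      · simp [h3.resolve_left hu.2.1]
  have h2 : 2 * (M.s + 1) ≤ d N (M.L l \ M.S l) (M.S l ∪ ({.inl (M.lab l)} ∪ {M.mid l.1})) := by
    have := sum_le_sum h1
    rw [sum_const, card_range, smul_eq_mul, mul_comm] at this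
    refine this.trans (le_of_eq ?_)
    unfold d
    rw [← sum_fiberwise_of_maps_to (s := M.L l \ M.S l) (t := range (M.s + 1))
      (g := fun v => M.blk (M.pos v)) fun v _ => mem_range.2 (Nat.lt_succ_of_le (min_le_right _ _))]
    refine sum_congr rfl fun j _ => sum_congr ?_ fun _ _ => rfl
    ext v
    simp only [Bl, S, mem_filter, mem_sdiff]
    tauto
  have h3 := d_union_le (N := N) (M.L l \ M.S l) (M.S l) ({.inl (M.lab l)} ∪ {M.mid l.1})
  have h4 := d_union_le (N := N) (M.L l \ M.S l) {.inl (M.lab l)} {M.mid l.1}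
  have h5 : d N (M.L l \ M.S l) {.inl (M.lab l)} ≤ M.b N l := d_le sdiff_subset fun _ _ _ _ h => h
  have h6 : d N (M.L l \ M.S l) {M.mid l.1} ≤ M.c N l := d_le sdiff_subset fun _ _ _ _ h => h
  have h7 : d N (M.S l) ((M.L l \ M.S l) ∪ M.Xs.erase (.inl (M.lab l))) ≤ 2 * M.s := by
    refine (d_le (B' := univ) subset_rfl fun _ _ _ _ _ => mem_univ _).trans ?_
    rw [h.d_univ]
    have := (card_le_card (inter_subset_left (s₂ := K))).trans (M.card_S l)
    omega
  rw [d_union (by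
    rw [disjoint_left]
    intro v h1 h2
    obtain ⟨i, rfl⟩ := M.mem_L.1 (mem_sdiff.1 h1).1
    simp [mem_Xs] at h2)] at h7
  have h8 : M.a N l ≤ d N (M.S l) (M.Xs.erase (.inl (M.lab l))) := by
    rw [a, h.d_comm, h.d_comm (M.S l)]
    refine d_le subset_rfl fun u hu v hv h1 => mem_filter.2 ⟨h1, ?_⟩
    obtain ⟨i, rfl⟩ := M.mem_L.1 h1
    obtain ⟨h2, h3⟩ := mem_erase.1 hu
    obtain ⟨x, rfl⟩ := M.mem_Xs.1 h3
    rcases M.adjL (h.adj _ _ hv).symm with ⟨k, h4, -⟩ | h4 | ⟨y, h4, h5⟩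
    · simp at h4
    · simp at h4
    · obtain rfl : x = y := by simpa using h4
      exact h5.resolve_right fun e => h2 (by rw [e])
  rw [h.d_comm (M.S l)] at h7
  omega

theorem ab_pos (h : Cy M.G N K) (l : E × Bool) (hK : M.n l + 1 < K.card)
    (hv : ∃ v ∈ K, v ∈ M.L l) : 1 ≤ M.a N l + M.b N l := by
  by_contra hc
  have h0 : d N (M.L l) M.Xs = 0 := by rw [ab]; omega
  have out : ∀ U : Finset M.V, U.card ≤ M.n l + 1 → ∃ v ∈ K, v ∉ U := fun U hU => by
    by_contra hc
    push Not at hc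
    have := card_le_card (show K ⊆ U from hc)
    omega
  have h1 := h.two_le hv (out _ (by rw [card_L]; omega))
  rw [M.cross_eq h] at h1
  have h2 : 2 ≤ d N {M.mid l.1} (M.L l) := by rw [h.d_comm, ← c]; omega
  obtain ⟨v, v1, v2⟩ := hv
  obtain ⟨u, hu, y, hy, h3⟩ := h.conn (insert (M.mid l.1) (M.L l)) ⟨v, v1, mem_insert_of_mem v2⟩
    (out _ ((card_insert_le _ _).trans (by rw [card_L])))
  rw [mem_insert, not_or] at h3
  rcases mem_insert.1 hu with rfl | hu
  · have h4 := d_pos (N := N) (mem_singleton_self _) hy (mem_compl.2 h3.2)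
    have h5 := h.d_univ {M.mid l.1}
    rw [← union_compl (M.L l), d_union disjoint_compl_right] at h5
    have : ({M.mid l.1} ∩ K).card ≤ 1 := (card_le_card inter_subset_left).trans (by simp)
    omega
  · obtain ⟨i, rfl⟩ := M.mem_L.1 hu
    rcases M.adjL (h.adj _ _ hy) with ⟨k, rfl, -⟩ | rfl | ⟨x, rfl, -⟩
    · exact h3.2 (M.mem_L.2 ⟨k, rfl⟩)
    · exact h3.1 rfl
    · have := d_pos (N := N) hu hy (M.mem_Xs.2 ⟨x, rfl⟩)
      omega

theorem sum_split (f : M.V → ℕ) : ∑ v, f v =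
    ∑ x, f (.inl x) + (∑ e, f (M.mid e) + ∑ l, ∑ v ∈ M.L l, f v) := by
  rw [Fintype.sum_sum_type, Fintype.sum_sum_type, Fintype.sum_sigma]
  congr 2
  refine sum_congr rfl fun l _ => ?_
  refine sum_bij (fun i _ => M.gv l i) (fun i _ => M.mem_L.2 ⟨i, rfl⟩) (fun i _ j _ h => ?_)
    (fun v hv => ?_) fun _ _ => rfl
  · simpa using h
  · obtain ⟨i, rfl⟩ := M.mem_L.1 hv
    exact ⟨i, mem_univ _, rfl⟩

theorem card_split (K : Finset M.V) : K.card = (univ.filter fun x => Sum.inl x ∈ K).card +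
    ((univ.filter fun e => M.mid e ∈ K).card + ∑ l, (K ∩ M.L l).card) := by
  have := M.sum_split fun v => if v ∈ K then 1 else 0
  simp only [← card_filter, filter_mem_eq_inter, univ_inter] at this
  simpa only [inter_comm] using this

theorem deg_split (h : Cy M.G N K) (u : M.V) : (if u ∈ K then 2 else 0) =
    (univ.filter fun x => Sum.inl x ∈ N u).card +
    ((univ.filter fun e => M.mid e ∈ N u).card + ∑ l, d N (M.L l) {u}) := by
  rw [← h.deg, M.card_split]
  congr 2
  refine sum_congr rfl fun l _ => ?_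
  rw [h.d_comm, d_eq, sum_singleton, inter_comm]

theorem upper {W : ℕ} (hB : M.Bound W) (h : Cy M.G N K) (hX : 0 < Fintype.card X) :
    K.card ≤ Fintype.card X + 2 * Fintype.card X * M.n0 + W := by
  by_contra hK
  rw [not_le] at hK
  set m := Fintype.card X with hm
  let A : Finset (E × Bool) := univ.filter fun l => ∃ v ∈ K, v ∈ M.L l
  let Y : Finset E := univ.filter fun e => M.mid e ∈ K
  have hBn : M.B ≤ M.n0 := Nat.le_add_left _ _
  have hBd : M.B = Fintype.card E + ∑ l, M.w l + 2 := rfl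
  have hwl : ∀ l, M.w l ≤ ∑ l, M.w l := fun l =>
    single_le_sum (f := M.w) (fun _ _ => Nat.zero_le _) (mem_univ l)
  have hm2 : 2 * M.n0 ≤ 2 * m * M.n0 := Nat.mul_le_mul_right _ (by omega)
  have big : ∀ l, M.n l + 1 < K.card := fun l => by
    have := hwl l
    unfold n
    omega
  have z : ∀ l ∉ A, ∀ U, d N (M.L l) U = 0 := fun l hl U => by
    rw [d_eq]
    refine sum_eq_zero fun u hu => card_eq_zero.2 (eq_empty_of_forall_notMem fun v hv => hl ?_)
    exact mem_filter.2 ⟨mem_univ _, u, h.mem (mem_inter.1 hv).2, hu⟩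
  have p1 : ∀ l ∈ A, 1 ≤ M.a N l + M.b N l := fun l hl =>
    M.ab_pos h l (big l) (mem_filter.1 hl).2
  have dX : ∀ x, (if Sum.inl x ∈ K then 2 else 0) = ∑ l, d N (M.L l) {.inl x} := fun x => by
    rw [M.deg_split h, card_eq_zero.2, card_eq_zero.2, zero_add, zero_add] <;>
      refine filter_eq_empty_iff.2 fun y _ hy => ?_ <;>
      obtain ⟨l, i, e⟩ := M.adjX (h.adj _ _ hy) <;> simp at e
  have eX : ∀ l, M.a N l + M.b N l = ∑ x, d N (M.L l) {.inl x} := fun l => by
    rw [← ab]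
    unfold d
    rw [sum_comm (s := univ)]
    refine sum_congr rfl fun u _ => ?_
    simp only [Xs, sum_map, sum_singleton, Function.Embedding.coeFn_mk]
  have tot : ∑ l ∈ A, (M.a N l + M.b N l) = ∑ x, if Sum.inl x ∈ K then 2 else 0 := by
    rw [sum_subset (subset_univ A) fun l _ hl => by rw [← ab, z l hl]]
    simp only [eX, dX]
    exact sum_comm
  have tot2 : (∑ x, if Sum.inl x ∈ K then 2 else 0) ≤ ∑ _x : X, 2 :=
    sum_le_sum fun x _ => by split_ifs <;> omega
  have tot3 : ∑ _x : X, 2 = 2 * m := by simp [hm, mul_comm]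
  have tot4 : ∑ _l ∈ A, 1 ≤ ∑ l ∈ A, (M.a N l + M.b N l) := sum_le_sum p1
  have cA : ∑ _l ∈ A, 1 = A.card := by simp
  have cK := M.card_split K
  have c1 : (univ.filter fun x => Sum.inl x ∈ K).card ≤ m := card_le_univ _
  have c2 : Y.card ≤ Fintype.card E := card_le_univ _
  have c3 : ∑ l, (K ∩ M.L l).card = ∑ l ∈ A, (K ∩ M.L l).card := by
    refine (sum_subset (subset_univ A) fun l _ hl => card_eq_zero.2
      (eq_empty_of_forall_notMem fun v hv => hl ?_)).symm
    exact mem_filter.2 ⟨mem_univ _, v, mem_inter.1 hv⟩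
  have c4 : ∀ l, (K ∩ M.L l).card ≤ M.n l := fun l =>
    (card_le_card inter_subset_right).trans (M.card_L l).le
  have c5 : ∑ l ∈ A, M.n l = A.card * M.n0 + ∑ l ∈ A, M.w l := by
    simp [n, sum_add_distrib]
  have c6 : ∑ l ∈ A, M.w l ≤ ∑ l, M.w l := sum_le_sum_of_subset (subset_univ _)
  have c7 : ∑ l ∈ A, (K ∩ M.L l).card ≤ ∑ l ∈ A, M.n l := sum_le_sum fun l _ => c4 l
  change _ = _ + (Y.card + _) at cK
  have hA : A.card = 2 * m := by
    by_contra hc
    have := Nat.mul_le_mul_right M.n0 (show A.card + 1 ≤ 2 * m by omega)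
    rw [add_mul] at this
    omega
  have p2 : ∀ l ∈ A, 1 = M.a N l + M.b N l := (sum_eq_sum_iff_of_le p1).1 (by omega)
  have allX : ∀ x, Sum.inl x ∈ K := fun x => by
    have := (sum_eq_sum_iff_of_le (s := univ) (f := fun x : X => if Sum.inl x ∈ K then 2 else 0)
      (g := fun _ => 2) fun x _ => by split_ifs <;> omega).1 (by omega) x (mem_univ _)
    by_contra hc
    simp [hc] at this
  obtain ⟨x0⟩ := Fintype.card_pos_iff.1 hX
  have p3 : ∀ l ∈ A, M.a N l = 0 ∧ M.b N l = 1 ∧ M.c N l = 1 := fun l hl => by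
    have e1 := sum_erase_add A (fun l => (K ∩ M.L l).card) hl
    have e2 := sum_erase_add A M.n hl
    have e3 : ∑ l ∈ A.erase l, (K ∩ M.L l).card ≤ ∑ l ∈ A.erase l, M.n l :=
      sum_le_sum fun l _ => c4 l
    rw [hA] at c5
    have := M.full h l ⟨_, allX x0, by simp [mem_L]⟩ (by omega)
    have := p2 l hl
    have := M.c_le h l
    have e4 := Nat.even_iff.1 (h.even_cross (M.L l))
    rw [M.cross_eq h] at e4
    omega
  have p4 : ∀ l x, d N (M.L l) {.inl x} = if l ∈ A ∧ M.lab l = x then 1 else 0 := fun l x => by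
    split_ifs with hc
    · obtain ⟨h1, rfl⟩ := hc
      exact (p3 l h1).2.1
    · by_cases h1 : l ∈ A
      · refine Nat.le_zero.1 (le_of_le_of_eq (d_le subset_rfl fun _ _ v _ hv => ?_) (p3 l h1).1)
        rw [mem_singleton.1 hv]
        exact mem_erase.2 ⟨fun e => hc ⟨h1, (Sum.inl_injective e).symm⟩, M.mem_Xs.2 ⟨_, rfl⟩⟩
      · exact z l h1 _
  have p5 : ∀ l e, d N (M.L l) {M.mid e} = if l ∈ A ∧ l.1 = e then 1 else 0 := fun l e => by
    split_ifs with hc
    · obtain ⟨h1, rfl⟩ := hc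
      exact (p3 l h1).2.2
    · by_cases h1 : l ∈ A
      · rw [d_eq]
        refine sum_eq_zero fun u hu => card_eq_zero.2 (eq_empty_of_forall_notMem fun v hv => ?_)
        obtain ⟨i, rfl⟩ := M.mem_L.1 hu
        obtain ⟨h2, h3⟩ := mem_inter.1 hv
        rw [mem_singleton.1 h2] at h3
        rcases M.adjL (h.adj _ _ h3) with ⟨k, h4, -⟩ | h4 | ⟨y, h4, -⟩ <;> simp at h4
        exact hc ⟨h1, h4.symm⟩
      · exact z l h1 _
  have cf : ∀ (p : E × Bool → Prop) [DecidablePred p],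
      (∑ l, if l ∈ A ∧ p l then 1 else 0) = (A.filter p).card := fun p _ => by
    rw [← card_filter]
    congr 1
    ext l
    simp only [mem_filter, mem_univ, true_and]
  have key := hB A (fun e => univ.filter fun f => M.mid f ∈ N (M.mid e)) Y
    (fun e f hf => by simpa using h.symm _ _ (by simpa using hf)) (fun e f hf => by
      have h1 := h.adj _ _ (mem_filter.1 hf).2
      refine ⟨fun e' => h1.ne (by rw [e']), ?_⟩
      rcases M.adjM h1 with ⟨g, h2, h3⟩ | ⟨b, i, h2⟩ <;> simp at h2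
      rwa [h2])
    (fun x => by
      have := dX x
      simp only [p4, allX x, if_true] at this
      rw [← cf, ← this])
    (fun e => by
      have := M.deg_split h (M.mid e)
      simp only [p5] at this
      rw [cf, card_eq_zero.2 (filter_eq_empty_iff.2 fun y _ hy => by
        rcases M.adjM (h.adj _ _ hy) with ⟨g, h2, h3⟩ | ⟨b, i, h2⟩ <;> simp at h2)] at this
      simp only [Y, mem_filter, mem_univ, true_and]
      omega)
    (fun P Q hP hQ => by
      classical
      let U : Finset M.V := univ.filter fun v => match v with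
        | .inl x => x ∈ P
        | .inr (.inl e) => e ∈ Q
        | .inr (.inr g) => M.lab g.1 ∈ P
      have inA : ∀ l i u, u ∈ N (M.gv l i) → l ∈ A := fun l i u hu =>
        mem_filter.2 ⟨mem_univ _, _, h.mem hu, M.mem_L.2 ⟨i, rfl⟩⟩
      have own : ∀ l i x, Sum.inl x ∈ N (M.gv l i) → M.lab l = x := fun l i x hx => by
        have := d_pos (N := N) (M.mem_L.2 ⟨i, rfl⟩) hx (mem_singleton_self _)
        rw [p4] at this
        by_contra hc
        simp [hc] at this
      obtain ⟨u, hu, v, hv, h3⟩ := h.conn U (by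
        rcases hP with ⟨x, hx⟩ | ⟨e, h1, h2⟩
        · exact ⟨_, allX x, by simpa [U] using hx⟩
        · exact ⟨_, (mem_filter.1 h1).2, by simpa [U] using h2⟩) (by
        rcases hQ with ⟨x, hx⟩ | ⟨e, h1, h2⟩
        · exact ⟨_, allX x, by simpa [U] using hx⟩
        · exact ⟨_, (mem_filter.1 h1).2, by simpa [U] using h2⟩)
      have hv' := h.symm _ _ hv
      rcases u with x | e | ⟨l, i⟩
      · obtain ⟨l, i, rfl⟩ := M.adjX (h.adj _ _ hv)
        simp only [U, mem_filter, mem_univ, true_and] at hu h3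
        exact (h3 (own l i x hv' ▸ hu)).elim
      · rcases M.adjM (h.adj _ _ hv) with ⟨f, rfl, -⟩ | ⟨b, i, rfl⟩ <;>
          simp only [U, mem_filter, mem_univ, true_and] at hu h3
        · exact Or.inr ⟨e, hu, f, by simpa using hv, h3⟩
        · exact Or.inl ⟨_, inA _ _ _ hv', by simp [hu, h3]⟩
      · rcases M.adjL (h.adj _ _ hv) with ⟨k, rfl, -⟩ | rfl | ⟨x, rfl, -⟩ <;>
          simp only [U, mem_filter, mem_univ, true_and] at hu h3
        · exact (h3 hu).elim
        · exact Or.inl ⟨_, inA _ _ _ hv, by simp [hu, h3]⟩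
        · exact (h3 (own l i x hv ▸ hu)).elim)
  rw [hA] at c5
  omega

end Model

end Pool.Agent.Lib.MP_4f0fb4_co.RZ
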