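import Pool.Agent.Lib.MP_4f0fb4_co.SqDec

/-!
Combs: disjoint teeth from the vertices of a path to vertices with few neighbours off a set,
and the resulting count on a longest cycle.
-/

namespace Pool.Agent.Lib.MP_4f0fb4_co

open Finset Classical

variable {V : Type} {r : V → V → Prop}

noncomputable def fs [Fintype V] (P : V → Prop) : Finset V := univ.filter P

@[simp] theorem mem_fs [Fintype V] {P : V → Prop} {a : V} : a ∈ fs P ↔ P a := by simp [fs]

noncomputable abbrev cn [Fintype V] (P : V → Prop) : ℕ := (fs P).card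

/-- Every path avoiding `C` has at most `p` vertices. -/
def PB (r : V → V → Prop) (C : List V) (p : ℕ) : Prop :=
  ∀ a e l, Wk r a e l → l.Nodup → (∀ v ∈ l, v ∉ C) → l.length ≤ p

structure Comb (r : V → V → Prop) (n : ℕ) (b : ℕ → V) (t : ℕ → List V) (e : ℕ → V) : Prop where
  symm : ∀ x y, r x y → r y x
  inj : ∀ i < n, ∀ j < n, b i = b j → i = j
  adj : ∀ i, i + 1 < n → r (b i) (b (i + 1))
  tw : ∀ i < n, Wk r (b i) (e i) (b i :: t i)
  tn : ∀ i < n, (t i).Nodup
  tb : ∀ i < n, ∀ v ∈ t i, ∀ j < n, b j ≠ v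
  td : ∀ i < n, ∀ j < n, i ≠ j → (t i).Disjoint (t j)

theorem sq_teeth [Fintype V] (hs : ∀ x y, r x y → r y x) {C : List V} {U : Set V}
    (hCU : ∀ v ∈ C, v ∈ U) {p : ℕ} (hp : PB r C p) {b : ℕ → V} {n : ℕ} (hn : n ≤ p)
    (inj : ∀ i < n, ∀ j < n, b i = b j → i = j) (adj : ∀ i, i + 1 < n → r (b i) (b (i + 1)))
    (off : ∀ i < n, b i ∉ C) : ∃ t e, Comb r n b t e ∧
      ∀ i < n, (∀ v ∈ t i, v ∉ U) ∧ cn (fun w => r (e i) w ∧ w ∉ U) ≤ 3 * p := by
  let S := (range n).image b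
  have hS : S.card = n := by
    rw [card_image_of_injOn fun i hi j hj e => inj i (by simpa using hi) j (by simpa using hj) e,
      card_range]
  obtain ⟨W, w1, w2⟩ := menger (r := fun x y => r x y ∧ y ∉ U ∧ y ∉ S) (A := ↑S)
    (B := {v | cn (fun w => r v w ∧ w ∉ U) ≤ 3 * p}) (k := n) (by
      intro Z hZ
      obtain ⟨u, u1, u2⟩ := exists_mem_notMem_of_card_lt_card (s := Z) (t := S) (by omega)
      by_contra hc
      have key : ∀ m, ∃ x l, Wk (fun x y => r x y ∧ y ∉ U ∧ y ∉ S) u x l ∧ l.Nodup ∧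
          (∀ v ∈ l, v ∉ Z ∧ v ∉ C) ∧ l.length = m + 1 := by
        intro m
        induction m with
        | zero =>
          obtain ⟨i, hi, rfl⟩ := mem_image.1 u1
          exact ⟨_, [b i], Wk.one _, by simp, by simpa using ⟨u2, off i (by simpa using hi)⟩, rfl⟩
        | succ m ih =>
          obtain ⟨x, l, h1, h2, h3, h4⟩ := ih
          have h5 := hp _ _ l (h1.mono fun _ _ _ _ h => h.1) h2 fun v hv => (h3 v hv).2
          have h6 : ¬cn (fun w => r x w ∧ w ∉ U) ≤ 3 * p := fun h =>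
            hc ⟨u, u1, x, h, l, h1, fun v hv => (h3 v hv).1⟩
          obtain ⟨w, g1, g2⟩ := exists_mem_notMem_of_card_lt_card (s := S ∪ Z ∪ l.toFinset)
            (t := fs fun w => r x w ∧ w ∉ U) (by
              have := card_union_le (S ∪ Z) l.toFinset
              have := card_union_le S Z
              have := List.toFinset_card_le l
              unfold cn at h6
              omega)
          simp only [mem_fs, mem_union, List.mem_toFinset, not_or] at g1 g2
          refine ⟨w, l ++ [w], h1.append ⟨g1.1, g1.2, g2.1.1⟩ (Wk.one w), ?_, ?_, by simp [h4]⟩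
          · exact List.nodup_append.2 ⟨h2, by simp, fun v hv z hz e =>
              g2.2 (List.mem_singleton.1 hz ▸ e ▸ hv)⟩
          · intro v hv
            rcases List.mem_append.1 hv with hv | hv
            · exact h3 v hv
            · rw [List.mem_singleton.1 hv]
              exact ⟨g2.1.2, fun h => g1.2 (hCU _ h)⟩
      obtain ⟨x, l, h1, h2, h3, h4⟩ := key p
      have := hp _ _ l (h1.mono fun _ _ _ _ h => h.1) h2 fun v hv => (h3 v hv).2
      omega)
  choose a ha c hc hr using w2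
  have ainj : Function.Injective a := fun i j e => by
    by_contra hne
    exact Set.disjoint_left.1 (w1 i j hne) (hr i).left (e ▸ (hr j).left)
  have asur : univ.image a = S := eq_of_subset_of_card_le
    (fun x hx => by obtain ⟨i, -, rfl⟩ := mem_image.1 hx; exact ha i)
    (by rw [card_image_of_injective _ ainj]; simp [hS])
  have : ∀ i, ∃ (t : List V) (e : V), i < n → Wk r (b i) e (b i :: t) ∧ t.Nodup ∧
      (∀ v ∈ t, v ∉ U ∧ v ∉ S) ∧ cn (fun w => r e w ∧ w ∉ U) ≤ 3 * p ∧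
      ∃ k, a k = b i ∧ ∀ v ∈ t, v ∈ W k := by
    intro i
    by_cases hi : i < n
    · obtain ⟨k, -, hk⟩ := mem_image.1 (asur ▸ mem_image_of_mem b (mem_range.2 hi) :
        b i ∈ univ.image a)
      obtain ⟨l, l1, l2, l3⟩ := (hr k).path
      obtain ⟨t, rfl⟩ := l1.eq_cons
      refine ⟨t, c k, fun _ => ⟨hk ▸ l1.mono fun _ _ _ _ h => h.1, l2.of_cons, fun v hv => ?_, hc k,
        k, hk, fun v hv => l3 v (List.mem_cons_of_mem _ hv)⟩⟩
      rcases (l1.mem_cases (List.mem_cons_of_mem _ hv)).1 with rfl | ⟨u, hu⟩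
      · exact ((List.nodup_cons.1 l2).1 hv).elim
      · exact hu.2
    · exact ⟨[], b i, fun h => (hi h).elim⟩
  choose t e ht using this
  refine ⟨t, e, ⟨hs, inj, adj, fun i hi => (ht i hi).1, fun i hi => (ht i hi).2.1,
    fun i hi v hv j hj g => ((ht i hi).2.2.1 v hv).2 (g ▸ mem_image_of_mem b (mem_range.2 hj)),
    fun i hi j hj hij v g1 g2 => ?_⟩,
    fun i hi => ⟨fun v hv => ((ht i hi).2.2.1 v hv).1, (ht i hi).2.2.2.1⟩⟩
  obtain ⟨k, k1, k2⟩ := (ht i hi).2.2.2.2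
  obtain ⟨k', k3, k4⟩ := (ht j hj).2.2.2.2
  exact Set.disjoint_left.1 (w1 k k' fun g => hij (inj i hi j hj (by rw [← k1, ← k3, g])))
    (k2 v g1) (k4 v g2)

theorem sq_gap (W : Finset ℕ) (hW : W.Nonempty) : ∃ i ∈ W, ∃ j ∈ W, W.card + i ≤ j + 1 ∧
    ((∀ i ∈ W, i + 1 ∉ W) → 2 * W.card + i ≤ j + 2) := by
  refine ⟨_, W.min'_mem hW, _, W.max'_mem hW, ?_, fun h => ?_⟩
  · have := card_le_card (show W ⊆ Icc (W.min' hW) (W.max' hW) from fun x hx =>
      mem_Icc.2 ⟨W.min'_le x hx, W.le_max' x hx⟩)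
    have := W.min'_le _ (W.max'_mem hW)
    rw [Nat.card_Icc] at *
    omega
  · have h1 := card_le_card (show W ∪ W.image (· + 1) ⊆ Icc (W.min' hW) (W.max' hW + 1) from
      fun x hx => by
        rcases mem_union.1 hx with hx | hx
        · exact mem_Icc.2 ⟨W.min'_le x hx, (W.le_max' x hx).trans (by omega)⟩
        · obtain ⟨y, hy, rfl⟩ := mem_image.1 hx
          have := W.min'_le y hy
          have := W.le_max' y hy
          exact mem_Icc.2 ⟨by omega, by omega⟩)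
    rw [card_union_of_disjoint (disjoint_left.2 fun x g1 g2 => by
      obtain ⟨y, hy, rfl⟩ := mem_image.1 g2
      exact h y hy g1), card_image_of_injective _ (add_left_injective 1), Nat.card_Icc] at h1
    have := W.min'_le _ (W.max'_mem hW)
    omega

namespace Comb

variable {n : ℕ} {b : ℕ → V} {t : ℕ → List V} {e : ℕ → V} (h : Comb r n b t e)
include h

theorem arm {i j : ℕ} (hi : i < n) (hj : j < n) : ∃ l, Wk r (b i) (e j) l ∧ l.Nodup ∧
    (∀ v ∈ l, v ∈ t j ∨ ∃ s, min i j ≤ s ∧ s ≤ max i j ∧ b s = v) ∧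
      l.length + min i j = (t j).length + max i j + 1 := by
  obtain ⟨l, h1, h2, h3, h4⟩ := sq_seg h.symm h.inj h.adj hi hj
  refine ⟨l ++ t j, h1.trans (h.tw j hj), List.nodup_append.2 ⟨h2, h.tn j hj, ?_⟩,
    fun v hv => (List.mem_append.1 hv).elim (fun g => Or.inr (h3 v g)) Or.inl, by
      rw [List.length_append]; omega⟩
  rintro v g1 _ g2 rfl
  obtain ⟨s, -, s2, s3⟩ := h3 v g1
  exact h.tb j hj v g2 s (by omega) s3

theorem path {i j : ℕ} (hi : i < n) (hj : j < n) (hij : i ≠ j) : ∃ l, Wk r (e i) (e j) l ∧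
    l.Nodup ∧ (∀ v ∈ l, v ∈ t i ∨ v ∈ t j ∨ ∃ s < n, b s = v) ∧
      l.length + min i j = (t i).length + (t j).length + max i j + 1 := by
  obtain ⟨l, h1, h2, h3, h4⟩ := h.arm hi hj
  obtain ⟨l', rfl⟩ := h1.eq_cons
  refine ⟨(t i).reverse ++ b i :: l', by
    simpa using ((h.tw i hi).reverse h.symm).trans h1, List.nodup_append.2
      ⟨List.nodup_reverse.2 (h.tn i hi), h2, ?_⟩, fun v hv => ?_, by
      rw [List.length_append, List.length_reverse]; omega⟩
  · rintro v g1 _ g2 rfl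
    rcases h3 v g2 with g | ⟨s, -, s2, s3⟩
    · exact h.td i hi j hj hij (List.mem_reverse.1 g1) g
    · exact h.tb i hi v (List.mem_reverse.1 g1) s (by omega) s3
  · rcases List.mem_append.1 hv with g | g
    · exact Or.inl (List.mem_reverse.1 g)
    · rcases h3 v g with g | ⟨s, -, s2, s3⟩
      · exact Or.inr (Or.inl g)
      · exact Or.inr (Or.inr ⟨s, by omega, s3⟩)

theorem end_mem {i : ℕ} (hi : i < n) : e i = b i ∨ e i ∈ t i := List.mem_cons.1 (h.tw i hi).last_mem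

theorem count [Fintype V] {L : List V} (hL : Longest r L) (o1 : ∀ i < n, b i ∉ L)
    (o2 : ∀ i < n, ∀ v ∈ t i, v ∉ L) {J : Finset ℕ} (hJ : ∀ i ∈ J, i < n) {κ : ℕ} (hκ : 2 ≤ κ)
    (deg : ∀ i ∈ J, κ ≤ cn fun a => r (e i) a ∧ a ∈ L) {O : Set V}
    (hO : ∀ a ∈ L, a ∈ O → ∀ i ∈ J, i + 1 ∈ J → r (e i) a → ¬r (e (i + 1)) a) {i0 : ℕ}
    (h0 : i0 ∈ J) :
    (J.card + 1) * κ + ∑ i ∈ J.erase i0, cn (fun a => r (e i) a ∧ a ∈ L ∧ a ∈ O) ≤ L.length := by
  let W := fun a => J.filter fun i => r (e i) a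
  let Y := univ.filter fun a => a ∈ L ∧ (W a).Nonempty
  let g := fun a => (W a).card + if a ∈ O then (W a).card else 1
  have cp : ∀ a a', ∀ i ∈ W a, ∀ j ∈ W a', CP r {v | v ∈ L} a a' ((j : ℝ) - i + 2) := by
    intro a a' i hi j hj
    rw [mem_filter] at hi hj
    by_cases hij : i = j
    · subst hij
      refine ⟨[e i], (Wk.one _).fit (h.symm _ _ hi.2) hj.2, by simp, by simp, ?_, by norm_num⟩
      rcases h.end_mem (hJ i hi.1) with g | g
      · simpa [g] using o1 i (hJ i hi.1)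
      · simpa using o2 i (hJ i hi.1) _ g
    · obtain ⟨l, l1, l2, l3, l4⟩ := h.path (hJ i hi.1) (hJ j hj.1) hij
      refine ⟨l, l1.fit (h.symm _ _ hi.2) hj.2, l2, List.ne_nil_of_length_pos l1.length_pos,
        fun v hv => ?_, ?_⟩
      · rcases l3 v hv with g | g | ⟨s, s1, rfl⟩
        · exact o2 i (hJ i hi.1) v g
        · exact o2 j (hJ j hj.1) v g
        · exact o1 s s1
      · have : (j : ℝ) + 1 ≤ l.length + i := by exact_mod_cast (by omega)
        linarith
  have sp : ∀ a ∈ Y, ∃ i ∈ W a, ∃ j ∈ W a, (g a : ℝ) + i ≤ j + 2 := fun a ha => by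
    obtain ⟨a1, a2⟩ := (mem_filter.1 ha).2
    obtain ⟨i, hi, j, hj, g1, g2⟩ := sq_gap _ a2
    refine ⟨i, hi, j, hj, ?_⟩
    have : g a + i ≤ j + 2 := by
      simp only [g]
      split_ifs with c
      · have := g2 fun s s1 s2 => hO a a1 c s (mem_filter.1 s1).1 (mem_filter.1 s2).1
          (mem_filter.1 s1).2 (mem_filter.1 s2).2
        omega
      · omega
    exact_mod_cast this
  have sub : (fs fun a => r (e i0) a ∧ a ∈ L) ⊆ Y := fun a ha =>
    mem_filter.2 ⟨mem_univ _, (mem_fs.1 ha).2, i0, mem_filter.2 ⟨h0, (mem_fs.1 ha).1⟩⟩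
  have c1 := hL.count (Y := Y) (W := fun a => g a) (K := 2) (fun a ha => (mem_filter.1 ha).2.1)
    (hκ.trans ((deg i0 h0).trans (card_le_card sub))) (by
      intro a ha a' ha' _ q hq
      obtain ⟨i, hi, j, hj, g1⟩ := sp a ha
      obtain ⟨i', hi', j', hj', g2⟩ := sp a' ha'
      have := hq _ (cp a a' i hi j' hj')
      have := hq _ ((cp a' a i' hi' j hj).symm h.symm)
      linarith)
  have c2 : ∑ a ∈ Y, g a ≤ L.length := by
    have : ((∑ a ∈ Y, g a : ℕ) : ℝ) ≤ L.length := by push_cast at c1 ⊢; linarith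
    exact_mod_cast this
  have d1 : ∑ a ∈ Y, (W a).card = ∑ i ∈ J, cn fun a => r (e i) a ∧ a ∈ L := by
    simp only [W, card_filter]
    rw [sum_comm]
    refine sum_congr rfl fun i hi => ?_
    rw [← card_filter]
    unfold cn
    congr 1; ext a
    simp only [Y, W, mem_filter, mem_univ, true_and, mem_fs]
    exact ⟨fun g => ⟨g.2, g.1.1⟩, fun g => ⟨⟨g.2, i, mem_filter.2 ⟨hi, g.1⟩⟩, g.1⟩⟩
  have d2 : ∑ a ∈ Y.filter (· ∈ O), (W a).card =
      ∑ i ∈ J, cn fun a => r (e i) a ∧ a ∈ L ∧ a ∈ O := by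
    simp only [W, card_filter]
    rw [sum_comm]
    refine sum_congr rfl fun i hi => ?_
    rw [← card_filter]
    unfold cn
    congr 1; ext a
    simp only [Y, W, mem_filter, mem_univ, true_and, mem_fs]
    exact ⟨fun g => ⟨g.2, g.1.1.1, g.1.2⟩,
      fun g => ⟨⟨⟨g.2.1, i, mem_filter.2 ⟨hi, g.1⟩⟩, g.2.2⟩, g.1⟩⟩
  have d3 : κ ≤ (Y.filter (· ∉ O)).card + cn fun a => r (e i0) a ∧ a ∈ L ∧ a ∈ O := by
    refine (deg i0 h0).trans ((card_le_card fun a ha => ?_).trans (card_union_le _ _))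
    by_cases c : a ∈ O
    · exact mem_union_right _ (mem_fs.2 ⟨(mem_fs.1 ha).1, (mem_fs.1 ha).2, c⟩)
    · exact mem_union_left _ (mem_filter.2 ⟨sub ha, c⟩)
  have d4 : J.card * κ ≤ ∑ i ∈ J, cn fun a => r (e i) a ∧ a ∈ L := by
    simpa using card_nsmul_le_sum J _ κ deg
  have d5 := add_sum_erase J (fun i => cn fun a => r (e i) a ∧ a ∈ L ∧ a ∈ O) h0
  simp only [g, sum_add_distrib, sum_ite, sum_const, smul_eq_mul, mul_one] at c2
  rw [d1, d2] at c2
  rw [add_mul]
  omega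

end Comb

end Pool.Agent.Lib.MP_4f0fb4_co
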