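import Pool.Agent.Lib.MP_4f0fb4_co.Final

/-!
A longest cycle cut at a set `X` of its vertices: slots, segments and the exchange inequality.
-/

namespace Pool.Agent.Lib.MP_4f0fb4_co

open Finset

variable {V : Type} {r : V → V → Prop}

theorem sq_split (X : Set V) : ∀ (n : ℕ) (l : List V) (x z : V), l.length ≤ n → Conn r x z l →
    (x :: l).Nodup → x ∈ X → ∃ (xs : List V) (nx : V → V) (S : V → List V),
      x :: l = (x :: xs).flatMap (fun y => y :: S y) ∧ (x :: xs).map nx = xs ++ [z] ∧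
      ∀ y ∈ x :: xs, y ∈ X ∧ Conn r y (nx y) (S y) ∧ ∀ v ∈ S y, v ∉ X := by
  classical
  intro n
  induction n with
  | zero =>
    intro l x z hl hc _ hx
    obtain rfl : l = [] := List.length_eq_zero_iff.1 (by omega)
    exact ⟨[], fun _ => z, fun _ => [], by simp, by simp, by simpa [hx] using hc⟩
  | succ n ih =>
    intro l x z hl hc hn hx
    by_cases h : ∀ v ∈ l, v ∉ X
    · exact ⟨[], fun _ => z, fun _ => l, by simp, by simp, by simpa [hx, hc] using h⟩
    obtain ⟨s, x', t, rfl, hx', hs⟩ : ∃ s x' t, l = s ++ x' :: t ∧ x' ∈ X ∧ ∀ v ∈ s, v ∉ X := by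
      clear hc hn hl
      induction l with
      | nil => simp at h
      | cons a l ih2 =>
        by_cases ha : a ∈ X
        · exact ⟨[], a, l, rfl, ha, by simp⟩
        · obtain ⟨s, x', t, rfl, h1, h2⟩ := ih2 (by simpa [ha] using h)
          exact ⟨a :: s, x', t, rfl, h1, by simpa [ha] using h2⟩
    obtain ⟨u, h1, h2⟩ := hc
    have h3 := Wk.split (l₁ := x :: s) h1
    have hn' : (x' :: t).Nodup := hn.of_cons.of_append_right
    obtain ⟨xs, nx, S, e1, e2, e3⟩ := ih t x' z (by simp at hl; omega) ⟨u, h3.2, h2⟩ hn' hx'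
    have hx0 : ∀ y ∈ x' :: xs, y ≠ x := by
      rintro y hy rfl
      have : y ∈ x' :: t := by
        rw [e1]; exact List.mem_flatMap.2 ⟨y, hy, by simp⟩
      exact (List.nodup_cons.1 hn).1 (List.mem_append_right _ this)
    refine ⟨x' :: xs, Function.update nx x x', Function.update S x s, ?_, ?_, ?_⟩
    · rw [List.flatMap_cons, Function.update_self, e1]
      congr 2
      exact List.flatMap_congr fun y hy => by rw [Function.update_of_ne (hx0 y hy)]
    · rw [List.map_cons, Function.update_self, List.cons_append, ← e2]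
      congr 1
      exact List.map_congr_left fun y hy => by rw [Function.update_of_ne (hx0 y hy)]
    · intro y hy
      rcases List.mem_cons.1 hy with rfl | hy
      · simp only [Function.update_self]
        exact ⟨hx, conn_of_wk h3.1, hs⟩
      · simpa only [Function.update_of_ne (hx0 y hy)] using e3 y hy

theorem sq_flat {nx : V → V} {R : V → List V} : ∀ (xs : List V) (x z : V),
    (x :: xs).map nx = xs ++ [z] → (∀ y ∈ x :: xs, Conn r y (nx y) (R y)) →
    ∃ e, Wk r x e ((x :: xs).flatMap fun y => y :: R y) ∧ r e z := by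
  intro xs
  induction xs with
  | nil =>
    intro x z h1 h2
    obtain rfl : nx x = z := by simpa using h1
    simpa [Conn] using h2 x (by simp)
  | cons y xs ih =>
    intro x z h1 h2
    rw [List.map_cons, List.cons_append, List.cons.injEq] at h1
    obtain ⟨e, e1, e2⟩ := ih y z h1.2 fun w hw => h2 w (List.mem_cons_of_mem _ hw)
    obtain ⟨u, u1, u2⟩ := h2 x (by simp)
    rw [h1.1] at u2
    exact ⟨e, by rw [List.flatMap_cons]; exact u1.append u2 e1, e2⟩

structure Dec (r : V → V → Prop) (D : List V) (X : Finset V) (nx : V → V) (n : V → ℕ)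
    (b : V → ℕ → V) : Prop where
  symm : ∀ x y, r x y → r y x
  sub : ∀ x ∈ X, x ∈ D
  nxm : ∀ x ∈ X, nx x ∈ X
  nxi : ∀ x ∈ X, ∀ y ∈ X, nx x = nx y → x = y
  inj : ∀ x ∈ X, ∀ y ∈ X, ∀ i < n x, ∀ j < n y, b x i = b y j → x = y ∧ i = j
  adj : ∀ x ∈ X, ∀ i, i + 1 < n x → r (b x i) (b x (i + 1))
  fst : ∀ x ∈ X, 0 < n x → r x (b x 0)
  lst : ∀ x ∈ X, 0 < n x → r (b x (n x - 1)) (nx x)
  mem : ∀ x ∈ X, ∀ i < n x, b x i ∈ D ∧ b x i ∉ X
  cov : ∀ v ∈ D, v ∉ X → ∃ x ∈ X, ∃ i < n x, b x i = v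
  len : D.length = X.card + ∑ x ∈ X, n x
  rep : ∀ A ⊆ X, ∀ R : V → List V, (∀ x ∈ A, Conn r x (nx x) (R x) ∧ (R x).Nodup ∧
      ∀ v ∈ R x, v ∉ X ∧ ∀ y ∈ X, y ∉ A → ∀ i < n y, b y i ≠ v) →
    (∀ x ∈ A, ∀ y ∈ A, x ≠ y → (R x).Disjoint (R y)) → ∑ x ∈ A, (R x).length ≤ ∑ x ∈ A, n x

theorem Wk.getLast {a e : V} {l : List V} (h : Wk r a e l) (d : V) :
    l.getD (l.length - 1) d = e := by
  induction h with
  | one a => simp
  | cons _ h2 ih =>
    obtain ⟨t, rfl⟩ := h2.eq_cons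
    simpa using ih

theorem sq_len_flat (xs : List V) (R : V → List V) :
    (xs.flatMap fun y => y :: R y).length = xs.length + (xs.map fun y => (R y).length).sum := by
  induction xs with
  | nil => simp
  | cons a l ih => simp only [List.flatMap_cons, List.length_append, List.length_cons, ih,
      List.map_cons, List.sum_cons]; omega

theorem Longest.dec {D : List V} (hD : Longest r D) {X : Finset V}
    (hX : ∀ x ∈ X, x ∈ D) (h3 : 3 ≤ X.card) : ∃ nx n b, Dec r D X nx n b := by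
  classical
  obtain ⟨x0, hx0⟩ : X.Nonempty := card_pos.1 (by omega)
  obtain ⟨s, t, rfl⟩ := List.append_of_mem (hX x0 hx0)
  obtain ⟨n1, a, e, w1, w2⟩ := hD.cyc.rot
  obtain ⟨_, ha⟩ := w1.eq_cons
  obtain rfl : x0 = a := by simpa using congrArg List.head? ha
  obtain ⟨xs, nx, S, e1, e2, e3⟩ := sq_split (r := r) (↑X : Set V) _ (t ++ s) x0 x0 le_rfl
    ⟨e, w1, w2⟩ n1 hx0
  have hmem : ∀ v, v ∈ s ++ x0 :: t ↔ ∃ y ∈ x0 :: xs, v ∈ y :: S y := fun v => by
    rw [← List.mem_flatMap, ← e1]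
    simp only [List.mem_append, List.mem_cons]; tauto
  have n2 : ((x0 :: xs).flatMap fun y => y :: S y).Nodup := e1 ▸ n1
  obtain ⟨n3, n4⟩ := List.nodup_flatMap.1 n2
  have n5 : (x0 :: xs).Nodup := n4.imp fun {a b} h e => h (a := a) (by simp) (by simp [e])
  have hxs : ∀ y, y ∈ x0 :: xs ↔ y ∈ X := fun y => ⟨fun h => (e3 y h).1, fun h => by
    obtain ⟨y', h1, h2⟩ := (hmem y).1 (hX y h)
    rcases List.mem_cons.1 h2 with rfl | h2
    · exact h1
    · exact ((e3 y' h1).2.2 y h2 h).elim⟩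
  have hfin : (x0 :: xs).toFinset = X := by ext y; rw [List.mem_toFinset, hxs]
  have hcard : X.card = (x0 :: xs).length := by rw [← hfin, List.toFinset_card_of_nodup n5]
  have hsum : ∀ f : V → ℕ, ((x0 :: xs).map f).sum = ∑ x ∈ X, f x := fun f => by
    rw [← hfin, List.sum_toFinset _ n5]
  have hdis : ∀ x ∈ X, ∀ y ∈ X, x ≠ y → (S x).Disjoint (S y) := fun x hx y hy hne v h1 h2 => by
    have : Std.Symm (Function.onFun List.Disjoint fun y => y :: S y) := ⟨fun _ _ h => h.symm⟩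
    exact n4.forall ((hxs x).2 hx) ((hxs y).2 hy) hne (List.mem_cons_of_mem _ h1)
      (List.mem_cons_of_mem _ h2)
  have hS : ∀ x ∈ X, Conn r x (nx x) (S x) ∧ (S x).Nodup ∧ ∀ v ∈ S x, v ∉ X := fun x hx =>
    ⟨(e3 x ((hxs x).2 hx)).2.1, (n3 x ((hxs x).2 hx)).of_cons, (e3 x ((hxs x).2 hx)).2.2⟩
  have hget : ∀ x i, i < (S x).length → (S x).getD i x ∈ S x := fun x i hi => by
    simp [hi]
  have hperm : ((x0 :: xs).map nx).Perm (x0 :: xs) := by
    rw [e2]; exact List.perm_append_singleton _ _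
  refine ⟨nx, fun x => (S x).length, fun x i => (S x).getD i x, hD.symm, hX, fun x hx => ?_,
    fun x hx y hy h => ?_, fun x hx y hy i hi j hj h => ?_, fun x hx i hi => ?_, fun x hx h => ?_,
    fun x hx h => ?_, fun x hx i hi => ?_, fun v hv hv' => ?_, ?_, fun A hA R h1 h2 => ?_⟩
  · exact (hxs _).1 (hperm.subset (List.mem_map_of_mem ((hxs x).2 hx)))
  · exact List.inj_on_of_nodup_map (hperm.nodup_iff.2 n5) ((hxs x).2 hx) ((hxs y).2 hy) h
  · by_cases hxy : x = y
    · subst hxy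
      exact ⟨rfl, by simpa [hi, hj, (hS x hx).2.1.getElem_inj_iff] using h⟩
    · exact (hdis x hx y hy hxy (hget x i hi) (h ▸ hget y j hj)).elim
  · obtain ⟨u, u1, -⟩ := (hS x hx).1
    have := List.isChain_iff_getElem.1 u1.chain.tail i (by simpa using hi)
    simpa [hi, show i < (S x).length by omega] using this
  · obtain ⟨u, u1, -⟩ := (hS x hx).1
    have := List.isChain_iff_getElem.1 u1.chain 0 (by simpa using h)
    simpa [h] using this
  · obtain ⟨u, u1, u2⟩ := (hS x hx).1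
    have := u1.getLast x
    obtain ⟨m, hm⟩ : ∃ m, (S x).length = m + 1 := ⟨_, (Nat.succ_pred_eq_of_pos h).symm⟩
    simp only [hm, List.length_cons, Nat.add_sub_cancel, List.getD_cons_succ] at this ⊢
    rw [this]; exact u2
  · exact ⟨(hmem _).2 ⟨x, (hxs x).2 hx, List.mem_cons_of_mem _ (hget x i hi)⟩,
      (hS x hx).2.2 _ (hget x i hi)⟩
  · obtain ⟨y, h1, h2⟩ := (hmem v).1 hv
    rcases List.mem_cons.1 h2 with rfl | h2
    · exact (hv' ((hxs _).1 h1)).elim
    · obtain ⟨i, hi, rfl⟩ := List.getElem_of_mem h2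
      exact ⟨y, (hxs y).1 h1, i, hi, by simp [hi]⟩
  · have := congrArg List.length e1
    rw [sq_len_flat, hsum, ← hcard] at this
    simp only [List.length_append, List.length_cons] at this ⊢
    omega
  · let R' := fun x => if x ∈ A then R x else S x
    have hR' : ∀ x ∈ X, Conn r x (nx x) (R' x) ∧ (R' x).Nodup ∧ ∀ v ∈ R' x, v ∉ X := fun x hx => by
      by_cases h : x ∈ A
      · simp only [R', h, if_true]
        exact ⟨(h1 x h).1, (h1 x h).2.1, fun v hv => ((h1 x h).2.2 v hv).1⟩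
      · simpa only [R', h, if_false] using hS x hx
    have mix : ∀ x ∈ A, ∀ y ∈ X, y ∉ A → (R x).Disjoint (S y) := fun x hx y hy hy' v g1 g2 => by
      obtain ⟨i, hi, rfl⟩ := List.getElem_of_mem g2
      exact ((h1 x hx).2.2 _ g1).2 y hy hy' i hi (by simp [hi])
    have hd' : ∀ x ∈ X, ∀ y ∈ X, x ≠ y → (R' x).Disjoint (R' y) := fun x hx y hy hne => by
      by_cases g1 : x ∈ A <;> by_cases g2 : y ∈ A <;> simp only [R', g1, g2, if_true, if_false]
      · exact h2 x g1 y g2 hne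
      · exact mix x g1 y hy g2
      · exact (mix y g2 x hx g1).symm
      · exact hdis x hx y hy hne
    obtain ⟨e', c1, c2⟩ := sq_flat (R := R') xs x0 x0 e2 fun y hy => (hR' y ((hxs y).1 hy)).1
    have nd : ((x0 :: xs).flatMap fun y => y :: R' y).Nodup := by
      refine List.nodup_flatMap.2 ⟨fun y hy => List.nodup_cons.2
        ⟨fun h => (hR' y ((hxs y).1 hy)).2.2 y h ((hxs y).1 hy), (hR' y ((hxs y).1 hy)).2.1⟩, ?_⟩
      refine List.Pairwise.imp_of_mem (fun {x y} hx hy hne v g1 g2 => ?_) n5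
      have hx' := (hxs x).1 hx
      have hy' := (hxs y).1 hy
      rcases List.mem_cons.1 g1 with rfl | g1 <;> rcases List.mem_cons.1 g2 with g2 | g2
      · exact hne g2
      · exact (hR' y hy').2.2 _ g2 hx'
      · exact (hR' x hx').2.2 _ g1 (g2 ▸ hy')
      · exact hd' x hx' y hy' hne g1 g2
    have hm := hD.max _ ⟨nd, _, _, c1, c2⟩ (by rw [sq_len_flat]; omega)
    have hl := congrArg List.length e1
    rw [sq_len_flat, hsum] at hm hl
    have s1 := sum_sdiff (f := fun y => (R' y).length) hA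
    have s2 := sum_sdiff (f := fun y => (S y).length) hA
    have s3 : ∑ y ∈ X \ A, (R' y).length = ∑ y ∈ X \ A, (S y).length :=
      sum_congr rfl fun y hy => by simp only [R', (mem_sdiff.1 hy).2, if_false]
    have s4 : ∑ y ∈ A, (R' y).length = ∑ y ∈ A, (R y).length :=
      sum_congr rfl fun y hy => by simp only [R', hy, if_true]
    simp only [List.length_append, List.length_cons] at hm hl
    omega

theorem sq_seg (hs : ∀ x y, r x y → r y x) {b : ℕ → V} {n : ℕ}
    (inj : ∀ i < n, ∀ j < n, b i = b j → i = j) (adj : ∀ i, i + 1 < n → r (b i) (b (i + 1)))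
    {i j : ℕ} (hi : i < n) (hj : j < n) : ∃ l, Wk r (b i) (b j) l ∧ l.Nodup ∧
      (∀ v ∈ l, ∃ t, min i j ≤ t ∧ t ≤ max i j ∧ b t = v) ∧ l.length + min i j = max i j + 1 := by
  have key : ∀ i j, i ≤ j → j < n → ∃ l, Wk r (b i) (b j) l ∧ l.Nodup ∧
      (∀ v ∈ l, ∃ t, i ≤ t ∧ t ≤ j ∧ b t = v) ∧ l.length + i = j + 1 := by
    intro i j hij hj
    induction j, hij using Nat.le_induction with
    | base => exact ⟨[b i], Wk.one _, by simp, by simpa using ⟨i, le_rfl, le_rfl, rfl⟩, by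
        simp [add_comm]⟩
    | succ j hij ih =>
      obtain ⟨l, h1, h2, h3, h4⟩ := ih (by omega)
      refine ⟨l ++ [b (j + 1)], h1.append (adj j hj) (Wk.one _), ?_, ?_, by simp; omega⟩
      · refine List.nodup_append.2 ⟨h2, by simp, fun v hv w hw e => ?_⟩
        obtain ⟨t, t1, t2, t3⟩ := h3 v hv
        have := inj t (by omega) (j + 1) hj (by rw [t3, e, List.mem_singleton.1 hw])
        omega
      · intro v hv
        rcases List.mem_append.1 hv with hv | hv
        · obtain ⟨t, t1, t2, t3⟩ := h3 v hv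
          exact ⟨t, t1, by omega, t3⟩
        · exact ⟨j + 1, by omega, le_rfl, (List.mem_singleton.1 hv).symm⟩
  rcases le_total i j with h | h
  · simpa only [min_eq_left h, max_eq_right h] using key i j h hj
  · obtain ⟨l, h1, h2, h3, h4⟩ := key j i h hi
    exact ⟨l.reverse, h1.reverse hs, by simpa using h2,
      by simpa only [min_eq_right h, max_eq_left h, List.mem_reverse] using h3,
      by simpa only [min_eq_right h, max_eq_left h, List.length_reverse] using h4⟩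

theorem sq_join (hs : ∀ x y, r x y → r y x) {a u a' u' : V} {l1 l2 : List V} {M : Set V}
    (h1 : Wk r a u l1) (n1 : l1.Nodup) (h2 : Wk r a' u' l2) (n2 : l2.Nodup)
    (hd : l1.Disjoint l2) (hM : Rch r M u u') (m1 : ∀ v ∈ M, v ∈ l1 → v = u)
    (m2 : ∀ v ∈ M, v ∈ l2 → v = u') : ∃ l, Wk r a a' l ∧ l.Nodup ∧
      (∀ v ∈ l, v ∈ l1 ∨ v ∈ l2 ∨ v ∈ M) ∧ l1.length + l2.length ≤ l.length := by
  obtain ⟨m, w1, w2, w3⟩ := hM.path
  obtain ⟨m', rfl⟩ := w1.eq_cons
  have h3 := h2.reverse hs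
  obtain ⟨t, ht⟩ := h3.eq_cons
  have n3 : (u' :: t).Nodup := ht ▸ List.nodup_reverse.2 n2
  have t2 : ∀ v ∈ t, v ∈ l2 := fun v hv => List.mem_reverse.1 (ht ▸ List.mem_cons_of_mem _ hv)
  have hm : 0 < m'.length := by
    rcases List.mem_cons.1 w1.last_mem with e | e
    · exact (hd (e ▸ h1.last_mem) h2.last_mem).elim
    · exact List.length_pos_of_mem e
  have hl := congrArg List.length ht
  refine ⟨l1 ++ m' ++ t, (h1.trans w1).trans (ht ▸ h3), ?_, fun v hv => ?_, ?_⟩
  · refine List.nodup_append.2 ⟨List.nodup_append.2 ⟨n1, w2.of_cons, ?_⟩, n3.of_cons, ?_⟩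
    · rintro v g1 _ g2 rfl
      exact (List.nodup_cons.1 w2).1 (m1 v (w3 v (List.mem_cons_of_mem _ g2)) g1 ▸ g2)
    · rintro v g1 _ g2 rfl
      rcases List.mem_append.1 g1 with g1 | g1
      · exact hd g1 (t2 v g2)
      · exact (List.nodup_cons.1 n3).1 (m2 v (w3 v (List.mem_cons_of_mem _ g1)) (t2 v g2) ▸ g2)
  · simp only [List.mem_append] at hv
    rcases hv with (hv | hv) | hv
    · exact Or.inl hv
    · exact Or.inr (Or.inr (w3 v (List.mem_cons_of_mem _ hv)))
    · exact Or.inr (Or.inl (t2 v hv))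
  · simp only [List.length_append, List.length_reverse, List.length_cons] at hl ⊢
    omega

theorem Wk.fit {x y a a' : V} {l : List V} (h : Wk r a a' l) (h1 : r x a) (h2 : r a' y) :
    Conn r x y l := ⟨a', Wk.cons h1 h, h2⟩

namespace Dec

variable {D : List V} {X : Finset V} {nx : V → V} {n : V → ℕ} {b : V → ℕ → V}
  (h : Dec r D X nx n b)
include h

theorem seg {x : V} (hx : x ∈ X) {i j : ℕ} (hi : i < n x) (hj : j < n x) :
    ∃ l, Wk r (b x i) (b x j) l ∧ l.Nodup ∧
      (∀ v ∈ l, ∃ t, min i j ≤ t ∧ t ≤ max i j ∧ b x t = v) ∧ l.length + min i j = max i j + 1 :=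
  sq_seg h.symm (fun i hi j hj e => (h.inj x hx x hx i hi j hj e).2) (h.adj x hx) hi hj

theorem rch {x : V} (hx : x ∈ X) {i j : ℕ} (hi : i < n x) (hj : j < n x) {M : Set V}
    (hM : ∀ t < n x, b x t ∈ M) : Rch r M (b x i) (b x j) := by
  obtain ⟨l, h1, -, h2, -⟩ := h.seg hx hi hj
  refine ⟨l, h1, fun v hv => ?_⟩
  obtain ⟨t, -, t2, rfl⟩ := h2 v hv
  exact hM t (by omega)

theorem half {x : V} (hx : x ∈ X) {i : ℕ} (hi : i < n x) : ∃ a l, (a = b x 0 ∨ a = b x (n x - 1)) ∧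
    Wk r a (b x i) l ∧ l.Nodup ∧ (∀ v ∈ l, ∃ t < n x, b x t = v) ∧
      l.length = max (i + 1) (n x - i) := by
  rcases le_total (i + 1) (n x - i) with g | g
  · obtain ⟨l, h1, h2, h3, h4⟩ := h.seg hx (show n x - 1 < n x by omega) hi
    refine ⟨_, l, Or.inr rfl, h1, h2, fun v hv => ?_, by omega⟩
    obtain ⟨t, -, t2, t3⟩ := h3 v hv
    exact ⟨t, by omega, t3⟩
  · obtain ⟨l, h1, h2, h3, h4⟩ := h.seg hx (show 0 < n x by omega) hi
    refine ⟨_, l, Or.inl rfl, h1, h2, fun v hv => ?_, by omega⟩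
    obtain ⟨t, -, t2, t3⟩ := h3 v hv
    exact ⟨t, by omega, t3⟩

theorem rep' {A : Finset V} (hA : A ⊆ X) (R : V → List V)
    (h1 : ∀ x ∈ A, Conn r x (nx x) (R x) ∧ (R x).Nodup ∧
      ∀ v ∈ R x, v ∈ D → ∃ y ∈ A, ∃ i < n y, b y i = v)
    (h2 : ∀ x ∈ A, ∀ y ∈ A, x ≠ y → (R x).Disjoint (R y)) :
    ∑ x ∈ A, (R x).length ≤ ∑ x ∈ A, n x := by
  refine h.rep A hA R (fun x hx => ⟨(h1 x hx).1, (h1 x hx).2.1, fun v hv => ⟨fun hX => ?_, ?_⟩⟩) h2
  · obtain ⟨y, hy, i, hi, rfl⟩ := (h1 x hx).2.2 v hv (h.sub v hX)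
    exact (h.mem y (hA hy) i hi).2 hX
  · rintro y hy hy' i hi rfl
    obtain ⟨z, hz, j, hj, e⟩ := (h1 x hx).2.2 _ hv (h.mem y hy i hi).1
    exact hy' ((h.inj z (hA hz) y hy j hj i hi e).1 ▸ hz)

theorem ex1 {x : V} (hx : x ∈ X) {B : List V} (c : Conn r x (nx x) B) (nb : B.Nodup)
    (m : ∀ v ∈ B, v ∈ D → ∃ i < n x, b x i = v) : B.length ≤ n x := by
  simpa using h.rep' (A := {x}) (by simpa using hx) (fun _ => B) (by simpa using ⟨c, nb, m⟩)
    (by simp)

theorem ex2 {x y : V} (hx : x ∈ X) (hy : y ∈ X) (hxy : x ≠ y) {B B' : List V}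
    (c : Conn r x (nx x) B) (nb : B.Nodup) (c' : Conn r y (nx y) B') (nb' : B'.Nodup)
    (hd : B.Disjoint B') (m : ∀ v ∈ B, v ∉ D) (m' : ∀ v ∈ B', v ∈ D → ∃ i < n x, b x i = v) :
    B.length + B'.length ≤ n x + n y := by
  classical
  have := h.rep' (A := {x, y}) (by simp [insert_subset_iff, hx, hy])
    (fun z => if z = x then B else B') (by
      simp only [mem_insert, mem_singleton, forall_eq_or_imp, forall_eq, if_true, hxy.symm,
        if_false]
      exact ⟨⟨c, nb, fun v hv g => (m v hv g).elim⟩, c', nb',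
        fun v hv g => ⟨x, Or.inl rfl, m' v hv g⟩⟩) (by
      simp only [mem_insert, mem_singleton, forall_eq_or_imp, forall_eq, if_true, hxy.symm,
        if_false]
      exact ⟨⟨fun g => (g rfl).elim, fun _ => hd⟩, fun _ => hd.symm, fun g => (g rfl).elim⟩)
  simpa [sum_pair hxy, hxy.symm] using this

theorem ex3 {x y z : V} (hx : x ∈ X) (hy : y ∈ X) (hz : z ∈ X) (hxy : x ≠ y) (hxz : x ≠ z)
    (hyz : y ≠ z) {B1 B2 B3 : List V} (c1 : Conn r x (nx x) B1) (n1 : B1.Nodup)
    (c2 : Conn r y (nx y) B2) (n2 : B2.Nodup) (c3 : Conn r z (nx z) B3) (n3 : B3.Nodup)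
    (d12 : B1.Disjoint B2) (d13 : B1.Disjoint B3) (d23 : B2.Disjoint B3)
    (m1 : ∀ v ∈ B1, v ∉ D) (m2 : ∀ v ∈ B2, v ∉ D)
    (m3 : ∀ v ∈ B3, v ∈ D → (∃ i < n x, b x i = v) ∨ ∃ i < n y, b y i = v) :
    B1.length + B2.length + B3.length ≤ n x + n y + n z := by
  classical
  have := h.rep' (A := {x, y, z}) (by simp [insert_subset_iff, hx, hy, hz])
    (fun w => if w = x then B1 else if w = y then B2 else B3) (by
      simp only [mem_insert, mem_singleton, forall_eq_or_imp, forall_eq, if_true, hxy.symm,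
        hxz.symm, hyz.symm, if_false]
      exact ⟨⟨c1, n1, fun v hv g => (m1 v hv g).elim⟩, ⟨c2, n2, fun v hv g => (m2 v hv g).elim⟩,
        c3, n3, fun v hv g => (m3 v hv g).elim (fun g => ⟨x, Or.inl rfl, g⟩)
          fun g => ⟨y, Or.inr (Or.inl rfl), g⟩⟩) (by
      simp only [mem_insert, mem_singleton, forall_eq_or_imp, forall_eq, if_true, hxy.symm,
        hxz.symm, hyz.symm, if_false]
      exact ⟨⟨fun g => (g rfl).elim, fun _ => d12, fun _ => d13⟩,
        ⟨fun _ => d12.symm, fun g => (g rfl).elim, fun _ => d23⟩,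
        fun _ => d13.symm, fun _ => d23.symm, fun g => (g rfl).elim⟩)
  rw [sum_insert (by simp [hxy, hxz]), sum_pair hyz, sum_insert (by simp [hxy, hxz]),
    sum_pair hyz] at this
  simp only [if_true, hxy.symm, hxz.symm, hyz.symm, if_false] at this
  omega

end Dec

end Pool.Agent.Lib.MP_4f0fb4_co
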