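import Pool.Agent.Lib.MP_4f0fb4_co.SqNice

/-!
Most segments of both cycles have the same length and ends adjacent to most common vertices;
links between segments then give a longer cycle.
-/

namespace Pool.Agent.Lib.MP_4f0fb4_co

open Finset Classical

variable {V : Type} {r : V → V → Prop}

namespace Sd

variable [Fintype V] {C D : List V} {X : Finset V} {k p : ℕ} (σ : Sd r C D X k p)
  (τ : Sd r D C X k p)

def hat (x : V) : ℕ := (σ.t x 0).length + (σ.t x (σ.n x - 1)).length + σ.n x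

def pf (l : ℕ) (x : V) : Prop := x ∈ X ∧ σ.n x = l ∧ 0 < l ∧ miss r X (σ.b x 0) ≤ 64 * p ∧
  miss r X (σ.b x (σ.n x - 1)) ≤ 64 * p

theorem stepB (hp : 2 ≤ p) {x : V} (hx : σ.nice x) (hm : ∀ y, τ.nice y → τ.hat y ≤ σ.hat x) :
    ∃ P ⊆ X, (∀ y ∈ P, τ.nice y ∧ τ.hat y = σ.hat x ∧ τ.pf (σ.hat x) y) ∧
      X.card ≤ P.card + (X.filter fun y => ¬τ.nice y).card + 128 * p := by
  obtain ⟨g1, g2, g3⟩ := σ.nm0 hp hx.1
  obtain ⟨l, l1, l2, l3, l4⟩ := σ.cpath hx.1.1 g1 g2 (by omega)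
  have c1 := sq_nfit τ.dec.nxm τ.dec.nxi hx.2.1 hx.2.2
  refine ⟨X.filter fun y => τ.nice y ∧ σ.hat x ≤ τ.n y, filter_subset _ _, fun y hy => ?_, ?_⟩
  · obtain ⟨y1, y2, y3⟩ := mem_filter.1 hy
    have y4 := hm y y2
    obtain ⟨-, -, y5⟩ := τ.nm0 hp y2.1
    unfold hat at *
    have e : ∀ i < τ.n y, (τ.t y i).length = 0 → τ.e y i = τ.b y i := fun i hi g =>
      ((τ.comb y y1).end_mem hi).resolve_right (by rw [List.length_eq_zero_iff.1 g]; simp)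
    refine ⟨y2, by omega, y1, by omega, by omega, ?_, ?_⟩
    · rw [← e 0 (by omega) (by omega)]; exact y2.2.1
    · rw [← e _ (by omega) (by omega)]; exact y2.2.2
  · have c2 := card_le_card (show X ⊆ ((X.filter fun y => τ.nice y ∧ σ.hat x ≤ τ.n y) ∪
        X.filter fun y => ¬τ.nice y) ∪ X.filter fun y =>
          ¬(r (σ.e x 0) y ∧ r (σ.e x (σ.n x - 1)) (τ.nx y)) from fun y hy => by
      by_contra hc
      simp only [mem_union, mem_filter, hy, true_and, not_or, not_not] at hc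
      have := τ.dec.ex1 hy (l1.fit (σ.dec.symm _ _ hc.2.1) hc.2.2) l2
        fun v hv g => (σ.rgC hx.1.1 (l3 v hv) g).elim
      have := not_and.1 hc.1.1 hc.1.2
      unfold hat at this
      omega)
    have c3 := card_union_le ((X.filter fun y => τ.nice y ∧ σ.hat x ≤ τ.n y) ∪
        X.filter fun y => ¬τ.nice y) (X.filter fun y =>
          ¬(r (σ.e x 0) y ∧ r (σ.e x (σ.n x - 1)) (τ.nx y)))
    have c4 := card_union_le (X.filter fun y => τ.nice y ∧ σ.hat x ≤ τ.n y)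
        (X.filter fun y => ¬τ.nice y)
    omega

theorem perfect (h : Num k p X.card D.length) (hl : C.length = D.length) :
    ∃ l, ∃ P ⊆ X, ∃ P' ⊆ X, (∀ x ∈ P, σ.pf l x) ∧ (∀ y ∈ P', τ.pf l y) ∧
      24000 * X.card ≤ 24000 * P.card + 3802 * k + 63595200 * p ∧
      24000 * X.card ≤ 24000 * P'.card + 3802 * k + 63595200 * p := by
  have h' : Num k p X.card C.length := hl ▸ h
  have n1 := σ.nnice τ h hl
  have n2 := τ.nnice σ h' hl.symm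
  have n3 := σ.mlo h
  have hk := h.hk
  have hp := h.hp
  have c1 := card_filter_add_card_filter_not (s := X) σ.nice
  have c2 := card_filter_add_card_filter_not (s := X) τ.nice
  obtain ⟨x, hx, mx⟩ := exists_max_image (X.filter σ.nice) σ.hat (card_pos.1 (by omega))
  obtain ⟨y, hy, my⟩ := exists_max_image (X.filter τ.nice) τ.hat (card_pos.1 (by omega))
  have mx' : ∀ z, σ.nice z → σ.hat z ≤ σ.hat x := fun z hz => mx z (mem_filter.2 ⟨hz.1.1, hz⟩)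
  have my' : ∀ z, τ.nice z → τ.hat z ≤ τ.hat y := fun z hz => my z (mem_filter.2 ⟨hz.1.1, hz⟩)
  rcases le_total (τ.hat y) (σ.hat x) with g | g
  · obtain ⟨P', p1, p2, p3⟩ := σ.stepB τ hp (mem_filter.1 hx).2 fun z hz => (my' z hz).trans g
    obtain ⟨z, hz⟩ : P'.Nonempty := card_pos.1 (by omega)
    obtain ⟨P, q1, q2, q3⟩ := τ.stepB σ hp (p2 z hz).1 fun w hw => (p2 z hz).2.1 ▸ mx' w hw
    exact ⟨σ.hat x, P, q1, P', p1, fun w hw => (p2 z hz).2.1 ▸ (q2 w hw).2.2,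
      fun w hw => (p2 w hw).2.2, by omega, by omega⟩
  · obtain ⟨P, p1, p2, p3⟩ := τ.stepB σ hp (mem_filter.1 hy).2 fun z hz => (mx' z hz).trans g
    obtain ⟨z, hz⟩ : P.Nonempty := card_pos.1 (by omega)
    obtain ⟨P', q1, q2, q3⟩ := σ.stepB τ hp (p2 z hz).1 fun w hw => (p2 z hz).2.1 ▸ my' w hw
    exact ⟨τ.hat y, P, p1, P', q1, fun w hw => (p2 w hw).2.2,
      fun w hw => (p2 z hz).2.1 ▸ (q2 w hw).2.2, by omega, by omega⟩

theorem full {l : ℕ} {x : V} (hx : σ.pf l x) : ∃ B, Wk r (σ.b x 0) (σ.b x (σ.n x - 1)) B ∧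
    B.Nodup ∧ (∀ v ∈ B, ∃ s < σ.n x, σ.b x s = v) ∧ B.length = l := by
  obtain ⟨h1, h2, h3, -⟩ := hx
  obtain ⟨B, b1, b2, b3, b4⟩ := σ.dec.seg h1 (i := 0) (j := σ.n x - 1) (by omega) (by omega)
  refine ⟨B, b1, b2, fun v hv => ?_, by omega⟩
  obtain ⟨s, -, s2, s3⟩ := b3 v hv
  exact ⟨s, by omega, s3⟩

theorem pf_end {l : ℕ} {x a : V} (hx : σ.pf l x) (ha : a = σ.b x 0 ∨ a = σ.b x (σ.n x - 1)) :
    miss r X a ≤ 64 * p := by
  rcases ha with rfl | rfl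
  exacts [hx.2.2.2.1, hx.2.2.2.2]

theorem f1 {l : ℕ} {P' : Finset V} (hP : ∀ y ∈ P', τ.pf l y) (hc : 128 * p < P'.card) {x x' : V}
    (hx : σ.pf l x) (hx' : σ.pf l x') (hne : x ≠ x') {i j : ℕ} (hi : i < σ.n x) (hj : j < σ.n x')
    {M : Set V} (hM : Rch r M (σ.b x i) (σ.b x' j)) (m0 : ∀ v ∈ M, v ∉ C)
    (m1 : ∀ s < σ.n x, σ.b x s ∈ M → σ.b x s = σ.b x i)
    (m2 : ∀ s < σ.n x', σ.b x' s ∈ M → σ.b x' s = σ.b x' j) : False := by
  obtain ⟨a, a', B, a1, a2, b1, b2, b3, b4⟩ := σ.dec.jn σ.dec hx.1 hx'.1 hi hj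
    (fun s s1 s' s2 => σ.bne hx.1 hx'.1 hne s1 s2) hM m1 m2
  obtain ⟨y, y1, y2, y3⟩ := sq_fit τ.dec.nxm τ.dec.nxi (σ.pf_end hx a1) (σ.pf_end hx' a2)
    (P := P') (fun y hy => (hP y hy).1) (by omega)
  have := τ.dec.ex1 (hP y y1).1 (b1.fit (σ.dec.symm _ _ y2) y3) b2 fun v hv g => by
    rcases b3 v hv with ⟨s, s1, rfl⟩ | ⟨s, s1, rfl⟩ | g'
    exacts [(σ.bC hx.1 s1 g).elim, (σ.bC hx'.1 s1 g).elim, (m0 v g' g).elim]
  have := (hP y y1).2.1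
  have := hx.2.1
  have := hx'.2.1
  omega

theorem f2 {l : ℕ} {P P' : Finset V} (hP : ∀ x ∈ P, σ.pf l x) (hP' : ∀ y ∈ P', τ.pf l y)
    (hc : 128 * p + 1 < P'.card) {x y : V} (hx : σ.pf l x) (hy : τ.pf l y)
    (g : 2 < (P.filter fun z => r (σ.b z 0) y ∧ r (σ.b z (σ.n z - 1)) (τ.nx y)).card)
    {i j : ℕ} (hi : i < σ.n x) (hj : j < τ.n y)
    (hM : Rch r {v | v = σ.b x i ∨ v = τ.b y j ∨ v ∉ C ∧ v ∉ D} (σ.b x i) (τ.b y j)) : False := by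
  have ne : ∀ z ∈ X, ∀ s < σ.n z, ∀ s' < τ.n y, σ.b z s ≠ τ.b y s' := fun z hz s s1 s' s2 e =>
    σ.bC hz s1 (e ▸ τ.bD hy.1 s2)
  obtain ⟨a, a', B, a1, a2, b1, b2, b3, b4⟩ := σ.dec.jn τ.dec hx.1 hy.1 hi hj (ne x hx.1) hM
    (by
      rintro s s1 (g | g | g)
      exacts [g, (ne x hx.1 s s1 j hj g).elim, (g.2 (σ.bD hx.1 s1)).elim])
    (by
      rintro s s1 (g | g | g)
      exacts [(ne x hx.1 i hi s s1 g.symm).elim, g, (g.1 (τ.bD hy.1 s1)).elim])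
  obtain ⟨y', y1, y2, y3⟩ := sq_fit τ.dec.nxm τ.dec.nxi (σ.pf_end hx a1) (τ.pf_end hy a2)
    (P := P'.erase y) (fun y hy => (hP' y (mem_of_mem_erase hy)).1) (by
      have := pred_card_le_card_erase (s := P') (a := y)
      omega)
  obtain ⟨y0, y1⟩ := mem_erase.1 y1
  obtain ⟨z, z1, z2⟩ := exists_mem_notMem_of_card_lt_card (s := {x}) (lt_trans (by simp) g)
  obtain ⟨z1, z3, z4⟩ := mem_filter.1 z1
  rw [mem_singleton] at z2
  obtain ⟨S, s1, s2, s3, s4⟩ := σ.full (hP z z1)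
  have hz := (hP z z1).1
  have := τ.dec.ex2 hy.1 (hP' y' y1).1 y0.symm (s1.fit (σ.dec.symm _ _ z3) z4) s2
    (b1.fit (σ.dec.symm _ _ y2) y3) b2 (fun v g1 g2 => by
      obtain ⟨s, s5, rfl⟩ := s3 v g1
      rcases b3 _ g2 with ⟨t, t1, t2⟩ | ⟨t, t1, t2⟩ | g | g | g
      exacts [σ.bne hz hx.1 z2 s5 t1 t2.symm, ne z hz s s5 t t1 t2.symm, σ.bne hz hx.1 z2 s5 hi g,
        ne z hz s s5 j hj g, g.2 (σ.bD hz s5)])
    (fun v hv => by obtain ⟨s, s5, rfl⟩ := s3 v hv; exact σ.bC hz s5) (fun v hv g => by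
      rcases b3 v hv with ⟨t, t1, rfl⟩ | g' | rfl | rfl | g'
      exacts [(σ.bC hx.1 t1 g).elim, g', (σ.bC hx.1 hi g).elim, ⟨j, hj, rfl⟩, (g'.1 g).elim])
  have := (hP' y' y1).2.1
  have := hx.2.1
  have := hy.2.1
  omega

theorem f3 {l : ℕ} {P P' : Finset V} (hP : ∀ x ∈ P, σ.pf l x) (hP' : ∀ y ∈ P', τ.pf l y)
    (hc : 128 * p + 2 < P.card) {x x' y : V} (hx : σ.pf l x) (hx' : σ.pf l x') (hne : x ≠ x')
    (hy : y ∈ X)
    (g : 2 < (P'.filter fun z => r (τ.b z 0) x ∧ r (τ.b z (τ.n z - 1)) (σ.nx x)).card)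
    (g' : 2 < (P'.filter fun z => r (τ.b z 0) x' ∧ r (τ.b z (τ.n z - 1)) (σ.nx x')).card)
    {i j : ℕ} (hi : i < σ.n x) (hj : j < σ.n x')
    (hM : Rch r {v | v = σ.b x i ∨ v = σ.b x' j ∨ (v ∉ C ∧ v ∉ D) ∨ ∃ s < τ.n y, τ.b y s = v}
      (σ.b x i) (σ.b x' j)) : False := by
  obtain ⟨a, a', B, a1, a2, b1, b2, b3, b4⟩ := σ.dec.jn σ.dec hx.1 hx'.1 hi hj
    (fun s s1 s' s2 => σ.bne hx.1 hx'.1 hne s1 s2) hM
    (by
      rintro s s1 (g | g | g | ⟨t, t1, t2⟩)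
      exacts [g, (σ.bne hx.1 hx'.1 hne s1 hj g).elim, (g.2 (σ.bD hx.1 s1)).elim,
        (τ.bC hy t1 (t2 ▸ σ.bD hx.1 s1)).elim])
    (by
      rintro s s1 (g | g | g | ⟨t, t1, t2⟩)
      exacts [(σ.bne hx.1 hx'.1 hne hi s1 g.symm).elim, g, (g.2 (σ.bD hx'.1 s1)).elim,
        (τ.bC hy t1 (t2 ▸ σ.bD hx'.1 s1)).elim])
  obtain ⟨x3, d1, d2, d3⟩ := sq_fit σ.dec.nxm σ.dec.nxi (σ.pf_end hx a1) (σ.pf_end hx' a2)
    (P := (P.erase x).erase x') (fun y hy => (hP y (mem_of_mem_erase (mem_of_mem_erase hy))).1) (by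
      have := pred_card_le_card_erase (s := P.erase x) (a := x')
      have := pred_card_le_card_erase (s := P) (a := x)
      omega)
  simp only [mem_erase] at d1
  obtain ⟨z, z1, z2⟩ := exists_mem_notMem_of_card_lt_card (s := {y}) (lt_trans (by simp) g)
  obtain ⟨z', z3, z4⟩ := exists_mem_notMem_of_card_lt_card (s := {y, z}) (card_le_two.trans_lt g')
  obtain ⟨z1, e1, e2⟩ := mem_filter.1 z1
  obtain ⟨z3, e3, e4⟩ := mem_filter.1 z3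
  simp only [mem_insert, mem_singleton, not_or] at z2 z4
  obtain ⟨S, s1, s2, s3, s4⟩ := τ.full (hP' z z1)
  obtain ⟨S', t1, t2, t3, t4⟩ := τ.full (hP' z' z3)
  have dis : ∀ w ∈ X, w ≠ y → ∀ s < τ.n w, τ.b w s ∉ B := fun w hw hwy s s5 g2 => by
    rcases b3 _ g2 with ⟨t, t1, t2⟩ | ⟨t, t1, t2⟩ | g | g | g | ⟨t, t1, t2⟩
    exacts [τ.bC hw s5 (t2 ▸ σ.bD hx.1 t1), τ.bC hw s5 (t2 ▸ σ.bD hx'.1 t1),
      τ.bC hw s5 (g ▸ σ.bD hx.1 hi), τ.bC hw s5 (g ▸ σ.bD hx'.1 hj), g.1 (τ.bD hw s5),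
      τ.bne hw hy hwy s5 t1 t2.symm]
  have hz := (hP' z z1).1
  have hz' := (hP' z' z3).1
  have := σ.dec.ex3 hx.1 hx'.1 (hP x3 d1.2.2).1 hne d1.2.1.symm d1.1.symm
    (s1.fit (σ.dec.symm _ _ e1) e2) s2 (t1.fit (σ.dec.symm _ _ e3) e4) t2
    (b1.fit (σ.dec.symm _ _ d2) d3) b2 (fun v g1 g2 => by
      obtain ⟨s, s5, rfl⟩ := s3 v g1
      obtain ⟨s', s6, s7⟩ := t3 _ g2
      exact τ.bne hz' hz z4.2 s6 s5 s7)
    (fun v g1 => by obtain ⟨s, s5, rfl⟩ := s3 v g1; exact dis z hz z2 s s5)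
    (fun v g1 => by obtain ⟨s, s5, rfl⟩ := t3 v g1; exact dis z' hz' z4.1 s s5)
    (fun v hv => by obtain ⟨s, s5, rfl⟩ := s3 v hv; exact τ.bC hz s5)
    (fun v hv => by obtain ⟨s, s5, rfl⟩ := t3 v hv; exact τ.bC hz' s5) (fun v hv g => by
      rcases b3 v hv with g' | g' | rfl | rfl | g' | ⟨t, t1, rfl⟩
      exacts [Or.inl g', Or.inr g', Or.inl ⟨i, hi, rfl⟩, Or.inr ⟨j, hj, rfl⟩, (g'.2 g).elim,
        (τ.bC hy t1 g).elim])
  have := (hP x3 d1.2.2).2.1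
  have := hx.2.1
  have := hx'.2.1
  omega

theorem link (hK : KConn r k) (hm : X.card < k) {w0 : V} (h1 : w0 ∈ C) (h2 : w0 ∉ X) {x : V}
    (hx : x ∈ X) (hn : 0 < σ.n x) : ∃ i < σ.n x, ∃ w, (w ∈ C ∨ w ∈ D) ∧ w ∉ X ∧
      (¬∃ s < σ.n x, σ.b x s = w) ∧
      Rch r {v | v = σ.b x i ∨ v = w ∨ v ∉ C ∧ v ∉ D} (σ.b x i) w := by
  obtain ⟨w, ⟨w1, w2⟩, w3, g⟩ := (hK X hm _ (σ.dec.mem x hx 0 hn).2 w0 h2).first
    (T := {w | (w ∈ C ∨ w ∈ D) ∧ ¬∃ s < σ.n x, σ.b x s = w})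
    ⟨Or.inl h1, fun ⟨s, s1, s2⟩ => σ.bC hx s1 (s2 ▸ h1)⟩
  obtain ⟨u, u1, u2⟩ := g.resolve_left fun e => w2 ⟨0, hn, e⟩
  obtain ⟨_, ⟨i, hi, rfl⟩, -, g'⟩ := (u1.symm σ.dec.symm).first
    (T := {v | ∃ s < σ.n x, σ.b x s = v}) ⟨0, hn, rfl⟩
  refine ⟨i, hi, w, w1, w3, w2, ?_⟩
  have g0 : Rch r {v | v = σ.b x i ∨ v = w ∨ v ∉ C ∧ v ∉ D} (σ.b x i) (σ.b x i) :=
    Rch.refl (Or.inl rfl)
  rcases g' with rfl | ⟨u', g1, g2⟩
  · exact g0.tail u2 (Or.inr (Or.inl rfl))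
  · refine (g0.step (σ.dec.symm _ _ g2)
      ((g1.symm σ.dec.symm).mono fun v hv => Or.inr (Or.inr ?_))).tail u2 (Or.inr (Or.inl rfl))
    exact not_or.1 fun c => hv.1.2 ⟨c, hv.2⟩

include σ τ in
theorem absurd (hK : KConn r k) (h : Num k p X.card D.length) (hl : C.length = D.length) :
    False := by
  obtain ⟨l, P, p1, P', p2, p3, p4, p5, p6⟩ := σ.perfect τ h hl
  have n3 := σ.mlo h
  have hk := h.hk
  have hp := h.hp
  have hm := h.hm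
  have bad := sq_bad σ.dec.nxm σ.dec.nxi (N := P') (a := fun z => τ.b z 0)
    (a' := fun z => τ.b z (τ.n z - 1)) (q := 2) (fun y hy => (p4 y hy).2.2.2) (by omega) (by omega)
  have bad' := sq_bad τ.dec.nxm τ.dec.nxi (N := P) (a := fun z => σ.b z 0)
    (a' := fun z => σ.b z (σ.n z - 1)) (q := 2) (fun y hy => (p3 y hy).2.2.2) (by omega) (by omega)
  obtain ⟨y0, hy0⟩ : P'.Nonempty := card_pos.1 (by omega)
  have l0 : 0 < τ.n y0 := (p4 y0 hy0).2.1 ▸ (p4 y0 hy0).2.2.1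
  let G := P.filter fun x =>
    2 < (P'.filter fun z => r (τ.b z 0) x ∧ r (τ.b z (τ.n z - 1)) (σ.nx x)).card
  let LC := fun x y => ∃ i < σ.n x, ∃ s < τ.n y,
    Rch r {v | v = σ.b x i ∨ v = τ.b y s ∨ v ∉ C ∧ v ∉ D} (σ.b x i) (τ.b y s)
  let LD := fun x y => x ≠ y ∧ ∃ i < σ.n x, ∃ s < σ.n y,
    Rch r {v | v = σ.b x i ∨ v = σ.b y s ∨ v ∉ C ∧ v ∉ D} (σ.b x i) (σ.b y s)
  have : ∀ x, ∃ y, x ∈ P → y ∈ X ∧ (LC x y ∨ LD x y) := fun x => by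
    by_cases hx : x ∈ P
    · obtain ⟨i, hi, w, w1, w2, w3, w4⟩ := σ.link hK hm (τ.bD (p2 hy0) l0)
        (τ.dec.mem y0 (p2 hy0) 0 l0).2 (p1 hx) ((p3 x hx).2.1 ▸ (p3 x hx).2.2.1)
      rcases w1 with w1 | w1
      · obtain ⟨y, hy, s, s1, rfl⟩ := τ.dec.cov w w1 w2
        exact ⟨y, fun _ => ⟨hy, Or.inl ⟨i, hi, s, s1, w4⟩⟩⟩
      · obtain ⟨y, hy, s, s1, rfl⟩ := σ.dec.cov w w1 w2
        exact ⟨y, fun _ => ⟨hy, Or.inr ⟨fun e => w3 ⟨s, e ▸ s1, by rw [e]⟩, i, hi, s, s1, w4⟩⟩⟩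
    · exact ⟨x, fun g => (hx g).elim⟩
  choose f hf using this
  have c1 : (G.filter fun x => LC x (f x)).card ≤ ((X \ P') ∪ X.filter fun y =>
      (P.filter fun z => r (σ.b z 0) y ∧ r (σ.b z (σ.n z - 1)) (τ.nx y)).card ≤ 2).card := by
    refine card_le_card_of_injOn f (fun x hx => ?_) fun x hx x' hx' e => ?_
    · obtain ⟨g1, i, hi, s, s1, g2⟩ := mem_filter.1 hx
      have g3 := (mem_filter.1 g1).1
      by_contra hc
      simp only [coe_union, Set.mem_union, mem_coe, mem_sdiff, mem_filter, (hf x g3).1, true_and,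
        not_or, not_not, not_le] at hc
      exact σ.f2 τ p3 p4 (by omega) (p3 x g3) (p4 _ hc.1) hc.2 hi s1 g2
    · by_contra hne
      obtain ⟨g1, i, hi, s, s1, g2⟩ := mem_filter.1 hx
      obtain ⟨g1', i', hi', s', s1', g2'⟩ := mem_filter.1 hx'
      rw [← e] at s1' g2'
      obtain ⟨g3, g4⟩ := mem_filter.1 g1
      obtain ⟨g3', g4'⟩ := mem_filter.1 g1'
      refine σ.f3 τ p3 p4 (by omega) (p3 x g3) (p3 x' g3') hne (hf x g3).1 g4 g4' hi hi'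
        ((g2.mono ?_).trans ((τ.dec.rch (hf x g3).1 s1 s1' fun t t1 =>
          Or.inr (Or.inr (Or.inr ⟨t, t1, rfl⟩))).trans ((g2'.symm σ.dec.symm).mono ?_)))
      · rintro v (g | g | g)
        exacts [Or.inl g, Or.inr (Or.inr (Or.inr ⟨s, s1, g.symm⟩)), Or.inr (Or.inr (Or.inl g))]
      · rintro v (g | g | g)
        exacts [Or.inr (Or.inl g), Or.inr (Or.inr (Or.inr ⟨s', s1', g.symm⟩)),
          Or.inr (Or.inr (Or.inl g))]
  have c2 : (G.filter fun x => ¬LC x (f x)).card ≤ (X \ P).card := by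
    have key : ∀ x ∈ G.filter fun x => ¬LC x (f x), x ∈ P ∧ f x ∈ X ∧ LD x (f x) := fun x hx => by
      obtain ⟨g1, g2⟩ := mem_filter.1 hx
      have g3 := (mem_filter.1 g1).1
      exact ⟨g3, (hf x g3).1, (hf x g3).2.resolve_left g2⟩
    refine card_le_card_of_injOn f (fun x hx => ?_) fun x hx x' hx' e => ?_
    · obtain ⟨g1, g2, g3, i, hi, s, s1, g4⟩ := key x hx
      refine mem_sdiff.2 ⟨g2, fun c => σ.f1 τ p4 (by omega) (p3 x g1) (p3 _ c) g3 hi s1 g4 ?_ ?_ ?_⟩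
      · rintro w (rfl | rfl | g); exacts [σ.bC (p1 g1) hi, σ.bC g2 s1, g.1]
      · rintro t t1 (g | g | g)
        exacts [g, (σ.bne (p1 g1) g2 g3 t1 s1 g).elim, (g.2 (σ.bD (p1 g1) t1)).elim]
      · rintro t t1 (g | g | g)
        exacts [(σ.bne (p1 g1) g2 g3 hi t1 g.symm).elim, g, (g.2 (σ.bD g2 t1)).elim]
    · by_contra hne
      obtain ⟨g1, g2, g3, i, hi, s, s1, g4⟩ := key x hx
      obtain ⟨g1', -, g3', i', hi', s', s1', g4'⟩ := key x' hx'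
      rw [← e] at g3' s1' g4'
      refine σ.f1 τ p4 (by omega) (p3 x g1) (p3 x' g1') hne hi hi'
        (M := {w | w = σ.b x i ∨ w = σ.b x' i' ∨ (w ∉ C ∧ w ∉ D) ∨ ∃ s < σ.n (f x), σ.b (f x) s = w})
        ((g4.mono ?_).trans ((σ.dec.rch g2 s1 s1' fun t t1 =>
          Or.inr (Or.inr (Or.inr ⟨t, t1, rfl⟩))).trans ((g4'.symm σ.dec.symm).mono ?_))) ?_ ?_ ?_
      · rintro v (g | g | g)
        exacts [Or.inl g, Or.inr (Or.inr (Or.inr ⟨s, s1, g.symm⟩)), Or.inr (Or.inr (Or.inl g))]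
      · rintro v (g | g | g)
        exacts [Or.inr (Or.inl g), Or.inr (Or.inr (Or.inr ⟨s', s1', g.symm⟩)),
          Or.inr (Or.inr (Or.inl g))]
      · rintro w (rfl | rfl | g | ⟨t, t1, rfl⟩)
        exacts [σ.bC (p1 g1) hi, σ.bC (p1 g1') hi', g.1, σ.bC g2 t1]
      · rintro t t1 (g | g | g | ⟨t', t2, g⟩)
        exacts [g, (σ.bne (p1 g1) (p1 g1') hne t1 hi' g).elim, (g.2 (σ.bD (p1 g1) t1)).elim,
          (σ.bne (p1 g1) g2 g3 t1 t2 g.symm).elim]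
      · rintro t t1 (g | g | g | ⟨t', t2, g⟩)
        exacts [(σ.bne (p1 g1) (p1 g1') hne hi t1 g.symm).elim, g, (g.2 (σ.bD (p1 g1') t1)).elim,
          (σ.bne (p1 g1') g2 g3' t1 t2 g.symm).elim]
  have c3 := card_filter_add_card_filter_not (s := G) fun x => LC x (f x)
  have c4 := card_union_le (X \ P') (X.filter fun y =>
      (P.filter fun z => r (σ.b z 0) y ∧ r (σ.b z (σ.n z - 1)) (τ.nx y)).card ≤ 2)
  have c5 := card_sdiff_add_card_eq_card p1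
  have c6 := card_sdiff_add_card_eq_card p2
  have c7 := card_le_card (show P ⊆ G ∪ X.filter fun x =>
      (P'.filter fun z => r (τ.b z 0) x ∧ r (τ.b z (τ.n z - 1)) (σ.nx x)).card ≤ 2 from
    fun x hx => by
      simp only [G, mem_union, mem_filter, hx, p1 hx, true_and]
      omega)
  have c8 := card_union_le G (X.filter fun x =>
      (P'.filter fun z => r (τ.b z 0) x ∧ r (τ.b z (τ.n z - 1)) (σ.nx x)).card ≤ 2)
  omega

end Sd

end Pool.Agent.Lib.MP_4f0fb4_co
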