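import Pool.Agent.Lib.MP_4f0fb4_co.SqLink

/-!
Two longest cycles of a `k`-connected graph with circumference at most `k ^ 2 / 16000` share
at least `k` vertices.
-/

namespace Pool.Agent.Lib.MP_4f0fb4_co

open Finset

variable {V : Type} {r : V → V → Prop}

theorem KConn.deg [Fintype V] {k : ℕ} (hV : k < Fintype.card V) (hK : KConn r k) (v : V) :
    k ≤ cn (r v) := by
  classical
  by_contra hc
  have c1 := card_erase_le (s := fs (r v)) (a := v)
  have c2 := card_insert_le v ((fs (r v)).erase v)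
  obtain ⟨u, -, hu⟩ := exists_mem_notMem_of_card_lt_card (s := insert v ((fs (r v)).erase v))
    (t := univ) (by rw [card_univ]; unfold cn at hc; omega)
  rw [mem_insert, not_or] at hu
  refine hu.1 ((hK ((fs (r v)).erase v) (by unfold cn at hc; omega) v (by simp) u hu.2).ind
    (P := fun x => x = v) rfl ?_)
  rintro x y rfl - h2 h3
  by_contra hne
  exact h2 (mem_coe.2 (mem_erase.2 ⟨hne, mem_fs.2 h3⟩))

theorem Longest.lower [Fintype V] {C : List V} (hC : Longest r C) {k p : ℕ}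
    (hV : k < Fintype.card V) (hK : KConn r k) (pb : PB r C p) {a e : V} {l : List V}
    (l1 : Wk r a e l) (l2 : l.Nodup) (l3 : ∀ v ∈ l, v ∉ C) (l4 : l.length = p)
    (h1 : 2 * k ≤ C.length) (h2 : 16000 * C.length ≤ k ^ 2) (hk : 0 < k) :
    15900 * p ≤ k ∧ (p + 1) * (k - 3 * p) ≤ C.length := by
  classical
  have k0 : 32000 ≤ k := by nlinarith
  have p0 := l1.length_pos
  have ln : Line r {v | v ∈ C} (fun i => l.getD i a) p := l4 ▸ ⟨hC.symm, fun i hi j hj e => by
      simpa [hi, hj, l2.getElem_inj_iff] using e, fun i hi => by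
      simpa [hi, show i < l.length by omega] using List.isChain_iff_getElem.1 l1.chain i hi,
      fun i hi => by simpa [hi] using l3 _ (List.getElem_mem hi)⟩
  have p1 : 700 * p ≤ k := by
    obtain ⟨κ, rfl⟩ : ∃ κ, k = κ + 4 := ⟨k - 4, by omega⟩
    have c1 := hC.bound ln (hK.kc hC.cyc.1 le_rfl (by omega)) (by omega)
    have c2 : (16000 : ℝ) * C.length ≤ (κ + 4) ^ 2 := by exact_mod_cast h2
    have c3 : (31996 : ℝ) ≤ κ := by exact_mod_cast (by omega)
    have : (700 : ℝ) * p ≤ κ + 4 := by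
      by_contra hc
      have c4 : (κ : ℝ) * (κ + 4) ≤ κ * (700 * p) :=
        mul_le_mul_of_nonneg_left (not_le.1 hc).le (by linarith)
      have c5 : (κ : ℝ) * 31996 ≤ κ * κ := mul_le_mul_of_nonneg_left c3 (by linarith)
      linarith
    exact_mod_cast this
  obtain ⟨t, f, c, g⟩ := sq_teeth hC.symm (U := {v | v ∈ C}) (fun _ h => h) pb le_rfl ln.inj
    ln.adj ln.off
  have c1 := c.count hC ln.off (fun i hi => (g i hi).1) (J := range p) (fun i hi => mem_range.1 hi)
    (κ := k - 3 * p) (by omega) (fun i hi => by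
      have c1 := (g i (mem_range.1 hi)).2
      have c2 := hK.deg hV (f i)
      have c3 := card_le_card (show fs (r (f i)) ⊆ fs (fun a => r (f i) a ∧ a ∈ C) ∪
        fs (fun w => r (f i) w ∧ w ∉ {v | v ∈ C}) from fun w hw => by
          simp only [mem_union, mem_fs, Set.mem_ofPred_eq] at hw ⊢; tauto)
      have c4 := card_union_le (fs (fun a => r (f i) a ∧ a ∈ C))
        (fs (fun w => r (f i) w ∧ w ∉ {v | v ∈ C}))
      unfold cn at *
      omega) (O := ∅) (fun _ _ h => h.elim) (i0 := 0) (mem_range.2 (by omega))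
  rw [card_range] at c1
  refine ⟨?_, by omega⟩
  obtain ⟨κ, rfl⟩ : ∃ κ, k = κ + 3 * p := ⟨k - 3 * p, by omega⟩
  rw [Nat.add_sub_cancel] at c1
  have c2 : 16000 * (p * κ) ≤ (κ + 3 * p) ^ 2 := by rw [add_mul] at c1; omega
  by_contra hc
  have c3 : (κ + 3 * p) * (κ + 3 * p) ≤ (κ + 3 * p) * (15900 * p) :=
    Nat.mul_le_mul_left _ (by omega)
  have c4 : p * (697 * p) ≤ p * κ := Nat.mul_le_mul_left _ (by omega)
  nlinarith

theorem sq_main [Fintype V] [DecidableEq V] {k : ℕ} (hk : 2 ≤ k) (hV : k < Fintype.card V)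
    (hK : KConn r k) {L D : List V} (hL : Longest r L) (hD : Longest r D) (h3 : 3 ≤ L.length)
    (h3' : 3 ≤ D.length) (hc : 16000 * L.length ≤ k ^ 2) :
    k ≤ (L.toFinset ∩ D.toFinset).card := by
  classical
  by_contra hm
  have e : L.length = D.length := le_antisymm (hD.max L hL.cyc h3) (hL.max D hD.cyc h3')
  have lin := main hk hV hK hL hD h3 h3'
  obtain ⟨v, hv⟩ : ∃ v, v ∉ L := by
    by_contra hall
    have e1 : L.toFinset = univ := eq_univ_of_forall fun v => by
      simpa using not_not.1 fun h => hall ⟨v, h⟩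
    have c1 := List.toFinset_card_of_nodup hL.cyc.1
    have c2 := List.toFinset_card_of_nodup hD.cyc.1
    rw [e1, univ_inter] at hm
    rw [e1, card_univ] at c1
    omega
  have c1 := hL.two_mul (k := min k L.length) (by omega)
    (hK.kc hL.cyc.1 (min_le_left _ _) (min_le_right _ _)) hv
  have c2 : 2 * k ≤ L.length := by omega
  have k0 : 32000 ≤ k := by nlinarith
  let P := fun n => ∃ a e l, Wk r a e l ∧ l.Nodup ∧ ((∀ v ∈ l, v ∉ L) ∨ ∀ v ∈ l, v ∉ D) ∧
    l.length = n
  obtain ⟨a, z, l, l1, l2, l3, l4⟩ : P (Nat.findGreatest P (Fintype.card V)) :=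
    Nat.findGreatest_spec (m := 1) (by omega) ⟨v, v, [v], Wk.one v, by simp, by simp [hv], rfl⟩
  have pb : PB r L l.length := fun a e l' h1 h2 h3 =>
    l4 ▸ Nat.le_findGreatest h2.length_le_card ⟨a, e, l', h1, h2, Or.inl h3, rfl⟩
  have pb' : PB r D l.length := fun a e l' h1 h2 h3 =>
    l4 ▸ Nat.le_findGreatest h2.length_le_card ⟨a, e, l', h1, h2, Or.inr h3, rfl⟩
  have low : 15900 * l.length ≤ k ∧ (l.length + 1) * (k - 3 * l.length) ≤ D.length := by
    rcases l3 with l3 | l3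
    · exact e ▸ hL.lower hV hK pb l1 l2 l3 rfl c2 hc (by omega)
    · exact hD.lower hV hK pb' l1 l2 l3 rfl (e ▸ c2) (e ▸ hc) (by omega)
  obtain ⟨σ⟩ := exists_sd (X := L.toFinset ∩ D.toFinset) hL hD pb (by simp) (by omega) (hK.deg hV)
  obtain ⟨τ⟩ := exists_sd (X := L.toFinset ∩ D.toFinset) hD hL pb' (by simp [and_comm]) (by omega)
    (hK.deg hV)
  refine σ.absurd τ hK ⟨by omega, ?_, low.1, low.2⟩ e
  by_contra hp
  have c3 := σ.short
  have c4 : (L.toFinset ∩ D.toFinset).card * (l.length + 1) ≤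
      (L.toFinset ∩ D.toFinset).card * 2 := Nat.mul_le_mul_left _ (by omega)
  omega

end Pool.Agent.Lib.MP_4f0fb4_co
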