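import Pool.Agent.Lib.MP_4f0fb4_co.SqSide

/-!
Most segments extend to paths whose two ends are adjacent to almost all common vertices.
-/

namespace Pool.Agent.Lib.MP_4f0fb4_co

open Finset Classical

variable {V : Type} {r : V → V → Prop}

structure Num (k p m c : ℕ) : Prop where
  hm : m < k
  hp : 2 ≤ p
  hk : 15900 * p ≤ k
  hc : (p + 1) * (k - 3 * p) ≤ c

namespace Sd

variable [Fintype V] {C D : List V} {X : Finset V} {k p : ℕ} (σ : Sd r C D X k p)

include σ in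
theorem mlo (h : Num k p X.card D.length) : k ≤ X.card + 3 * p := by
  have h1 := σ.short
  have h2 := h.hc
  have : (p + 1) * (k - 3 * p) ≤ (p + 1) * X.card := by rw [mul_comm (p + 1) X.card]; omega
  have := Nat.le_of_mul_le_mul_left this (by omega)
  omega

theorem ncl' (h : Num k p X.card D.length) : (X.filter fun x => ¬σ.cl x).card ≤ 2400 * p := by
  have h1 := σ.short
  have h2 := h.hc
  have h3 := σ.ncl
  have h4 := h.hm
  have h5 := h.hk
  generalize (X.filter fun x => ¬σ.nf x).card = s at *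
  obtain ⟨κ, rfl⟩ : ∃ κ, k = κ + 3 * p := ⟨k - 3 * p, by omega⟩
  rw [Nat.add_sub_cancel] at h2
  have a1 : X.card * (p + 1) ≤ (κ + 3 * p) * (p + 1) := Nat.mul_le_mul_right _ h4.le
  have a2 : s * (p + 1) ≤ s * (400 * (p / 400 + 1)) := Nat.mul_le_mul_left _ (by omega)
  have a3 : s * (p + 1) ≤ 1200 * p * (p + 1) := by nlinarith
  have := Nat.le_of_mul_le_mul_right a3 (by omega)
  omega

theorem ends (h : Num k p X.card D.length) (hl : C.length = D.length) {x : V} (hx : σ.cl x) :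
    ∃ i j, σ.nm x i ∧ σ.nm x j ∧ i < (p + 8) / 9 ∧ σ.n x ≤ j + (p + 8) / 9 ∧
      400 * miss r X (σ.e x i) ≤ 27 * k + 23200 * p ∧
      400 * miss r X (σ.e x j) ≤ 27 * k + 23200 * p := by
  have hp := h.hp
  have hk := h.hk
  have hnf : p ≤ σ.n x + p / 400 := hx.2.1
  let J := (range (σ.n x)).filter (σ.nm x)
  have hJ : p ≤ J.card + 3 * (p / 400) := by
    have c1 := card_filter_add_card_filter_not (s := range (σ.n x)) (σ.nm x)
    have c2 := card_le_card (show (range (σ.n x)).filter (fun i => ¬σ.nm x i) ⊆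
        Ico (σ.n x - (p + p / 400) / 2) ((p + p / 400) / 2) from fun i hi => by
      simp only [mem_filter, mem_range, nm, mem_Ico] at hi ⊢
      omega)
    rw [Nat.card_Ico] at c2
    rw [card_range] at c1
    have := σ.np hx.1
    simp only [J]
    omega
  have key : ∀ F ⊆ J, ∀ i0 ∈ J, i0 ∉ F → F.card = (p + 8) / 9 →
      ∃ i ∈ F, 400 * miss r X (σ.e x i) ≤ 27 * k + 23200 * p := by
    intro F hF i0 h0 h1 h2
    by_contra hc
    obtain ⟨κ, rfl⟩ : ∃ κ, k = κ + 4 * p := ⟨k - 4 * p, by omega⟩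
    have c1 := (σ.comb x hx.1).count σ.lc (fun i hi => σ.bC hx.1 hi)
      (fun i hi v hv => (σ.off x hx.1 i hi v hv).1) (J := J) (fun i hi => (mem_filter.1 hi).2.1)
      (κ := κ) (by omega) (fun i hi => by have := σ.degC hx (mem_filter.1 hi).2; omega)
      (O := {v | v ∉ D}) (fun a a1 a2 i _ g2 g3 => σ.ins hx.1 (mem_filter.1 g2).2.1 a1 a2 g3) h0
    have c2 := sum_le_sum_of_subset (f := fun i => cn fun a => r (σ.e x i) a ∧ a ∈ C ∧ a ∉ D)
      (show F ⊆ J.erase i0 from fun i hi => mem_erase.2 ⟨fun e => h1 (e ▸ hi), hF hi⟩)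
    have c3 : F.card * (27 * (κ + 4 * p) + 21600 * p + 1) ≤
        400 * ∑ i ∈ F, cn fun a => r (σ.e x i) a ∧ a ∈ C ∧ a ∉ D := by
      rw [mul_sum]
      refine le_of_eq_of_le (smul_eq_mul _ _).symm (card_nsmul_le_sum F _ _ fun i hi => ?_)
      have := σ.miss_le h.hm hx (mem_filter.1 (hF hi)).2
      have : ¬400 * miss r X (σ.e x i) ≤ 27 * (κ + 4 * p) + 23200 * p := fun g => hc ⟨i, hi, g⟩
      omega
    have c4 := σ.short
    have c5 : X.card * (p + 1) ≤ (κ + 4 * p) * (p + 1) := Nat.mul_le_mul_right _ h.hm.le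
    simp only [Set.mem_ofPred_eq] at c1
    generalize (∑ i ∈ F, cn fun a => r (σ.e x i) a ∧ a ∈ C ∧ a ∉ D) = s at *
    have c6 : (J.card + 1) * κ + s ≤ (κ + 4 * p) * (p + 1) := by omega
    have c7 : p * κ ≤ (J.card + 3 * (p / 400)) * κ := Nat.mul_le_mul_right _ hJ
    have c8 : 400 * (p / 400) * κ ≤ p * κ := Nat.mul_le_mul_right _ (by omega)
    have c9 : p * (27 * (κ + 4 * p) + 21600 * p + 1) ≤
        9 * F.card * (27 * (κ + 4 * p) + 21600 * p + 1) := Nat.mul_le_mul_right _ (by omega)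
    have c10 : p * 2 ≤ p * p := Nat.mul_le_mul_left _ hp
    nlinarith
  have mem : ∀ i < σ.n x, i < (p + 8) / 9 ∨ σ.n x ≤ i + (p + 8) / 9 → i ∈ J := fun i g1 g2 => by
    simp only [J, mem_filter, mem_range, nm]
    omega
  obtain ⟨i, i1, i2⟩ := key (range ((p + 8) / 9))
    (fun i hi => mem i (by rw [mem_range] at hi; omega) (Or.inl (mem_range.1 hi)))
    (σ.n x - 1) (mem _ (by omega) (by omega)) (by rw [mem_range]; omega) (card_range _)
  obtain ⟨j, j1, j2⟩ := key (Ico (σ.n x - (p + 8) / 9) (σ.n x))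
    (fun i hi => mem i (mem_Ico.1 hi).2 (by rw [mem_Ico] at hi; omega))
    0 (mem _ (by omega) (by omega)) (by rw [mem_Ico]; omega) (by rw [Nat.card_Ico]; omega)
  rw [mem_range] at i1
  rw [mem_Ico] at j1
  exact ⟨i, j, (mem_filter.1 (mem i (by omega) (Or.inl i1))).2,
    (mem_filter.1 (mem j j1.2 (by omega))).2, i1, by omega, i2, j2⟩

theorem cpath {x : V} (hx : x ∈ X) {i j : ℕ} (hi : σ.nm x i) (hj : σ.nm x j) (hij : i ≠ j) :
    ∃ l, Wk r (σ.e x i) (σ.e x j) l ∧ l.Nodup ∧ (∀ v ∈ l, v ∈ σ.Rg x) ∧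
      l.length + min i j = (σ.t x i).length + (σ.t x j).length + max i j + 1 := by
  obtain ⟨l, l1, l2, l3, l4⟩ := (σ.comb x hx).path hi.1 hj.1 hij
  refine ⟨l, l1, l2, fun v hv => ?_, l4⟩
  rcases l3 v hv with g | g | g
  exacts [Or.inr ⟨i, hi, g⟩, Or.inr ⟨j, hj, g⟩, Or.inl g]

theorem nm0 (hp : 2 ≤ p) {x : V} (hx : σ.cl x) :
    σ.nm x 0 ∧ σ.nm x (σ.n x - 1) ∧ 2 ≤ σ.n x := by
  have hnf : p ≤ σ.n x + p / 400 := hx.2.1
  unfold nm
  omega

theorem fill (h : Num k p X.card D.length) (hl : C.length = D.length) {x : V} (hx : σ.cl x) :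
    ∃ a a' l, Wk r a a' l ∧ l.Nodup ∧ (∀ v ∈ l, v ∈ σ.Rg x) ∧ 3 * p < 4 * l.length ∧
      miss r X a ≤ (27 * k + 23200 * p) / 400 ∧ miss r X a' ≤ (27 * k + 23200 * p) / 400 := by
  obtain ⟨i, j, h1, h2, h3, h4, h5, h6⟩ := σ.ends h hl hx
  have hnf : p ≤ σ.n x + p / 400 := hx.2.1
  have hp := h.hp
  obtain ⟨l, l1, l2, l3, l4⟩ := σ.cpath hx.1 h1 h2 (by omega)
  exact ⟨_, _, l, l1, l2, l3, by omega, by omega, by omega⟩

theorem arm (h : Num k p X.card D.length) (hl : C.length = D.length) {x : V} (hx : σ.cl x)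
    {v : V} (hv : v = σ.e x 0 ∨ v = σ.e x (σ.n x - 1)) :
    ∃ a l, Wk r a v l ∧ l.Nodup ∧ (∀ v ∈ l, v ∈ σ.Rg x) ∧ 3 * p < 4 * l.length ∧
      miss r X a ≤ (27 * k + 23200 * p) / 400 := by
  obtain ⟨i, j, h1, h2, h3, h4, h5, h6⟩ := σ.ends h hl hx
  have hnf : p ≤ σ.n x + p / 400 := hx.2.1
  have hp := h.hp
  obtain ⟨g1, g2, -⟩ := σ.nm0 hp hx
  rcases hv with rfl | rfl
  · obtain ⟨l, l1, l2, l3, l4⟩ := σ.cpath hx.1 h2 g1 (by omega)
    exact ⟨_, l, l1, l2, l3, by omega, by omega⟩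
  · obtain ⟨l, l1, l2, l3, l4⟩ := σ.cpath hx.1 h1 g2 (by omega)
    exact ⟨_, l, l1, l2, l3, by omega, by omega⟩

theorem pick {Q : V → List V} {F : Finset V} (hF : ∀ y ∈ F, y ∈ X ∧ ∀ v ∈ Q y, v ∈ σ.Rg y)
    {B : List V} (hB : B.length + 1 < F.card) (y1 : V) :
    ∃ y ∈ F, y ≠ y1 ∧ (Q y).Disjoint B := by
  have : ∀ y, ∃ v, ¬(Q y).Disjoint B → v ∈ Q y ∧ v ∈ B := fun y => by
    by_cases c : (Q y).Disjoint B
    · exact ⟨y, fun g => (g c).elim⟩
    · simp only [List.Disjoint, not_forall] at c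
      obtain ⟨v, g1, g2, -⟩ := c
      exact ⟨v, fun _ => ⟨g1, g2⟩⟩
  choose f hf using this
  have c1 : (F.filter fun y => ¬(Q y).Disjoint B).card ≤ B.toFinset.card :=
    card_le_card_of_injOn f (fun y hy => List.mem_toFinset.2 (hf y (mem_filter.1 hy).2).2)
      fun y hy y' hy' e => by
        by_contra hne
        obtain ⟨g1, g2⟩ := mem_filter.1 hy
        obtain ⟨g3, g4⟩ := mem_filter.1 hy'
        exact σ.rgd (hF y g1).1 (hF y' g3).1 hne ((hF y g1).2 _ (hf y g2).1)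
          ((hF y' g3).2 _ (e ▸ (hf y' g4).1))
  have c2 := List.toFinset_card_le B
  have c3 := card_insert_le y1 (F.filter fun y => ¬(Q y).Disjoint B)
  obtain ⟨y, g1, g2⟩ := exists_mem_notMem_of_card_lt_card
    (s := insert y1 (F.filter fun y => ¬(Q y).Disjoint B)) (t := F) (by omega)
  simp only [mem_insert, mem_filter, g1, true_and, not_or, not_not] at g2
  exact ⟨y, g1, g2⟩

variable (τ : Sd r D C X k p)

theorem touch (h : Num k p X.card D.length) (hl : C.length = D.length) {a a' : V → V}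
    {Q : V → List V} {N : Finset V} (hQ : ∀ y ∈ N, y ∈ X ∧ Wk r (a y) (a' y) (Q y) ∧ (Q y).Nodup ∧
      (∀ v ∈ Q y, v ∈ τ.Rg y) ∧ 3 * p < 4 * (Q y).length)
    {x x' : V} (hx : σ.cl x) (hx' : σ.cl x') (hne : x ≠ x')
    (g : 3 * p + 1 < (N.filter fun y => r (a y) x ∧ r (a' y) (σ.nx x)).card)
    (g' : 3 * p + 1 < (N.filter fun y => r (a y) x' ∧ r (a' y) (σ.nx x')).card)
    {v v' : V} (hv : v = σ.e x 0 ∨ v = σ.e x (σ.n x - 1))
    (hv' : v' = σ.e x' 0 ∨ v' = σ.e x' (σ.n x' - 1)) {y : V} (hy : y ∈ X) {s s' : ℕ}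
    (hs : s < τ.n y) (hs' : s' < τ.n y) (r1 : r v (τ.b y s)) (r2 : r v' (τ.b y s')) : False := by
  obtain ⟨u, l, l1, l2, l3, l4, l5⟩ := σ.arm h hl hx hv
  obtain ⟨u', l', m1, m2, m3, m4, m5⟩ := σ.arm h hl hx' hv'
  obtain ⟨w, w1, w2, w3, w4⟩ := τ.dec.seg hy hs hs'
  have wC : ∀ z ∈ w, z ∈ C ∧ z ∉ D := fun z hz => by
    obtain ⟨t, -, t2, rfl⟩ := w3 z hz
    exact ⟨τ.bD hy (by omega), τ.bC hy (by omega)⟩
  have b1 : Wk r u u' (l ++ (w ++ l'.reverse)) :=
    l1.append r1 (w1.append (σ.dec.symm _ _ r2) (m1.reverse σ.dec.symm))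
  have b2 : (l ++ (w ++ l'.reverse)).Nodup := by
    refine List.nodup_append.2 ⟨l2, List.nodup_append.2 ⟨w2, List.nodup_reverse.2 m2, ?_⟩, ?_⟩
    · rintro z g1 _ g2 rfl
      exact σ.rgC hx'.1 (m3 z (List.mem_reverse.1 g2)) (wC z g1).1
    · rintro z g1 _ g2 rfl
      rcases List.mem_append.1 g2 with g2 | g2
      · exact σ.rgC hx.1 (l3 z g1) (wC z g2).1
      · exact σ.rgd hx.1 hx'.1 hne (l3 z g1) (m3 z (List.mem_reverse.1 g2))
  have b3 := σ.pb _ _ l l1 l2 fun z hz => σ.rgC hx.1 (l3 z hz)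
  have b4 := σ.pb _ _ l' m1 m2 fun z hz => σ.rgC hx'.1 (m3 z hz)
  have b5 := τ.np hy
  have b6 : (l ++ (w ++ l'.reverse)).length = l.length + w.length + l'.length := by
    simp [add_assoc]
  obtain ⟨y1, c1, -, c2⟩ := τ.pick (Q := Q) (B := l ++ (w ++ l'.reverse))
    (fun y hy => ⟨(hQ y (mem_filter.1 hy).1).1, (hQ y (mem_filter.1 hy).1).2.2.2.1⟩)
    (lt_of_le_of_lt (by omega) g) y
  obtain ⟨y2, c3, c4, c5⟩ := τ.pick (Q := Q) (B := l ++ (w ++ l'.reverse))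
    (fun y hy => ⟨(hQ y (mem_filter.1 hy).1).1, (hQ y (mem_filter.1 hy).1).2.2.2.1⟩)
    (lt_of_le_of_lt (by omega) g') y1
  obtain ⟨x3, d1, d2, d3⟩ := sq_fit σ.dec.nxm σ.dec.nxi l5 m5 (P := (X.erase x).erase x')
    ((erase_subset _ _).trans (erase_subset _ _)) (by
      have := pred_card_le_card_erase (s := X.erase x) (a := x')
      have := pred_card_le_card_erase (s := X) (a := x)
      have := σ.mlo h
      have := h.hk
      have := h.hp
      omega)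
  simp only [mem_erase] at d1
  obtain ⟨c1, e1, e2⟩ := mem_filter.1 c1
  obtain ⟨c3, e3, e4⟩ := mem_filter.1 c3
  obtain ⟨q1, q2, q3, q4, q5⟩ := hQ y1 c1
  obtain ⟨p1, p2, p3, p4, p5⟩ := hQ y2 c3
  have := σ.dec.ex3 hx.1 hx'.1 d1.2.2 hne d1.2.1.symm d1.1.symm
    (q2.fit (σ.dec.symm _ _ e1) e2) q3 (p2.fit (σ.dec.symm _ _ e3) e4) p3
    (b1.fit (σ.dec.symm _ _ d2) d3) b2 (fun z g1 g2 => τ.rgd q1 p1 c4.symm (q4 z g1) (p4 z g2))
    c2 c5 (fun z hz => τ.rgC q1 (q4 z hz)) (fun z hz => τ.rgC p1 (p4 z hz)) (fun z hz hD => by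
      simp only [List.mem_append, List.mem_reverse] at hz
      rcases hz with hz | hz | hz
      · exact Or.inl (σ.rgD hx.1 (l3 z hz) hD)
      · exact ((wC z hz).2 hD).elim
      · exact Or.inr (σ.rgD hx'.1 (m3 z hz) hD))
  have := σ.np hx.1
  have := σ.np hx'.1
  have := σ.np d1.2.2
  omega

def nice (x : V) : Prop :=
  σ.cl x ∧ miss r X (σ.e x 0) ≤ 64 * p ∧ miss r X (σ.e x (σ.n x - 1)) ≤ 64 * p

include τ in
theorem nnice (h : Num k p X.card D.length) (hl : C.length = D.length) :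
    24000 * (X.filter fun x => ¬σ.nice x).card ≤ 3802 * k + 60523200 * p := by
  have h' : Num k p X.card C.length := hl ▸ h
  have : ∀ y, ∃ a a' l, τ.cl y → Wk r a a' l ∧ l.Nodup ∧ (∀ v ∈ l, v ∈ τ.Rg y) ∧
      3 * p < 4 * l.length ∧ miss r X a ≤ (27 * k + 23200 * p) / 400 ∧
      miss r X a' ≤ (27 * k + 23200 * p) / 400 := fun y => by
    by_cases c : τ.cl y
    · obtain ⟨a, a', l, g⟩ := τ.fill h' hl.symm c
      exact ⟨a, a', l, fun _ => g⟩
    · exact ⟨y, y, [], fun g => (c g).elim⟩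
  choose a a' Q hQ using this
  let N := X.filter τ.cl
  have n1 := card_filter_add_card_filter_not (s := X) τ.cl
  have n2 := τ.ncl' h'
  have n3 := σ.ncl' h
  have n4 := σ.mlo h
  have hk := h.hk
  have hp := h.hp
  have hm := h.hm
  have bad := sq_bad σ.dec.nxm σ.dec.nxi (N := N) (a := a) (a' := a') (q := 3 * p + 1)
    (fun y hy => (hQ y (mem_filter.1 hy).2).2.2.2.2) (by simp only [N]; omega)
    (by simp only [N]; omega)
  let G := X.filter fun x => σ.cl x ∧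
    3 * p + 1 < (N.filter fun y => r (a y) x ∧ r (a' y) (σ.nx x)).card
  let T := fun x => X.filter fun y => ∃ s < τ.n y, ∃ v, (v = σ.e x 0 ∨ v = σ.e x (σ.n x - 1)) ∧
    r v (τ.b y s)
  have t1 : ∑ x ∈ G, (T x).card ≤ X.card := by
    rw [← card_biUnion]
    · exact card_le_card (biUnion_subset.2 fun x _ => filter_subset _ _)
    · intro x hx x' hx' hne
      refine disjoint_left.2 fun y g1 g2 => ?_
      obtain ⟨hy, s, s1, v, v1, v2⟩ := mem_filter.1 g1
      obtain ⟨-, s', s2, v', v3, v4⟩ := mem_filter.1 g2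
      obtain ⟨-, x1, x2⟩ := mem_filter.1 hx
      obtain ⟨-, x3, x4⟩ := mem_filter.1 hx'
      exact σ.touch τ h hl (fun y hy => by
        obtain ⟨y1, y2⟩ := mem_filter.1 hy
        obtain ⟨q1, q2, q3, q4, -⟩ := hQ y y2
        exact ⟨y1, q1, q2, q3, q4⟩) x1 x3 hne x2 x4 v1 v3 hy s1 s2 v2 v4
  have t2 : (G.filter fun x => 60 ≤ (T x).card).card * 60 ≤ X.card := by
    refine le_trans ?_ ((sum_le_sum_of_subset (filter_subset (fun x => 60 ≤ (T x).card) G)).trans t1)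
    exact le_of_eq_of_le (smul_eq_mul _ _).symm
      (card_nsmul_le_sum _ _ _ fun x hx => (mem_filter.1 hx).2)
  have t3 : ∀ x, σ.cl x → (T x).card < 60 → σ.nice x := fun x hx hT => by
    have key : ∀ v, (v = σ.e x 0 ∨ v = σ.e x (σ.n x - 1)) →
        cn (fun a => r v a ∧ a ∈ C ∧ a ∉ D) ≤ 60 * p := fun v hv => by
      refine (card_le_card (t := (T x).biUnion fun y => (range (τ.n y)).image (τ.b y))
        fun w hw => ?_).trans ((card_biUnion_le_card_mul _ _ p fun y hy => ?_).trans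
          (Nat.mul_le_mul_right _ hT.le))
      · obtain ⟨w1, w2, w3⟩ := mem_fs.1 hw
        obtain ⟨y, hy, s, s1, rfl⟩ := τ.dec.cov w w2 fun g => w3 ((σ.mx w).1 g).2
        exact mem_biUnion.2 ⟨y, mem_filter.2 ⟨hy, s, s1, v, hv, w1⟩,
          mem_image_of_mem _ (mem_range.2 s1)⟩
      · exact card_image_le.trans (by rw [card_range]; exact τ.np (mem_filter.1 hy).1)
    obtain ⟨g1, g2, -⟩ := σ.nm0 hp hx
    have := σ.miss_le hm hx g1
    have := σ.miss_le hm hx g2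
    have := key _ (Or.inl rfl)
    have := key _ (Or.inr rfl)
    exact ⟨hx, by omega, by omega⟩
  have c1 := card_le_card (show (X.filter fun x => ¬σ.nice x) ⊆ ((X.filter fun x => ¬σ.cl x) ∪
      X.filter fun x => (N.filter fun y => r (a y) x ∧ r (a' y) (σ.nx x)).card ≤ 3 * p + 1) ∪
      G.filter fun x => 60 ≤ (T x).card from fun x hx => by
    obtain ⟨x1, x2⟩ := mem_filter.1 hx
    by_contra hc
    simp only [G, mem_union, mem_filter, x1, true_and, not_or, not_not, not_le, not_and] at hc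
    exact x2 (t3 x hc.1.1 (hc.2 ⟨hc.1.1, hc.1.2⟩)))
  have c2 := card_union_le ((X.filter fun x => ¬σ.cl x) ∪
      X.filter fun x => (N.filter fun y => r (a y) x ∧ r (a' y) (σ.nx x)).card ≤ 3 * p + 1)
      (G.filter fun x => 60 ≤ (T x).card)
  have c3 := card_union_le (X.filter fun x => ¬σ.cl x)
      (X.filter fun x => (N.filter fun y => r (a y) x ∧ r (a' y) (σ.nx x)).card ≤ 3 * p + 1)
  omega

end Sd

end Pool.Agent.Lib.MP_4f0fb4_co
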