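import Pool.Agent.Lib.MP_4f0fb4_co.SqComb

/-!
The segments of one longest cycle off the other one, with their combs: clean segments have
comb ends adjacent to most common vertices.
-/

namespace Pool.Agent.Lib.MP_4f0fb4_co

open Finset Classical

variable {V : Type} {r : V → V → Prop}

theorem Wk.rch_mem {a e v : V} {l : List V} (h : Wk r a e l) (hv : v ∈ l) {M : Set V}
    (hM : ∀ w ∈ l, w ∈ M) : Rch r M a v := by
  obtain ⟨s, t, rfl⟩ := List.append_of_mem hv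
  refine ⟨_, h.split.1, fun w hw => hM w ?_⟩
  simp only [List.mem_append, List.mem_cons, List.not_mem_nil, or_false] at hw ⊢
  tauto

theorem Dec.jn {D D' : List V} {X : Finset V} {nx nx' : V → V} {n n' : V → ℕ} {b b' : V → ℕ → V}
    (h : Dec r D X nx n b) (h' : Dec r D' X nx' n' b') {x y : V} (hx : x ∈ X) (hy : y ∈ X)
    {i j : ℕ} (hi : i < n x) (hj : j < n' y) (hd : ∀ s < n x, ∀ s' < n' y, b x s ≠ b' y s')
    {M : Set V} (hM : Rch r M (b x i) (b' y j)) (m1 : ∀ s < n x, b x s ∈ M → b x s = b x i)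
    (m2 : ∀ s < n' y, b' y s ∈ M → b' y s = b' y j) :
    ∃ a a' l, (a = b x 0 ∨ a = b x (n x - 1)) ∧ (a' = b' y 0 ∨ a' = b' y (n' y - 1)) ∧
      Wk r a a' l ∧ l.Nodup ∧
      (∀ v ∈ l, (∃ s < n x, b x s = v) ∨ (∃ s < n' y, b' y s = v) ∨ v ∈ M) ∧
      max (i + 1) (n x - i) + max (j + 1) (n' y - j) ≤ l.length := by
  obtain ⟨a, l1, a1, a2, a3, a4, a5⟩ := h.half hx hi
  obtain ⟨a', l2, b1, b2, b3, b4, b5⟩ := h'.half hy hj
  obtain ⟨l, c1, c2, c3, c4⟩ := sq_join h.symm a2 a3 b2 b3 (fun v g1 g2 => by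
      obtain ⟨s, s1, rfl⟩ := a4 v g1
      obtain ⟨s', s2, s3⟩ := b4 _ g2
      exact hd s s1 s' s2 s3.symm) hM
    (fun v g1 g2 => by obtain ⟨s, s1, rfl⟩ := a4 v g2; exact m1 s s1 g1)
    (fun v g1 g2 => by obtain ⟨s, s1, rfl⟩ := b4 v g2; exact m2 s s1 g1)
  exact ⟨a, a', l, a1, b1, c1, c2, fun v hv => (c3 v hv).imp (a4 v) (Or.imp_left (b4 v)), by omega⟩

/-- The number of vertices of `X` that are not neighbours of `v`. -/
noncomputable def miss (r : V → V → Prop) (X : Finset V) (v : V) : ℕ :=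
  (X.filter fun x => ¬r v x).card

theorem sq_nfit {X : Finset V} {nx : V → V} (h1 : ∀ x ∈ X, nx x ∈ X)
    (h2 : ∀ x ∈ X, ∀ y ∈ X, nx x = nx y → x = y) {a a' : V} {μ : ℕ} (ha : miss r X a ≤ μ)
    (ha' : miss r X a' ≤ μ) : (X.filter fun x => ¬(r a x ∧ r a' (nx x))).card ≤ 2 * μ := by
  have c1 : (X.filter fun x => ¬r a' (nx x)).card ≤ miss r X a' :=
    card_le_card_of_injOn nx (fun x hx => by
      rw [mem_coe, mem_filter] at hx ⊢; exact ⟨h1 x hx.1, hx.2⟩)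
      fun x hx y hy e => h2 x (mem_filter.1 hx).1 y (mem_filter.1 hy).1 e
  have c2 := card_le_card (show (X.filter fun x => ¬(r a x ∧ r a' (nx x))) ⊆
      (X.filter fun x => ¬r a x) ∪ X.filter fun x => ¬r a' (nx x) from fun x hx => by
    simp only [mem_filter, mem_union] at hx ⊢; tauto)
  have c3 := card_union_le (X.filter fun x => ¬r a x) (X.filter fun x => ¬r a' (nx x))
  unfold miss at *
  omega

theorem sq_fit {X : Finset V} {nx : V → V} (h1 : ∀ x ∈ X, nx x ∈ X)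
    (h2 : ∀ x ∈ X, ∀ y ∈ X, nx x = nx y → x = y) {a a' : V} {μ : ℕ} (ha : miss r X a ≤ μ)
    (ha' : miss r X a' ≤ μ) {P : Finset V} (hP : P ⊆ X) (hc : 2 * μ < P.card) :
    ∃ x ∈ P, r a x ∧ r a' (nx x) := by
  obtain ⟨x, g1, g2⟩ := exists_mem_notMem_of_card_lt_card ((sq_nfit h1 h2 ha ha').trans_lt hc)
  exact ⟨x, g1, by simpa [hP g1] using g2⟩

theorem sq_bad {X N : Finset V} {nx : V → V} (h1 : ∀ x ∈ X, nx x ∈ X)
    (h2 : ∀ x ∈ X, ∀ y ∈ X, nx x = nx y → x = y) {a a' : V → V} {μ q : ℕ}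
    (ha : ∀ y ∈ N, miss r X (a y) ≤ μ ∧ miss r X (a' y) ≤ μ) (hq : 21 * q ≤ N.card)
    (hN : 0 < N.card) : 20 * (X.filter fun x =>
      (N.filter fun y => r (a y) x ∧ r (a' y) (nx x)).card ≤ q).card ≤ 42 * μ := by
  set B := X.filter fun x => (N.filter fun y => r (a y) x ∧ r (a' y) (nx x)).card ≤ q
  have c1 : ∑ x ∈ X, (N.filter fun y => ¬(r (a y) x ∧ r (a' y) (nx x))).card ≤ N.card * (2 * μ) := by
    simp only [card_filter]
    rw [sum_comm]
    simp only [← card_filter]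
    simpa using sum_le_card_nsmul N _ (2 * μ) fun y hy => sq_nfit h1 h2 (ha y hy).1 (ha y hy).2
  have c2 : B.card * (N.card - q) ≤
      ∑ x ∈ B, (N.filter fun y => ¬(r (a y) x ∧ r (a' y) (nx x))).card := by
    refine le_of_eq_of_le (smul_eq_mul _ _).symm (card_nsmul_le_sum B _ _ fun x hx => ?_)
    have := card_filter_add_card_filter_not (s := N) fun y => r (a y) x ∧ r (a' y) (nx x)
    have := (mem_filter.1 hx).2
    omega
  have c3 := sum_le_sum_of_subset (f := fun x =>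
    (N.filter fun y => ¬(r (a y) x ∧ r (a' y) (nx x))).card) (filter_subset _ X : B ⊆ X)
  have c4 : B.card * (20 * N.card) ≤ B.card * (21 * (N.card - q)) :=
    Nat.mul_le_mul_left _ (by omega)
  have c5 := c2.trans (c3.trans c1)
  refine Nat.le_of_mul_le_mul_right ?_ hN
  nlinarith

structure Sd [Fintype V] (r : V → V → Prop) (C D : List V) (X : Finset V) (k p : ℕ) where
  nx : V → V
  n : V → ℕ
  b : V → ℕ → V
  t : V → ℕ → List V
  e : V → ℕ → V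
  dec : Dec r D X nx n b
  lc : Longest r C
  pb : PB r C p
  mx : ∀ v, v ∈ X ↔ v ∈ C ∧ v ∈ D
  comb : ∀ x ∈ X, Comb r (n x) (b x) (t x) (e x)
  off : ∀ x ∈ X, ∀ i < n x, ∀ v ∈ t x i, v ∉ C ∧ v ∉ D
  low : ∀ x ∈ X, ∀ i < n x, cn (fun w => r (e x i) w ∧ w ∉ C ∧ w ∉ D) ≤ 3 * p
  deg : ∀ v, k ≤ cn (r v)

theorem Dec.np {C D : List V} {X : Finset V} {nx : V → V} {n : V → ℕ} {b : V → ℕ → V}
    (h : Dec r D X nx n b) {p : ℕ} (pb : PB r C p) (mx : ∀ v, v ∈ X ↔ v ∈ C ∧ v ∈ D) {x : V}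
    (hx : x ∈ X) : n x ≤ p := by
  rcases Nat.eq_zero_or_pos (n x) with g | g
  · omega
  obtain ⟨l, h1, h2, h3, h4⟩ := h.seg hx g (show n x - 1 < n x by omega)
  have := pb _ _ l h1 h2 fun v hv c => by
    obtain ⟨s, -, s2, rfl⟩ := h3 v hv
    have := h.mem x hx s (by omega)
    exact this.2 ((mx _).2 ⟨c, this.1⟩)
  omega

theorem exists_sd [Fintype V] {C D : List V} {X : Finset V} {k p : ℕ} (hC : Longest r C)
    (hD : Longest r D) (pb : PB r C p) (mx : ∀ v, v ∈ X ↔ v ∈ C ∧ v ∈ D) (h3 : 3 ≤ X.card)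
    (deg : ∀ v, k ≤ cn (r v)) : Nonempty (Sd r C D X k p) := by
  obtain ⟨nx, n, b, h⟩ := hD.dec (fun x hx => ((mx x).1 hx).2) h3
  have : ∀ x, ∃ (t : ℕ → List V) (e : ℕ → V), x ∈ X → Comb r (n x) (b x) t e ∧
      ∀ i < n x, (∀ v ∈ t i, v ∉ {v | v ∈ C ∨ v ∈ D}) ∧
        cn (fun w => r (e i) w ∧ w ∉ {v | v ∈ C ∨ v ∈ D}) ≤ 3 * p := fun x => by
    by_cases hx : x ∈ X
    · obtain ⟨t, e, g⟩ := sq_teeth hC.symm (U := {v | v ∈ C ∨ v ∈ D}) (fun v hv => Or.inl hv) pb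
        (h.np pb mx hx) (fun i hi j hj e => (h.inj x hx x hx i hi j hj e).2) (h.adj x hx)
        fun i hi c => (h.mem x hx i hi).2 ((mx _).2 ⟨c, (h.mem x hx i hi).1⟩)
      exact ⟨t, e, fun _ => g⟩
    · exact ⟨fun _ => [], fun _ => x, fun g => (hx g).elim⟩
  choose t e ht using this
  exact ⟨⟨nx, n, b, t, e, h, hC, pb, mx, fun x hx => (ht x hx).1,
    fun x hx i hi v hv => not_or.1 (((ht x hx).2 i hi).1 v hv),
    fun x hx i hi => by simpa only [Set.mem_ofPred_eq, not_or] using ((ht x hx).2 i hi).2, deg⟩⟩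

namespace Sd

variable [Fintype V] {C D : List V} {X : Finset V} {k p : ℕ} (σ : Sd r C D X k p)

theorem bC {x : V} (hx : x ∈ X) {i : ℕ} (hi : i < σ.n x) : σ.b x i ∉ C := fun c =>
  (σ.dec.mem x hx i hi).2 ((σ.mx _).2 ⟨c, (σ.dec.mem x hx i hi).1⟩)

theorem bD {x : V} (hx : x ∈ X) {i : ℕ} (hi : i < σ.n x) : σ.b x i ∈ D := (σ.dec.mem x hx i hi).1

theorem np {x : V} (hx : x ∈ X) : σ.n x ≤ p := σ.dec.np σ.pb σ.mx hx

theorem bne {x y : V} (hx : x ∈ X) (hy : y ∈ X) (hxy : x ≠ y) {i j : ℕ} (hi : i < σ.n x)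
    (hj : j < σ.n y) : σ.b x i ≠ σ.b y j := fun e => hxy (σ.dec.inj x hx y hy i hi j hj e).1

theorem lp {x y : V} (hx : x ∈ X) (hy : y ∈ X) (hxy : x ≠ y) {i j : ℕ} (hi : i < σ.n x)
    (hj : j < σ.n y) {M : Set V} (hM : Rch r M (σ.b x i) (σ.b y j)) (m0 : ∀ v ∈ M, v ∉ C)
    (m1 : ∀ s < σ.n x, σ.b x s ∈ M → σ.b x s = σ.b x i)
    (m2 : ∀ s < σ.n y, σ.b y s ∈ M → σ.b y s = σ.b y j) :
    max (i + 1) (σ.n x - i) + max (j + 1) (σ.n y - j) ≤ p := by
  obtain ⟨a, a', l, -, -, h1, h2, h3, h4⟩ := σ.dec.jn σ.dec hx hy hi hj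
    (fun s s1 s' s2 => σ.bne hx hy hxy s1 s2) hM m1 m2
  refine h4.trans (σ.pb _ _ l h1 h2 fun v hv => ?_)
  rcases h3 v hv with ⟨s, s1, rfl⟩ | ⟨s, s1, rfl⟩ | g
  · exact σ.bC hx s1
  · exact σ.bC hy s1
  · exact m0 v g

def nf (x : V) : Prop := p ≤ σ.n x + p / 400

def nm (x : V) (i : ℕ) : Prop := i < σ.n x ∧ p + p / 400 < 2 * max (i + 1) (σ.n x - i)

def Rg (x : V) : Set V := {v | (∃ s < σ.n x, σ.b x s = v) ∨ ∃ i, σ.nm x i ∧ v ∈ σ.t x i}

def cl (x : V) : Prop := x ∈ X ∧ σ.nf x ∧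
  ∀ i, σ.nm x i → ∀ w, r (σ.e x i) w → w ∈ D → w ∉ X → ∃ s < σ.n x, σ.b x s = w

theorem rgC {x : V} (hx : x ∈ X) {v : V} (hv : v ∈ σ.Rg x) : v ∉ C := by
  rcases hv with ⟨s, s1, rfl⟩ | ⟨i, hi, g⟩
  · exact σ.bC hx s1
  · exact (σ.off x hx i hi.1 v g).1

theorem rgD {x : V} (hx : x ∈ X) {v : V} (hv : v ∈ σ.Rg x) (hD : v ∈ D) :
    ∃ s < σ.n x, σ.b x s = v :=
  hv.resolve_right fun ⟨i, hi, g⟩ => (σ.off x hx i hi.1 v g).2 hD

theorem tooth {x : V} (hx : x ∈ X) {i : ℕ} (hi : i < σ.n x) {M : Set V} (h1 : σ.b x i ∈ M)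
    (h2 : ∀ v, v ∉ C → v ∉ D → v ∈ M) {v : V} (hv : v ∈ σ.b x i :: σ.t x i) :
    Rch r M (σ.b x i) v :=
  ((σ.comb x hx).tw i hi).rch_mem hv fun w hw => by
    rcases List.mem_cons.1 hw with rfl | hw
    · exact h1
    · exact h2 w (σ.off x hx i hi w hw).1 (σ.off x hx i hi w hw).2

theorem rgd {x y : V} (hx : x ∈ X) (hy : y ∈ X) (hxy : x ≠ y) {v : V} (h1 : v ∈ σ.Rg x)
    (h2 : v ∈ σ.Rg y) : False := by
  by_cases hD : v ∈ D
  · obtain ⟨s, s1, s2⟩ := σ.rgD hx h1 hD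
    obtain ⟨s', s3, s4⟩ := σ.rgD hy h2 hD
    exact σ.bne hx hy hxy s1 s3 (s2.trans s4.symm)
  obtain ⟨i, hi, g1⟩ := h1.resolve_left fun ⟨s, s1, s2⟩ => hD (s2 ▸ σ.bD hx s1)
  obtain ⟨j, hj, g2⟩ := h2.resolve_left fun ⟨s, s1, s2⟩ => hD (s2 ▸ σ.bD hy s1)
  have := σ.lp hx hy hxy hi.1 hj.1 (M := {w | w = σ.b x i ∨ w = σ.b y j ∨ w ∉ C ∧ w ∉ D})
    ((σ.tooth hx hi.1 (Or.inl rfl) (fun w a b => Or.inr (Or.inr ⟨a, b⟩))
      (List.mem_cons_of_mem _ g1)).trans ((σ.tooth hy hj.1 (Or.inr (Or.inl rfl))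
      (fun w a b => Or.inr (Or.inr ⟨a, b⟩)) (List.mem_cons_of_mem _ g2)).symm σ.dec.symm))
    (by rintro w (rfl | rfl | g); exacts [σ.bC hx hi.1, σ.bC hy hj.1, g.1])
    (by
      rintro s s1 (g | g | g)
      exacts [g, (σ.bne hx hy hxy s1 hj.1 g).elim, (g.2 (σ.bD hx s1)).elim])
    (by
      rintro s s1 (g | g | g)
      exacts [(σ.bne hx hy hxy hi.1 s1 g.symm).elim, g, (g.2 (σ.bD hy s1)).elim])
  have := hi.2
  have := hj.2
  omega

theorem short : (X.filter fun x => ¬σ.nf x).card * (p / 400 + 1) + D.length ≤ X.card * (p + 1) := by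
  have c1 : ∑ x ∈ X, (σ.n x + if ¬σ.nf x then p / 400 + 1 else 0) ≤ X.card * p := by
    simpa using sum_le_card_nsmul X _ p fun x hx => by
      have := σ.np hx
      split_ifs with c
      · omega
      · unfold nf at c; omega
  rw [sum_add_distrib, ← sum_filter, sum_const, smul_eq_mul] at c1
  have := σ.dec.len
  rw [mul_add X.card]
  omega

theorem ncl : (X.filter fun x => ¬σ.cl x).card ≤ 2 * (X.filter fun x => ¬σ.nf x).card := by
  have : ∀ x, ∃ y, x ∈ X → σ.nf x → ¬σ.cl x → y ∈ X ∧ x ≠ y ∧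
      ∃ i, σ.nm x i ∧ ∃ j < σ.n y, r (σ.e x i) (σ.b y j) := fun x => by
    by_cases c : x ∈ X ∧ σ.nf x ∧ ¬σ.cl x
    · obtain ⟨c1, c2, c3⟩ := c
      simp only [cl, c1, c2, true_and, not_forall] at c3
      obtain ⟨i, hi, w, w1, w2, w3, w4⟩ := c3
      obtain ⟨y, hy, j, hj, rfl⟩ := σ.dec.cov w w2 w3
      exact ⟨y, fun _ _ _ => ⟨hy, fun e => w4 ⟨j, e ▸ hj, by rw [e]⟩, i, hi, j, hj, w1⟩⟩
    · exact ⟨x, fun a b d => (c ⟨a, b, d⟩).elim⟩
  choose f hf using this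
  have c1 : (X.filter fun x => σ.nf x ∧ ¬σ.cl x).card ≤ (X.filter fun x => ¬σ.nf x).card := by
    refine card_le_card_of_injOn f (fun x hx => ?_) fun x hx x' hx' e => ?_
    · obtain ⟨hx, g1, g2⟩ := mem_filter.1 hx
      obtain ⟨hy, hxy, i, hi, j, hj, g⟩ := hf x hx g1 g2
      refine mem_filter.2 ⟨hy, fun c => ?_⟩
      have := σ.lp hx hy hxy hi.1 hj (M := {w | w = σ.b x i ∨ w = σ.b (f x) j ∨ w ∉ C ∧ w ∉ D})
        ((σ.tooth hx hi.1 (Or.inl rfl) (fun w a b => Or.inr (Or.inr ⟨a, b⟩))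
          ((σ.comb x hx).tw i hi.1).last_mem).tail g (Or.inr (Or.inl rfl)))
        (by rintro w (rfl | rfl | g); exacts [σ.bC hx hi.1, σ.bC hy hj, g.1])
        (by
          rintro s s1 (g | g | g)
          exacts [g, (σ.bne hx hy hxy s1 hj g).elim, (g.2 (σ.bD hx s1)).elim])
        (by
          rintro s s1 (g | g | g)
          exacts [(σ.bne hx hy hxy hi.1 s1 g.symm).elim, g, (g.2 (σ.bD hy s1)).elim])
      have := hi.2
      unfold nf at c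
      omega
    · by_contra hne
      obtain ⟨hx, g1, g2⟩ := mem_filter.1 hx
      obtain ⟨hx', g1', g2'⟩ := mem_filter.1 hx'
      obtain ⟨hy, hxy, i, hi, j, hj, g⟩ := hf x hx g1 g2
      obtain ⟨-, hxy', i', hi', j', hj', g'⟩ := hf x' hx' g1' g2'
      rw [← e] at hxy' hj' g'
      have := σ.lp hx hx' hne hi.1 hi'.1 (M := {w | w = σ.b x i ∨ w = σ.b x' i' ∨
          (w ∉ C ∧ w ∉ D) ∨ ∃ s < σ.n (f x), σ.b (f x) s = w})
        ((σ.tooth hx hi.1 (Or.inl rfl) (fun w a b => Or.inr (Or.inr (Or.inl ⟨a, b⟩)))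
          ((σ.comb x hx).tw i hi.1).last_mem).step g ((σ.dec.rch hy hj hj' fun s s1 =>
            Or.inr (Or.inr (Or.inr ⟨s, s1, rfl⟩))).step (σ.dec.symm _ _ g')
          ((σ.tooth hx' hi'.1 (Or.inr (Or.inl rfl)) (fun w a b => Or.inr (Or.inr (Or.inl ⟨a, b⟩)))
            ((σ.comb x' hx').tw i' hi'.1).last_mem).symm σ.dec.symm)))
        (by
          rintro w (rfl | rfl | g | ⟨s, s1, rfl⟩)
          exacts [σ.bC hx hi.1, σ.bC hx' hi'.1, g.1, σ.bC hy s1])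
        (by
          rintro s s1 (g | g | g | ⟨s', s2, g⟩)
          exacts [g, (σ.bne hx hx' hne s1 hi'.1 g).elim, (g.2 (σ.bD hx s1)).elim,
            (σ.bne hx hy hxy s1 s2 g.symm).elim])
        (by
          rintro s s1 (g | g | g | ⟨s', s2, g⟩)
          exacts [(σ.bne hx hx' hne hi.1 s1 g.symm).elim, g, (g.2 (σ.bD hx' s1)).elim,
            (σ.bne hx' hy hxy' s1 s2 g.symm).elim])
      have := hi.2
      have := hi'.2
      omega
  have c2 := card_le_card (show (X.filter fun x => ¬σ.cl x) ⊆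
      (X.filter fun x => σ.nf x ∧ ¬σ.cl x) ∪ X.filter fun x => ¬σ.nf x from fun x hx => by
    simp only [mem_filter, mem_union] at hx ⊢; tauto)
  have c3 := card_union_le (X.filter fun x => σ.nf x ∧ ¬σ.cl x) (X.filter fun x => ¬σ.nf x)
  omega

theorem degC {x : V} (hx : σ.cl x) {i : ℕ} (hi : σ.nm x i) :
    k ≤ cn (fun a => r (σ.e x i) a ∧ a ∈ C) + 4 * p := by
  have c1 := card_le_card (show fs (r (σ.e x i)) ⊆ (fs (fun a => r (σ.e x i) a ∧ a ∈ C) ∪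
      fs fun w => r (σ.e x i) w ∧ w ∉ C ∧ w ∉ D) ∪ (range (σ.n x)).image (σ.b x) from
    fun w hw => by
      simp only [mem_union, mem_fs, mem_image, mem_range] at hw ⊢
      by_cases c : w ∈ C
      · exact Or.inl (Or.inl ⟨hw, c⟩)
      by_cases c' : w ∈ D
      · exact Or.inr (hx.2.2 i hi w hw c' fun g => c ((σ.mx w).1 g).1)
      · exact Or.inl (Or.inr ⟨hw, c, c'⟩))
  have c2 := card_union_le (fs (fun a => r (σ.e x i) a ∧ a ∈ C) ∪
      fs fun w => r (σ.e x i) w ∧ w ∉ C ∧ w ∉ D) ((range (σ.n x)).image (σ.b x))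
  have c3 := card_union_le (fs (fun a => r (σ.e x i) a ∧ a ∈ C))
      (fs fun w => r (σ.e x i) w ∧ w ∉ C ∧ w ∉ D)
  have c4 := card_image_le (s := range (σ.n x)) (f := σ.b x)
  rw [card_range] at c4
  have := σ.np hx.1
  have := σ.low x hx.1 i hi.1
  have := σ.deg (σ.e x i)
  unfold cn at *
  omega

theorem miss_le (hm : X.card < k) {x : V} (hx : σ.cl x) {i : ℕ} (hi : σ.nm x i) :
    miss r X (σ.e x i) ≤ 4 * p + cn fun a => r (σ.e x i) a ∧ a ∈ C ∧ a ∉ D := by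
  have c0 := σ.degC hx hi
  have c1 := card_filter_add_card_filter_not (s := X) fun a => r (σ.e x i) a
  have c2 := card_le_card (show fs (fun a => r (σ.e x i) a ∧ a ∈ C) ⊆
      (X.filter fun a => r (σ.e x i) a) ∪ fs fun a => r (σ.e x i) a ∧ a ∈ C ∧ a ∉ D from
    fun w hw => by
      simp only [mem_union, mem_fs, mem_filter, σ.mx] at hw ⊢
      tauto)
  have c3 := card_union_le (X.filter fun a => r (σ.e x i) a)
    (fs fun a => r (σ.e x i) a ∧ a ∈ C ∧ a ∉ D)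
  unfold cn miss at *
  omega

theorem ins {x : V} (hx : x ∈ X) {i : ℕ} (hi : i + 1 < σ.n x) {a : V} (h1 : a ∈ C) (h2 : a ∉ D)
    (h3 : r (σ.e x i) a) : ¬r (σ.e x (i + 1)) a := fun h4 => by
  have c := σ.comb x hx
  obtain ⟨l, l1, l2, l3, l4⟩ := c.arm (i := 0) (j := i) (by omega) (by omega)
  obtain ⟨l', m1, m2, m3, m4⟩ := c.arm (i := σ.n x - 1) (j := i + 1) (by omega) hi
  have hl : ∀ v ∈ l, v ∉ C ∧ (v ∈ D → ∃ s < σ.n x, σ.b x s = v) := fun v hv => by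
    rcases l3 v hv with g | ⟨s, -, s2, rfl⟩
    · have := σ.off x hx i (by omega) v g
      exact ⟨this.1, fun g => (this.2 g).elim⟩
    · exact ⟨σ.bC hx (by omega), fun _ => ⟨s, by omega, rfl⟩⟩
  have hl' : ∀ v ∈ l', v ∉ C ∧ (v ∈ D → ∃ s < σ.n x, σ.b x s = v) := fun v hv => by
    rcases m3 v hv with g | ⟨s, -, s2, rfl⟩
    · have := σ.off x hx _ hi v g
      exact ⟨this.1, fun g => (this.2 g).elim⟩
    · exact ⟨σ.bC hx (by omega), fun _ => ⟨s, by omega, rfl⟩⟩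
  have := σ.dec.ex1 hx (B := l ++ a :: l'.reverse)
    ((l1.append h3 (Wk.cons (σ.dec.symm _ _ h4) (m1.reverse σ.dec.symm))).fit
      (σ.dec.fst x hx (by omega)) (σ.dec.lst x hx (by omega))) (by
      refine List.nodup_append.2 ⟨l2, List.nodup_cons.2 ⟨fun g => (hl' a (List.mem_reverse.1 g)).1 h1,
        List.nodup_reverse.2 m2⟩, ?_⟩
      rintro v g1 _ g2 rfl
      rcases List.mem_cons.1 g2 with rfl | g2
      · exact (hl v g1).1 h1
      rcases l3 v g1 with g | ⟨s, -, s2, rfl⟩ <;>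
        rcases m3 _ (List.mem_reverse.1 g2) with g' | ⟨s', s3, s4, s5⟩
      · exact c.td i (by omega) _ hi (by omega) g g'
      · exact c.tb i (by omega) v g s' (by omega) s5
      · exact c.tb _ hi _ g' s (by omega) rfl
      · have := c.inj s' (by omega) s (by omega) s5
        omega) (by
      intro v hv g
      rcases List.mem_append.1 hv with hv | hv
      · exact (hl v hv).2 g
      rcases List.mem_cons.1 hv with rfl | hv
      · exact (h2 g).elim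
      · exact (hl' v (List.mem_reverse.1 hv)).2 g)
  simp only [List.length_append, List.length_cons, List.length_reverse] at this
  omega

end Sd

end Pool.Agent.Lib.MP_4f0fb4_co
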