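import Pool.Agent.Lib.MP_4f0fb4_co.Flow

/-!
A stretch of a path all of whose vertices are jumped over by two disjoint ears lies largely on a
cycle.
-/

namespace Pool.Agent.Lib.MP_4f0fb4_co

open Finset

variable {V : Type} {r : V → V → Prop}

theorem Wk.split' {a e : V} {l₁ l₂ : List V} (h : Wk r a e (l₁ ++ l₂)) (h1 : l₁ ≠ [])
    (h2 : l₂ ≠ []) : ∃ y x, Wk r a y l₁ ∧ r y x ∧ Wk r x e l₂ := by
  obtain ⟨s, y, rfl⟩ := List.eq_nil_or_concat l₁ |>.resolve_left h1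
  rw [List.concat_eq_append] at h ⊢
  rw [List.append_assoc, List.singleton_append] at h
  have h3 := h.split.2
  cases h3 with
  | one => exact (h2 rfl).elim
  | cons h4 h5 => exact ⟨y, _, h.split.1, h4, h5⟩

def Conn (r : V → V → Prop) (x y : V) (m : List V) : Prop := ∃ u, Wk r x u (x :: m) ∧ r u y

theorem Conn.wk {x y : V} {m : List V} (h : Conn r x y m) : Wk r x y (x :: m ++ [y]) :=
  let ⟨_, h1, h2⟩ := h; h1.append h2 (Wk.one _)

theorem conn_of_wk {x y : V} {m : List V} (h : Wk r x y (x :: m ++ [y])) : Conn r x y m := by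
  obtain ⟨u, w, h1, h2, h3⟩ := h.split' (by simp) (by simp)
  obtain ⟨t, ht⟩ := h3.eq_cons
  obtain rfl : y = w := by simpa using congrArg List.head? ht
  exact ⟨u, h1, h2⟩

theorem Conn.symm (hs : ∀ x y, r x y → r y x) {x y : V} {m : List V} (h : Conn r x y m) :
    Conn r y x m.reverse := conn_of_wk (by simpa using h.wk.reverse hs)

theorem Wk.conn {a x y : V} {l m : List V} (h : Wk r a x l) (h' : Conn r x y m) :
    ∃ u, Wk r a u (l ++ m) ∧ r u y := let ⟨u, h1, h2⟩ := h'; ⟨u, h.trans h1, h2⟩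

def Cyc (r : V → V → Prop) (l : List V) : Prop := l.Nodup ∧ ∃ a e, Wk r a e l ∧ r e a

theorem Cyc.rot {l₁ l₂ : List V} (h : Cyc r (l₁ ++ l₂)) : Cyc r (l₂ ++ l₁) := by
  rcases eq_or_ne l₁ [] with rfl | h1
  · simpa using h
  rcases eq_or_ne l₂ [] with rfl | h2
  · simpa using h
  obtain ⟨h3, a, e, h4, h5⟩ := h
  obtain ⟨y, x, h6, h7, h8⟩ := h4.split' h1 h2
  exact ⟨List.perm_append_comm.nodup_iff.1 h3, x, y, h8.append h5 h6, h7⟩

theorem Cyc.arcs {u u' : V} {s t : List V} (h : Cyc r (u :: s ++ u' :: t)) :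
    Conn r u u' s ∧ Conn r u' u t := by
  obtain ⟨-, a, e, h1, h2⟩ := h
  obtain ⟨_, h3⟩ := h1.eq_cons
  obtain rfl : u = a := by simpa using congrArg List.head? h3
  exact ⟨conn_of_wk h1.split.1, e, h1.split.2, h2⟩

theorem Cyc.round (hs : ∀ x y, r x y → r y x) {l : List V} (h : Cyc r l) {u u' : V} (hu : u ∈ l)
    (hu' : u' ∈ l) (hne : u ≠ u') :
    ∃ m, Wk r u u' m ∧ m.Nodup ∧ (∀ v ∈ m, v ∈ l) ∧ l.length + 2 ≤ 2 * m.length := by
  obtain ⟨l₁, l₂, rfl⟩ := List.append_of_mem hu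
  have h1 := h.rot
  obtain ⟨s, t, e⟩ := List.append_of_mem (show u' ∈ l₂ ++ l₁ by
    simp only [List.mem_append, List.mem_cons, hne.symm, false_or] at hu' ⊢; tauto)
  have hm : ∀ v, v ∈ u :: s ++ u' :: t → v ∈ l₁ ++ u :: l₂ := fun v hv => by
    rw [List.cons_append, ← e] at hv
    simp only [List.mem_append, List.mem_cons] at hv ⊢; tauto
  have hl := congrArg List.length e
  rw [List.cons_append, e, ← List.cons_append] at h1
  simp only [List.length_append, List.length_cons] at hl ⊢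
  by_cases h2 : t.length ≤ s.length
  · refine ⟨_, h1.arcs.1.wk, h1.1.sublist (by simp), fun v hv => hm v ?_, by simp; omega⟩
    simp only [List.mem_append, List.mem_cons] at hv ⊢; tauto
  · refine ⟨_, (h1.arcs.2.symm hs).wk, ?_, fun v hv => hm v ?_, by simp; omega⟩
    · have := h1.rot.1.sublist (l₁ := u' :: t ++ [u]) (by simp)
      rw [← List.nodup_reverse] at this
      simpa using this
    · simp only [List.mem_append, List.mem_cons, List.mem_reverse] at hv ⊢; tauto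

structure Line (r : V → V → Prop) (C : Set V) (b : ℕ → V) (p : ℕ) : Prop where
  symm : ∀ x y, r x y → r y x
  inj : ∀ i < p, ∀ j < p, b i = b j → i = j
  adj : ∀ i, i + 1 < p → r (b i) (b (i + 1))
  off : ∀ i < p, b i ∉ C

def Sep (r : V → V → Prop) (C : Set V) (b : ℕ → V) (p v : ℕ) (z : V) : Prop :=
  ∀ i < v, ∀ j, v < j → j < p → ¬Rch r (Cᶜ \ {b v, z}) (b i) (b j)

namespace Line

variable {C : Set V} {b : ℕ → V} {p : ℕ} (h : Line r C b p)
include h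

theorem seg_lt {i j : ℕ} (hij : i < j) (hj : j < p) : ∃ m, Conn r (b i) (b j) m ∧ m.Nodup ∧
    (∀ v ∈ m, ∃ t, i < t ∧ t < j ∧ b t = v) ∧ m.length + i + 1 = j := by
  induction j, hij using Nat.le_induction with
  | base => exact ⟨[], ⟨_, Wk.one _, h.adj i hj⟩, by simp, by simp, by simp⟩
  | succ j hij ih =>
    obtain ⟨m, h1, h2, h3, h4⟩ := ih (by omega)
    refine ⟨m ++ [b j], ⟨_, h1.wk, h.adj j hj⟩, ?_, ?_, by simp; omega⟩
    · refine List.nodup_append.2 ⟨h2, by simp, fun v hv w hw e => ?_⟩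
      obtain ⟨t, h5, h6, rfl⟩ := h3 v hv
      have := h.inj t (by omega) j (by omega) (e.trans (by simpa using hw)); omega
    · intro v hv
      rcases List.mem_append.1 hv with hv | hv
      · obtain ⟨t, h5, h6, h7⟩ := h3 v hv
        exact ⟨t, h5, by omega, h7⟩
      · exact ⟨j, hij, by omega, by simpa [eq_comm] using hv⟩

theorem seg {i j : ℕ} (hij : i ≠ j) (hi : i < p) (hj : j < p) : ∃ m, Conn r (b i) (b j) m ∧
    m.Nodup ∧ ∀ v ∈ m, ∃ t, min i j < t ∧ t < max i j ∧ b t = v := by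
  rcases lt_or_gt_of_ne hij with h1 | h1
  · obtain ⟨m, h2, h3, h4, -⟩ := h.seg_lt h1 hj
    exact ⟨m, h2, h3, by simpa [min_eq_left h1.le, max_eq_right h1.le] using h4⟩
  · obtain ⟨m, h2, h3, h4, -⟩ := h.seg_lt h1 hi
    exact ⟨_, h2.symm h.symm, by simpa using h3,
      by simpa [min_eq_right h1.le, max_eq_left h1.le] using h4⟩

theorem seg_rch {S : Set V} {i j : ℕ} (hi : i < p) (hj : j < p)
    (hS : ∀ t, min i j ≤ t → t ≤ max i j → b t ∈ S) : Rch r S (b i) (b j) := by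
  rcases eq_or_ne i j with rfl | hij
  · exact Rch.refl (hS i (by simp) (by simp))
  obtain ⟨m, h1, -, h2⟩ := h.seg hij hi hj
  refine ⟨_, h1.wk, fun v hv => ?_⟩
  simp only [List.cons_append, List.mem_cons, List.mem_append, List.not_mem_nil, or_false] at hv
  rcases hv with rfl | hv | rfl
  · exact hS i (by simp) (by simp)
  · obtain ⟨t, h3, h4, rfl⟩ := h2 v hv
    exact hS t h3.le h4.le
  · exact hS j (by simp) (by simp)

theorem lift {X : Finset ℕ} {rt : ℕ → ℕ} {I : ℕ → List V}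
    (hI : ∀ x ∈ X, Conn r (b x) (b (rt x)) (I x)) {s e : ℕ} {l : List ℕ}
    (hw : Wk (arc X rt) s e l) (he : e ∉ X) (hl : ∀ v ∈ l, v < p) :
    Wk r (b s) (b e) (l.flatMap fun v => b v :: if v ∈ X then I v else []) := by
  induction hw with
  | one a => simpa [he] using Wk.one _
  | @cons a a' e l h1 h2 ih =>
    have h3 := ih he fun v hv => hl v (by simp [hv])
    have h4 := hl a (by simp)
    have h5 := hl a' (by simp [h2.head_mem])
    rw [List.flatMap_cons]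
    rcases h1 with ⟨h6, rfl⟩ | ⟨h6, rfl | rfl⟩
    · obtain ⟨u, h7, h8⟩ := hI a h6
      rw [if_pos h6]; exact h7.append h8 h3
    · rw [if_neg h6]; exact Wk.cons (h.adj _ h5) h3
    · rw [if_neg h6]; exact Wk.cons (h.symm _ _ (h.adj _ h4)) h3

theorem cyc_of_two {X : Finset ℕ} {rt : ℕ → ℕ} {I : ℕ → List V} {α β : ℕ} {T : Finset ℕ}
    (hαβ : α + 1 < β) (hβ : β < p)
    (hI : ∀ x ∈ X, rt x < p ∧ Conn r (b x) (b (rt x)) (I x) ∧ (I x).Nodup ∧
      ∀ v ∈ I x, v ∉ C ∧ ∀ i < p, b i ≠ v)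
    (hd : ∀ x ∈ X, ∀ y ∈ X, x ≠ y → List.Disjoint (I x) (I y)) (h2 : Two X rt α β T) :
    ∃ Z, Cyc r Z ∧ (∀ v ∈ Z, v ∉ C) ∧ (∃ i ≤ α, b i ∈ Z) ∧ (∃ j, β ≤ j ∧ j < p ∧ b j ∈ Z) ∧
      ∀ t ∈ T, b t ∈ Z := by
  classical
  obtain ⟨s, s', e, e', l, l', w1, w2, nd, a1, a2, a3, a4, a5, a6, hv, hT⟩ := h2
  have hp : ∀ v ∈ l ++ l', v < p := fun v h1 => by
    rcases (hv v h1).2.2 with h2 | ⟨x, hx, rfl⟩
    · omega
    · exact (hI x hx).1
  have m1 := List.mem_append_left l' w1.head_mem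
  have m2 := List.mem_append_right l w2.head_mem
  have m3 := List.mem_append_left l' w1.last_mem
  have m4 := List.mem_append_right l w2.last_mem
  have n1 : s' ≠ s := ((List.nodup_append.1 nd).2.2 _ w1.head_mem _ w2.head_mem).symm
  have n2 : e ≠ e' := (List.nodup_append.1 nd).2.2 _ w1.last_mem _ w2.last_mem
  set g : ℕ → List V := fun v => b v :: if v ∈ X then I v else [] with hg
  have L1 := h.lift (fun x hx => (hI x hx).2.1) w1 a5 fun v h1 => hp v (List.mem_append_left _ h1)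
  have L2 := h.lift (fun x hx => (hI x hx).2.1) w2 a6 fun v h1 => hp v (List.mem_append_right _ h1)
  obtain ⟨k1, c1, c2, c3⟩ := h.seg n2 (hp _ m3) (hp _ m4)
  obtain ⟨k2, d1, d2, d3⟩ := h.seg n1 (hp _ m2) (hp _ m1)
  obtain ⟨u, u1, u2⟩ := L1.conn c1
  obtain ⟨u', u3, u4⟩ := (u1.append u2 (L2.reverse h.symm)).conn d1
  have hg' : ∀ x v, v ∈ g x → v = b x ∨ (x ∈ X ∧ v ∈ I x) := fun x v h1 => by
    simp only [hg, List.mem_cons] at h1
    split_ifs at h1 with h2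
    · exact h1.imp id fun h3 => ⟨h2, h3⟩
    · simpa using Or.inl (h1.resolve_right (by simp))
  have P : (l.flatMap g ++ k1 ++ (l'.flatMap g).reverse ++ k2).Perm
      ((l ++ l').flatMap g ++ (k1 ++ k2)) := by
    rw [List.perm_iff_count]; intro v
    simp only [List.count_append, List.count_reverse, List.flatMap_append]; omega
  have hb : ∀ v ∈ l ++ l', b v ∈ l.flatMap g ++ k1 ++ (l'.flatMap g).reverse ++ k2 := fun v h1 =>
    P.mem_iff.2 (List.mem_append_left _ (List.mem_flatMap.2 ⟨v, h1, by simp [hg]⟩))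
  have hk : ∀ v ∈ k1 ++ k2, ∃ t < p, b t = v ∧ t ∉ l ++ l' := fun v h1 => by
    have := hp _ m1; have := hp _ m2; have := hp _ m3; have := hp _ m4
    rcases List.mem_append.1 h1 with h1 | h1
    · obtain ⟨t, t1, t2, t3⟩ := c3 v h1
      exact ⟨t, by omega, t3, fun h4 => by have := (hv t h4).2.1; omega⟩
    · obtain ⟨t, t1, t2, t3⟩ := d3 v h1
      exact ⟨t, by omega, t3, fun h4 => by have := (hv t h4).1; omega⟩
  refine ⟨_, ⟨P.nodup_iff.2 (List.nodup_append.2 ⟨?_, ?_, ?_⟩), _, _, u3, u4⟩, fun v h1 => ?_,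
    ?_, ?_, fun t ht => hb t (hT t ht)⟩
  · refine List.nodup_flatMap.2 ⟨fun x hx => ?_, nd.imp_of_mem fun {x y} hx hy hxy => ?_⟩
    · simp only [hg]; split_ifs with h1
      · exact List.nodup_cons.2 ⟨fun h2 => ((hI x h1).2.2.2 _ h2).2 x (hp x hx) rfl,
          (hI x h1).2.2.1⟩
      · simp
    · intro v h1 h2
      rcases hg' x v h1 with rfl | h3 <;> rcases hg' y _ h2 with h4 | h4
      · exact hxy (h.inj _ (hp x hx) _ (hp y hy) h4)
      · exact ((hI y h4.1).2.2.2 _ h4.2).2 x (hp x hx) rfl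
      · exact ((hI x h3.1).2.2.2 _ h3.2).2 y (hp y hy) h4.symm
      · exact hd x h3.1 y h4.1 hxy h3.2 h4.2
  · refine List.nodup_append.2 ⟨c2, d2, ?_⟩
    rintro v h1 _ h2 rfl
    obtain ⟨t, t1, t2, rfl⟩ := c3 v h1
    obtain ⟨t', t3, t4, t5⟩ := d3 _ h2
    have := hp _ m3; have := hp _ m4
    have := h.inj t' (by omega) t (by omega) t5; omega
  · rintro v h1 _ h2 rfl
    obtain ⟨t, t1, rfl, t3⟩ := hk v h2
    obtain ⟨x, hx, h3⟩ := List.mem_flatMap.1 h1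
    rcases hg' x _ h3 with h4 | h4
    · exact t3 (h.inj _ t1 _ (hp x hx) h4 ▸ hx)
    · exact ((hI x h4.1).2.2.2 _ h4.2).2 t t1 rfl
  · rcases List.mem_append.1 (P.mem_iff.1 h1) with h2 | h2
    · obtain ⟨x, hx, h3⟩ := List.mem_flatMap.1 h2
      rcases hg' x _ h3 with rfl | h4
      · exact h.off x (hp x hx)
      · exact ((hI x h4.1).2.2.2 _ h4.2).1
    · obtain ⟨t, t1, rfl, -⟩ := hk v h2
      exact h.off t t1
  · by_cases h1 : s ≤ α
    · exact ⟨s, h1, hb _ m1⟩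
    · exact ⟨s', by omega, hb _ m2⟩
  · by_cases h1 : β ≤ e
    · exact ⟨e, h1, hp _ m3, hb _ m3⟩
    · exact ⟨e', by omega, hp _ m4, hb _ m4⟩

def pr (_h : Line r C b p) (n n' : V × Bool) : Prop :=
  (n.2 = false ∧ r n.1 n'.1 ∧ n'.1 ∉ C ∧ (n'.2 = true ↔ ∃ i < p, b i = n'.1)) ∨
    ∃ x y, x < y ∧ y < p ∧ n = (b y, true) ∧ n' = (b x, false)

theorem ears {W : Set (V × Bool)} {α β x₀ y₀ : ℕ} (hx : x₀ ≤ α) (hy : β ≤ y₀) (hy' : y₀ < p)
    (hW : Rch h.pr W (b x₀, false) (b y₀, true)) : ∃ (F : Finset ℕ) (rt : ℕ → ℕ)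
    (I : ℕ → List V), (∀ x ∈ F, (b x, false) ∈ W ∧ (b (rt x), true) ∈ W ∧ rt x < p ∧
      Conn r (b x) (b (rt x)) (I x) ∧ (I x).Nodup ∧
      ∀ v ∈ I x, (v, false) ∈ W ∧ v ∉ C ∧ ∀ i < p, b i ≠ v) ∧
    (∀ x ∈ F, ∀ y ∈ F, x ≠ y → rt x ≠ rt y ∧ List.Disjoint (I x) (I y)) ∧
    ∀ v, α < v → v < β → 1 ≤ cnt F rt v := by
  classical
  let O : Set V := {v | (v, false) ∈ W ∧ v ∉ C ∧ ∀ i < p, b i ≠ v}
  let E : ℕ → ℕ → Prop := fun x y => y < p ∧ (b x, false) ∈ W ∧ (b y, true) ∈ W ∧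
    ∃ u, Rch r (insert (b x) O) (b x) u ∧ r u (b y)
  let rt : ℕ → ℕ := fun x => Nat.findGreatest (E x) p
  have hrt : ∀ x y, E x y → y ≤ rt x ∧ E x (rt x) := fun x y h1 =>
    ⟨Nat.le_findGreatest h1.1.le h1, Nat.findGreatest_spec h1.1.le h1⟩
  obtain ⟨F, hF, c, f1, f2⟩ := exists_min ((range p).filter fun x => ∃ y, E x y) rt α β 1 (by
    intro v h1 h2
    have := hW.ind (P := fun n => (∃ x < v, ∃ y, v < y ∧ E x y) ∨
        (n.2 = false → ∃ x < v, (b x, false) ∈ W ∧ Rch r (insert (b x) O) (b x) n.1) ∧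
        (n.2 = true → ∃ y ≤ v, n.1 = b y))
      (Or.inr ⟨fun _ => ⟨x₀, by omega, hW.left, Rch.refl (Set.mem_insert _ _)⟩, by simp⟩) (by
        rintro n ⟨w, t⟩ (h3 | h3) h4 h5 h6
        · exact Or.inl h3
        rcases h6 with ⟨h6, h7, h8, h9⟩ | ⟨x, y, h6, h7, rfl, h8⟩
        · obtain ⟨x, x1, x2, x3⟩ := h3.1 h6
          cases t
          · refine Or.inr ⟨fun _ => ⟨x, x1, x2, x3.tail h7 (Or.inr ⟨h5, h8, ?_⟩)⟩, by simp⟩
            simpa using h9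
          · obtain ⟨y, y1, rfl⟩ : ∃ i < p, b i = w := by simpa using h9
            by_cases y2 : v < y
            · exact Or.inl ⟨x, x1, y, y2, y1, x2, h5, _, x3, h7⟩
            · exact Or.inr ⟨by simp, fun _ => ⟨y, by omega, rfl⟩⟩
        · obtain ⟨y', y1, y2⟩ := h3.2 rfl
          have := h.inj y h7 y' (by omega) y2
          obtain ⟨rfl, rfl⟩ := Prod.mk.inj h8
          exact Or.inr ⟨fun _ => ⟨x, by omega, h5, Rch.refl (Set.mem_insert _ _)⟩, by simp⟩)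
    rcases this with ⟨x, x1, y, y1, h3⟩ | h3
    · exact card_pos.2 ⟨x, mem_filter.2 ⟨mem_filter.2 ⟨mem_range.2 (by omega), y, h3⟩, x1,
        y1.trans_le (hrt x y h3).1⟩⟩
    · obtain ⟨y, y1, y2⟩ := h3.2 rfl
      have := h.inj y₀ hy' y (by omega) y2; omega)
  have hE : ∀ x ∈ F, E x (rt x) := fun x hx =>
    let ⟨y, hy⟩ := (mem_filter.1 (hF hx)).2; (hrt x y hy).2
  have hlt : ∀ x ∈ F, ∀ y ∈ F, x < y → rt x < rt y := fun x hx y hy hxy => by
    by_contra hc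
    have := f2 y hy
    have h1 : ({x, y} : Finset ℕ).card ≤ cnt F rt (c y) := card_le_card (by
      simp only [insert_subset_iff, singleton_subset_iff, mem_filter, hx, hy, true_and]; omega)
    rw [card_pair hxy.ne] at h1; omega
  have : ∀ x ∈ F, ∃ m, Conn r (b x) (b (rt x)) m ∧ m.Nodup ∧ ∀ v ∈ m, v ∈ O ∧
      Rch r (insert (b x) O) (b x) v ∧ ∃ u, Rch r O v u ∧ r u (b (rt x)) := by
    intro x hx
    obtain ⟨-, -, -, u, h1, h2⟩ := hE x hx
    obtain ⟨l, h3, h4, h5⟩ := h1.path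
    obtain ⟨m, rfl⟩ := h3.eq_cons
    have h6 : ∀ v ∈ m, v ∈ O := fun v hv => (h5 v (by simp [hv])).resolve_left fun e =>
      (List.nodup_cons.1 h4).1 (e ▸ hv)
    refine ⟨m, ⟨u, h3, h2⟩, h4.of_cons, fun v hv => ⟨h6 v hv, ?_⟩⟩
    obtain ⟨s, t, rfl⟩ := List.append_of_mem hv
    have := Wk.split (l₁ := b x :: s) h3
    refine ⟨⟨_, this.1, fun w hw => h5 w ?_⟩, u, ⟨_, this.2, fun w hw => h6 w (by simp [hw])⟩, h2⟩
    simp only [List.mem_append, List.mem_cons] at hw ⊢; tauto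
  choose! I i1 i2 i3 using this
  have key : ∀ x ∈ F, ∀ y ∈ F, x < y → List.Disjoint (I x) (I y) := by
    intro x hx y hy hxy v h1 h2
    obtain ⟨u, h3, h4⟩ := (i3 y hy v h2).2.2
    have := (hrt x (rt y) ⟨(hE y hy).1, (hE x hx).2.1, (hE y hy).2.2.1, u,
      (i3 x hx v h1).2.1.trans (h3.mono (Set.subset_insert _ _)), h4⟩).1
    have := hlt x hx y hy hxy; omega
  refine ⟨F, rt, I, fun x hx => ⟨(hE x hx).2.1, (hE x hx).2.2.1, (hE x hx).1, i1 x hx, i2 x hx,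
    fun v hv => (i3 x hx v hv).1⟩, fun x hx y hy hxy => ?_, f1⟩
  rcases lt_or_gt_of_ne hxy with h1 | h1
  · exact ⟨(hlt x hx y hy h1).ne, key x hx y hy h1⟩
  · exact ⟨(hlt y hy x hx h1).ne', (key y hy x hx h1).symm⟩

theorem ports {α β : ℕ} (hαβ : α + 1 < β) (ht : ∀ v, α < v → v < β → ∀ z, ¬Sep r C b p v z) :
    NoSep h.pr {n | ∃ x ≤ α, n = (b x, false)} {n | ∃ y, β ≤ y ∧ y < p ∧ n = (b y, true)} 2 := by
  intro S hS
  have : Nonempty (V × Bool) := ⟨(b 0, true)⟩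
  obtain ⟨n₀, hn⟩ := card_le_one_iff_subset_singleton.1 (show S.card ≤ 1 by omega)
  have hz : ∀ v t, v ≠ n₀.1 → (v, t) ∈ (↑S : Set (V × Bool))ᶜ := fun v t h1 h2 =>
    h1 (congrArg Prod.fst (mem_singleton.1 (hn h2)))
  let R := fun n => ∃ x ≤ α, Rch h.pr (↑S : Set (V × Bool))ᶜ (b x, false) n
  suffices H : ∀ v, α < v → v < β → (∀ x < v, b x ≠ n₀.1 → R (b x, false)) →
      ∃ y, β ≤ y ∧ y < p ∧ R (b y, true) by
    obtain ⟨y, h1, h2, x, h3, h4⟩ := H (α + 1) (by omega) hαβ fun x h1 h2 =>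
      ⟨x, by omega, Rch.refl (hz _ _ h2)⟩
    exact ⟨_, ⟨x, h3, rfl⟩, _, ⟨y, h1, h2, rfl⟩, h4⟩
  intro v
  induction hn : β - v using Nat.strong_induction_on generalizing v with
  | _ n ih =>
    intro h1 h2 h3
    have h4 := ht v h1 h2 n₀.1
    simp only [Sep, not_forall, not_not] at h4
    obtain ⟨i, hi, j, hj, hj', h4⟩ := h4
    have := h4.ind (P := fun u => (∃ y, v < y ∧ y < p ∧ R (b y, true)) ∨
        R (u, false) ∧ ∀ y, v < y → y < p → b y ≠ u)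
      (Or.inr ⟨h3 i hi fun e => h4.left.2 (Or.inr e), fun y y1 y2 e => by
        have := h.inj y y2 i (by omega) e; omega⟩) (by
        rintro u w (h5 | ⟨⟨x, x1, x2⟩, -⟩) - h7 h8
        · exact Or.inl h5
        have hw : w ≠ n₀.1 := fun e => h7.2 (Or.inr e)
        by_cases h9 : ∃ y < p, b y = w
        · obtain ⟨y, y1, rfl⟩ := h9
          rcases lt_trichotomy y v with y2 | rfl | y2
          · exact Or.inr ⟨h3 y y2 hw, fun y' y3 y4 e => by have := h.inj y' y4 y y1 e; omega⟩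
          · exact (h7.2 (Or.inl rfl)).elim
          · exact Or.inl ⟨y, y2, y1, x, x1,
              x2.tail (Or.inl ⟨rfl, h8, h7.1, by simpa using ⟨y, y1, rfl⟩⟩) (hz _ _ hw)⟩
        · exact Or.inr ⟨⟨x, x1, x2.tail (Or.inl ⟨rfl, h8, h7.1, by simpa using h9⟩) (hz _ _ hw)⟩,
            fun y _ y2 e => h9 ⟨y, y2, e⟩⟩)
    obtain ⟨y, y1, y2, x, x1, x2⟩ := this.resolve_right fun h5 => h5.2 j hj hj' rfl
    by_cases y3 : β ≤ y
    · exact ⟨y, y3, y2, x, x1, x2⟩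
    · exact ih (β - y) (by omega) y rfl (by omega) (by omega) fun x' h5 h6 =>
        ⟨x, x1, x2.tail (Or.inr ⟨x', y, h5, y2, rfl, rfl⟩) (hz _ _ h6)⟩

theorem thick [Finite V] {α β : ℕ} (hαβ : α + 1 < β) (hβ : β < p)
    (ht : ∀ v, α < v → v < β → ∀ z, ¬Sep r C b p v z) :
    ∃ Z, Cyc r Z ∧ (∀ v ∈ Z, v ∉ C) ∧ (∃ i ≤ α, b i ∈ Z) ∧ (∃ j, β ≤ j ∧ j < p ∧ b j ∈ Z) ∧
      ∃ T ⊆ Ioo α β, (∀ t ∈ T, b t ∈ Z) ∧ 2 * (β - α - 1) ≤ 7 * T.card := by
  classical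
  obtain ⟨W, w1, w2⟩ := menger (h.ports hαβ ht)
  have hW : ∀ n ∈ W 0, n ∉ W 1 := Set.disjoint_left.1 (w1 0 1 (by decide))
  obtain ⟨_, ⟨x₀, a1, rfl⟩, _, ⟨y₀, a2, a3, rfl⟩, a4⟩ := w2 0
  obtain ⟨_, ⟨x₁, b1, rfl⟩, _, ⟨y₁, b2, b3, rfl⟩, b4⟩ := w2 1
  obtain ⟨F, rt, I, f1, f2, f3⟩ := h.ears a1 a2 a3 a4
  obtain ⟨F', rt', I', g1, g2, g3⟩ := h.ears b1 b2 b3 b4
  have hF : ∀ x ∈ F', x ∉ F := fun x h1 h2 => hW _ (f1 x h2).1 (g1 x h1).1
  have cross : ∀ x ∈ F, ∀ y ∈ F', rt x ≠ rt' y ∧ List.Disjoint (I x) (I' y) := fun x hx y hy =>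
    ⟨fun e => hW _ (f1 x hx).2.1 (e ▸ (g1 y hy).2.1), fun v h1 h2 =>
      hW _ ((f1 x hx).2.2.2.2.2 v h1).1 ((g1 y hy).2.2.2.2.2 v h2).1⟩
  have all : ∀ x ∈ F ∪ F', ∀ y ∈ F ∪ F', x ≠ y →
      (if x ∈ F then rt x else rt' x) ≠ (if y ∈ F then rt y else rt' y) ∧
      List.Disjoint (if x ∈ F then I x else I' x) (if y ∈ F then I y else I' y) := by
    intro x hx y hy hxy
    rw [mem_union] at hx hy
    by_cases h1 : x ∈ F <;> by_cases h2 : y ∈ F <;> simp only [h1, h2, if_true, if_false]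
    · exact f2 x h1 y h2 hxy
    · exact cross x h1 y (hy.resolve_left h2)
    · have := cross y h2 x (hx.resolve_left h1)
      exact ⟨this.1.symm, this.2.symm⟩
    · exact g2 x (hx.resolve_left h1) y (hy.resolve_left h2) hxy
  obtain ⟨Y, hY, T, hT, h1, h2⟩ := comb (X := F ∪ F') (rt := fun x => if x ∈ F then rt x else rt' x)
    hαβ (fun x hx y hy e => by_contra fun hxy => (all x hx y hy hxy).1 e) (by
      intro v h1 h2
      obtain ⟨x, hx⟩ := card_pos.1 (f3 v h1 h2)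
      obtain ⟨y, hy⟩ := card_pos.1 (g3 v h1 h2)
      rw [mem_filter] at hx hy
      have := hF y hy.1
      rw [← card_pair (show x ≠ y from fun e => this (e ▸ hx.1))]
      refine card_le_card ?_
      simp [insert_subset_iff, hx, hy, this])
  obtain ⟨Z, z1, z2, z3, z4, z5⟩ := h.cyc_of_two (I := fun x => if x ∈ F then I x else I' x) hαβ hβ
    (fun x hx => by
      by_cases h1 : x ∈ F <;> simp only [h1, if_true, if_false]
      · obtain ⟨-, -, c1, c2, c3, c4⟩ := f1 x h1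
        exact ⟨c1, c2, c3, fun v hv => (c4 v hv).2⟩
      · obtain ⟨-, -, c1, c2, c3, c4⟩ := g1 x ((mem_union.1 (hY hx)).resolve_left h1)
        exact ⟨c1, c2, c3, fun v hv => (c4 v hv).2⟩)
    (fun x hx y hy hxy => (all x (hY hx) y (hY hy) hxy).2) h1
  exact ⟨Z, z1, z2, z3, z4, T, hT, z5, h2⟩

end Line

end Pool.Agent.Lib.MP_4f0fb4_co
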